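import Pool.Agent.Lib.MP_d610d0_nt.CX.Defs2
import Pool.Agent.Lib.MP_d610d0_nt.CA.SV.Stm

set_option autoImplicit false

/-!
Project CX, sieve half: statements of the pieces with proofs in words. `R_x` is the conclusion, `S_x` the statement to
be proved. All pieces are adaptations of pieces of the projects CA (`CA/SV/p_*.lean`) and CH (`CH/F/P/*.lean`); the file to
copy from is named. Notation: `L = log J`, `z = zx J = J^(171/500)`, `log z = (171/500) L`, `x = (j + 1/2)^3`,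
`J^3 ≤ x ≤ 15.625 J^3` for `J < j ≤ 2J`, `mu = x/(2J)`.
-/

namespace Pool.Agent.CX

open Finset Filter
open scoped ArithmeticFunction.Omega
open Pool.Agent.MP89da58 (tri)
open Pool.Agent.CH (wJ wL Rough VV Wt dsum thP EE Rk chenSet)
open Pool.Agent.CH.F (mu)
open Pool.Agent.CH.M2 (Sp TS S_tup1 S_tup2 S_log2 S_mer S_sh)
open Pool.Agent.CH.D (FT)
open Pool.Agent.CA (CMw)
open Pool.Agent.CA.SV (Us R_tup R_m1)

/-! ### The mass of the switched sequence -/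

/-- The sum of `1 / p` over the cells. -/
def R_cellx : Prop := ∀ᶠ J : ℕ in atTop, ∀ N i : ℕ, i < 995 →
  ∑ p ∈ (Sp (zx J) N).filter (fun p => mx (zx J) p = i), 1 / (p : ℝ) ≤ ax i

/-- [CX cell] (adapt `CA/SV/p_cell.lean`) Proof. `C` from `S_mer`; `J` so large that `z ≥ 2`, `log z ≥ 5000 * 995 * C`. If `i < 128`
the filter is empty (`p ≥ z` gives `128 log p/log z ≥ 128`). If `128 ≤ i < 995` a prime `p` with `mx z p = i` satisfies
`a ≤ p ≤ b`, `a = z^(i/128) ≥ z`, `b = z^((i+1)/128)`, and the sum is `≤ log((i+1)/i) + C/log a ≤ (2i+1)/(2i(i+1)) + C/log z`, where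
`(2i+1)/(2i(i+1)) ≥ 1/(i+1) ≥ 1/995`, so `C/log z ≤ (1/5000) * (..)`. -/
def S_cellx : Prop := S_log2 → S_mer → R_cellx

/-- Primes in a long window. -/
def R_winx : Prop := ∀ E : ℕ, 1 ≤ E → ∀ᶠ J : ℕ in atTop, ∀ y : ℝ,
  (J : ℝ) ^ (1 / 4 : ℝ) ≤ y → ∀ S : Finset ℕ, (∀ p ∈ S, p.Prime) →
  Real.log J ^ E * ∑ p ∈ S, tri (Real.log J ^ E * Real.log ((p : ℝ) / y)) ≤ 1.0005 * y / Real.log y

/-- [CX win] (adapt `CA/SV/p_win.lean`, docstring of `S_win` in `CH/M2/Stm.lean`, with `K = 10000` in the place of `K = 100` and smaller errors)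
Proof. `lam = L^E`, `h = 1/(K lam)`, `C` from `S_sh` with `B = E + 1`; `J` so large that `lam ≥ 200000`, so `exp(1/lam) ≤ 1.00001`. As there:
`tri(lam log(p/y)) ≤ c_i` in the `i`-th cell `t_i ≤ p ≤ t_(i+1)`, `i < 2K`, `c_i = (i+1)/K` for `i < K`, `(2K - i)/K` for `i ≥ K`, `∑ c_i = K + 1`
(prove it for general `K`, not by computation); each cell contains at most `(1.00001/0.99999)(y/log y)(1.00001 h + C/(log y/2)^(E+1))` primes. Times `lam c_i`: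
`≤ (10001 * 1.00001/0.99999)(y/log y)(1.00001/10000 + 2 * 8^E C/log y) ≤ 1.0005 y/log y` for `J` large (last term `≤ 10^(-8)`). -/
def S_winx : Prop := S_sh → R_winx

/-- The innermost prime. -/
def R_ptwx : Prop := ∀ E : ℕ, 1 ≤ E → ∀ᶠ J : ℕ in atTop, ∀ j ∈ Ioc J (2 * J),
  ∀ (N r : ℕ) (q : Fin r → ℕ), (∀ i, q i ∈ Sp (zx J) N) →
  Real.log J ^ E * ∑ p ∈ Sp (zx J) N, wL (Real.log J ^ E) j (p * ∏ i, q i) ≤
    1.0008 * ((j : ℝ) + 1 / 2) ^ 3 / Real.log J *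
      ((∏ i, 1 / (q i : ℝ)) * Phx r (∑ i, mx (zx J) (q i)))

/-- [CX ptw] (adapt `CA/SV/p_ptw.lean`) Proof. `lam = L^E ≥ 2`, `P = ∏ q i`, `M = ∑ mx z (q i)`, `y = x/P`;
`M log z/128 ≤ log P ≤ (M + r) log z/128`, `log z/128 = (171/64000) L`. The right side is `≥ 0`.
(a) `P z ≥ 27 J^3`: every `p ∈ Sp z N` has `p P ≥ 27 J^3 ≥ 1.7 x ≥ x exp(1/lam)`, so `tri = 0`.
(b) `P z < 27 J^3`: `M (171/64000) L < log 27 + (3 - 171/500) L`, and `(2.658)(64000/171) = 994.807..`, so `M < 995` for large `J`. If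
`y < z exp(-1/lam)` the left side is `0`. Otherwise `y ≥ z/2 ≥ J^(1/4)` and R_winx: left side `≤ 1.0005 y/log y`;
`log y ≥ log z - 1/lam ≥ (1 - 1/10000)(171/500) L` and `log y = log x - log P ≥ 3L - (M + r)(171/64000) L`, so (`171/500 = 21888/64000`)
`log y ≥ (1 - 1/10000) L max 21888 (192000 - 171 (M + r))/64000` (natural subtraction is no problem). `1.0005/(1 - 1/10000) ≤ 1.0008`. -/
def S_ptwx : Prop := R_winx → R_ptwx

/-- The numerics. -/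
def R_numx : Prop :=
  ∑ r ∈ Icc 3 7, 1 / ((r + 1).factorial : ℝ) * ((Us 995 ax)^[r] (Phx r)) 0 ≤ 0.15636

/-- [CX num] (kernel computation) The true value is `0.156345..`. Proof. Scale: `aN i = 10^9 * ax i` rounded up
(`10^9 (5001/5000)(2i+1)/(2i(i+1)) = 500100000 (2i+1)/(i(i+1))`, natural division plus one), `pN r M = 64 * 10^12 / max .. + 1`. The transposed
recursion as in `CA/SV/p_num.lean`: `((Us K a)^[r] Φ) 0 = ∑_(M < K) D_r M * Φ M` for `Φ` vanishing on `[K, ∞)`, `D_0 = (1, 0, 0, ..)`,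
`D_(r+1) M = ∑_(i ≤ M) a i * D_r (M - i)`, `K = 995`, `r ≤ 7`. The six convolutions of lists of length 995 (about 3 million products; only the indices
`i ≥ 128` matter, and `D_r` vanishes below `128 r`) may be done directly or, much faster, with big natural numbers (Kronecker substitution):
with `W = 2^256`, `A = ∑ aN i W^i`, `D = ∑ d_i W^i`, the product `A * D` has the digits `∑_(i) aN i d_(M-i)` as long as these are `< W` (the kernel multiplies with GMP);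
the digits are unique. `decide +kernel` for the final inequality of natural numbers. -/
def S_numx : Prop := R_numx

/-- Long windows. -/
def R_lwx : Prop := ∀ E : ℕ, 1 ≤ E → ∀ᶠ J : ℕ in atTop, ∀ j ∈ Ioc J (2 * J),
  Real.log J ^ E * ∑ n ∈ Icc 1 (27 * J ^ 3), RBx J n * wL (Real.log J ^ E) j n ≤
    0.4695 * (((j : ℝ) + 1 / 2) ^ 3 / (3 * Real.log J))

/-- [CX lw] (adapt `CA/SV/p_lw.lean`) Proof. `N = 27 J^3`, `lam = L^E`. `Bx k J n ≤ k! * Rk z k n`. For `k = r + 1`, `r = 3, .., 7`: by `S_tup1`, `S_tup2`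
`∑_n Rk z k n * wL lam j n ≤ (1/k!) TS S r (fun P => ∑ p ∈ S, wL lam j (p * P))`, `S = Sp z N`; by R_ptwx, times `lam`, `≤ (1/k!) * 1.0008 x/L *
∑_q (∏ 1/q i) * Phx r (∑ mx z (q i))`, and by R_tup (`K = 995`, `w p = 1/p`, `m = mx z`, `a = ax`, `Φ = Phx r`, R_cellx)
`≤ (1/k!) * 1.0008 x/L * ((Us 995 ax)^[r] (Phx r)) 0`. R_numx: `1.0008 * 0.15636 ≤ 0.4695/3`. -/
def S_lwx : Prop := S_tup1 → S_tup2 → R_tup → R_cellx → R_ptwx → R_numx → R_lwx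

/-- The mass of the switched sequence. -/
def R_msx : Prop := ∀ᶠ J : ℕ in atTop,
  nb J (fun j => 0.4697 * mu J j / (3 * Real.log J) < ∑ n ∈ Icc 1 (27 * J ^ 3), RBx J n * wJ J j n)
    ≤ (J : ℝ) ^ (79 / 100 : ℝ)

/-- [CX ms] (compare `CA/SV/p_ms.lean`) Proof: `E` = the maximum of `1` and of the `E0` of `CMx (Bx 4)` and `CMw (Bx k)`, `5 ≤ k ≤ 8`, for `A = 2`. In a
window which is not bad for `CMx (Bx 4)`: with the weights `1/k!` (sum `≤ 1`) `2 J ∑ RBx wJ ≤ L^E ∑ RBx wL + J^3/L^2 ≤ 0.4695 x/(3L) + J^3/L^2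
≤ 0.4697 x/(3L)` for large `J` (`x ≥ J^3`), and `mu J j = x/(2J)`. -/
def S_msx : Prop := CMx (Bx 4) → (∀ k ∈ Icc 5 8, CMw (Bx k)) → R_lwx → R_msx

/-! ### The final assembly -/

/-- The lower bound for `VV`. -/
def R_Vx : Prop := ∃ c : ℝ, 0 < c ∧ ∀ᶠ J : ℕ in atTop, c / Real.log J ≤ VV (zx J)

/-- [CX V] Proof. `VV` is antitone on `[2, ∞)` (more factors `1 - 1/(p-1) ∈ [0,1]`), `zx J ≤ zJ J`. -/
def S_Vx : Prop := Pool.Agent.CH.F.S_V → R_Vx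

/-- Numbers divisible by the square of a large prime. -/
def R_sqx : Prop := ∀ᶠ J : ℕ in atTop, ∀ j ∈ Ioc J (2 * J), (sqx J j : ℝ) ≤ (J : ℝ) ^ (15 / 8 : ℝ)

/-- [CX sq] (adapt `CA/SV/p_sq.lean`) Proof. The window contains at most `19 J^2/q^2 + 1` multiples of `q^2`, none if `q^2 > 27 J^3`:
`sqx ≤ 19 J^2 * 2/z + 6 J^(3/2)`, `2 - 0.342 < 15/8`. -/
def S_sqx : Prop := R_sqx

/-- The switched sequence: pointwise properties. -/
def R_rrx : Prop := ∀ᶠ J : ℕ in atTop, ∀ n : ℕ, 1 ≤ n → 0 ≤ RBx J n ∧ (RBx J n ≠ 0 → Rough (zx J) n) ∧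
  (Squarefree n → Rough (zx J) n → n ≤ 27 * J ^ 3 → 4 ≤ Ω n → 1 ≤ RBx J n)

/-- [CX rr] (adapt `CA/SV/p_rr.lean`) Proof: (1), (2) as there. (3) `k = Ω n`; `z^k ≤ n ≤ 27 J^3 < z^9` for large `J` (`9 * 0.342 = 3.078`), so `4 ≤ k ≤ 8`. All
prime factors are `≥ z`, hence `≤ 27 J^3/z^(k-1)`: `27 J^(1.974) ≤ J^2 = hx 4 J` for `k = 4`, `27 J^(1.632) ≤ J^(33/20) = hx k J` for `k ≥ 5`. The permutations of
the list of the prime factors give `k!` tuples counted by `Bx k J n`. -/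
def S_rrx : Prop := R_rrx

/-- Exchange of the summations. -/
def R_swx : Prop := ∀ (J j : ℕ) (f c : ℕ → ℝ), 1 ≤ J →
  Wt (zx J) ((J : ℝ) ^ (899 / 1000 : ℝ)) c →
  (∑ n ∈ Icc 1 (27 * J ^ 3), f n * wJ J j n * dsum c (n + 2)
    = ∑ q ∈ Icc 1 J, c q * EE J f (-2) j q
      + (∑ q ∈ Icc 1 J, c q / (Nat.totient q : ℝ)) * ∑ n ∈ Icc 1 (27 * J ^ 3), f n * wJ J j n) ∧
  ((∀ n, n < 3 → f n * wJ J j n = 0) →
    ∑ n ∈ Icc 1 (27 * J ^ 3), f n * wJ J j n * dsum c (n - 2)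
    = ∑ q ∈ Icc 1 J, c q * EE J f 2 j q
      + (∑ q ∈ Icc 1 J, c q / (Nat.totient q : ℝ)) * ∑ n ∈ Icc 1 (27 * J ^ 3), f n * wJ J j n)

/-- [CX sw] Proof: `CH/F/P/sw.lean` (only the exponent of the level is different). -/
def S_swx : Prop := R_swx

/-- Lower bound. -/
def R_lox : Prop := ∀ᶠ J : ℕ in atTop, ∀ cp cm : ℕ → ℝ, SWx J cp cm →
  ∀ j ∈ Ioc J (2 * J), Goodx J cp cm j →
  0.653 * VV (zx J) * mu J j - (J : ℝ) ^ 2 / Real.log J ^ 3 ≤ SSx J j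

/-- [CX lo] Proof: `CH/F/P/lo.lean` (`0.654 * 0.999 ≥ 0.653`). -/
def S_lox : Prop := Pool.Agent.CH.F.S_win → R_swx → R_lox

/-- Upper bound. -/
def R_upx : Prop := ∀ᶠ J : ℕ in atTop, ∀ cp cm : ℕ → ℝ, SWx J cp cm →
  ∀ j ∈ Ioc J (2 * J), Goodx J cp cm j →
  TTx J j ≤ (3 * Real.log J + 4) * ((J : ℝ) ^ (15 / 8 : ℝ) + 72 + (J : ℝ) ^ 2 / Real.log J ^ 3
    + 0.6398 * VV (zx J) * mu J j / (3 * Real.log J))

/-- [CX up] Proof: `CH/F/P/up.lean` with `RBx J` in the place of `RR (zJ J)` (`1.362 * 0.4697 ≤ 0.6398`). -/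
def S_upx : Prop := Pool.Agent.CH.F.S_win → R_swx → R_rrx → R_upx

/-- One window. -/
def R_onex : Prop := ∃ c : ℝ, 0 < c ∧ ∀ᶠ J : ℕ in atTop, ∀ cp cm : ℕ → ℝ, SWx J cp cm →
  ∀ j ∈ Ioc J (2 * J), Goodx J cp cm j →
  c * (J : ℝ) ^ 2 / Real.log J ^ 2 ≤ ((chenSet j).ncard : ℝ)

/-- [CX one] (adapt `CH/F/P/one.lean`) Proof. `c0` from R_Vx. `SSx - TTx ≥ (0.653 - 0.6398 (1 + 4/(3L))) VV mu - J^2/L^3 - (3L+4)(J^(15/8) + 72 + J^2/L^3)
≥ 0.012 (c0/L)(J^2/2) - 8 J^2/L^2 ≥ 0.005 c0 J^2/L` for `J` large. `SSx - TTx = ∑ thP p wJ J j p [Rough (p+2), Ω(p+2) ≤ 3]`, each term `≤ 4L`, so there are at least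
`(0.001 c0) J^2/L^2` primes `p` with `wJ J j p ≠ 0`, `Rough z (p+2)`, `Ω(p+2) ≤ 3`; they lie in `chenSet j`: a prime `q ∣ p + 2` is `≥ z`, `q^3 ≥ J^(1.026) > 2J ≥ j`. -/
def S_onex : Prop := R_Vx → Pool.Agent.CH.F.S_win → R_lox → R_upx → R_onex

/-- All windows but `J^0.7999`. -/
def R_finx : Prop := ∃ c : ℝ, 0 < c ∧ ∀ᶠ J : ℕ in atTop,
  nb J (fun j => ((chenSet j).ncard : ℝ) < c * (J : ℝ) ^ 2 / Real.log J ^ 2)
    ≤ (J : ℝ) ^ (7999 / 10000 : ℝ)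

/-- [CX fin] (compare `CA/SV/p_fin.lean`, `CH/F/All.lean`) Proof. `c` from R_onex. For large `J` let `cp, cm` be from I_Sx. A window for which `ncard < c J^2/L^2` is not
`Goodx`. The windows for which g1 fails: at most `J^0.7998` by `Finx FT (-2)` with `A = 3` (`FT J = thP`) for `cm`. g2: `EE` is linear in the sequence, `EE J (RBx J) 2 j q =
∑_(k=4)^8 (1/k!) EE J (Bx k J) 2 j q`; in a window which is not bad for one of the `Finx (Bx k) 2` (`A = 3`, `c = cp`) the sum is `≤ (∑ 1/k!) J^2/L^3`: at most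
`5 J^0.7998` bad windows. g3, g5: never fail (R_m1, R_sqx). g4: at most `J^0.79` (R_msx). Total `≤ 6 J^0.7998 + J^0.79 ≤ J^0.7999`. -/
def S_finx : Prop := I_Sx → Finx FT (-2) → (∀ k ∈ Icc 4 8, Finx (Bx k) 2) →
  R_m1 → R_msx → R_sqx → R_onex → R_finx

/-- [CX dya] (compare `CH/F/P/dya.lean`) Dyadic summation. Proof. `c1 = c/4`: for `J < n ≤ 2J`, `J ≥ 2`, `ncard (chenSet n) < c1 n^2/(log (n+1))^2` implies `ncard < c J^2/L^2`
(`cf_dya_bad`). Let `J0` be such that the bound holds for `J ≥ J0`. Every `2 ≤ n ≤ N` lies in `Ioc (2^i) (2^(i+1))` for one `i`, `2^i < N`; the blocks with `2^i < J0` contain at most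
`2 J0` elements, the others at most `(2^i)^(7999/10000) ≤ (2^i)^(4/5)` bad ones, and `∑_(2^i ≤ N) (2^i)^(4/5) ≤ 3 N^(4/5)` (geometric: `2^(4/5) ≥ 3/2`). So `C = 2 J0 + 4`. -/
def S_dyax : Prop := R_finx → I_finx

end Pool.Agent.CX
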