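import Pool.Agent.Lib.MP_d610d0_nt.CX.Stm
import Pool.Agent.Lib.MP_d610d0_nt.CX.Stm2
import Pool.Agent.Lib.MP_d610d0_nt.CA.LC.Main
import Pool.Agent.Lib.MP_d610d0_nt.CA.SC.Main
import Pool.Agent.Lib.MP_d610d0_nt.CA.SV.Main
import Pool.Agent.Lib.MP_d610d0_nt.CH.F.All

set_option autoImplicit false

/-!
Project CX: the assembly from the pieces.
-/

namespace Pool.Agent.CX

open Finset Filter
open scoped ArithmeticFunction.Omega
open Pool.Agent.CH (zJ wJ wL Rough VV Wt dsum thP EE)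
open Pool.Agent.CH.D (FL FT Sf)
open Pool.Agent.CA (bx LCw SCw CMw BoxOK)

theorem asm_nb_zero {J : ℕ} {P : ℕ → Prop} (h : ∀ j ∈ Ioc J (2 * J), ¬ P j) : nb J P = 0 := by
  classical
  unfold nb
  rw [Finset.filter_eq_empty_iff.2 h]
  simp

theorem asm_SCx {F : ℕ → ℕ → ℝ} (h : SCw F) : SCx F := by
  intro A B
  filter_upwards [h A B] with J hJ r χ hr hrB hχ
  rw [asm_nb_zero]
  · positivity
  · intro j hj
    exact not_lt.2 (hJ r χ hr hrB hχ j hj)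

theorem asm_CMx {F : ℕ → ℕ → ℝ} (h : CMw F) : CMx F := by
  intro A
  obtain ⟨E0, hE0⟩ := h A
  refine ⟨E0, fun E hE => ?_⟩
  filter_upwards [hE0 E hE] with J hJ
  rw [asm_nb_zero]
  · positivity
  · intro j hj
    exact not_lt.2 (hJ j hj)

theorem asm_zx_le {J : ℕ} (hJ : 1 ≤ J) : zx J ≤ (J : ℝ) ^ 3 := by
  have h1 : (1 : ℝ) ≤ J := by exact_mod_cast hJ
  unfold zx
  calc (J : ℝ) ^ (171 / 500 : ℝ) ≤ (J : ℝ) ^ (3 : ℝ) :=
        Real.rpow_le_rpow_of_exponent_le h1 (by norm_num)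
    _ = (J : ℝ) ^ 3 := by exact_mod_cast Real.rpow_natCast (J : ℝ) 3

theorem asm_rough_FT : ∀ᶠ J : ℕ in atTop, ∀ j ∈ Ioc J (2 * J), ∀ n, 1 ≤ n → FT J n ≠ 0 →
    wJ J j n ≠ 0 → Rough (zx J) n := by
  filter_upwards [eventually_ge_atTop 1] with J hJ j hj n hn hF hw p hp hpn
  have hprime : n.Prime := by
    by_contra h
    exact hF (by simp [FT, thP, h])
  have hpe : p = n := (Nat.prime_dvd_prime_iff_eq hp hprime).1 hpn
  have h1 := ((Pool.Agent.CH.D.p_spc J hJ).2.1 j hj n hn hw).1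
  have h2 : J ^ 3 ≤ n := by
    have : J ^ 3 ≤ j ^ 3 := Nat.pow_le_pow_left (mem_Ioc.1 hj).1.le 3
    omega
  rw [hpe]
  refine (asm_zx_le hJ).trans ?_
  exact_mod_cast h2

theorem asm_rough_Bx (k : ℕ) : ∀ᶠ J : ℕ in atTop, ∀ j ∈ Ioc J (2 * J), ∀ n, 1 ≤ n →
    Bx k J n ≠ 0 → wJ J j n ≠ 0 → Rough (zx J) n :=
  Eventually.of_forall fun J _ _ n _ hn _ =>
    Pool.Agent.CA.SV.asm_bx_rough (k := k) (lo := fun _ => zx J) (hi := fun _ => hx k J)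
      (fun _ => le_rfl) hn

/-- the boxes are admissible -/
theorem asm_box (k : ℕ) (hk : k ∈ Icc 5 8) : BoxOK k (fun J _ => zx J) (fun J _ => hx k J) := by
  rw [mem_Icc] at hk
  refine ⟨hk.1, ?_, ?_⟩
  · filter_upwards [eventually_ge_atTop 1] with J hJ i
    have h1 : (1 : ℝ) ≤ J := by exact_mod_cast hJ
    exact Real.rpow_le_rpow_of_exponent_le h1 (by norm_num)
  · refine Eventually.of_forall fun J i => ?_
    show hx k J ≤ _
    unfold hx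
    rw [if_neg (by omega)]

/-- The conclusion from the pieces. -/
theorem of_pieces (pv : S_pv) (tIx : S_tIx) (blkx : S_blkx) (LLx : S_LLx) (TTx : S_TTx)
    (spx : S_spx) (LBx : S_LBx) (cm4 : S_cm4) (L4w : S_L4w) (cnt : S_cnt) (mvk : S_mvk)
    (mvx : S_mvx) (Gx : S_Gx) (prk3 : S_prk3) (bx4 : S_bx4) (CM4 : S_CM4) (lw4 : S_lw4)
    (S4 : S_S4) (C4 : S_C4) (red : S_red)
    (iS : I_Sx) (cellx : S_cellx) (winx : S_winx) (ptwx : S_ptwx) (numx : S_numx) (lwx : S_lwx)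
    (msx : S_msx) (Vx : S_Vx) (sqx : S_sqx) (rrx : S_rrx) (swx : S_swx) (lox : S_lox)
    (upx : S_upx) (onex : S_onex) (finx : S_finx) (dyax : S_dyax) : I_finx := by
  have hblk : R_blkx := blkx Pool.Agent.CH.D.h_bil
  have htI : R_tIx := tIx pv
  have hLL : R_LLx := LLx hblk Pool.Agent.CH.D.p_dya Pool.Agent.CH.D.p_vau htI
    Pool.Agent.CH.D.p_spc
  have hLT : LCx FT := TTx hLL Pool.Agent.CH.D.h_pp
  have hsp : R_spx := spx Pool.Agent.CA.LC.p_bxp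
  have hLB : R_LBx := LBx hblk Pool.Agent.CH.D.p_dya hsp Pool.Agent.CH.D.p_spc
  have hL4 : LCw (Bx 4) := L4w Pool.Agent.CA.LC.h_LBa cm4 Pool.Agent.CA.LC.p_dya
    Pool.Agent.CA.LC.p_bxp Pool.Agent.CA.LC.p_blk Pool.Agent.CA.LC.h_cof Pool.Agent.CH.D.p_spc
  have hG : R_Gx := Gx Pool.Agent.CH.D.p_kf Pool.Agent.CH.D.p_kb
    (mvk Pool.Agent.CH.D.p_kf Pool.Agent.CH.D.p_kb Pool.Agent.CH.D.h_sch Pool.Agent.CA.SC.p_tm)
    (mvx Pool.Agent.CH.D.p_kf (cnt Pool.Agent.CH.D.p_spc))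
  have hCM4 : R_CM4 := CM4 Pool.Agent.CA.SC.p_dyb
    (bx4 hG (prk3 Pool.Agent.CH.D.h_pwp) Pool.Agent.CH.D.p_spc) Pool.Agent.CH.D.p_spc
  have hS4 : SCx (Bx 4) := S4 hCM4 (lw4 Pool.Agent.CH.D.h_pwp)
  have hC4 : CMx (Bx 4) := C4 hCM4
  obtain ⟨tL, tS, tC⟩ := Pool.Agent.CA.SV.p_tt Pool.Agent.CH.D.h_pp
    (Pool.Agent.CA.LC.main_LL Pool.Agent.CA.SC.main_dec) Pool.Agent.CA.SC.main_SL
    Pool.Agent.CA.SC.main_CL
  have hgrp := Pool.Agent.CH.D.h_grp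
  have hcfs := Pool.Agent.CH.D.p_cfs
  have fT : Finx FT (-2) :=
    red hgrp hcfs FT tL hLT (asm_SCx tS) asm_rough_FT (-2) (Or.inr rfl)
  have fB : ∀ k ∈ Icc 4 8, Finx (Bx k) 2 := by
    intro k hk
    by_cases h4 : k = 4
    · subst h4
      exact red hgrp hcfs (Bx 4) hL4 (hLB 4 (by simp)) hS4 (asm_rough_Bx 4) 2 (Or.inl rfl)
    · have hk' : k ∈ Icc 5 8 := by
        rw [mem_Icc] at hk ⊢
        omega
      exact red hgrp hcfs (Bx k) (Pool.Agent.CA.LC.main_LB k _ _ (asm_box k hk')) (hLB k hk)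
        (asm_SCx (Pool.Agent.CA.SC.main_SB k _ _ (asm_box k hk'))) (asm_rough_Bx k) 2 (Or.inl rfl)
  have cB : ∀ k ∈ Icc 5 8, CMw (Bx k) := fun k hk => Pool.Agent.CA.SC.main_CB k _ _ (asm_box k hk)
  have hm1 : Pool.Agent.CA.SV.R_m1 := Pool.Agent.CA.SV.p_m1 Pool.Agent.CH.D.h_pp
    (Pool.Agent.CH.D.p_m1a Pool.Agent.CH.P.h_PNT) tC
  have hcell : R_cellx := cellx Pool.Agent.CH.M2.p_log2 Pool.Agent.CH.M2.p_mer
  have hptw : R_ptwx := ptwx (winx (Pool.Agent.CH.M2.p_sh Pool.Agent.CH.P.h_PNT))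
  have hlw : R_lwx := lwx Pool.Agent.CH.M2.p_tup1 Pool.Agent.CH.M2.p_tup2 Pool.Agent.CA.SV.p_tup
    hcell hptw numx
  have hms : R_msx := msx hC4 cB hlw
  have hlo : R_lox := lox Pool.Agent.CH.F.p_win swx
  have hup : R_upx := upx Pool.Agent.CH.F.p_win swx rrx
  have hone : R_onex := onex (Vx Pool.Agent.CH.F.p_V) Pool.Agent.CH.F.p_win hlo hup
  exact dyax (finx iS fT fB hm1 hms sqx hone)

end Pool.Agent.CX
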