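import Pool.Agent.Lib.MP_d610d0_nt.CA.LC.Stm
import Pool.Agent.Lib.MP_d610d0_nt.CA.SC.Stm2

set_option autoImplicit false

/-!
Project CX (primes `p` with `p + 2 = P_3` between the consecutive cubes `n^3`, `(n+1)^3` for all `n ≤ N` but
`O(N^(4/5))`): definitions.

Conventions as in `CH` and `CA`: `J` is large, `L = log J`, windows `J < j ≤ 2 J`. The level is `J^(899/1000)`, the sifting
limit `zx J = J^(171/500) = J^0.342`. Every number up to `27 J^3` has at most eight prime factors `≥ zx J`.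
-/

namespace Pool.Agent.CX

open Finset Filter
open Pool.Agent.MP89da58 (tri primChars)
open Pool.Agent.CH (zJ wJ wL Rough VV Wt dsum thP EE)
open Pool.Agent.CH.D (xj kap dp Sf FL FT)
open Pool.Agent.CA (bx)

open Classical in
/-- The number of the windows with the property `P`. -/
noncomputable def nb (J : ℕ) (P : ℕ → Prop) : ℝ := (((Ioc J (2 * J)).filter P).card : ℝ)

/-- Large conductors, mean square over the windows with a power saving. -/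
def LCx (F : ℕ → ℕ → ℝ) : Prop := ∀ᶠ J : ℕ in atTop, ∀ R : ℕ,
  (J : ℝ) ^ (4997 / 10000 : ℝ) ≤ (R : ℝ) → (R : ℝ) ≤ (J : ℝ) ^ (8995 / 10000 : ℝ) →
  ∀ th : (Σ q, DirichletCharacter ℂ q) → ℂ, (∀ p, ‖th p‖ ≤ 1) →
  ∑ j ∈ Ioc J (2 * J), ‖∑ p ∈ primChars R, th p * Sf (F J) J j p.2‖ ^ 2
    ≤ (R : ℝ) ^ 2 * (J : ℝ) ^ (47995 / 10000 : ℝ)

/-- Small conductors in all windows but `J^0.79`. -/
def SCx (F : ℕ → ℕ → ℝ) : Prop := ∀ A B : ℕ, ∀ᶠ J : ℕ in atTop, ∀ (r : ℕ)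
  (χ : DirichletCharacter ℂ r), 2 ≤ r → (r : ℝ) ≤ (Real.log J) ^ B → χ.IsPrimitive →
  nb J (fun j => (J : ℝ) ^ 2 / (Real.log J) ^ A < ‖Sf (F J) J j χ‖) ≤ (J : ℝ) ^ (79 / 100 : ℝ)

/-- Comparison with the long windows for all windows but `J^0.79`. -/
def CMx (F : ℕ → ℕ → ℝ) : Prop := ∀ A : ℕ, ∃ E0 : ℕ, ∀ E : ℕ, E0 ≤ E → ∀ᶠ J : ℕ in atTop,
  nb J (fun j => (J : ℝ) ^ 3 / (Real.log J) ^ A <
    |2 * (J : ℝ) * ∑ n ∈ Icc 1 (27 * J ^ 3), F J n * wJ J j n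
      - (Real.log J) ^ E * ∑ n ∈ Icc 1 (27 * J ^ 3), F J n * wL ((Real.log J) ^ E) j n|)
    ≤ (J : ℝ) ^ (79 / 100 : ℝ)

/-- The sifting limit. -/
noncomputable def zx (J : ℕ) : ℝ := (J : ℝ) ^ (171 / 500 : ℝ)

/-- The upper end of the boxes. -/
noncomputable def hx (k J : ℕ) : ℝ := if k = 4 then (J : ℝ) ^ (2 : ℝ) else (J : ℝ) ^ (33 / 20 : ℝ)

/-- The products of `k` primes `≥ zx J`, counted as ordered tuples. -/
noncomputable def Bx (k : ℕ) : ℕ → ℕ → ℝ := fun J n => bx k (fun _ => zx J) (fun _ => hx k J) n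

/-- The switched sequence. -/
noncomputable def RBx (J n : ℕ) : ℝ := ∑ k ∈ Icc 4 8, Bx k J n / (k.factorial : ℝ)

/-- The final bound for the sequence `F`, residue class `a`: all windows but `J^0.7998`. -/
def Finx (F : ℕ → ℕ → ℝ) (a : ℤ) : Prop := ∀ A : ℕ, ∀ᶠ J : ℕ in atTop, ∀ c : ℕ → ℝ,
  Wt (zx J) ((J : ℝ) ^ (899 / 1000 : ℝ)) c →
  nb J (fun j => (J : ℝ) ^ 2 / (Real.log J) ^ A < |∑ q ∈ Icc 1 J, c q * EE J (F J) a j q|)
    ≤ (J : ℝ) ^ (7998 / 10000 : ℝ)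

/-- The bound for the number of the quadruples in `R_cnt`. -/
noncomputable def Ex (J N : ℕ) (s : ℝ) : ℝ :=
  (1 + Real.log J) * N * s * Real.sqrt s + (N : ℝ) ^ 2 * s ^ 2 / J

end Pool.Agent.CX
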