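import Pool.Agent.Lib.MP_d610d0_nt.CX.Defs
import Pool.Agent.Lib.MP_d610d0_nt.CA.SV.Defs

set_option autoImplicit false

/-!
Project CX, sieve half: definitions.

`J` is large, `L = log J`, windows `J < j ≤ 2 J`, `x = x_j = (j + 1/2)^3`, `mu = mu J j = x / (2 J)` (`CH.F.mu`;
`J^2/2 ≤ mu ≤ 8 J^2`), `z = zx J = J^(171/500)`, `log z = (171/500) L`, level `J^(899/1000)`.
-/

namespace Pool.Agent.CX

open Finset Filter
open scoped ArithmeticFunction.Omega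
open Pool.Agent.CH (wJ wL Rough VV Wt dsum thP EE chenSet)
open Pool.Agent.CH.F (mu)

/-! ### The weights -/

open Classical in
/-- The properties of the sieve weights. -/
structure SWx (J : ℕ) (cp cm : ℕ → ℝ) : Prop where
  wp : Wt (zx J) ((J : ℝ) ^ (899 / 1000 : ℝ)) cp
  wm : Wt (zx J) ((J : ℝ) ^ (899 / 1000 : ℝ)) cm
  lo : ∀ n : ℕ, Odd n → dsum cm n ≤ (if Rough (zx J) n then 1 else 0)
  up : ∀ n : ℕ, Odd n → (if Rough (zx J) n then 1 else 0) ≤ dsum cp n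
  mp : ∑ d ∈ Icc 1 J, cp d / (Nat.totient d : ℝ) ≤ 1.362 * VV (zx J)
  mm : 0.654 * VV (zx J) ≤ ∑ d ∈ Icc 1 J, cm d / (Nat.totient d : ℝ)

/-- Interface: the sieve weights (`s = 0.8985/0.342 = 2.627..`). -/
def I_Sx : Prop := ∀ᶠ J : ℕ in atTop, ∃ cp cm : ℕ → ℝ, SWx J cp cm

/-! ### Cells (`z ^ (i / 128) ≤ p < z ^ ((i + 1) / 128)`) -/

/-- Upper bound for the sum of `1 / p` over the cell `i`. -/
noncomputable def ax (i : ℕ) : ℝ :=
  if 128 ≤ i then (5001 / 5000) * (2 * i + 1) / (2 * i * (i + 1)) else 0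

/-- The cell of `p`. -/
noncomputable def mx (z : ℝ) (p : ℕ) : ℕ := ⌊128 * Real.log p / Real.log z⌋₊

/-- Upper bound for `L / log (x / P)` if `P` is a product of `r` primes in the cells `m_1, ..., m_r`,
`M = m_1 + ... + m_r`, and `P z < 27 J^3`. -/
noncomputable def Phx (r M : ℕ) : ℝ :=
  if M < 995 then 64000 / ((max 21888 (192000 - 171 * (M + r)) : ℕ) : ℝ) else 0

/-! ### The windows -/

open Classical in
/-- The number of `n` in `(j^3, (j+1)^3)` divisible by the square of a prime `≥ zx J`. -/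
noncomputable def sqx (J j : ℕ) : ℕ :=
  ((Ioo (j ^ 3) ((j + 1) ^ 3)).filter (fun n : ℕ => ∃ q : ℕ, q.Prime ∧ zx J ≤ q ∧ q ^ 2 ∣ n)).card

/-- The good windows. -/
structure Goodx (J : ℕ) (cp cm : ℕ → ℝ) (j : ℕ) : Prop where
  g1 : |∑ q ∈ Icc 1 J, cm q * EE J thP (-2) j q| ≤ (J : ℝ) ^ 2 / Real.log J ^ 3
  g2 : |∑ q ∈ Icc 1 J, cp q * EE J (RBx J) 2 j q| ≤ (J : ℝ) ^ 2 / Real.log J ^ 3
  g3 : 0.999 * mu J j ≤ ∑ n ∈ Icc 1 (27 * J ^ 3), thP n * wJ J j n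
  g4 : ∑ n ∈ Icc 1 (27 * J ^ 3), RBx J n * wJ J j n ≤ 0.4697 * mu J j / (3 * Real.log J)
  g5 : (sqx J j : ℝ) ≤ (J : ℝ) ^ (15 / 8 : ℝ)

open Classical in
/-- The weighted number of primes `p` in the window such that `p + 2` is `z`-rough. -/
noncomputable def SSx (J j : ℕ) : ℝ := ∑ p ∈ Icc 1 (27 * J ^ 3),
  thP p * wJ J j p * (if Rough (zx J) (p + 2) then 1 else 0)

open Classical in
/-- The same with at least four prime factors of `p + 2`. -/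
noncomputable def TTx (J j : ℕ) : ℝ := ∑ p ∈ Icc 1 (27 * J ^ 3),
  thP p * wJ J j p * (if Rough (zx J) (p + 2) ∧ 4 ≤ Ω (p + 2) then 1 else 0)

open Classical in
/-- The final statement. -/
def I_finx : Prop := ∃ c : ℝ, 0 < c ∧ ∃ C : ℝ, ∀ N : ℕ, 1 ≤ N →
  (((Icc 1 N).filter (fun n : ℕ =>
    ((chenSet n).ncard : ℝ) < c * (n : ℝ) ^ 2 / (Real.log (n + 1)) ^ 2)).card : ℝ)
      ≤ C * (N : ℝ) ^ (4 / 5 : ℝ)

end Pool.Agent.CX
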