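import Pool.Agent.Lib.MP_d610d0_nt.CX.Stm
import Pool.Agent.Lib.MP_d610d0_nt.CA.SC.p_G

set_option autoImplicit false

/-!
Piece Gx: the general trilinear estimate with bad windows.
-/

namespace Pool.Agent.CX

open Finset Filter
open Pool.Agent.MP89da58 (tri)
open Pool.Agent.CH (wJ wL)
open Pool.Agent.CH.V (pz)
open Pool.Agent.CH.D (dp kap xj R_kf R_kb ms_dp_cont ms_set ms_kap_tail cm_e cm_e_norm cm_e_cont
  cm_integrable cm_sq cm_int2)
open Pool.Agent.CA.SC (TS dW G_fourier G_wL G_wJ G_K G_cont G_F_le)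

/-- the sum over the tuples as an integral, equality form -/
lemma Gx_TS (hkf : R_kf) {J : ℕ} (hJ : 1 ≤ J) {lam : ℝ} (hl : 0 < lam) (j : ℕ) {m : ℕ}
    (a : Fin m → ℕ → ℂ) (N : Fin m → ℕ) {G : ℝ} (ha : ∀ l n, ‖a l n‖ ≤ G) :
    MeasureTheory.Integrable (fun θ : ℝ =>
      (G_K J lam θ : ℂ) * (∏ l, dp (a l) (N l) θ) * cm_e (Real.log (xj j)) θ) ∧
    TS a N (dW lam J j) = ∫ θ : ℝ,
      (G_K J lam θ : ℂ) * (∏ l, dp (a l) (N l) θ) * cm_e (Real.log (xj j)) θ := by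
  have hJ0 : (0 : ℝ) < 2 * J := by
    have : (1 : ℝ) ≤ J := by exact_mod_cast hJ
    linarith
  set y : ℝ := Real.log (xj j) with hy
  have hm := (G_cont a N).measurable
  have i2 := cm_integrable (hkf (2 * J) hJ0).1 hm (G_F_le a N ha) y
  have il := cm_integrable (hkf lam hl).1 hm (G_F_le a N ha) y
  have ik : MeasureTheory.Integrable (G_K J lam) := by
    unfold G_K
    exact ((hkf (2 * J) hJ0).1.const_mul _).sub ((hkf lam hl).1.const_mul _)
  refine ⟨cm_integrable ik hm (G_F_le a N ha) y, ?_⟩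
  have e2 : TS a N (dW lam J j) =
      (2 * J : ℂ) * (∑ t ∈ Fintype.piFinset (fun l => Icc 1 (N l)), (∏ l, a l (t l)) *
        ((tri (2 * J * (Real.log ((∏ l, t l : ℕ) : ℝ) - y)) : ℝ) : ℂ)) -
      (lam : ℂ) * (∑ t ∈ Fintype.piFinset (fun l => Icc 1 (N l)), (∏ l, a l (t l)) *
        ((tri (lam * (Real.log ((∏ l, t l : ℕ) : ℝ) - y)) : ℝ) : ℂ)) := by
    unfold TS
    rw [Finset.mul_sum, Finset.mul_sum, ← Finset.sum_sub_distrib]
    refine Finset.sum_congr rfl fun t ht => ?_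
    have h1 : 1 ≤ ∏ l, t l := Finset.one_le_prod' fun l _ =>
      (Finset.mem_Icc.1 (Fintype.mem_piFinset.1 ht l)).1
    unfold dW
    rw [G_wJ J j h1, G_wL lam j h1, Complex.ofReal_sub, Complex.ofReal_mul, Complex.ofReal_mul,
      Complex.ofReal_mul, Complex.ofReal_natCast, Complex.ofReal_ofNat]
    ring
  rw [e2, G_fourier hkf hJ0, G_fourier hkf hl]
  refine (cm_int2 i2 il (2 * J : ℂ) (lam : ℂ)).trans ?_
  refine MeasureTheory.integral_congr_ae (MeasureTheory.ae_of_all _ fun θ => ?_)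
  simp only [G_K]
  push_cast
  ring

/-- a unimodular factor -/
lemma Gx_unit (z : ℂ) : ∃ g : ℂ, ‖g‖ ≤ 1 ∧ g * z = (‖z‖ : ℂ) := by
  by_cases hz : z = 0
  · refine ⟨0, by simp, ?_⟩
    rw [hz]
    simp
  · have hn : ‖z‖ ≠ 0 := norm_ne_zero_iff.2 hz
    have hnc : (‖z‖ : ℂ) ≠ 0 := by exact_mod_cast hn
    refine ⟨(starRingEnd ℂ) z / (‖z‖ : ℂ), ?_, ?_⟩
    · rw [norm_div, Complex.norm_real, norm_norm, RCLike.norm_conj, div_self hn]
    · rw [div_mul_eq_mul_div, mul_comm ((starRingEnd ℂ) z) z, Complex.mul_conj,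
        Complex.normSq_eq_norm_sq]
      push_cast
      field_simp

/-- the exponential sum over the windows -/
noncomputable def Gx_X (S : Finset ℕ) (g : ℕ → ℂ) (θ : ℝ) : ℂ :=
  ∑ j ∈ S, g j * cm_e (Real.log (xj j)) θ

lemma Gx_X_cont (S : Finset ℕ) (g : ℕ → ℂ) : Continuous (Gx_X S g) :=
  continuous_finsetSum _ fun j _ => continuous_const.mul (cm_e_cont _)

lemma Gx_X_le (S : Finset ℕ) {g : ℕ → ℂ} (hg : ∀ j, ‖g j‖ ≤ 1) (θ : ℝ) :
    ‖Gx_X S g θ‖ ≤ S.card := by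
  unfold Gx_X
  refine (norm_sum_le _ _).trans ?_
  have h : ∀ j ∈ S, ‖g j * cm_e (Real.log (xj j)) θ‖ ≤ 1 := by
    intro j _
    rw [norm_mul, cm_e_norm, mul_one]
    exact hg j
  refine (Finset.sum_le_sum h).trans ?_
  simp

/-- the sum over the windows as an integral -/
lemma Gx_sum (hkf : R_kf) {J : ℕ} (hJ : 1 ≤ J) {lam : ℝ} (hl : 0 < lam) {m : ℕ}
    (a : Fin m → ℕ → ℂ) (N : Fin m → ℕ) {G : ℝ} (ha : ∀ l n, ‖a l n‖ ≤ G) (S : Finset ℕ) :
    ∃ g : ℕ → ℂ, (∀ j, ‖g j‖ ≤ 1) ∧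
      MeasureTheory.Integrable (fun θ : ℝ => |G_K J lam θ| *
        (‖∏ l, dp (a l) (N l) θ‖ * ‖Gx_X S g θ‖)) ∧
      ∑ j ∈ S, ‖TS a N (dW lam J j)‖ ≤ ∫ θ : ℝ, |G_K J lam θ| *
        (‖∏ l, dp (a l) (N l) θ‖ * ‖Gx_X S g θ‖) := by
  choose g hg1 hg2 using fun j => Gx_unit (TS a N (dW lam J j))
  refine ⟨g, hg1, ?_, ?_⟩
  · have hJ0 : (0 : ℝ) < 2 * J := by
      have : (1 : ℝ) ≤ J := by exact_mod_cast hJ
      linarith
    have ik : MeasureTheory.Integrable (G_K J lam) := by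
      unfold G_K
      exact ((hkf (2 * J) hJ0).1.const_mul _).sub ((hkf lam hl).1.const_mul _)
    have hc : Continuous (fun θ : ℝ => ‖∏ l, dp (a l) (N l) θ‖ * ‖Gx_X S g θ‖) :=
      (G_cont a N).norm.mul (Gx_X_cont S g).norm
    refine ik.abs.mul_bdd (c := (G ^ m * ∏ l, (N l : ℝ)) * S.card) hc.aestronglyMeasurable
      (MeasureTheory.ae_of_all _ fun θ => ?_)
    rw [norm_mul, norm_norm, norm_norm]
    exact mul_le_mul (G_F_le a N ha θ) (Gx_X_le S hg1 θ) (norm_nonneg _)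
      ((norm_nonneg _).trans (G_F_le a N ha θ))
  · have e1 : ((∑ j ∈ S, ‖TS a N (dW lam J j)‖ : ℝ) : ℂ) = ∫ θ : ℝ,
        (G_K J lam θ : ℂ) * (∏ l, dp (a l) (N l) θ) * Gx_X S g θ := by
      push_cast
      have e3 : ∀ θ : ℝ, (G_K J lam θ : ℂ) * (∏ l, dp (a l) (N l) θ) * Gx_X S g θ =
          ∑ j ∈ S, g j * ((G_K J lam θ : ℂ) * (∏ l, dp (a l) (N l) θ) *
            cm_e (Real.log (xj j)) θ) := by
        intro θ
        unfold Gx_X
        rw [Finset.mul_sum]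
        refine Finset.sum_congr rfl fun j _ => ?_
        ring
      simp_rw [e3]
      rw [MeasureTheory.integral_finsetSum _ fun j _ => (Gx_TS hkf hJ hl j a N ha).1.const_mul _]
      refine Finset.sum_congr rfl fun j _ => ?_
      rw [MeasureTheory.integral_const_mul, ← (Gx_TS hkf hJ hl j a N ha).2, hg2 j]
    have e2 : ∑ j ∈ S, ‖TS a N (dW lam J j)‖ =
        ‖((∑ j ∈ S, ‖TS a N (dW lam J j)‖ : ℝ) : ℂ)‖ := by
      rw [Complex.norm_real, Real.norm_eq_abs,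
        abs_of_nonneg (Finset.sum_nonneg fun j _ => norm_nonneg _)]
    rw [e2, e1]
    refine (MeasureTheory.norm_integral_le_integral_norm _).trans (le_of_eq ?_)
    refine MeasureTheory.integral_congr_ae (MeasureTheory.ae_of_all _ fun θ => ?_)
    show ‖(G_K J lam θ : ℂ) * (∏ l, dp (a l) (N l) θ) * Gx_X S g θ‖ =
      |G_K J lam θ| * (‖∏ l, dp (a l) (N l) θ‖ * ‖Gx_X S g θ‖)
    rw [norm_mul, norm_mul, Complex.norm_real, Real.norm_eq_abs, mul_assoc]

/-- the Cauchy-Schwarz inequality with a weight -/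
lemma Gx_cs {k f g : ℝ → ℝ} (hk : ∀ θ, 0 ≤ k θ)
    (i1 : MeasureTheory.Integrable (fun θ => k θ * f θ ^ 2))
    (i2 : MeasureTheory.Integrable (fun θ => k θ * g θ ^ 2))
    (i3 : MeasureTheory.Integrable (fun θ => k θ * (f θ * g θ))) {A B : ℝ} (hA : 0 < A)
    (hB : 0 < B) (h1 : ∫ θ, k θ * f θ ^ 2 ≤ A) (h2 : ∫ θ, k θ * g θ ^ 2 ≤ B) :
    ∫ θ, k θ * (f θ * g θ) ≤ Real.sqrt (A * B) := by
  have hsA : 0 < Real.sqrt A := Real.sqrt_pos.2 hA
  have hsB : 0 < Real.sqrt B := Real.sqrt_pos.2 hB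
  set s : ℝ := Real.sqrt B / Real.sqrt A with hs
  have hs0 : 0 < s := by positivity
  have h3 : ∫ θ, k θ * (f θ * g θ) ≤
      ∫ θ, (s / 2 * (k θ * f θ ^ 2) + 1 / (2 * s) * (k θ * g θ ^ 2)) := by
    refine MeasureTheory.integral_mono i3 ((i1.const_mul _).add (i2.const_mul _)) fun θ => ?_
    have h5 : s / 2 * (k θ * f θ ^ 2) + 1 / (2 * s) * (k θ * g θ ^ 2) - k θ * (f θ * g θ) =
        k θ * ((s * f θ - g θ) ^ 2 / (2 * s)) := by
      field_simp
      ring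
    have h6 : 0 ≤ k θ * ((s * f θ - g θ) ^ 2 / (2 * s)) :=
      mul_nonneg (hk θ) (by positivity)
    show k θ * (f θ * g θ) ≤ s / 2 * (k θ * f θ ^ 2) + 1 / (2 * s) * (k θ * g θ ^ 2)
    linarith
  have h8 : ∫ θ, (s / 2 * (k θ * f θ ^ 2) + 1 / (2 * s) * (k θ * g θ ^ 2)) ≤
      s / 2 * A + 1 / (2 * s) * B := by
    rw [MeasureTheory.integral_add (i1.const_mul _) (i2.const_mul _),
      MeasureTheory.integral_const_mul, MeasureTheory.integral_const_mul]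
    exact add_le_add (mul_le_mul_of_nonneg_left h1 (by positivity))
      (mul_le_mul_of_nonneg_left h2 (by positivity))
  have h9 : s / 2 * A + 1 / (2 * s) * B = Real.sqrt (A * B) := by
    rw [Real.sqrt_mul hA.le, hs]
    have eA : A = Real.sqrt A * Real.sqrt A := (Real.mul_self_sqrt hA.le).symm
    have eB : B = Real.sqrt B * Real.sqrt B := (Real.mul_self_sqrt hB.le).symm
    set u := Real.sqrt A
    set v := Real.sqrt B
    rw [eA, eB]
    field_simp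
    ring
  linarith

theorem p_Gx : S_Gx := by
  intro hkf hkb hmvk hmvx m
  obtain ⟨C1, hC11, hC1⟩ := hmvk m
  obtain ⟨C2, hC21, hC2⟩ := hmvx m
  refine ⟨3 * C1 * C2, by nlinarith [Nat.mul_le_mul hC11 hC21], ?_⟩
  intro J lam T0 G s N a l0 S1 S2 S hJ hSJ hT0 hT02 hl1 hl2 hG hs0 hN ha hpr hn1 hn2 hdis huniv hS
  have hJr : (2 : ℝ) ≤ J := by exact_mod_cast hJ
  have hJ0 : (0 : ℝ) < 2 * J := by linarith
  have hT00 : 0 < T0 := by linarith
  have hl0 : 0 < lam := by linarith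
  have hG0 : 0 ≤ G := by linarith
  have hpi := Real.pi_gt_three
  have hpi0 := Real.pi_pos
  -- sizes
  have hcast : ∀ A : Finset (Fin m), ∏ l ∈ A, (N l : ℝ) = ((∏ l ∈ A, N l : ℕ) : ℝ) :=
    fun A => (Nat.cast_prod _ _).symm
  have hP1 : ∀ A : Finset (Fin m), (1 : ℝ) ≤ ∏ l ∈ A, (N l : ℝ) := by
    intro A
    rw [hcast]
    exact_mod_cast Finset.one_le_prod' (fun l _ => hN l)
  have hPle : ∀ A : Finset (Fin m), ∏ l ∈ A, (N l : ℝ) ≤ ∏ l, (N l : ℝ) := by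
    intro A
    rw [hcast, hcast]
    exact_mod_cast Finset.prod_le_prod_of_subset_of_one_le' (Finset.subset_univ A)
      (fun l _ _ => hN l)
  set Λ : ℝ := Real.log (∏ l, (N l : ℝ)) with hΛ
  have hΛ0 : 0 ≤ Λ := Real.log_nonneg (hP1 univ)
  have hΛA : ∀ A : Finset (Fin m), Real.log (∏ l ∈ A, (N l : ℝ)) ≤ Λ := fun A =>
    Real.log_le_log (by have := hP1 A; linarith) (hPle A)
  have hC1r : (1 : ℝ) ≤ C1 := by exact_mod_cast hC11
  have hC2r : (1 : ℝ) ≤ C2 := by exact_mod_cast hC21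
  set W : ℝ := G ^ m * ∏ l, (N l : ℝ) with hW
  have hW0 : 0 ≤ W := by positivity
  have hEx0 : 0 ≤ Ex J (∏ l ∈ S2, N l) S.card := by
    unfold Ex
    have : 0 ≤ Real.log J := Real.log_nonneg (by linarith)
    positivity
  rcases Finset.eq_empty_or_nonempty S with hSe | hSne
  · rw [hSe, Finset.sum_empty]
    have h1 : 0 ≤ Ex J (∏ l ∈ S2, N l) ((∅ : Finset ℕ).card : ℝ) := by
      unfold Ex
      simp
    have : 0 ≤ 1 + Λ := by linarith
    positivity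
  have hs1 : (1 : ℝ) ≤ S.card := by exact_mod_cast hSne.card_pos
  obtain ⟨g, hg1, hint, hsum⟩ := Gx_sum hkf (show 1 ≤ J by omega) hl0 a N ha S
  set X : ℝ → ℂ := Gx_X S g with hX
  have hXc : Continuous X := Gx_X_cont S g
  have hXle : ∀ θ, ‖X θ‖ ≤ S.card := Gx_X_le S hg1
  set F : ℝ → ℝ := fun θ => ‖∏ l, dp (a l) (N l) θ‖ * ‖X θ‖ with hF
  have hF0 : ∀ θ, 0 ≤ F θ := fun θ => mul_nonneg (norm_nonneg _) (norm_nonneg _)
  set W' : ℝ := S.card * W with hW'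
  have hW'0 : 0 ≤ W' := by positivity
  have hFW : ∀ θ, F θ ≤ W' := by
    intro θ
    calc F θ ≤ W * S.card := mul_le_mul (G_F_le a N ha θ) (hXle θ) (norm_nonneg _) hW0
      _ = W' := by rw [hW']; ring
  set f1 : ℝ → ℝ := fun θ => ∏ l ∈ S1, ‖dp (a l) (N l) θ‖ with hf1
  set f2 : ℝ → ℝ := fun θ => (∏ l ∈ S2, ‖dp (a l) (N l) θ‖) * ‖X θ‖ with hf2
  have c1 : Continuous f1 := continuous_finsetProd _ fun l _ => (ms_dp_cont (a l) (N l)).norm
  have c2 : Continuous f2 :=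
    (continuous_finsetProd _ fun l _ => (ms_dp_cont (a l) (N l)).norm).mul hXc.norm
  have hf10 : ∀ θ, 0 ≤ f1 θ := fun θ => by positivity
  have hf20 : ∀ θ, 0 ≤ f2 θ := fun θ => by positivity
  have hprod : ∀ θ, F θ = ‖dp (a l0) (N l0) θ‖ * (f1 θ * f2 θ) := by
    intro θ
    simp only [hF, hf1, hf2]
    rw [norm_prod, ← huniv, Finset.prod_insert (by
      rw [Finset.mem_union]
      exact fun h => h.elim hn1 hn2), Finset.prod_union hdis]
    ring
  -- bounds of the factors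
  have hdl : ∀ l θ, ‖dp (a l) (N l) θ‖ ≤ G * N l := fun l θ =>
    Pool.Agent.CA.SC.G_dp_le a N ha l θ
  have hb1 : ∀ θ, f1 θ ≤ ∏ l ∈ S1, (G * N l) := fun θ =>
    Finset.prod_le_prod (fun l _ => norm_nonneg _) fun l _ => hdl l θ
  have hb2 : ∀ θ, f2 θ ≤ (∏ l ∈ S2, (G * N l)) * S.card := fun θ =>
    mul_le_mul (Finset.prod_le_prod (fun l _ => norm_nonneg _) fun l _ => hdl l θ) (hXle θ)
      (norm_nonneg _) (by positivity)
  set b1 : ℝ := ∏ l ∈ S1, (G * N l) with hb1'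
  set b2 : ℝ := (∏ l ∈ S2, (G * N l)) * S.card with hb2'
  have hb10 : 0 ≤ b1 := by positivity
  have hb20 : 0 ≤ b2 := by positivity
  obtain ⟨k20, -, -, k2lo, -, -, -⟩ := hkb (2 * J) hJ0
  obtain ⟨kl0, -, -, -, klsq, klpi, -⟩ := hkb lam hl0
  have ik2 := (hkf (2 * J) hJ0).1
  have ikl := (hkf lam hl0).1
  have i11 : MeasureTheory.Integrable (fun θ => kap (2 * J) θ * f1 θ ^ 2) := by
    refine ik2.mul_bdd (c := b1 ^ 2) (c1.pow 2).aestronglyMeasurable
      (MeasureTheory.ae_of_all _ fun θ => ?_)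
    rw [Real.norm_eq_abs, abs_of_nonneg (sq_nonneg _)]
    exact pow_le_pow_left₀ (hf10 θ) (hb1 θ) 2
  have i22 : MeasureTheory.Integrable (fun θ => kap (2 * J) θ * f2 θ ^ 2) := by
    refine ik2.mul_bdd (c := b2 ^ 2) (c2.pow 2).aestronglyMeasurable
      (MeasureTheory.ae_of_all _ fun θ => ?_)
    rw [Real.norm_eq_abs, abs_of_nonneg (sq_nonneg _)]
    exact pow_le_pow_left₀ (hf20 θ) (hb2 θ) 2
  have i12 : MeasureTheory.Integrable (fun θ => kap (2 * J) θ * (f1 θ * f2 θ)) := by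
    refine ik2.mul_bdd (c := b1 * b2) (c1.mul c2).aestronglyMeasurable
      (MeasureTheory.ae_of_all _ fun θ => ?_)
    rw [Real.norm_eq_abs, abs_of_nonneg (mul_nonneg (hf10 θ) (hf20 θ))]
    exact mul_le_mul (hb1 θ) (hb2 θ) (hf20 θ) hb10
  -- mean values
  set P1 : ℝ := ∏ l ∈ S1, (N l : ℝ) with hP1'
  have hPS1 : 1 ≤ P1 := hP1 S1
  set A : ℝ := C1 * G ^ (2 * m) * (1 + Λ) ^ C1 * ((1 + P1 / J) * P1) with hA
  set E : ℝ := Ex J (∏ l ∈ S2, N l) S.card with hE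
  have hE0 : 0 < E := by
    rw [hE]
    unfold Ex
    have h1 : 0 ≤ Real.log J := Real.log_nonneg (by linarith)
    have h2 : (1 : ℝ) ≤ ((∏ l ∈ S2, N l : ℕ) : ℝ) := by
      rw [← hcast]
      exact hP1 S2
    positivity
  set B : ℝ := C2 * G ^ (2 * m) * E with hB
  have hA0 : 0 < A := by positivity
  have hB0 : 0 < B := by positivity
  have m1 : ∫ θ, kap (2 * J) θ * f1 θ ^ 2 ≤ A := by
    have h1 := hC1 N a S1 G (2 * J) hG (by linarith) hN ha
    have h2 : ∀ θ : ℝ, f1 θ ^ 2 = ∏ l ∈ S1, ‖dp (a l) (N l) θ‖ ^ 2 :=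
      fun θ => (Finset.prod_pow _ _ _).symm
    simp only [h2]
    refine h1.trans ?_
    have hl1' : 0 ≤ Real.log (∏ l ∈ S1, (N l : ℝ)) := Real.log_nonneg hPS1
    have h3 : (1 + Real.log (∏ l ∈ S1, (N l : ℝ))) ^ C1 ≤ (1 + Λ) ^ C1 :=
      pow_le_pow_left₀ (by linarith) (by have := hΛA S1; linarith) C1
    have h4 : P1 / (2 * J) ≤ P1 / J := by
      apply div_le_div_of_nonneg_left (by linarith) (by linarith) (by linarith)
    rw [hA]
    have h5 : 0 ≤ P1 / (2 * J) := by positivity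
    refine mul_le_mul (mul_le_mul_of_nonneg_left h3 (by positivity))
      (mul_le_mul_of_nonneg_right (by linarith) (by linarith)) (by positivity) (by positivity)
  have m2 : ∫ θ, kap (2 * J) θ * f2 θ ^ 2 ≤ B := by
    have h1 := hC2 J N a S2 G S g hJ hSJ hG hN ha hpr hg1
    have h2 : ∀ θ : ℝ, f2 θ ^ 2 = (∏ l ∈ S2, ‖dp (a l) (N l) θ‖ ^ 2) * ‖∑ j ∈ S, g j *
        Complex.exp (-(Complex.I * ((θ * Real.log (xj j) : ℝ) : ℂ)))‖ ^ 2 := by
      intro θ
      simp only [hf2]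
      rw [mul_pow, ← Finset.prod_pow]
      rfl
    simp only [h2]
    exact h1
  have m3 := Gx_cs k20 i11 i22 i12 hA0 hB0 m1 m2
  -- the pointwise bound
  set u1 : ℝ → ℝ := ({θ : ℝ | T0 < |θ|}ᶜ).indicator (fun θ => W' / lam ^ 2 * θ ^ 2) with hu1
  set u2 : ℝ → ℝ := ({θ : ℝ | 2 * (J : ℝ) < |θ|}).indicator (fun θ => W' * lam * kap lam θ) with hu2
  set u3 : ℝ → ℝ := ({θ : ℝ | (J : ℝ) ^ 3 < |θ|}).indicator
    (fun θ => W' * (2 * J) * kap (2 * J) θ) with hu3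
  set u4 : ℝ → ℝ := fun θ => 3 * J * s * (kap (2 * J) θ * (f1 θ * f2 θ)) with hu4
  have iu1 : MeasureTheory.Integrable u1 :=
    (MeasureTheory.integrable_indicator_iff (ms_set T0).compl).2
      ((cm_sq hT00.le).1.const_mul _)
  have iu2 : MeasureTheory.Integrable u2 := (ikl.const_mul _).indicator (ms_set _)
  have iu3 : MeasureTheory.Integrable u3 := (ik2.const_mul _).indicator (ms_set _)
  have iu4 : MeasureTheory.Integrable u4 := i12.const_mul _
  have n1 : ∀ θ, 0 ≤ u1 θ := fun θ => Set.indicator_nonneg (fun x _ => by positivity) θ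
  have n2 : ∀ θ, 0 ≤ u2 θ := fun θ => Set.indicator_nonneg
    (fun x _ => mul_nonneg (by positivity) (kl0 x)) θ
  have n3 : ∀ θ, 0 ≤ u3 θ := fun θ => Set.indicator_nonneg
    (fun x _ => mul_nonneg (by positivity) (k20 x)) θ
  have n4 : ∀ θ, 0 ≤ u4 θ := fun θ => mul_nonneg (by positivity)
    (mul_nonneg (k20 θ) (mul_nonneg (hf10 θ) (hf20 θ)))
  have hK3 : ∀ θ, |G_K J lam θ| ≤ 2 * J * kap (2 * J) θ + lam * kap lam θ := by
    intro θ
    unfold G_K
    have a1 : 0 ≤ 2 * J * kap (2 * J) θ := mul_nonneg hJ0.le (k20 θ)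
    have a2 : 0 ≤ lam * kap lam θ := mul_nonneg hl0.le (kl0 θ)
    rw [abs_le]
    constructor <;> linarith
  have hpt : ∀ θ, |G_K J lam θ| * F θ ≤ u1 θ + u2 θ + u3 θ + u4 θ := by
    intro θ
    have a1 := n1 θ
    have a2 := n2 θ
    have a3 := n3 θ
    have a4 := n4 θ
    have hff : 0 ≤ f1 θ * f2 θ := mul_nonneg (hf10 θ) (hf20 θ)
    by_cases hθ : T0 < |θ|
    · by_cases h2J : 2 * (J : ℝ) < |θ|
      · have eu2 : u2 θ = W' * lam * kap lam θ :=
          Set.indicator_of_mem (s := {θ : ℝ | 2 * (J : ℝ) < |θ|}) h2J _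
        by_cases h3J : (J : ℝ) ^ 3 < |θ|
        · have eu3 : u3 θ = W' * (2 * J) * kap (2 * J) θ :=
            Set.indicator_of_mem (s := {θ : ℝ | (J : ℝ) ^ 3 < |θ|}) h3J _
          have h1 : |G_K J lam θ| * F θ ≤ (2 * J * kap (2 * J) θ + lam * kap lam θ) * W' :=
            mul_le_mul (hK3 θ) (hFW θ) (hF0 θ)
              (add_nonneg (mul_nonneg hJ0.le (k20 θ)) (mul_nonneg hl0.le (kl0 θ)))
          rw [eu2, eu3]
          linarith
        · have h4 := hS θ hθ.le (not_lt.1 h3J)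
          have h5 : F θ ≤ s * (f1 θ * f2 θ) := by
            rw [hprod]
            exact mul_le_mul_of_nonneg_right h4 hff
          have h6 : |G_K J lam θ| * F θ ≤
              2 * J * kap (2 * J) θ * (s * (f1 θ * f2 θ)) + lam * kap lam θ * W' := by
            calc |G_K J lam θ| * F θ ≤ (2 * J * kap (2 * J) θ + lam * kap lam θ) * F θ :=
                  mul_le_mul_of_nonneg_right (hK3 θ) (hF0 θ)
              _ = 2 * J * kap (2 * J) θ * F θ + lam * kap lam θ * F θ := by ring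
              _ ≤ _ := add_le_add
                (mul_le_mul_of_nonneg_left h5 (mul_nonneg hJ0.le (k20 θ)))
                (mul_le_mul_of_nonneg_left (hFW θ) (mul_nonneg hl0.le (kl0 θ)))
          have h7 : 2 * J * kap (2 * J) θ * (s * (f1 θ * f2 θ)) ≤ u4 θ := by
            have h8 : 0 ≤ J * (s * (kap (2 * J) θ * (f1 θ * f2 θ))) :=
              mul_nonneg (by linarith) (mul_nonneg hs0 (mul_nonneg (k20 θ) hff))
            show 2 * J * kap (2 * J) θ * (s * (f1 θ * f2 θ)) ≤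
              3 * J * s * (kap (2 * J) θ * (f1 θ * f2 θ))
            nlinarith [h8]
          rw [eu2]
          linarith
      · have h2J' := not_lt.1 h2J
        have h3J : |θ| ≤ (J : ℝ) ^ 3 := by
          refine h2J'.trans ?_
          have : (4 : ℝ) ≤ (J : ℝ) ^ 2 := by nlinarith
          nlinarith
        have h4 := hS θ hθ.le h3J
        have h5 : F θ ≤ s * (f1 θ * f2 θ) := by
          rw [hprod]
          exact mul_le_mul_of_nonneg_right h4 hff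
        have h6 : |G_K J lam θ| ≤ 1 / (2 * Real.pi) := klpi (2 * J) θ hJ0
        have h7 : 1 / (2 * Real.pi) ≤ 3 * J * kap (2 * J) θ := by
          have h8 := k2lo θ h2J'
          have h9 : 3 * (J : ℝ) * (1 / (8 * (2 * J))) = 3 / 16 := by
            field_simp
            norm_num
          have h10 : 1 / (2 * Real.pi) ≤ 3 / 16 := by
            rw [div_le_div_iff₀ (by positivity) (by norm_num)]
            linarith
          have h11 : 3 * (J : ℝ) * (1 / (8 * (2 * J))) ≤ 3 * J * kap (2 * J) θ :=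
            mul_le_mul_of_nonneg_left h8 (by positivity)
          linarith
        have h8 : |G_K J lam θ| * F θ ≤ 3 * J * kap (2 * J) θ * (s * (f1 θ * f2 θ)) :=
          mul_le_mul (h6.trans h7) h5 (hF0 θ) (mul_nonneg (by linarith) (k20 θ))
        have h9 : 3 * J * kap (2 * J) θ * (s * (f1 θ * f2 θ)) = u4 θ := by
          show 3 * J * kap (2 * J) θ * (s * (f1 θ * f2 θ)) =
            3 * J * s * (kap (2 * J) θ * (f1 θ * f2 θ))
          ring
        linarith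
    · have eu1 : u1 θ = W' / lam ^ 2 * θ ^ 2 :=
        Set.indicator_of_mem (s := {θ : ℝ | T0 < |θ|}ᶜ) hθ _
      have h1 : |G_K J lam θ| * F θ ≤ (θ ^ 2 / lam ^ 2) * W' :=
        mul_le_mul (klsq (2 * J) θ hl2) (hFW θ) (hF0 θ) (by positivity)
      have h2 : (θ ^ 2 / lam ^ 2) * W' = W' / lam ^ 2 * θ ^ 2 := by ring
      rw [eu1]
      linarith
  have hI : ∫ θ, |G_K J lam θ| * F θ ≤
      (∫ θ, u1 θ) + (∫ θ, u2 θ) + (∫ θ, u3 θ) + ∫ θ, u4 θ := by
    have e : ∫ θ, (u1 θ + u2 θ + u3 θ + u4 θ) =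
        (∫ θ, u1 θ) + (∫ θ, u2 θ) + (∫ θ, u3 θ) + ∫ θ, u4 θ := by
      have e1 : ∫ θ, (u1 θ + u2 θ) = (∫ θ, u1 θ) + ∫ θ, u2 θ :=
        MeasureTheory.integral_add iu1 iu2
      have e2 : ∫ θ, (u1 θ + u2 θ + u3 θ) = (∫ θ, (u1 θ + u2 θ)) + ∫ θ, u3 θ :=
        MeasureTheory.integral_add (iu1.add iu2) iu3
      have e3 : ∫ θ, (u1 θ + u2 θ + u3 θ + u4 θ) = (∫ θ, (u1 θ + u2 θ + u3 θ)) + ∫ θ, u4 θ :=
        MeasureTheory.integral_add ((iu1.add iu2).add iu3) iu4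
      rw [e3, e2, e1]
    rw [← e]
    exact MeasureTheory.integral_mono hint (((iu1.add iu2).add iu3).add iu4) hpt
  have b1' : ∫ θ, u1 θ ≤ T0 ^ 3 / lam ^ 2 * W' := by
    rw [hu1, MeasureTheory.integral_indicator (ms_set T0).compl, MeasureTheory.integral_const_mul]
    calc W' / lam ^ 2 * ∫ θ in {θ : ℝ | T0 < |θ|}ᶜ, θ ^ 2 ≤ W' / lam ^ 2 * T0 ^ 3 :=
          mul_le_mul_of_nonneg_left (cm_sq hT00.le).2 (by positivity)
      _ = _ := by ring
  have b2' : ∫ θ, u2 θ ≤ lam ^ 2 / J * W' := by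
    rw [hu2, MeasureTheory.integral_indicator (ms_set _), MeasureTheory.integral_const_mul]
    have t := mul_le_mul_of_nonneg_left (ms_kap_tail hkf hkb hl0 hJ0)
      (show 0 ≤ W' * lam by positivity)
    refine t.trans ?_
    have h1 : W' * lam * (4 * lam / (Real.pi * (2 * J))) =
        (4 / (Real.pi * 2)) * (lam ^ 2 / J * W') := by
      field_simp
    have h2 : 4 / (Real.pi * 2) ≤ 1 := by
      rw [div_le_one (by positivity)]
      linarith
    rw [h1]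
    have h3 : 0 ≤ lam ^ 2 / J * W' := by positivity
    nlinarith
  have b3' : ∫ θ, u3 θ ≤ 6 / J * W' := by
    rw [hu3, MeasureTheory.integral_indicator (ms_set _), MeasureTheory.integral_const_mul]
    have hJ3 : (0 : ℝ) < (J : ℝ) ^ 3 := by positivity
    have t := mul_le_mul_of_nonneg_left (ms_kap_tail hkf hkb hJ0 hJ3)
      (show 0 ≤ W' * (2 * J) by positivity)
    refine t.trans ?_
    have h1 : W' * (2 * J) * (4 * (2 * J) / (Real.pi * (J : ℝ) ^ 3)) =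
        (16 / Real.pi) * (1 / J * W') := by
      field_simp
      ring
    have h2 : 16 / Real.pi ≤ 6 := by
      rw [div_le_iff₀ hpi0]
      linarith
    rw [h1]
    have h3 : 0 ≤ 1 / (J : ℝ) * W' := by positivity
    calc (16 / Real.pi) * (1 / J * W') ≤ 6 * (1 / J * W') := mul_le_mul_of_nonneg_right h2 h3
      _ = _ := by ring
  have b4' : ∫ θ, u4 θ ≤ 3 * J * s * Real.sqrt (A * B) := by
    rw [hu4, MeasureTheory.integral_const_mul]
    exact mul_le_mul_of_nonneg_left m3 (by positivity)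
  set R : ℝ := Real.sqrt (((1 + P1 / J) * P1) * E) with hR
  have hR0 : 0 ≤ R := Real.sqrt_nonneg _
  have h1Λ : 1 ≤ 1 + Λ := by linarith
  have hsq : Real.sqrt (A * B) ≤ C1 * C2 * G ^ (2 * m) * (1 + Λ) ^ C1 * R := by
    have h1 : A * B = (C1 * C2 * (1 + Λ) ^ C1) * (G ^ (2 * m)) ^ 2 * (((1 + P1 / J) * P1) * E) := by
      rw [hA, hB]
      ring
    have h2 : (1 : ℝ) ≤ C1 * C2 * (1 + Λ) ^ C1 := by
      have h3 : (1 : ℝ) ≤ (1 + Λ) ^ C1 := one_le_pow₀ h1Λ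
      have h4 : (1 : ℝ) ≤ C1 * C2 := by nlinarith
      nlinarith
    have h5 : A * B ≤ (C1 * C2 * (1 + Λ) ^ C1) ^ 2 * (G ^ (2 * m)) ^ 2 *
        (((1 + P1 / J) * P1) * E) := by
      rw [h1]
      have h6 : C1 * C2 * (1 + Λ) ^ C1 ≤ (C1 * C2 * (1 + Λ) ^ C1) ^ 2 := by nlinarith
      exact mul_le_mul_of_nonneg_right (mul_le_mul_of_nonneg_right h6 (by positivity))
        (by positivity)
    refine (Real.sqrt_le_sqrt h5).trans (le_of_eq ?_)
    rw [show (C1 * C2 * (1 + Λ) ^ C1) ^ 2 * (G ^ (2 * m)) ^ 2 * (((1 + P1 / J) * P1) * E) =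
      (C1 * C2 * (1 + Λ) ^ C1 * G ^ (2 * m)) ^ 2 * (((1 + P1 / J) * P1) * E) by ring,
      Real.sqrt_mul (by positivity), Real.sqrt_sq (by positivity)]
    ring
  have hfin : 3 * J * s * Real.sqrt (A * B) ≤ ((3 * C1 * C2 : ℕ) : ℝ) * G ^ (2 * m) *
      (1 + Λ) ^ (3 * C1 * C2) * (J * s) * R := by
    have h1 : (1 + Λ) ^ C1 ≤ (1 + Λ) ^ (3 * C1 * C2) := by
      refine pow_le_pow_right₀ h1Λ ?_
      nlinarith [Nat.mul_le_mul (le_refl C1) hC21]
    have h2 : 3 * J * s * Real.sqrt (A * B) ≤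
        3 * J * s * (C1 * C2 * G ^ (2 * m) * (1 + Λ) ^ C1 * R) :=
      mul_le_mul_of_nonneg_left hsq (by positivity)
    refine h2.trans ?_
    have h3 : 3 * J * s * (C1 * C2 * G ^ (2 * m) * (1 + Λ) ^ C1 * R) =
        (3 * C1 * C2 * G ^ (2 * m) * (J * s) * R) * (1 + Λ) ^ C1 := by ring
    have h4 : ((3 * C1 * C2 : ℕ) : ℝ) * G ^ (2 * m) * (1 + Λ) ^ (3 * C1 * C2) * (J * s) * R =
        (3 * C1 * C2 * G ^ (2 * m) * (J * s) * R) * (1 + Λ) ^ (3 * C1 * C2) := by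
      push_cast
      ring
    rw [h3, h4]
    exact mul_le_mul_of_nonneg_left h1 (by positivity)
  have htot : ∑ j ∈ S, ‖TS a N (dW lam J j)‖ ≤ T0 ^ 3 / lam ^ 2 * W' + lam ^ 2 / J * W' +
      6 / J * W' + ((3 * C1 * C2 : ℕ) : ℝ) * G ^ (2 * m) *
      (1 + Λ) ^ (3 * C1 * C2) * (J * s) * R := by
    have := hsum.trans hI
    linarith
  refine htot.trans (le_of_eq ?_)
  rw [hW']
  ring

end Pool.Agent.CX
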