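import Pool.Agent.Lib.MP_d610d0_nt.CX.Stm
import Pool.Agent.Lib.MP_d610d0_nt.CA.LC.P.LB

set_option autoImplicit false

/-!
Project CX, pieces cm4 and L4w: large conductors in every window for the products of four primes.
-/

namespace Pool.Agent.CX

open Finset Filter
open Pool.Agent.MP89da58 (tri primChars)
open Pool.Agent.CH (wJ wL)
open Pool.Agent.CH.D (xj Sf R_spc)
open Pool.Agent.CA (bx Bd Wf)
open Pool.Agent.CA.LC (cut pI LB_prod_congr LB_f LB_f_apply LB_bd LB_ne LB_log)

/-- **CX cm4.** The combinatorial lemma for products of four primes. -/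
theorem p_cm4 : S_cm4 := by
  intro t ht hs1 hs2
  obtain ⟨b, hb⟩ := Finite.exists_max t
  have htot : ∀ S : Finset (Fin 4), ∑ i ∈ S, t i + ∑ i ∈ Sᶜ, t i = ∑ i, t i := fun S =>
    Finset.sum_add_sum_compl S t
  -- the three other indices
  have hcard : (({b} : Finset (Fin 4))ᶜ).card = 3 := by
    rw [Finset.card_compl, Finset.card_singleton, Fintype.card_fin]
  have h4b : ∑ i, t i ≤ 4 * t b := by
    have h := Finset.sum_le_card_nsmul (univ : Finset (Fin 4)) t (t b) (fun i _ => hb i)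
    rw [Finset.card_univ, Fintype.card_fin, nsmul_eq_mul] at h
    push_cast at h
    exact h
  have h3 : (3 : ℝ) * (341 / 1000) ≤ ∑ i ∈ ({b} : Finset (Fin 4))ᶜ, t i := by
    have h := Finset.card_nsmul_le_sum (({b} : Finset (Fin 4))ᶜ) t (341 / 1000) (fun i _ => ht i)
    rw [hcard, nsmul_eq_mul] at h
    push_cast at h
    exact h
  have hb1 := htot {b}
  rw [Finset.sum_singleton] at hb1
  by_cases h1 : 1 + 1 / 1000 ≤ t b
  · refine ⟨{b}, ?_, ?_⟩
    · rw [Finset.sum_singleton]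
      exact h1
    · linarith
  · push Not at h1
    have hne : (({b} : Finset (Fin 4))ᶜ).Nonempty := by
      rw [← Finset.card_pos, hcard]
      norm_num
    obtain ⟨i, hi, hmin⟩ := Finset.exists_min_image (({b} : Finset (Fin 4))ᶜ) t hne
    have hib : i ≠ b := by
      rw [Finset.mem_compl, Finset.mem_singleton] at hi
      exact hi
    have h3i : 3 * t i ≤ ∑ j ∈ ({b} : Finset (Fin 4))ᶜ, t j := by
      have h := Finset.card_nsmul_le_sum (({b} : Finset (Fin 4))ᶜ) t (t i) (fun j hj => hmin j hj)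
      rw [hcard, nsmul_eq_mul] at h
      push_cast at h
      exact h
    have hsum : ∑ j ∈ ({b, i} : Finset (Fin 4)), t j = t b + t i :=
      Finset.sum_pair hib.symm
    have hbi := htot {b, i}
    rw [hsum] at hbi
    refine ⟨{b, i}, ?_, ?_⟩
    · rw [hsum]
      have := ht i
      linarith
    · linarith

/-- **CX L4w.** Large conductors in every window for the products of four primes. -/
theorem p_L4w : S_L4w := by
  intro hLBa hcmp hdya hbxp _ hcof hspc A
  obtain ⟨B, hB⟩ := hLBa 4 (A + (4 + 1)) (1 / 1000) (by norm_num)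
  refine ⟨B, ?_⟩
  have hL : Tendsto (fun J : ℕ => Real.log (J : ℝ)) atTop atTop :=
    Real.tendsto_log_atTop.comp tendsto_natCast_atTop_atTop
  filter_upwards [hB, LB_log 4, eventually_ge_atTop 2,
    hL.eventually_ge_atTop (max 1 (1000 * ((4 + 1) * Real.log 2 + Real.log 27)))]
    with J hJB hlog hJ2 hJL R hR1 hR2 j hj
  have hJ0 : (0 : ℝ) < J := by positivity
  have hJ1 : (1 : ℝ) < J := by exact_mod_cast (show 1 < J by omega)
  have hL1 : (1 : ℝ) ≤ Real.log J := (le_max_left _ _).trans hJL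
  have hL2 : 1000 * ((4 + 1) * Real.log 2 + Real.log 27) ≤ Real.log J := (le_max_right _ _).trans hJL
  have hL0 : (0 : ℝ) < Real.log J := by linarith
  have hlog2 : 0 < Real.log 2 := Real.log_pos (by norm_num)
  have hlog27 : 0 < Real.log 27 := Real.log_pos (by norm_num)
  set X : ℕ := 27 * J ^ 3 with hXdef
  set f : Fin 4 → ArithmeticFunction ℂ := fun i => LB_f (zx J) (hx 4 J) X with hf
  set w : (Σ q, DirichletCharacter ℂ q) → ℕ → ℂ :=
    fun p n => p.2 (n : ZMod p.1) * (wJ J j n : ℂ) with hw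
  -- the sum in terms of the product
  have hS : ∀ p : (Σ q, DirichletCharacter ℂ q),
      Sf (fun n => bx 4 (fun _ => zx J) (fun _ => hx 4 J) n) J j p.2 = ∑ n ∈ Icc 1 X, (∏ i, f i) n * w p n := by
    intro p
    rw [Sf]
    refine sum_congr rfl fun n hn => ?_
    obtain ⟨hn1, hn2⟩ := mem_Icc.1 hn
    rw [hbxp 4 (fun _ => zx J) (fun _ => hx 4 J) n hn1]
    have h1 : (∏ _i : Fin 4, pI (zx J) (hx 4 J)) n = (∏ i, f i) n := by
      refine LB_prod_congr Finset.univ _ _ X (fun i _ m hm => ?_) n hn2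
      rw [hf]
      show pI (zx J) (hx 4 J) m = LB_f (zx J) (hx 4 J) X m
      rw [LB_f_apply, if_pos hm]
    rw [h1, hw, mul_assoc]
  have hS' : ∑ p ∈ primChars R, ‖Sf (Bx 4 J) J j p.2‖ =
      ∑ p ∈ primChars R, ‖∑ n ∈ Icc 1 X, (∏ i, f i) n * w p n‖ :=
    sum_congr rfl fun p _ => congrArg _ (hS p)
  rw [hS']
  have hK0 : (0 : ℝ) ≤ (R : ℝ) * (J : ℝ) ^ 2 / (Real.log J) ^ (A + (4 + 1)) := by positivity
  have hmain : ∀ e : Fin 4 → ℕ, ∑ p ∈ primChars R,
      ‖∑ n ∈ Icc 1 X, (∏ i, cut (f i) (e i)) n * w p n‖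
        ≤ (R : ℝ) * (J : ℝ) ^ 2 / (Real.log J) ^ (A + (4 + 1)) := by
    intro e
    -- if all terms vanish
    have hzero : (∀ n ∈ Icc 1 X, (∏ i, cut (f i) (e i)) n ≠ 0 → (wJ J j n : ℂ) = 0) →
        ∑ p ∈ primChars R, ‖∑ n ∈ Icc 1 X, (∏ i, cut (f i) (e i)) n * w p n‖
          ≤ (R : ℝ) * (J : ℝ) ^ 2 / (Real.log J) ^ (A + (4 + 1)) := by
      intro h
      rw [sum_eq_zero]
      · exact hK0
      · intro p _
        rw [norm_eq_zero]
        refine sum_eq_zero fun n hn => ?_
        by_cases h1 : (∏ i, cut (f i) (e i)) n = 0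
        · rw [h1, zero_mul]
        · rw [hw]
          show _ * (p.2 (n : ZMod p.1) * (wJ J j n : ℂ)) = 0
          rw [h n hn h1, mul_zero, mul_zero]
    set N : Fin 4 → ℝ := fun i => 2 ^ (e i + 1) with hN
    have hbd : ∀ i, Bd (cut (f i) (e i)) (N i) := fun i => LB_bd _ _ _ _
    obtain ⟨C, hC⟩ := hcof 4
    have hsup := (hC (fun i => cut (f i) (e i)) N hbd Finset.univ).2.1
    by_cases hc1 : ∃ i, cut (f i) (e i) = 0
    · obtain ⟨i, hi0⟩ := hc1
      refine hzero fun n _ h => absurd ?_ h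
      rw [prod_eq_zero (mem_univ i) hi0]
      rfl
    push Not at hc1
    by_cases hc2 : 2 ^ (4 + 1) * ∏ i, N i < (J : ℝ) ^ 3
    · refine hzero fun n hn h => ?_
      have h1 := (hsup n h).2
      by_contra hne
      have hne' : wJ J j n ≠ 0 := fun h0 => hne (by rw [h0]; norm_num)
      have h2 := ((hspc J (by omega)).2.1 j hj n (mem_Icc.1 hn).1 hne').1
      have h3 : J ^ 3 < n := lt_of_le_of_lt (Nat.pow_le_pow_left (mem_Ioc.1 hj).1.le 3) h2
      have h4 : ((J : ℝ) ^ 3) < n := by exact_mod_cast h3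
      have h5 : (0 : ℝ) < n := by linarith [pow_pos hJ0 3]
      have h6 : (2 : ℝ) ^ (4 + 1) * ∏ i, N i = 2 * (2 ^ 4 * ∏ i, N i) := by ring
      linarith
    push Not at hc2
    by_cases hc3 : 2 ^ 4 * (27 * (J : ℝ) ^ 3) < ∏ i, N i
    · refine hzero fun n hn h => ?_
      have h1 := (hsup n h).1
      have h2 : ((n : ℕ) : ℝ) ≤ 27 * (J : ℝ) ^ 3 := by
        have := (mem_Icc.1 hn).2
        rw [hXdef] at this
        exact_mod_cast this
      have h3 : (2 : ℝ) ^ 4 * (n : ℝ) ≤ 2 ^ 4 * (27 * (J : ℝ) ^ 3) := by gcongr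
      linarith
    push Not at hc3
    -- the main case
    have hNpos : ∀ i, 0 < N i := fun i => by rw [hN]; positivity
    set t : Fin 4 → ℝ := fun i => Real.log (N i) / Real.log J with ht
    have hJt : ∀ S : Finset (Fin 4), (J : ℝ) ^ (∑ i ∈ S, t i) = ∏ i ∈ S, N i := by
      intro S
      rw [Real.rpow_def_of_pos hJ0, mul_sum, Real.exp_sum]
      refine prod_congr rfl fun i _ => ?_
      rw [ht]
      show Real.exp (Real.log J * (Real.log (N i) / Real.log J)) = N i
      rw [mul_div_cancel₀ _ hL0.ne', Real.exp_log (hNpos i)]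
    have hsum : ∑ i, t i = Real.log (∏ i, N i) / Real.log J := by
      rw [Real.log_prod (fun i _ => (hNpos i).ne'), sum_div]
    have hprod0 : 0 < ∏ i, N i := prod_pos fun i _ => hNpos i
    have ht1 : ∀ i, 341 / 1000 ≤ t i := by
      intro i
      have h1 := (LB_ne _ _ _ _ (hc1 i)).1
      have h2 : (J : ℝ) ^ (171 / 500 : ℝ) ≤ N i := by
        refine le_trans (le_of_eq ?_) h1
        rw [zx]
      have h3 := Real.log_le_log (Real.rpow_pos_of_pos hJ0 _) h2
      rw [Real.log_rpow hJ0] at h3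
      rw [ht]
      show 341 / 1000 ≤ Real.log (N i) / Real.log J
      rw [le_div_iff₀ hL0]
      linarith
    have hs1 : 3 - 1 / 1000 ≤ ∑ i, t i := by
      rw [hsum, le_div_iff₀ hL0]
      have h3 := Real.log_le_log (by positivity) hc2
      rw [Real.log_pow, Real.log_mul (by positivity) hprod0.ne', Real.log_pow] at h3
      push_cast at h3
      nlinarith
    have hs2 : ∑ i, t i ≤ 3 + 1 / 1000 := by
      rw [hsum, div_le_iff₀ hL0]
      have h3 := Real.log_le_log hprod0 hc3
      rw [Real.log_mul (by positivity) (by positivity), Real.log_mul (by norm_num) (by positivity),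
        Real.log_pow, Real.log_pow] at h3
      push_cast at h3
      nlinarith
    obtain ⟨S, hS1, hS2⟩ := hcmp t ht1 hs1 hs2
    have hlba := hJB R hR1 hR2 j hj (fun i => cut (f i) (e i)) N hbd hc3 S
      (by
        rw [← hJt]
        exact Real.rpow_le_rpow_of_exponent_le hJ1.le hS1)
      (by
        rw [← hJt]
        exact Real.rpow_le_rpow_of_exponent_le hJ1.le hS2)
    refine le_trans (le_of_eq ?_) hlba
    refine sum_congr rfl fun p _ => ?_
    rw [Wf]
    refine congrArg _ (sum_congr rfl fun n _ => ?_)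
    rw [hw, mul_assoc]
  have hfs : ∀ i n, f i n ≠ 0 → n ≤ X := by
    intro i n h
    by_contra hcon
    apply h
    rw [hf]
    show LB_f (zx J) (hx 4 J) X n = 0
    rw [LB_f_apply, if_neg hcon]
  refine (hdya 4 X _ (primChars R) w _ f hK0 hfs hmain).trans ?_
  calc ((Nat.log 2 X + 1 : ℕ) : ℝ) ^ 4 * ((R : ℝ) * (J : ℝ) ^ 2 / (Real.log J) ^ (A + (4 + 1)))
      ≤ (Real.log J) ^ (4 + 1) * ((R : ℝ) * (J : ℝ) ^ 2 / (Real.log J) ^ (A + (4 + 1))) := by
        gcongr
    _ = (R : ℝ) * (J : ℝ) ^ 2 / (Real.log J) ^ A := by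
        rw [pow_add (Real.log J) A (4 + 1)]
        field_simp

end Pool.Agent.CX
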