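import Pool.Agent.Lib.MP_d610d0_nt.CX.Stm

set_option autoImplicit false

/-!
Piece LBx.
-/

namespace Pool.Agent.CX

open Finset Filter
open ArithmeticFunction (vonMangoldt)
open Pool.Agent.MP89da58 (tri primChars)
open Pool.Agent.CH (zJ wJ wL Rough VV Wt dsum thP EE)
open Pool.Agent.CH.V (pz ex)
open Pool.Agent.CH.D (xj kap dp Sf FL FT R_kf R_kb R_spc R_bil R_vau R_pp R_pwp R_grp R_cfs)
open Pool.Agent.CA (bx LCw)

/-- A sum over the divisors as a double sum. -/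
private theorem LBx_conv (X : ℕ) (g : ℕ → ℕ → ℂ)
    (hg : ∀ m k, 1 ≤ m → 1 ≤ k → X < m * k → g m k = 0) :
    ∑ n ∈ Icc 1 X, ∑ d ∈ n.divisors, g d (n / d) = ∑ m ∈ Icc 1 X, ∑ k ∈ Icc 1 X, g m k := by
  have hI : Icc 1 X = Ioc 0 X := by
    ext x
    simp only [mem_Icc, mem_Ioc]
    omega
  have h1 : ∀ n ∈ Icc 1 X, ∑ d ∈ n.divisors, g d (n / d) =
      ∑ x ∈ Icc 1 X ×ˢ Icc 1 X, if x.1 * x.2 = n then g x.1 x.2 else 0 := by
    intro n hn
    rw [mem_Icc] at hn
    rw [← Nat.sum_divisorsAntidiagonal (fun a b => g a b),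
      Nat.divisorsAntidiagonal_eq_prod_filter_of_le (by omega) hn.2, sum_filter, hI]
  rw [sum_congr rfl h1, sum_comm, sum_product]
  apply sum_congr rfl
  intro m hm
  apply sum_congr rfl
  intro k hk
  rw [mem_Icc] at hm hk
  rw [Finset.sum_ite_eq]
  split_ifs with h
  · rfl
  · have h2 : 1 ≤ m * k := Nat.mul_pos (by omega) (by omega)
    have h3 : X < m * k := by
      by_contra h4
      push Not at h4
      exact h (mem_Icc.2 ⟨h2, h4⟩)
    exact (hg m k (by omega) (by omega) h3).symm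

open Classical in
/-- The indicator function of the primes in `[zx J, hx (k+1) J]`. -/
private noncomputable def LBx_s (k J n : ℕ) : ℝ :=
  if n.Prime ∧ zx J ≤ (n : ℝ) ∧ (n : ℝ) ≤ hx (k + 1) J then 1 else 0

/-- The products of the other primes. -/
private noncomputable def LBx_b (k J n : ℕ) : ℝ := bx k (fun _ => zx J) (fun _ => hx (k + 1) J) n

theorem p_LBx : S_LBx := by
  intro hblk hdya hsp1 hspc k0 hk0
  rw [mem_Icc] at hk0
  obtain ⟨k, rfl⟩ : ∃ k, k0 = k + 1 := ⟨k0 - 1, by omega⟩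
  have hk7 : k ≤ 7 := by omega
  have hB := hblk 6
  have hL : ∀ᶠ J : ℕ in atTop, (5040 : ℝ) ≤ Real.log J :=
    (Real.tendsto_log_atTop.comp tendsto_natCast_atTop_atTop).eventually_ge_atTop 5040
  have hU : ∀ᶠ J : ℕ in atTop, (J : ℝ) ^ (209 / 1000 : ℝ) + 1 ≤ (J : ℝ) ^ (1 / 3 : ℝ) := by
    have h1 : Tendsto (fun J : ℕ => (J : ℝ) ^ (1 / 3 - 209 / 1000 : ℝ)) atTop atTop :=
      (tendsto_rpow_atTop (by norm_num)).comp tendsto_natCast_atTop_atTop
    filter_upwards [h1.eventually_ge_atTop 2, eventually_ge_atTop 1] with J hJ hJ1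
    have hJ0 : (1 : ℝ) ≤ J := by exact_mod_cast hJ1
    have h2 : (J : ℝ) ^ (1 / 3 : ℝ) =
        (J : ℝ) ^ (209 / 1000 : ℝ) * (J : ℝ) ^ (1 / 3 - 209 / 1000 : ℝ) := by
      rw [← Real.rpow_add (by linarith)]
      norm_num
    have h3 : (1 : ℝ) ≤ (J : ℝ) ^ (209 / 1000 : ℝ) := Real.one_le_rpow hJ0 (by norm_num)
    rw [h2]
    nlinarith
  have hlog : ∀ᶠ J : ℕ in atTop, (Real.log J) ^ 5 ≤ (J : ℝ) ^ (3 / 10000 : ℝ) := by
    have h1 := (isLittleO_log_rpow_rpow_atTop (s := (3 / 10000 : ℝ)) 5 (by norm_num)).bound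
      (show (0 : ℝ) < 1 by norm_num)
    filter_upwards [tendsto_natCast_atTop_atTop.eventually h1, hL, eventually_ge_atTop 1]
      with J hJ hL hJ1
    rw [one_mul, Real.norm_of_nonneg (by positivity), Real.norm_of_nonneg (by positivity)] at hJ
    have h5 : (Real.log (J : ℝ)) ^ (5 : ℝ) = (Real.log J) ^ 5 := by
      exact_mod_cast Real.rpow_natCast (Real.log J) 5
    rw [h5] at hJ
    exact hJ
  filter_upwards [hB, hdya, hL, hU, hlog, eventually_ge_atTop 28] with J hB hdya hL hU hlog hJ28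
  intro R hR1 hR2 th hth
  obtain ⟨_, hsp, _⟩ := hspc J (by omega)
  have hJ0 : (1 : ℝ) ≤ J := by
    have : 1 ≤ J := by omega
    exact_mod_cast this
  have hJ1 : (1 : ℝ) < J := by
    have : 1 < J := by omega
    exact_mod_cast this
  have hL0 : 0 < Real.log J := by linarith
  have hL1 : 1 ≤ Real.log J := by linarith
  have hfac : ((k.factorial : ℕ) : ℝ) ≤ 5040 := by
    have h1 : k.factorial ≤ (7 : ℕ).factorial := Nat.factorial_le hk7
    have h2 : (7 : ℕ).factorial = 5040 := by decide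
    rw [h2] at h1
    exact_mod_cast h1
  have hβ : ∀ n : ℕ, 1 ≤ n → |LBx_b k J n| ≤ 5040 := by
    intro n hn
    obtain ⟨⟨h1, h2⟩, _⟩ := hsp1 k (zx J) (hx (k + 1) J) n hn
    unfold LBx_b
    rw [abs_of_nonneg h1]
    exact h2.trans hfac
  have hβ2 : ∀ n : ℕ, 1 ≤ n → Bx (k + 1) J n =
      ∑ d ∈ n.divisors, LBx_s k J d * LBx_b k J (n / d) := by
    intro n hn
    obtain ⟨_, h1⟩ := hsp1 k (zx J) (hx (k + 1) J) n hn
    exact h1
  -- the window is below `27 J^3`
  have hwin : ∀ j ∈ Ioc J (2 * J), ∀ n : ℕ, 1 ≤ n → wJ J j n ≠ 0 → J ^ 3 < n ∧ n < 27 * J ^ 3 := by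
    intro j hj n hn hw
    obtain ⟨h1, h2⟩ := hsp j hj n hn hw
    rw [mem_Ioc] at hj
    have h3 : J ^ 3 ≤ j ^ 3 := Nat.pow_le_pow_left (by omega) 3
    have h4 : (j + 1) ^ 3 ≤ (3 * J) ^ 3 := Nat.pow_le_pow_left (by omega) 3
    have h5 : (3 * J) ^ 3 = 27 * J ^ 3 := by ring
    omega
  obtain ⟨f, hf⟩ : ∃ f : ℕ → ℕ → ℕ → ℂ, f = fun j m n => ∑ p ∈ primChars R, th p *
      ((LBx_s k J m : ℂ) * (LBx_b k J n : ℂ) * p.2 ((m * n : ℕ) : ZMod p.1) *
        (wJ J j (m * n) : ℂ)) :=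
    ⟨_, rfl⟩
  -- nonzero terms
  have hfne : ∀ j ∈ Ioc J (2 * J), ∀ m n : ℕ, 1 ≤ m → 1 ≤ n → f j m n ≠ 0 →
      LBx_s k J m ≠ 0 ∧ wJ J j (m * n) ≠ 0 := by
    intro j hj m n hm hn h
    constructor
    · intro h0
      apply h
      rw [hf]
      apply sum_eq_zero
      intro p _
      rw [h0]
      push_cast
      ring
    · intro h0
      apply h
      rw [hf]
      apply sum_eq_zero
      intro p _
      rw [h0]
      push_cast
      ring
  have key : ∀ j ∈ Ioc J (2 * J), ∑ p ∈ primChars R, th p * Sf (Bx (k + 1) J) J j p.2 =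
      ∑ m ∈ Icc 1 (27 * J ^ 3), ∑ n ∈ Icc 1 (27 * J ^ 3), f j m n := by
    intro j hj
    have h1 : ∀ p ∈ primChars R, th p * Sf (Bx (k + 1) J) J j p.2 =
        ∑ m ∈ Icc 1 (27 * J ^ 3), ∑ n ∈ Icc 1 (27 * J ^ 3), th p *
          ((LBx_s k J m : ℂ) * (LBx_b k J n : ℂ) * p.2 ((m * n : ℕ) : ZMod p.1) *
            (wJ J j (m * n) : ℂ)) := by
      intro p _
      obtain ⟨g, hg⟩ : ∃ g : ℕ → ℕ → ℂ, g = fun m n : ℕ => (LBx_s k J m : ℂ) * (LBx_b k J n : ℂ) *
          p.2 ((m * n : ℕ) : ZMod p.1) * (wJ J j (m * n) : ℂ) := ⟨_, rfl⟩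
      have h2 : Sf (Bx (k + 1) J) J j p.2 =
          ∑ n ∈ Icc 1 (27 * J ^ 3), ∑ d ∈ n.divisors, g d (n / d) := by
        unfold Sf
        apply sum_congr rfl
        intro n hn
        rw [mem_Icc] at hn
        rw [hβ2 n hn.1, Complex.ofReal_sum, sum_mul, sum_mul]
        apply sum_congr rfl
        intro d hd
        have h3 : d * (n / d) = n := Nat.mul_div_cancel' (Nat.dvd_of_mem_divisors hd)
        rw [hg]
        show _ = (LBx_s k J d : ℂ) * (LBx_b k J (n / d) : ℂ) *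
            p.2 ((d * (n / d) : ℕ) : ZMod p.1) * (wJ J j (d * (n / d)) : ℂ)
        rw [h3, Complex.ofReal_mul]
      rw [h2, LBx_conv, mul_sum]
      · apply sum_congr rfl
        intro m _
        rw [mul_sum, hg]
      · intro m n hm hn hmn
        have h4 : wJ J j (m * n) = 0 := by
          by_contra h5
          have h6 := hwin j hj (m * n) (Nat.mul_pos (by omega) (by omega)) h5
          omega
        rw [hg]
        show (LBx_s k J m : ℂ) * (LBx_b k J n : ℂ) * p.2 ((m * n : ℕ) : ZMod p.1) *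
          (wJ J j (m * n) : ℂ) = 0
        rw [h4]
        push_cast
        ring
    rw [sum_congr rfl h1, sum_comm]
    apply sum_congr rfl
    intro m _
    rw [sum_comm]
    apply sum_congr rfl
    intro n _
    rw [hf]
  rw [sum_congr rfl (fun j hj => by rw [key j hj])]
  have hK : 0 ≤ (R : ℝ) ^ 2 * (J : ℝ) ^ (47992 / 10000 : ℝ) := by positivity
  have hfl : (J : ℝ) ^ (209 / 1000 : ℝ) ≤ ⌊(J : ℝ) ^ (1 / 3 : ℝ)⌋₊ := by
    have h1 : (J : ℝ) ^ (1 / 3 : ℝ) < ⌊(J : ℝ) ^ (1 / 3 : ℝ)⌋₊ + 1 := Nat.lt_floor_add_one _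
    linarith
  have hfl2 : (J : ℝ) ^ (209 / 1000 : ℝ) ≤ ⌊(J : ℝ) ^ (1 / 2 : ℝ)⌋₊ := by
    have h1 : (J : ℝ) ^ (1 / 2 : ℝ) < ⌊(J : ℝ) ^ (1 / 2 : ℝ)⌋₊ + 1 := Nat.lt_floor_add_one _
    have h2 : (J : ℝ) ^ (1 / 3 : ℝ) ≤ (J : ℝ) ^ (1 / 2 : ℝ) :=
      Real.rpow_le_rpow_of_exponent_le hJ0 (by norm_num)
    linarith
  have hU1 : 1 ≤ ⌊(J : ℝ) ^ (1 / 3 : ℝ)⌋₊ := by
    rw [Nat.le_floor_iff (by positivity)]
    push_cast
    exact Real.one_le_rpow hJ0 (by norm_num)
  have hV1 : 1 ≤ ⌊(J : ℝ) ^ (1 / 2 : ℝ)⌋₊ := by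
    rw [Nat.le_floor_iff (by positivity)]
    push_cast
    exact Real.one_le_rpow hJ0 (by norm_num)
  have hmain := hdya ⌊(J : ℝ) ^ (1 / 3 : ℝ)⌋₊ ⌊(J : ℝ) ^ (1 / 2 : ℝ)⌋₊ f _ hU1 hV1 hK ?_ ?_
  · refine hmain.trans ?_
    have h1 : (J : ℝ) ^ (47995 / 10000 : ℝ) =
        (J : ℝ) ^ (3 / 10000 : ℝ) * (J : ℝ) ^ (47992 / 10000 : ℝ) := by
      rw [← Real.rpow_add (by linarith)]
      norm_num
    have h2 : 0 ≤ (J : ℝ) ^ (47992 / 10000 : ℝ) := by positivity
    calc Real.log J ^ 5 * ((R : ℝ) ^ 2 * (J : ℝ) ^ (47992 / 10000 : ℝ))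
        ≤ (J : ℝ) ^ (3 / 10000 : ℝ) * ((R : ℝ) ^ 2 * (J : ℝ) ^ (47992 / 10000 : ℝ)) :=
          mul_le_mul_of_nonneg_right hlog hK
      _ = (R : ℝ) ^ 2 * (J : ℝ) ^ (47995 / 10000 : ℝ) := by rw [h1]; ring
  · -- support
    intro j hj m n hm hn hfn
    obtain ⟨hs, hw⟩ := hfne j hj m n hm hn hfn
    obtain ⟨h1, h2⟩ := hwin j hj (m * n) (Nat.mul_pos (by omega) (by omega)) hw
    have hs' : m.Prime ∧ zx J ≤ (m : ℝ) ∧ (m : ℝ) ≤ hx (k + 1) J := by
      by_contra h3
      apply hs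
      unfold LBx_s
      rw [if_neg h3]
    obtain ⟨_, hz, hm2⟩ := hs'
    refine ⟨?_, ?_, by omega, h2⟩
    · have h3 : (J : ℝ) ^ (1 / 3 : ℝ) < m := by
        refine lt_of_lt_of_le ?_ hz
        unfold zx
        exact Real.rpow_lt_rpow_of_exponent_lt hJ1 (by norm_num)
      exact (Nat.floor_lt (by positivity)).2 h3
    · have hm3 : (m : ℝ) ≤ (J : ℝ) ^ (2 : ℝ) := by
        refine hm2.trans ?_
        unfold hx
        split_ifs
        · exact le_refl _
        · exact Real.rpow_le_rpow_of_exponent_le hJ0 (by norm_num)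
      have h3 : (J : ℝ) ^ (1 / 2 : ℝ) < n := by
        by_contra h3
        push Not at h3
        have h4 : (m : ℝ) * n ≤ (J : ℝ) ^ (2 : ℝ) * (J : ℝ) ^ (1 / 2 : ℝ) :=
          mul_le_mul hm3 h3 (Nat.cast_nonneg n) (by positivity)
        rw [← Real.rpow_add (by linarith)] at h4
        have h5 : (J : ℝ) ^ (2 + 1 / 2 : ℝ) ≤ (J : ℝ) ^ (3 : ℝ) :=
          Real.rpow_le_rpow_of_exponent_le hJ0 (by norm_num)
        have h6 : (J : ℝ) ^ (3 : ℝ) = (J : ℝ) ^ 3 := by
          exact_mod_cast Real.rpow_natCast (J : ℝ) 3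
        have h7 : ((J ^ 3 : ℕ) : ℝ) < ((m * n : ℕ) : ℝ) := by exact_mod_cast h1
        rw [Nat.cast_pow, Nat.cast_mul] at h7
        exact absurd (h7.trans_le (h4.trans (h5.trans h6.le))) (lt_irrefl _)
      exact (Nat.floor_lt (by positivity)).2 h3
  · -- blocks
    intro M N hM hN _ hMN
    have hb := hB R M N (fun m => if M < m then (LBx_s k J m : ℂ) else 0)
      (fun n => if N < n then (LBx_b k J n : ℂ) else 0) th hR1 hR2 hth ?_ ?_
      (by exact_mod_cast hMN) ?_ ?_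
    · refine le_trans (le_of_eq ?_) hb
      apply sum_congr rfl
      intro j _
      congr 2
      have hIM : ∀ K : ℕ, Ioc K (2 * K) = (Icc 1 (2 * K)).filter (fun x => K < x) := by
        intro K
        ext x
        simp only [mem_Ioc, mem_filter, mem_Icc]
        omega
      have h1 : ∀ p ∈ primChars R, th p * ∑ m ∈ Icc 1 (2 * M), ∑ n ∈ Icc 1 (2 * N),
          (if M < m then (LBx_s k J m : ℂ) else 0) * (if N < n then (LBx_b k J n : ℂ) else 0) *
            p.2 ((m * n : ℕ) : ZMod p.1) * (wJ J j (m * n) : ℂ) =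
          ∑ m ∈ Ioc M (2 * M), ∑ n ∈ Ioc N (2 * N), th p *
            ((LBx_s k J m : ℂ) * (LBx_b k J n : ℂ) * p.2 ((m * n : ℕ) : ZMod p.1) *
              (wJ J j (m * n) : ℂ)) := by
        intro p _
        rw [hIM M, sum_filter, mul_sum]
        apply sum_congr rfl
        intro m _
        split_ifs with hm
        · rw [hIM N, sum_filter, mul_sum]
          apply sum_congr rfl
          intro n _
          split_ifs with hn
          · rfl
          · ring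
        · simp
      rw [sum_congr rfl h1]
      symm
      rw [sum_comm]
      apply sum_congr rfl
      intro m _
      rw [sum_comm]
      apply sum_congr rfl
      intro n _
      rw [hf]
    · have h2 : ((⌊(J : ℝ) ^ (1 / 3 : ℝ)⌋₊ : ℕ) : ℝ) ≤ M := by exact_mod_cast hM
      linarith
    · have h2 : ((⌊(J : ℝ) ^ (1 / 2 : ℝ)⌋₊ : ℕ) : ℝ) ≤ N := by exact_mod_cast hN
      linarith
    · have h1 : ∀ m ∈ Icc 1 (2 * M), ‖(if M < m then (LBx_s k J m : ℂ) else 0)‖ ^ 2 ≤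
          if M < m then (1 : ℝ) else 0 := by
        intro m _
        split_ifs with hm
        · unfold LBx_s
          split_ifs <;> simp
        · simp
      refine (sum_le_sum h1).trans ?_
      rw [← sum_filter, sum_const, nsmul_eq_mul, mul_one]
      have h2 : ((Icc 1 (2 * M)).filter (fun m => M < m)).card ≤ M := by
        have h3 : (Icc 1 (2 * M)).filter (fun m => M < m) ⊆ Ioc M (2 * M) := by
          intro x
          simp only [mem_filter, mem_Icc, mem_Ioc]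
          omega
        have h4 := card_le_card h3
        rw [Nat.card_Ioc] at h4
        omega
      have h3 : (((Icc 1 (2 * M)).filter (fun m => M < m)).card : ℝ) ≤ M := by exact_mod_cast h2
      refine h3.trans ?_
      exact le_mul_of_one_le_right (Nat.cast_nonneg M) (one_le_pow₀ hL1)
    · have h1 : ∀ n ∈ Icc 1 (2 * N), ‖(if N < n then (LBx_b k J n : ℂ) else 0)‖ ^ 2 ≤
          if N < n then ((5040 : ℝ) ^ 2) else 0 := by
        intro n hn1
        rw [mem_Icc] at hn1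
        split_ifs with hn
        · rw [Complex.norm_real, Real.norm_eq_abs]
          exact pow_le_pow_left₀ (abs_nonneg _) (hβ n hn1.1) 2
        · simp
      refine (sum_le_sum h1).trans ?_
      rw [← sum_filter, sum_const, nsmul_eq_mul]
      have h2 : ((Icc 1 (2 * N)).filter (fun m => N < m)).card ≤ N := by
        have h3 : (Icc 1 (2 * N)).filter (fun m => N < m) ⊆ Ioc N (2 * N) := by
          intro x
          simp only [mem_filter, mem_Icc, mem_Ioc]
          omega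
        have h4 := card_le_card h3
        rw [Nat.card_Ioc] at h4
        omega
      have h3 : (((Icc 1 (2 * N)).filter (fun m => N < m)).card : ℝ) ≤ N := by exact_mod_cast h2
      have h4 : (5040 : ℝ) ^ 2 ≤ Real.log J ^ 6 := by
        have h5 : (5040 : ℝ) ^ 2 ≤ Real.log J ^ 2 := pow_le_pow_left₀ (by norm_num) hL 2
        exact h5.trans (pow_le_pow_right₀ hL1 (by norm_num))
      exact mul_le_mul h3 h4 (by positivity) (Nat.cast_nonneg N)

end Pool.Agent.CX
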