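import Pool.Agent.Lib.MP_d610d0_nt.CX.Stm
import Pool.Agent.Lib.MP_d610d0_nt.CH.D.p_LL

set_option autoImplicit false

/-!
Piece LLx.
-/

namespace Pool.Agent.CX

open Finset Filter
open ArithmeticFunction (vonMangoldt)
open Pool.Agent.MP89da58 (tri primChars)
open Pool.Agent.CH (zJ wJ wL Rough VV Wt dsum thP EE)
open Pool.Agent.CH.D (xj kap dp Sf FL FT R_kf R_kb R_spc R_bil R_vau R_pp R_pwp R_grp R_cfs
  LL_w LL_sup LL_f LL_supp LL_ne_one LL_big)

/-- Powers of `log J` against small powers of `J`. -/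
private theorem LLx_log (k : ℕ) :
    ∀ᶠ J : ℕ in atTop, (Real.log J) ^ k ≤ (J : ℝ) ^ (1 / 10000 : ℝ) := by
  have h := isLittleO_log_rpow_rpow_atTop (s := (1 / 10000 : ℝ)) (k : ℝ) (by norm_num)
  have h2 := h.bound (show (0 : ℝ) < 1 by norm_num)
  have h3 := tendsto_natCast_atTop_atTop (R := ℝ) |>.eventually h2
  filter_upwards [h3, eventually_ge_atTop 1] with J hJ h1
  have hl : 0 ≤ Real.log J := Real.log_natCast_nonneg J
  rw [one_mul, Real.rpow_natCast, Real.norm_of_nonneg (pow_nonneg hl _),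
    Real.norm_of_nonneg (Real.rpow_nonneg (Nat.cast_nonneg _) _)] at hJ
  exact hJ

private theorem LLx_prim {R : ℕ} {p : Σ q, DirichletCharacter ℂ q} (hp : p ∈ primChars R) :
    p.2.IsPrimitive := by
  classical
  rw [primChars, mem_sigma, mem_filter, mem_Icc] at hp
  exact hp.2.2

/-- The type I sums. -/
private theorem LLx_typeI (htI : R_tIx) (X U V J j r : ℕ) (χ : DirichletCharacter ℂ r)
    (c d : ℕ → ℝ)
    (K ρ : ℝ) (hJ : 1 ≤ J) (hj : j ∈ Ioc J (2 * J)) (hr : 2 ≤ r) (hχ : χ.IsPrimitive) (hU : 1 ≤ U)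
    (hρ0 : 0 ≤ ρ) (hρ : Real.sqrt r * (1 + Real.log r) ≤ ρ)
    (hK : Real.log (X + 1) ≤ K) (hK2 : Real.log ((U * V : ℕ) : ℝ) ≤ K)
    (hc1 : ∀ n, |c n| ≤ 1) (hc0 : ∀ n, V < n → c n = 0)
    (hd1 : ∀ n, 1 ≤ n → |d n| ≤ Real.log n) (hd0 : ∀ n, U * V < n → d n = 0) :
    ‖∑ m ∈ Icc 1 X, ∑ n ∈ Icc 1 X, (c m : ℂ) * (Real.log n : ℂ) * LL_w J j χ (m * n)
      - ∑ m ∈ Icc 1 X, ∑ n ∈ Icc 1 X, (d m : ℂ) * LL_w J j χ (m * n)‖
      ≤ 7 * ρ * ((U * V : ℕ) : ℝ) * K := by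
  have hK0 : 0 ≤ K := le_trans (Real.log_nonneg (by
    have : (0 : ℝ) ≤ X := Nat.cast_nonneg _
    linarith)) hK
  have e1 : ∑ m ∈ Icc 1 X, ∑ n ∈ Icc 1 X, (c m : ℂ) * (Real.log n : ℂ) * LL_w J j χ (m * n)
      = ∑ m ∈ Icc 1 X, (c m : ℂ) * (χ (m : ZMod r) *
        ∑ n ∈ Icc 1 X, χ (n : ZMod r) * (Real.log n : ℂ) * (wJ J j (m * n) : ℂ)) := by
    refine Finset.sum_congr rfl fun m _ => ?_
    rw [Finset.mul_sum, Finset.mul_sum]
    refine Finset.sum_congr rfl fun n _ => ?_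
    unfold LL_w
    rw [Nat.cast_mul, map_mul]
    ring
  have e2 : ∑ m ∈ Icc 1 X, ∑ n ∈ Icc 1 X, (d m : ℂ) * LL_w J j χ (m * n)
      = ∑ m ∈ Icc 1 X, (d m : ℂ) * (χ (m : ZMod r) *
        ∑ n ∈ Icc 1 X, χ (n : ZMod r) * (wJ J j (m * n) : ℂ)) := by
    refine Finset.sum_congr rfl fun m _ => ?_
    rw [Finset.mul_sum, Finset.mul_sum]
    refine Finset.sum_congr rfl fun n _ => ?_
    unfold LL_w
    rw [Nat.cast_mul, map_mul]
    ring
  rw [e1, e2]
  have b1 := LL_sup X V c (fun m => χ (m : ZMod r) *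
        ∑ n ∈ Icc 1 X, χ (n : ZMod r) * (Real.log n : ℂ) * (wJ J j (m * n) : ℂ)) 1 (4 * ρ * K)
    zero_le_one (fun m _ _ => hc1 m) hc0 (fun m hm => by
      show ‖χ (m : ZMod r) *
        ∑ n ∈ Icc 1 X, χ (n : ZMod r) * (Real.log n : ℂ) * (wJ J j (m * n) : ℂ)‖ ≤ _
      rw [norm_mul]
      have h1 := (htI J j m X r χ hJ hj hm hr hχ).2
      have h2 : 4 * (Real.sqrt r * (1 + Real.log r)) * Real.log (X + 1) ≤ 4 * ρ * K := by
        have h0 : 0 ≤ Real.log ((X : ℝ) + 1) := Real.log_nonneg (by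
          have : (0 : ℝ) ≤ X := Nat.cast_nonneg _
          linarith)
        calc 4 * (Real.sqrt r * (1 + Real.log r)) * Real.log (X + 1)
            ≤ 4 * ρ * Real.log (X + 1) :=
              mul_le_mul_of_nonneg_right (by linarith) h0
          _ ≤ 4 * ρ * K := mul_le_mul_of_nonneg_left hK (by positivity)
      have h3 := χ.norm_le_one (m : ZMod r)
      calc _ ≤ 1 * (4 * ρ * K) := mul_le_mul h3 (h1.trans h2) (norm_nonneg _) zero_le_one
        _ = _ := one_mul _)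
  have b2 := LL_sup X (U * V) d (fun m => χ (m : ZMod r) *
        ∑ n ∈ Icc 1 X, χ (n : ZMod r) * (wJ J j (m * n) : ℂ)) K (3 * ρ)
    hK0 (fun m hm1 hm2 => (hd1 m hm1).trans (le_trans (Real.log_le_log
      (by exact_mod_cast hm1) (by exact_mod_cast hm2)) hK2)) hd0 (fun m hm => by
      show ‖χ (m : ZMod r) *
        ∑ n ∈ Icc 1 X, χ (n : ZMod r) * (wJ J j (m * n) : ℂ)‖ ≤ _
      rw [norm_mul]
      have h1 := (htI J j m X r χ hJ hj hm hr hχ).1
      have h3 := χ.norm_le_one (m : ZMod r)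
      calc _ ≤ 1 * (3 * ρ) := mul_le_mul h3 (h1.trans (by linarith)) (norm_nonneg _) zero_le_one
        _ = _ := one_mul _)
  have hVU : (V : ℝ) ≤ ((U * V : ℕ) : ℝ) := by
    exact_mod_cast Nat.le_mul_of_pos_left V (by omega)
  refine (norm_sub_le _ _).trans ((add_le_add b1 b2).trans ?_)
  have h4 : (V : ℝ) * (1 * (4 * ρ * K)) ≤ ((U * V : ℕ) : ℝ) * (4 * ρ * K) := by
    rw [one_mul]
    exact mul_le_mul_of_nonneg_right hVU (by positivity)
  calc (V : ℝ) * (1 * (4 * ρ * K)) + ((U * V : ℕ) : ℝ) * (K * (3 * ρ))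
      ≤ ((U * V : ℕ) : ℝ) * (4 * ρ * K) + ((U * V : ℕ) : ℝ) * (K * (3 * ρ)) := by linarith
    _ = 7 * ρ * ((U * V : ℕ) : ℝ) * K := by ring

/-- One block. -/
private theorem LLx_block (J M N U R : ℕ) (K : ℝ) (e : ℕ → ℝ)
    (th : (Σ q, DirichletCharacter ℂ q) → ℂ)
    (he : ∀ n, |e n| ≤ n.divisors.card)
    (hc : ∀ (a b : ℕ → ℂ),
      ∑ m ∈ Icc 1 (2 * M), ‖a m‖ ^ 2 ≤ M * (Real.log J) ^ 6 →
      ∑ n ∈ Icc 1 (2 * N), ‖b n‖ ^ 2 ≤ N * (Real.log J) ^ 6 →
      ∑ j ∈ Ioc J (2 * J), ‖∑ p ∈ primChars R, th p * ∑ m ∈ Icc 1 (2 * M), ∑ n ∈ Icc 1 (2 * N),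
        a m * b n * p.2 ((m * n : ℕ) : ZMod p.1) * (wJ J j (m * n) : ℂ)‖ ^ 2
        ≤ K)
    (hUM : U ≤ M) (hL : 10 ≤ Real.log J)
    (hM3 : Real.log (2 * M) ≤ 4 * Real.log J) (hN3 : Real.log (2 * N) ≤ 4 * Real.log J) :
    ∑ j ∈ Ioc J (2 * J), ‖∑ m ∈ Ioc M (2 * M), ∑ n ∈ Ioc N (2 * N), LL_f J U R e th j m n‖ ^ 2
      ≤ K := by
  set a' : ℕ → ℂ := fun m => if M < m then (vonMangoldt m : ℂ) else 0 with ha'
  set b' : ℕ → ℂ := fun n => if N < n then (e n : ℂ) else 0 with hb'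
  have hIM : (Icc 1 (2 * M)).filter (fun m => M < m) = Ioc M (2 * M) := by
    ext m; simp only [Finset.mem_filter, Finset.mem_Icc, Finset.mem_Ioc]; omega
  have hIN : (Icc 1 (2 * N)).filter (fun m => N < m) = Ioc N (2 * N) := by
    ext m; simp only [Finset.mem_filter, Finset.mem_Icc, Finset.mem_Ioc]; omega
  have hL0 : 0 < Real.log J := by linarith
  have h := hc a' b' ?_ ?_
  · refine le_trans (le_of_eq ?_) h
    refine Finset.sum_congr rfl fun j _ => ?_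
    congr 2
    have h1 : ∀ p ∈ primChars R, th p * ∑ m ∈ Icc 1 (2 * M), ∑ n ∈ Icc 1 (2 * N),
        a' m * b' n * p.2 ((m * n : ℕ) : ZMod p.1) * (wJ J j (m * n) : ℂ) =
        ∑ m ∈ Ioc M (2 * M), ∑ n ∈ Ioc N (2 * N), th p *
          (((if U < m then vonMangoldt m else 0 : ℝ) : ℂ) * (e n : ℂ) *
            LL_w J j p.2 (m * n)) := by
      intro p _
      rw [← hIM, Finset.sum_filter, Finset.mul_sum]
      refine Finset.sum_congr rfl fun m hm => ?_
      by_cases hMm : M < m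
      · rw [if_pos hMm, if_pos (lt_of_le_of_lt hUM hMm), ← hIN, Finset.sum_filter, Finset.mul_sum]
        refine Finset.sum_congr rfl fun n hn => ?_
        simp only [ha', hb', if_pos hMm, LL_w]
        by_cases hNn : N < n
        · rw [if_pos hNn, if_pos hNn]
          ring
        · rw [if_neg hNn, if_neg hNn]; simp
      · rw [if_neg hMm]
        simp only [ha', if_neg hMm]
        simp
    rw [Finset.sum_congr rfl h1]
    symm
    rw [Finset.sum_comm]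
    refine Finset.sum_congr rfl fun m _ => ?_
    rw [Finset.sum_comm]
    refine Finset.sum_congr rfl fun n _ => ?_
    rfl
  · calc ∑ m ∈ Icc 1 (2 * M), ‖a' m‖ ^ 2 = ∑ m ∈ Ioc M (2 * M), (vonMangoldt m) ^ 2 := by
          rw [← hIM, Finset.sum_filter]
          refine Finset.sum_congr rfl fun m _ => ?_
          simp only [ha']
          split_ifs
          · rw [Complex.norm_real, Real.norm_of_nonneg ArithmeticFunction.vonMangoldt_nonneg]
          · simp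
      _ ≤ ∑ m ∈ Ioc M (2 * M), (4 * Real.log J) ^ 2 := by
          refine Finset.sum_le_sum fun m hm => ?_
          rw [Finset.mem_Ioc] at hm
          refine pow_le_pow_left₀ ArithmeticFunction.vonMangoldt_nonneg ?_ 2
          refine (ArithmeticFunction.vonMangoldt_le_log).trans (le_trans ?_ hM3)
          apply Real.log_le_log (by exact_mod_cast (by omega : 0 < m))
          exact_mod_cast hm.2
      _ = M * (4 * Real.log J) ^ 2 := by
          rw [Finset.sum_const, Nat.card_Ioc, nsmul_eq_mul]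
          congr 2
          omega
      _ ≤ M * (Real.log J) ^ 6 := by
          apply mul_le_mul_of_nonneg_left _ (Nat.cast_nonneg _)
          have h1 : (10 : ℝ) ^ 4 ≤ (Real.log J) ^ 4 := pow_le_pow_left₀ (by norm_num) hL _
          have h2 : 0 ≤ (Real.log J) ^ 2 := by positivity
          nlinarith
  · calc ∑ n ∈ Icc 1 (2 * N), ‖b' n‖ ^ 2 ≤ ∑ n ∈ Icc 1 (2 * N), ((n.divisors.card : ℝ)) ^ 2 := by
          refine Finset.sum_le_sum fun n _ => ?_
          simp only [hb']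
          split_ifs
          · rw [Complex.norm_real, Real.norm_eq_abs]
            exact pow_le_pow_left₀ (abs_nonneg _) (he n) 2
          · simp only [norm_zero]
            exact le_trans (by norm_num) (sq_nonneg _)
      _ ≤ ((2 * N : ℕ) : ℝ) * (1 + Real.log ((2 * N : ℕ) : ℝ)) ^ 3 := Pool.Agent.MP89da58.sum_tau_sq _
      _ ≤ ((2 * N : ℕ) : ℝ) * (5 * Real.log J) ^ 3 := by
          apply mul_le_mul_of_nonneg_left _ (Nat.cast_nonneg _)
          have h0 : 0 ≤ Real.log ((2 * N : ℕ) : ℝ) := Real.log_natCast_nonneg _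
          apply pow_le_pow_left₀ (by linarith)
          push_cast
          linarith
      _ ≤ N * (Real.log J) ^ 6 := by
          push_cast
          have : (10 : ℝ) ^ 3 ≤ (Real.log J) ^ 3 := pow_le_pow_left₀ (by norm_num) hL _
          have h2 : 250 * (Real.log J) ^ 3 ≤ (Real.log J) ^ 6 := by
            have h3 : 0 ≤ (Real.log J) ^ 3 := by positivity
            nlinarith
          have h4 : (0 : ℝ) ≤ N := Nat.cast_nonneg _
          calc 2 * (N : ℝ) * (5 * Real.log J) ^ 3 = N * (250 * (Real.log J) ^ 3) := by ring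
            _ ≤ N * (Real.log J) ^ 6 := mul_le_mul_of_nonneg_left h2 h4

/-- One window. -/
private theorem LLx_window (hspc : R_spc) (htI : R_tIx) (J j U V R : ℕ) (c d e : ℕ → ℝ)
    (th : (Σ q, DirichletCharacter ℂ q) → ℂ) (hth : ∀ p, ‖th p‖ ≤ 1) (y ρ L : ℝ)
    (hJ54 : 54 ≤ J) (hj : j ∈ Ioc J (2 * J)) (hUJ : U ≤ J) (hU1 : 1 ≤ U) (hρ0 : 0 ≤ ρ)
    (hρ : ∀ r : ℕ, 2 ≤ r → r ≤ R → Real.sqrt r * (1 + Real.log r) ≤ ρ) (hy0 : 0 ≤ y)
    (hUVx : ((U * V : ℕ) : ℝ) ≤ y) (hL0 : 0 < L)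
    (hlX : Real.log (((27 * J ^ 3 : ℕ) : ℝ) + 1) ≤ 4 * L)
    (hlUV : Real.log ((U * V : ℕ) : ℝ) ≤ 4 * L)
    (hc1 : ∀ n, |c n| ≤ 1) (hc0 : ∀ n, V < n → c n = 0)
    (hd1 : ∀ n, 1 ≤ n → |d n| ≤ Real.log n) (hd0 : ∀ n, U * V < n → d n = 0)
    (hid : ∀ w : ℕ → ℂ, (∀ n, n ≤ U → w n = 0) → (∀ n, 27 * J ^ 3 < n → w n = 0) →
      ∑ n ∈ Icc 1 (27 * J ^ 3), (vonMangoldt n : ℂ) * w n
      = ∑ m ∈ Icc 1 (27 * J ^ 3), ∑ n ∈ Icc 1 (27 * J ^ 3),
          (c m : ℂ) * (Real.log (n : ℕ) : ℂ) * w (m * n)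
        - ∑ m ∈ Icc 1 (27 * J ^ 3), ∑ n ∈ Icc 1 (27 * J ^ 3), (d m : ℂ) * w (m * n)
        + ∑ m ∈ Icc 1 (27 * J ^ 3), ∑ n ∈ Icc 1 (27 * J ^ 3),
          ((if U < m then vonMangoldt m else 0 : ℝ) : ℂ) * (e n : ℂ) * w (m * n)) :
    ‖∑ p ∈ primChars R, th p * Sf (FL J) J j p.2‖ ^ 2 ≤
      2 * (28 * (R : ℝ) ^ 2 * ρ * y * L) ^ 2 +
      2 * ‖∑ m ∈ Icc 1 (27 * J ^ 3), ∑ n ∈ Icc 1 (27 * J ^ 3), LL_f J U R e th j m n‖ ^ 2 := by
  have key : ∀ p ∈ primChars R, ∃ T : ℂ, ‖T‖ ≤ 28 * ρ * y * L ∧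
      Sf (FL J) J j p.2 = T + ∑ m ∈ Icc 1 (27 * J ^ 3), ∑ n ∈ Icc 1 (27 * J ^ 3),
          ((if U < m then vonMangoldt m else 0 : ℝ) : ℂ) * (e n : ℂ) *
            LL_w J j p.2 (m * n) := by
    intro p hp
    obtain ⟨hp2, hpR, hp1⟩ := LL_ne_one hp
    have h1 := hid (fun k => LL_w J j p.2 k) ?_ ?_
    · have h2 : Sf (FL J) J j p.2
          = ∑ n ∈ Icc 1 (27 * J ^ 3), (vonMangoldt n : ℂ) * LL_w J j p.2 n := by
        unfold Sf
        refine Finset.sum_congr rfl fun n _ => ?_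
        rw [FL, LL_w]
        ring
      rw [h1] at h2
      have h3 := LLx_typeI htI (27 * J ^ 3) U V J j p.1 p.2 c d (4 * L) ρ (by omega) hj hp2
        (LLx_prim hp) hU1 hρ0 (hρ p.1 hp2 hpR) hlX hlUV hc1 hc0 hd1 hd0
      refine ⟨_, h3.trans ?_, h2⟩
      calc 7 * ρ * ((U * V : ℕ) : ℝ) * (4 * L)
          ≤ 7 * ρ * y * (4 * L) := by
            apply mul_le_mul_of_nonneg_right _ (by positivity)
            exact mul_le_mul_of_nonneg_left hUVx (by positivity)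
        _ = 28 * ρ * y * L := by ring
    · intro n hn
      show LL_w J j p.2 n = 0
      by_cases hn0 : n = 0
      · unfold LL_w
        have : Fact (1 < p.1) := ⟨by omega⟩
        rw [hn0, Nat.cast_zero, MulChar.map_nonunit p.2 (by simp), zero_mul]
      · by_contra hne
        have hw : wJ J j n ≠ 0 := by
          intro h0
          apply hne
          rw [LL_w, h0, Complex.ofReal_zero, mul_zero]
        have := (LL_supp hspc J j n (by omega) hj (by omega) hw).1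
        have h3 : J * 54 ≤ J ^ 3 := by
          calc J * 54 ≤ J * (J * J) := Nat.mul_le_mul_left _ (by nlinarith)
            _ = J ^ 3 := by ring
        omega
    · intro n hn
      show LL_w J j p.2 n = 0
      by_contra hne
      have hw : wJ J j n ≠ 0 := by
        intro h0
        apply hne
        rw [LL_w, h0, Complex.ofReal_zero, mul_zero]
      have := (LL_supp hspc J j n (by omega) hj (by omega) hw).2
      omega
  choose! T hT1 hT2 using key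
  have h1 : ∑ p ∈ primChars R, th p * Sf (FL J) J j p.2 =
      ∑ p ∈ primChars R, th p * T p +
      ∑ m ∈ Icc 1 (27 * J ^ 3), ∑ n ∈ Icc 1 (27 * J ^ 3), LL_f J U R e th j m n := by
    have h2 : ∑ m ∈ Icc 1 (27 * J ^ 3), ∑ n ∈ Icc 1 (27 * J ^ 3), LL_f J U R e th j m n =
        ∑ p ∈ primChars R, th p * ∑ m ∈ Icc 1 (27 * J ^ 3), ∑ n ∈ Icc 1 (27 * J ^ 3),
          ((if U < m then vonMangoldt m else 0 : ℝ) : ℂ) * (e n : ℂ) *
            LL_w J j p.2 (m * n) := by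
      have h3 : ∀ p ∈ primChars R, th p * ∑ m ∈ Icc 1 (27 * J ^ 3), ∑ n ∈ Icc 1 (27 * J ^ 3),
          ((if U < m then vonMangoldt m else 0 : ℝ) : ℂ) * (e n : ℂ) *
            LL_w J j p.2 (m * n) = ∑ m ∈ Icc 1 (27 * J ^ 3), ∑ n ∈ Icc 1 (27 * J ^ 3), th p *
          (((if U < m then vonMangoldt m else 0 : ℝ) : ℂ) * (e n : ℂ) *
            LL_w J j p.2 (m * n)) := by
        intro p _
        rw [Finset.mul_sum]
        refine Finset.sum_congr rfl fun m _ => ?_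
        rw [Finset.mul_sum]
      rw [Finset.sum_congr rfl h3]
      symm
      rw [Finset.sum_comm]
      refine Finset.sum_congr rfl fun m _ => ?_
      rw [Finset.sum_comm]
      refine Finset.sum_congr rfl fun n _ => ?_
      rfl
    rw [h2, ← Finset.sum_add_distrib]
    refine Finset.sum_congr rfl fun p hp => ?_
    rw [hT2 p hp, mul_add]
  have h2 : ‖∑ p ∈ primChars R, th p * T p‖ ≤ 28 * (R : ℝ) ^ 2 * ρ * y * L := by
    refine (norm_sum_le _ _).trans ?_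
    have h3 : ∀ p ∈ primChars R, ‖th p * T p‖ ≤ 28 * ρ * y * L := by
      intro p hp
      rw [norm_mul]
      calc ‖th p‖ * ‖T p‖ ≤ 1 * (28 * ρ * y * L) :=
            mul_le_mul (hth p) (hT1 p hp) (norm_nonneg _) zero_le_one
        _ = _ := one_mul _
    refine (Finset.sum_le_card_nsmul _ _ _ h3).trans ?_
    rw [nsmul_eq_mul]
    have h4 : ((primChars R).card : ℝ) ≤ (R : ℝ) ^ 2 := by
      exact_mod_cast Pool.Agent.MP89da58.card_primChars R
    calc ((primChars R).card : ℝ) * (28 * ρ * y * L) ≤ (R : ℝ) ^ 2 * (28 * ρ * y * L) :=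
          mul_le_mul_of_nonneg_right h4 (by positivity)
      _ = _ := by ring
  rw [h1]
  set T1 := ∑ p ∈ primChars R, th p * T p with hT1d
  set T3 := ∑ m ∈ Icc 1 (27 * J ^ 3), ∑ n ∈ Icc 1 (27 * J ^ 3), LL_f J U R e th j m n with hT3d
  have h4 : ‖T1 + T3‖ ≤ ‖T1‖ + ‖T3‖ := norm_add_le _ _
  have h5 : 0 ≤ ‖T1 + T3‖ := norm_nonneg _
  have h6 : 0 ≤ ‖T1‖ := norm_nonneg _
  have h7 : 0 ≤ ‖T3‖ := norm_nonneg _
  calc ‖T1 + T3‖ ^ 2 ≤ (‖T1‖ + ‖T3‖) ^ 2 := pow_le_pow_left₀ h5 h4 2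
    _ ≤ 2 * ‖T1‖ ^ 2 + 2 * ‖T3‖ ^ 2 := by nlinarith [sq_nonneg (‖T1‖ - ‖T3‖)]
    _ ≤ 2 * (28 * (R : ℝ) ^ 2 * ρ * y * L) ^ 2 + 2 * ‖T3‖ ^ 2 := by
        have := pow_le_pow_left₀ h6 h2 2
        linarith

theorem p_LLx : S_LLx := by
  intro hblk hdya hvau htI hspc
  filter_upwards [hblk 6, hdya, LL_big 10, LLx_log 10,
    Pool.Agent.CH.D.LL_big2 2 (1 / 1000) (by norm_num), eventually_ge_atTop 54]
    with J hB hd hL hl10 hJs hJ54 R hR1 hR2 th hth
  have hJ0 : (0 : ℝ) < J := by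
    have : 0 < J := by omega
    exact_mod_cast this
  have hJ54' : (54 : ℝ) ≤ J := by exact_mod_cast hJ54
  have hJ1 : (1 : ℝ) ≤ J := by linarith
  set x : ℝ := (J : ℝ) ^ (1 / 10000 : ℝ) with hx
  have hxp : ∀ k : ℕ, x ^ k = (J : ℝ) ^ ((k : ℝ) / 10000) := by
    intro k
    rw [hx, ← Real.rpow_natCast, ← Real.rpow_mul hJ0.le]
    congr 1
    ring
  have hJx : (J : ℝ) = x ^ 10000 := by
    rw [hxp]
    norm_num
  have hx1 : 1 ≤ x := Real.one_le_rpow hJ1 (by norm_num)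
  have hx0 : 0 < x := by linarith
  have hRx : (R : ℝ) ≤ x ^ 8995 := by
    refine hR2.trans (le_of_eq ?_)
    rw [hxp]
    norm_num
  have hR1' : (1 : ℝ) ≤ R := le_trans (Real.one_le_rpow hJ1 (by norm_num)) hR1
  set U : ℕ := ⌊x ^ 2100⌋₊ with hU
  have hx21 : 1 ≤ x ^ 2100 := one_le_pow₀ hx1
  have hUx : (U : ℝ) ≤ x ^ 2100 := Nat.floor_le (by positivity)
  have hUd : (J : ℝ) ^ (209 / 1000 : ℝ) ≤ U := by
    have h1 : x ^ 2100 < (U : ℝ) + 1 := Nat.lt_floor_add_one _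
    have h2 : x ^ 2100 = (J : ℝ) ^ (209 / 1000 : ℝ) * (J : ℝ) ^ (1 / 1000 : ℝ) := by
      rw [hxp, ← Real.rpow_add hJ0]
      norm_num
    have h3 : (1 : ℝ) ≤ (J : ℝ) ^ (209 / 1000 : ℝ) := Real.one_le_rpow hJ1 (by norm_num)
    rw [h2] at h1
    nlinarith
  have hU1 : 1 ≤ U := Nat.le_floor (by push_cast; linarith)
  have hUJ : U ≤ J := by
    have h1 : (U : ℝ) ≤ J := by
      rw [hJx]
      exact hUx.trans (pow_le_pow_right₀ hx1 (by norm_num))
    exact_mod_cast h1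
  have hL0 : 0 < Real.log J := by linarith
  have hLone : 1 ≤ Real.log J := by linarith
  have hUVx : ((U * U : ℕ) : ℝ) ≤ x ^ 4200 := by
    push_cast
    calc (U : ℝ) * U ≤ x ^ 2100 * x ^ 2100 := mul_le_mul hUx hUx (Nat.cast_nonneg _) (by positivity)
      _ = x ^ 4200 := by rw [← pow_add]
  have hUV1 : 1 ≤ U * U := Nat.mul_pos hU1 hU1
  have hlUV : Real.log ((U * U : ℕ) : ℝ) ≤ 4 * Real.log J := by
    have h1 : Real.log ((U * U : ℕ) : ℝ) ≤ Real.log ((J : ℝ) ^ 4) := by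
      refine Real.log_le_log (by exact_mod_cast hUV1) (hUVx.trans ?_)
      rw [hJx, ← pow_mul]
      exact pow_le_pow_right₀ hx1 (by norm_num)
    rw [Real.log_pow] at h1
    push_cast at h1 ⊢
    exact h1
  obtain ⟨c, d, e, hc1, hc0, hd1, hd0, he1, he0, hid⟩ := hvau U U (27 * J ^ 3)
  have hlog4 : ∀ M : ℕ, 1 ≤ M → M ≤ 27 * J ^ 3 → Real.log (2 * M) ≤ 4 * Real.log J := by
    intro M hM1 hM
    have h1 : (2 * M : ℝ) ≤ (J : ℝ) ^ 4 := by
      have h2 : (M : ℝ) ≤ 27 * (J : ℝ) ^ 3 := by exact_mod_cast hM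
      have h3 : (54 : ℝ) * (J : ℝ) ^ 3 ≤ J * (J : ℝ) ^ 3 :=
        mul_le_mul_of_nonneg_right hJ54' (by positivity)
      nlinarith
    have h0 : (0 : ℝ) < 2 * M := by
      have : (0 : ℝ) < M := by exact_mod_cast hM1
      linarith
    have := Real.log_le_log h0 h1
    rw [Real.log_pow] at this
    push_cast at this
    exact this
  have hX1 : 1 ≤ 27 * J ^ 3 := by
    have : 1 ≤ J ^ 3 := Nat.one_le_pow _ _ (by omega)
    omega
  have hlX : Real.log (((27 * J ^ 3 : ℕ) : ℝ) + 1) ≤ 4 * Real.log J := by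
    refine le_trans ?_ (hlog4 (27 * J ^ 3) hX1 le_rfl)
    have h1 : (1 : ℝ) ≤ ((27 * J ^ 3 : ℕ) : ℝ) := by exact_mod_cast hX1
    exact Real.log_le_log (by linarith) (by linarith)
  have hlR : 1 + Real.log R ≤ 2 * Real.log J := by
    have h1 : Real.log R ≤ Real.log J := by
      refine Real.log_le_log (by linarith) ?_
      rw [hJx]
      exact hRx.trans (pow_le_pow_right₀ hx1 (by norm_num))
    linarith
  have hlR0 : 0 ≤ Real.log R := Real.log_nonneg hR1'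
  set ρ : ℝ := Real.sqrt R * (2 * Real.log J) with hρd
  have hρ0 : 0 ≤ ρ := by positivity
  have hρ : ∀ r : ℕ, 2 ≤ r → r ≤ R → Real.sqrt r * (1 + Real.log r) ≤ ρ := by
    intro r hr hrR
    have hr0 : (0 : ℝ) < r := by exact_mod_cast (by omega : 0 < r)
    have h1 : Real.sqrt r ≤ Real.sqrt R := Real.sqrt_le_sqrt (by exact_mod_cast hrR)
    have h2 : Real.log r ≤ Real.log R := Real.log_le_log hr0 (by exact_mod_cast hrR)
    have h3 : 0 ≤ Real.log r := Real.log_natCast_nonneg r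
    exact mul_le_mul h1 (by linarith) (by linarith) (Real.sqrt_nonneg _)
  -- the third sum
  have hT3 := hd U U (LL_f J U R e th) ((R : ℝ) ^ 2 * (J : ℝ) ^ (47992 / 10000 : ℝ))
    hU1 hU1 (by positivity) ?_ ?_
  · have hsum : ∀ j ∈ Ioc J (2 * J), _ := fun j hj =>
      LLx_window hspc htI J j U U R c d e th hth (x ^ 4200) ρ (Real.log J) hJ54 hj hUJ hU1 hρ0 hρ
        (by positivity) hUVx hL0 hlX hlUV hc1 hc0 hd1 hd0 hid
    refine (Finset.sum_le_sum hsum).trans ?_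
    rw [Finset.sum_add_distrib, Finset.sum_const, Nat.card_Ioc, nsmul_eq_mul, ← Finset.mul_sum]
    have hcard : ((2 * J - J : ℕ) : ℝ) = J := by
      have : 2 * J - J = J := by omega
      rw [this]
    rw [hcard]
    have hT3' := mul_le_mul_of_nonneg_left hT3 (show (0 : ℝ) ≤ 2 by norm_num)
    refine (add_le_add le_rfl hT3').trans ?_
    have e47992 : (J : ℝ) ^ (47992 / 10000 : ℝ) = x ^ 47992 := by
      rw [hxp]
      norm_num
    have e47994 : (J : ℝ) ^ (47994 / 10000 : ℝ) = x ^ 47994 := by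
      rw [hxp]
      norm_num
    rw [e47992, e47994]
    set L := Real.log J with hLdef
    have hR0 : (0 : ℝ) ≤ R := Nat.cast_nonneg _
    have hsq : Real.sqrt R ^ 2 = R := Real.sq_sqrt hR0
    have hL6 : (10 : ℝ) ^ 6 ≤ L ^ 6 := pow_le_pow_left₀ (by norm_num) hL _
    have e1 : (J : ℝ) * (2 * (28 * (R : ℝ) ^ 2 * ρ * x ^ 4200 * L) ^ 2) ≤
        (R : ℝ) ^ 2 * x ^ 47994 * (1 / 2) := by
      have h0 : (J : ℝ) * (2 * (28 * (R : ℝ) ^ 2 * ρ * x ^ 4200 * L) ^ 2) =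
          (R : ℝ) ^ 2 * ((R : ℝ) ^ 3 * (x ^ 10000 * (x ^ 4200) ^ 2)) * (12544 * L ^ 4) * (1 / 2) := by
        rw [hρd, ← hJx]
        have : (28 * (R : ℝ) ^ 2 * (Real.sqrt R * (2 * L)) * x ^ 4200 * L) ^ 2 =
          3136 * (R : ℝ) ^ 4 * (Real.sqrt R ^ 2) * (x ^ 4200) ^ 2 * L ^ 4 := by ring
        rw [this, hsq]
        ring
      rw [h0]
      have h3 : 12544 * L ^ 4 ≤ x := by
        refine le_trans ?_ hl10
        have h4 : 0 ≤ L ^ 4 := by positivity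
        calc 12544 * L ^ 4 ≤ L ^ 6 * L ^ 4 := mul_le_mul_of_nonneg_right (by linarith) h4
          _ = L ^ 10 := by ring
      have h4 : (R : ℝ) ^ 3 ≤ x ^ 26985 := by
        calc (R : ℝ) ^ 3 ≤ (x ^ 8995) ^ 3 := pow_le_pow_left₀ hR0 hRx 3
          _ = x ^ 26985 := by rw [← pow_mul]
      have h5 : (R : ℝ) ^ 3 * (x ^ 10000 * (x ^ 4200) ^ 2) ≤ x ^ 45385 := by
        calc (R : ℝ) ^ 3 * (x ^ 10000 * (x ^ 4200) ^ 2)
            ≤ x ^ 26985 * (x ^ 10000 * (x ^ 4200) ^ 2) :=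
              mul_le_mul_of_nonneg_right h4 (by positivity)
          _ = x ^ 45385 := by rw [← pow_mul, ← pow_add, ← pow_add]
      apply mul_le_mul_of_nonneg_right _ (by norm_num)
      rw [mul_assoc]
      apply mul_le_mul_of_nonneg_left _ (by positivity)
      calc (R : ℝ) ^ 3 * (x ^ 10000 * (x ^ 4200) ^ 2) * (12544 * L ^ 4)
          ≤ x ^ 45385 * x := mul_le_mul h5 h3 (by positivity) (by positivity)
        _ = x ^ 45386 := by rw [← pow_succ]
        _ ≤ x ^ 47994 := pow_le_pow_right₀ hx1 (by norm_num)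
    have e2 : 2 * (L ^ 5 * ((R : ℝ) ^ 2 * x ^ 47992)) ≤ (R : ℝ) ^ 2 * x ^ 47994 * (1 / 2) := by
      have h1 : 4 * L ^ 5 ≤ x := by
        refine le_trans ?_ hl10
        have h4 : 0 ≤ L ^ 5 := by positivity
        have h5 : (10 : ℝ) ^ 5 ≤ L ^ 5 := pow_le_pow_left₀ (by norm_num) hL _
        calc 4 * L ^ 5 ≤ L ^ 5 * L ^ 5 := mul_le_mul_of_nonneg_right (by linarith) h4
          _ = L ^ 10 := by ring
      have h2 : 4 * L ^ 5 * x ^ 47992 ≤ x ^ 47994 := by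
        calc 4 * L ^ 5 * x ^ 47992 ≤ x * x ^ 47992 := mul_le_mul_of_nonneg_right h1 (by positivity)
          _ = x ^ 47993 := by rw [← pow_succ']
          _ ≤ x ^ 47994 := pow_le_pow_right₀ hx1 (by norm_num)
      calc 2 * (L ^ 5 * ((R : ℝ) ^ 2 * x ^ 47992))
          = (R : ℝ) ^ 2 * (4 * L ^ 5 * x ^ 47992) * (1 / 2) := by ring
        _ ≤ (R : ℝ) ^ 2 * x ^ 47994 * (1 / 2) := by
            apply mul_le_mul_of_nonneg_right _ (by norm_num)
            exact mul_le_mul_of_nonneg_left h2 (by positivity)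
    linarith
  · intro j hj m n hm1 hn1 hne
    have h1 : U < m := by
      by_contra h
      apply hne
      unfold LL_f
      refine Finset.sum_eq_zero fun p _ => ?_
      rw [if_neg h]
      simp
    have h2 : U < n := by
      by_contra h
      apply hne
      unfold LL_f
      refine Finset.sum_eq_zero fun p _ => ?_
      rw [he0 n (not_lt.1 h)]
      simp
    have h3 : wJ J j (m * n) ≠ 0 := by
      intro h
      apply hne
      unfold LL_f
      refine Finset.sum_eq_zero fun p _ => ?_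
      rw [LL_w, h]
      simp
    have h4 := LL_supp hspc J j (m * n) (by omega) hj (Nat.mul_pos hm1 hn1) h3
    exact ⟨h1, h2, by omega, h4.2⟩
  · intro M N hUM hVN _ hMN
    have hM1 : 1 ≤ M := hU1.trans hUM
    have hN1 : 1 ≤ N := hU1.trans hVN
    have hM27 : M ≤ 27 * J ^ 3 := (Nat.le_mul_of_pos_right M hN1).trans hMN
    have hN27 : N ≤ 27 * J ^ 3 := (Nat.le_mul_of_pos_left N hM1).trans hMN
    have hMd : (J : ℝ) ^ (209 / 1000 : ℝ) ≤ M := hUd.trans (by exact_mod_cast hUM)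
    have hNd : (J : ℝ) ^ (209 / 1000 : ℝ) ≤ N := hUd.trans (by exact_mod_cast hVN)
    exact LLx_block J M N U R _ e th he1
      (fun a b ha hb => hB R M N a b th hR1 hR2 hth hMd hNd (by exact_mod_cast hMN) ha hb)
      hUM hL (hlog4 M hM1 hM27) (hlog4 N hN1 hN27)

end Pool.Agent.CX
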