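import Pool.Agent.Lib.MP_d610d0_nt.CX.Stm
import Pool.Agent.Lib.MP_d610d0_nt.CA.SC.p_SB

set_option autoImplicit false

/-!
Project CX, pieces S4 and C4: small conductors and comparison for products of four primes.
-/

namespace Pool.Agent.CX

open Finset Filter
open Pool.Agent.CH (wJ wL)
open Pool.Agent.CH.D (Sf)
open Pool.Agent.CA.SC (dW SB_split SB_fin SB_L)

private theorem S4_one (n : ℕ) : (1 : DirichletCharacter ℂ 1) (n : ZMod 1) = 1 :=
  MulChar.one_apply (isUnit_of_subsingleton _)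

open Classical in
private theorem S4_nb (J : ℕ) (P Q : ℕ → Prop) (h : ∀ j ∈ Ioc J (2 * J), P j → Q j) :
    nb J P ≤ nb J Q := by
  unfold nb
  have h1 : (Ioc J (2 * J)).filter P ⊆ (Ioc J (2 * J)).filter Q := by
    intro j hj
    rw [mem_filter] at hj ⊢
    exact ⟨hj.1, h j hj.1 hj.2⟩
  exact_mod_cast card_le_card h1

theorem p_S4 : S_S4 := by
  intro hC hw A B
  obtain ⟨E0, hE⟩ := hC (A + 1) B
  filter_upwards [hE E0 le_rfl, hw (A + 1 + E0) B E0, eventually_ge_atTop 3] with J h1 h2 h3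
  intro r χ hr hrB hχ
  have hJ1 : (1 : ℝ) ≤ (J : ℝ) := by exact_mod_cast (by omega : 1 ≤ J)
  refine le_trans (S4_nb J _ _ ?_) (le_trans (h1 r χ (by omega) hrB hχ)
    (Real.rpow_le_rpow_of_exponent_le hJ1 (by norm_num)))
  intro j hj hb
  by_contra hcon
  rw [not_lt] at hcon
  have hY := h2 j r χ hj hr hrB hχ
  have h4 := SB_fin A E0 J (by omega) (SB_L J h3) _ _ _ (SB_split (Bx 4 J) J j E0 χ) hcon hY
  exact absurd h4 (not_le.2 hb)

theorem p_C4 : S_C4 := by
  intro h A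
  obtain ⟨E0, hE0⟩ := h A 0
  refine ⟨E0, fun E hE => ?_⟩
  filter_upwards [hE0 E hE, eventually_ge_atTop 1] with J hJ hJ1
  have hJR : (1 : ℝ) ≤ (J : ℝ) := by exact_mod_cast hJ1
  have h1 := hJ 1 1 (le_refl _) (by rw [pow_zero]; norm_num)
    DirichletCharacter.isPrimitive_one_level_one
  refine le_trans (S4_nb J _ _ ?_) (le_trans h1
    (Real.rpow_le_rpow_of_exponent_le hJR (by norm_num)))
  intro j _ hb
  have h2 : ∑ n ∈ Icc 1 (27 * J ^ 3), (Bx 4 J n : ℂ) *
      ((1 : DirichletCharacter ℂ 1) (n : ZMod 1) * dW ((Real.log J) ^ E) J j n) =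
      ((2 * (J : ℝ) * ∑ n ∈ Icc 1 (27 * J ^ 3), Bx 4 J n * wJ J j n
        - (Real.log J) ^ E * ∑ n ∈ Icc 1 (27 * J ^ 3),
          Bx 4 J n * wL ((Real.log J) ^ E) j n : ℝ) : ℂ) := by
    rw [Finset.mul_sum, Finset.mul_sum, ← Finset.sum_sub_distrib, Complex.ofReal_sum]
    refine Finset.sum_congr rfl (fun n _ => ?_)
    rw [S4_one, one_mul]
    unfold dW
    rw [← Complex.ofReal_mul]
    congr 1
    ring
  rw [h2, Complex.norm_real, Real.norm_eq_abs]
  exact hb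

end Pool.Agent.CX
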