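import Pool.Agent.Lib.MP_d610d0_nt.CX.Stm2

set_option autoImplicit false

/-!
Project CX, pieces V (lower bound for `VV`) and sq (numbers in a window divisible by the square of a large prime).
-/

namespace Pool.Agent.CX

open Finset Filter
open Pool.Agent.CH (zJ VV)

private theorem V_fac {m : ℕ} {p : ℕ} (hp : p ∈ (range m).filter (fun p : ℕ => p.Prime ∧ 2 < p)) :
    0 ≤ 1 - 1 / ((p : ℝ) - 1) ∧ 1 - 1 / ((p : ℝ) - 1) ≤ 1 := by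
  rw [mem_filter] at hp
  have h3 : (3 : ℝ) ≤ p := by exact_mod_cast hp.2.2
  have h4 : 1 / ((p : ℝ) - 1) ≤ 1 := by
    rw [div_le_one (by linarith)]
    linarith
  have h5 : 0 ≤ 1 / ((p : ℝ) - 1) := one_div_nonneg.2 (by linarith)
  constructor <;> linarith

private theorem V_anti {z w : ℝ} (h : z ≤ w) : VV w ≤ VV z := by
  unfold VV
  have hsub : (range ⌈z⌉₊).filter (fun p : ℕ => p.Prime ∧ 2 < p) ⊆
      (range ⌈w⌉₊).filter (fun p : ℕ => p.Prime ∧ 2 < p) := by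
    apply filter_subset_filter
    apply range_subset_range.2
    exact Nat.ceil_le_ceil h
  rw [← prod_sdiff hsub]
  have h1 : ∏ p ∈ (range ⌈w⌉₊).filter (fun p : ℕ => p.Prime ∧ 2 < p) \
      (range ⌈z⌉₊).filter (fun p : ℕ => p.Prime ∧ 2 < p), (1 - 1 / ((p : ℝ) - 1)) ≤ 1 :=
    prod_le_one (fun p hp => (V_fac (mem_sdiff.1 hp).1).1) (fun p hp => (V_fac (mem_sdiff.1 hp).1).2)
  have h2 : 0 ≤ ∏ p ∈ (range ⌈z⌉₊).filter (fun p : ℕ => p.Prime ∧ 2 < p), (1 - 1 / ((p : ℝ) - 1)) :=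
    prod_nonneg fun p hp => (V_fac hp).1
  calc _ ≤ 1 * ∏ p ∈ (range ⌈z⌉₊).filter (fun p : ℕ => p.Prime ∧ 2 < p), (1 - 1 / ((p : ℝ) - 1)) :=
        mul_le_mul_of_nonneg_right h1 h2
    _ = _ := one_mul _

theorem p_Vx : S_Vx := by
  rintro ⟨c, J0, hc, h⟩
  refine ⟨c, hc, ?_⟩
  filter_upwards [eventually_ge_atTop J0, eventually_ge_atTop 1] with J hJ hJ1
  refine (h J hJ).trans (V_anti ?_)
  have h1 : (1 : ℝ) ≤ J := by exact_mod_cast hJ1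
  unfold zx zJ
  calc (J : ℝ) ^ (171 / 500 : ℝ) ≤ (J : ℝ) ^ (3 / 8 : ℝ) :=
        Real.rpow_le_rpow_of_exponent_le h1 (by norm_num)
    _ ≤ (3 * (J : ℝ)) ^ (3 / 8 : ℝ) := Real.rpow_le_rpow (by linarith) (by linarith) (by norm_num)

private theorem sq_cnt (a b r : ℕ) (hr : 0 < r) (hab : a ≤ b) :
    (((Ioc a b).filter (fun n => r ∣ n)).card : ℝ) ≤ ((b : ℝ) - a) / r + 1 := by
  have h1 : ((Ioc 0 b).filter (fun n => r ∣ n)).card =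
      ((Ioc 0 a).filter (fun n => r ∣ n)).card + ((Ioc a b).filter (fun n => r ∣ n)).card := by
    rw [← card_union_of_disjoint, ← filter_union, Ioc_union_Ioc_eq_Ioc (Nat.zero_le _) hab]
    refine disjoint_filter_filter ?_
    rw [Finset.disjoint_left]
    intro x hx hx'
    rw [mem_Ioc] at hx hx'
    omega
  rw [Nat.Ioc_filter_dvd_card_eq_div, Nat.Ioc_filter_dvd_card_eq_div] at h1
  have hr0 : (0 : ℝ) < r := by exact_mod_cast hr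
  have h2 : ((b / r : ℕ) : ℝ) ≤ (b : ℝ) / r := Nat.cast_div_le
  have h3 : (a : ℝ) / r ≤ ((a / r : ℕ) : ℝ) + 1 := by
    rw [div_le_iff₀ hr0]
    have h := (Nat.lt_mul_div_succ a hr).le
    have h' : (a : ℝ) ≤ (r : ℝ) * (((a / r : ℕ) : ℝ) + 1) := by exact_mod_cast h
    linarith
  have h4 : ((b / r : ℕ) : ℝ) = ((a / r : ℕ) : ℝ) +
      (((Ioc a b).filter (fun n => r ∣ n)).card : ℝ) := by exact_mod_cast h1
  rw [sub_div]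
  linarith

private theorem sq_main (J j : ℕ) (hJ : 1 ≤ J) (hj : j ∈ Ioc J (2 * J)) (hz : 1 ≤ zx J) :
    (sqx J j : ℝ) ≤ 19 * (J : ℝ) ^ 2 * (2 / zx J) + ((Nat.sqrt (27 * J ^ 3) : ℕ) + 1 : ℝ) := by
  classical
  obtain ⟨hj1, hj2⟩ := mem_Ioc.1 hj
  set K : ℕ := Nat.sqrt (27 * J ^ 3) with hK
  have hq0 : 1 ≤ ⌈zx J⌉₊ := Nat.one_le_iff_ne_zero.2 (by
    intro h
    rw [Nat.ceil_eq_zero] at h
    linarith)
  have htop : (j + 1) ^ 3 ≤ 27 * J ^ 3 := by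
    have h1 : (j + 1) ^ 3 ≤ (3 * J) ^ 3 := Nat.pow_le_pow_left (by omega) 3
    have h2 : (3 * J) ^ 3 = 27 * J ^ 3 := by ring
    omega
  have hsub : (Ioo (j ^ 3) ((j + 1) ^ 3)).filter
      (fun n : ℕ => ∃ q : ℕ, q.Prime ∧ zx J ≤ q ∧ q ^ 2 ∣ n) ⊆
      (Ioo (⌈zx J⌉₊ - 1) (K + 1)).biUnion
        (fun q => (Ioc (j ^ 3) ((j + 1) ^ 3)).filter (fun n => q ^ 2 ∣ n)) := by
    intro n hn
    rw [mem_filter, mem_Ioo] at hn
    obtain ⟨⟨h1, h2⟩, q, hq, hzq, hqn⟩ := hn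
    rw [mem_biUnion]
    refine ⟨q, ?_, ?_⟩
    · rw [mem_Ioo]
      have h3 : ⌈zx J⌉₊ ≤ q := Nat.ceil_le.2 hzq
      have h4 : q ^ 2 ≤ n := Nat.le_of_dvd (by omega) hqn
      have h5 : q ≤ K := by
        rw [hK, Nat.le_sqrt']
        omega
      omega
    · rw [mem_filter, mem_Ioc]
      exact ⟨⟨h1, h2.le⟩, hqn⟩
  have h1 : (sqx J j : ℝ) ≤ ∑ q ∈ Ioo (⌈zx J⌉₊ - 1) (K + 1),
      (((Ioc (j ^ 3) ((j + 1) ^ 3)).filter (fun n => q ^ 2 ∣ n)).card : ℝ) := by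
    have : sqx J j ≤ ∑ q ∈ Ioo (⌈zx J⌉₊ - 1) (K + 1),
        ((Ioc (j ^ 3) ((j + 1) ^ 3)).filter (fun n => q ^ 2 ∣ n)).card := by
      unfold sqx
      refine (le_of_eq ?_).trans ((card_le_card hsub).trans card_biUnion_le)
      congr
    exact_mod_cast this
  have hlen : (((j + 1) ^ 3 : ℕ) : ℝ) - ((j ^ 3 : ℕ) : ℝ) ≤ 19 * (J : ℝ) ^ 2 := by
    have hJr : (1 : ℝ) ≤ J := by exact_mod_cast hJ
    have hjr : (j : ℝ) ≤ 2 * J := by exact_mod_cast hj2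
    have hj0 : (0 : ℝ) ≤ j := Nat.cast_nonneg j
    push_cast
    nlinarith
  have h2 : ∀ q ∈ Ioo (⌈zx J⌉₊ - 1) (K + 1),
      (((Ioc (j ^ 3) ((j + 1) ^ 3)).filter (fun n => q ^ 2 ∣ n)).card : ℝ) ≤
      19 * (J : ℝ) ^ 2 * ((q : ℝ) ^ 2)⁻¹ + 1 := by
    intro q hq
    rw [mem_Ioo] at hq
    have hq1 : 0 < q := by omega
    refine (sq_cnt _ _ (q ^ 2) (by positivity) (Nat.pow_le_pow_left (by omega) 3)).trans ?_
    rw [Nat.cast_pow q 2, div_eq_mul_inv]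
    have := mul_le_mul_of_nonneg_right hlen (show (0 : ℝ) ≤ ((q : ℝ) ^ 2)⁻¹ by positivity)
    linarith
  have h3 : ∑ q ∈ Ioo (⌈zx J⌉₊ - 1) (K + 1), ((q : ℝ) ^ 2)⁻¹ ≤ 2 / zx J := by
    refine (sum_Ioo_inv_sq_le (α := ℝ) _ _).trans ?_
    have h2 : ((⌈zx J⌉₊ - 1 : ℕ) : ℝ) + 1 = (⌈zx J⌉₊ : ℝ) := by
      rw [Nat.cast_sub hq0]; push_cast; ring
    rw [h2]
    exact div_le_div_of_nonneg_left (by norm_num) (by linarith) (Nat.le_ceil (zx J))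
  have h4 : ∑ _q ∈ Ioo (⌈zx J⌉₊ - 1) (K + 1), (1 : ℝ) ≤ (K : ℝ) + 1 := by
    rw [sum_const, nsmul_eq_mul, mul_one, Nat.card_Ioo]
    have : K + 1 - (⌈zx J⌉₊ - 1) - 1 ≤ K + 1 := by omega
    exact_mod_cast this
  calc (sqx J j : ℝ) ≤ _ := h1
    _ ≤ ∑ q ∈ Ioo (⌈zx J⌉₊ - 1) (K + 1), (19 * (J : ℝ) ^ 2 * ((q : ℝ) ^ 2)⁻¹ + 1) :=
        sum_le_sum h2
    _ = 19 * (J : ℝ) ^ 2 * ∑ q ∈ Ioo (⌈zx J⌉₊ - 1) (K + 1), ((q : ℝ) ^ 2)⁻¹ +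
        ∑ _q ∈ Ioo (⌈zx J⌉₊ - 1) (K + 1), (1 : ℝ) := by
        rw [sum_add_distrib, ← mul_sum]
    _ ≤ 19 * (J : ℝ) ^ 2 * (2 / zx J) + ((K : ℝ) + 1) :=
        add_le_add (mul_le_mul_of_nonneg_left h3 (by positivity)) h4

theorem p_sqx : S_sqx := by
  have hev : ∀ᶠ J : ℕ in atTop, (45 : ℝ) ≤ (J : ℝ) ^ (1 / 16 : ℝ) :=
    ((tendsto_rpow_atTop (show (0 : ℝ) < 1 / 16 by norm_num)).comp
      tendsto_natCast_atTop_atTop).eventually_ge_atTop 45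
  filter_upwards [hev, eventually_ge_atTop 4] with J hJe hJ4
  intro j hj
  have hJ4r : (4 : ℝ) ≤ J := by exact_mod_cast hJ4
  have hJ0 : (0 : ℝ) < J := by linarith
  have hJ1 : (1 : ℝ) ≤ J := by linarith
  have hz : (J : ℝ) ^ (3 / 16 : ℝ) ≤ zx J := by
    unfold zx
    exact Real.rpow_le_rpow_of_exponent_le hJ1 (by norm_num)
  have hz1 : 1 ≤ (J : ℝ) ^ (3 / 16 : ℝ) := Real.one_le_rpow hJ1 (by norm_num)
  have hzc : 1 ≤ zx J := hz1.trans hz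
  have hm := sq_main J j (by omega) hj hzc
  have h1 : 19 * (J : ℝ) ^ 2 * (2 / zx J) ≤ 38 * (J : ℝ) ^ (29 / 16 : ℝ) := by
    calc 19 * (J : ℝ) ^ 2 * (2 / zx J) ≤ 19 * (J : ℝ) ^ 2 * (2 / (J : ℝ) ^ (3 / 16 : ℝ)) := by
          refine mul_le_mul_of_nonneg_left ?_ (by positivity)
          exact div_le_div_of_nonneg_left (by norm_num) (by linarith) hz
      _ = 38 * (J : ℝ) ^ (29 / 16 : ℝ) := by
          have h : (J : ℝ) ^ 2 = (J : ℝ) ^ (29 / 16 : ℝ) * (J : ℝ) ^ (3 / 16 : ℝ) := by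
            rw [← Real.rpow_add hJ0, ← Real.rpow_natCast]
            norm_num
          rw [h]
          have : (J : ℝ) ^ (3 / 16 : ℝ) ≠ 0 := by positivity
          field_simp
          norm_num
  have h2 : ((Nat.sqrt (27 * J ^ 3) : ℕ) : ℝ) ≤ 6 * (J : ℝ) ^ (3 / 2 : ℝ) := by
    rw [← pow_le_pow_iff_left₀ (Nat.cast_nonneg _) (by positivity) (show (2 : ℕ) ≠ 0 by norm_num)]
    have h3 : (Nat.sqrt (27 * J ^ 3)) ^ 2 ≤ 27 * J ^ 3 := Nat.sqrt_le' _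
    have h4 : ((Nat.sqrt (27 * J ^ 3) : ℕ) : ℝ) ^ 2 ≤ 27 * (J : ℝ) ^ 3 := by exact_mod_cast h3
    have h5 : ((J : ℝ) ^ (3 / 2 : ℝ)) ^ 2 = (J : ℝ) ^ 3 := by
      rw [← Real.rpow_natCast, ← Real.rpow_mul hJ0.le, ← Real.rpow_natCast]
      norm_num
    have h6 : 0 ≤ (J : ℝ) ^ 3 := by positivity
    rw [mul_pow, h5]
    linarith
  have h3 : (J : ℝ) ^ (3 / 2 : ℝ) ≤ (J : ℝ) ^ (29 / 16 : ℝ) :=
    Real.rpow_le_rpow_of_exponent_le hJ1 (by norm_num)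
  have h4 : (1 : ℝ) ≤ (J : ℝ) ^ (29 / 16 : ℝ) := Real.one_le_rpow hJ1 (by norm_num)
  calc (sqx J j : ℝ) ≤ 45 * (J : ℝ) ^ (29 / 16 : ℝ) := by linarith
    _ ≤ (J : ℝ) ^ (1 / 16 : ℝ) * (J : ℝ) ^ (29 / 16 : ℝ) :=
        mul_le_mul_of_nonneg_right hJe (by positivity)
    _ = (J : ℝ) ^ (15 / 8 : ℝ) := by
        rw [← Real.rpow_add hJ0]
        norm_num

end Pool.Agent.CX
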