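import Pool.Agent.Lib.MP_d610d0_nt.CX.Stm

set_option autoImplicit false

/-!
Piece blkx of project CX: one block, power saving.
-/

namespace Pool.Agent.CX

open Finset Filter
open ArithmeticFunction (vonMangoldt)
open Pool.Agent.MP89da58 (tri primChars)
open Pool.Agent.CH (zJ wJ wL Rough VV Wt dsum thP EE)
open Pool.Agent.CH.V (pz ex)
open Pool.Agent.CH.D (xj kap dp Sf FL FT R_kf R_kb R_spc R_bil R_vau R_pp R_pwp R_grp R_cfs)

/-- The real inequality at the end. -/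
private theorem blkx_real (C L x R M N y : ℝ) (H : ℕ) (hC : 1 ≤ C) (hL : 1 ≤ L) (hx : 1 ≤ x)
    (hM : 0 ≤ M) (hN : 0 ≤ N) (_hR : 0 ≤ R) (hRy : R ^ 2 ≤ y) (hNy : 2 * N ≤ 12 * y)
    (hMy : 2 * M / x ≤ 54 * y) (hMN : M * N ≤ 27 * x ^ 3) (hRx : x ^ 2 ≤ R ^ 2 * y) :
    C * (R ^ 2 + 2 * M / x) * (R ^ 2 + 2 * N) * ((M * L ^ H) * (N * L ^ H)) ≤
      R ^ 2 * (4725 * C * L ^ (2 * H) * (x ^ 3 * y)) := by
  have hx0 : 0 < x := by linarith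
  have hL0 : 0 < L := by linarith
  have hLH : 0 < L ^ (2 * H) := pow_pos hL0 _
  have hR2 : 0 ≤ R ^ 2 := sq_nonneg R
  have hy : 0 ≤ y := le_trans hR2 hRy
  have e1 : (R ^ 2 + 2 * M / x) * (R ^ 2 + 2 * N) =
      R ^ 2 * (R ^ 2 + 2 * N + 2 * M / x) + 4 * (M * N) / x := by
    field_simp
    ring
  have e2 : 4 * (M * N) / x ≤ 108 * x ^ 2 := by
    rw [div_le_iff₀ hx0]
    nlinarith [hMN]
  have e3 : R ^ 2 * (R ^ 2 + 2 * N + 2 * M / x) ≤ R ^ 2 * (67 * y) := by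
    apply mul_le_mul_of_nonneg_left _ hR2
    linarith
  have e6 : (R ^ 2 + 2 * M / x) * (R ^ 2 + 2 * N) ≤ R ^ 2 * (175 * y) := by
    rw [e1]
    nlinarith
  calc C * (R ^ 2 + 2 * M / x) * (R ^ 2 + 2 * N) * ((M * L ^ H) * (N * L ^ H))
      = (C * L ^ (2 * H) * (M * N)) * ((R ^ 2 + 2 * M / x) * (R ^ 2 + 2 * N)) := by
        have hpow : L ^ (2 * H) = L ^ H * L ^ H := by rw [two_mul, pow_add]
        rw [hpow]; ring
    _ ≤ (C * L ^ (2 * H) * (M * N)) * (R ^ 2 * (175 * y)) :=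
        mul_le_mul_of_nonneg_left e6 (by positivity)
    _ ≤ (C * L ^ (2 * H) * (27 * x ^ 3)) * (R ^ 2 * (175 * y)) := by
        apply mul_le_mul_of_nonneg_right _ (by positivity)
        exact mul_le_mul_of_nonneg_left hMN (by positivity)
    _ = R ^ 2 * (4725 * C * L ^ (2 * H) * (x ^ 3 * y)) := by ring

/-- the ordered case -/
private theorem blkx_ord (hb : R_bil) (H : ℕ) : ∀ᶠ J : ℕ in atTop, ∀ (R M N : ℕ)
  (a b : ℕ → ℂ) (th : (Σ q, DirichletCharacter ℂ q) → ℂ), (J : ℝ) ^ (4997 / 10000 : ℝ) ≤ (R : ℝ) →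
  (R : ℝ) ≤ (J : ℝ) ^ (8995 / 10000 : ℝ) → (∀ p, ‖th p‖ ≤ 1) → (J : ℝ) ^ (209 / 1000 : ℝ) ≤ M →
  (J : ℝ) ^ (209 / 1000 : ℝ) ≤ N → N ≤ M → M * N ≤ 27 * J ^ 3 →
  ∑ m ∈ Icc 1 (2 * M), ‖a m‖ ^ 2 ≤ M * (Real.log J) ^ H →
  ∑ n ∈ Icc 1 (2 * N), ‖b n‖ ^ 2 ≤ N * (Real.log J) ^ H →
  ∑ j ∈ Ioc J (2 * J), ‖∑ p ∈ primChars R, th p * ∑ m ∈ Icc 1 (2 * M), ∑ n ∈ Icc 1 (2 * N),
      a m * b n * p.2 ((m * n : ℕ) : ZMod p.1) * (wJ J j (m * n) : ℂ)‖ ^ 2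
    ≤ (R : ℝ) ^ 2 * (J : ℝ) ^ (47992 / 10000 : ℝ) := by
  obtain ⟨C, hC, hbil⟩ := hb
  have hlog : Tendsto (fun J : ℕ => Real.log (J : ℝ)) atTop atTop :=
    Real.tendsto_log_atTop.comp tendsto_natCast_atTop_atTop
  have ev1 : ∀ᶠ J : ℕ in atTop,
      4725 * C * (Real.log J) ^ (2 * H) ≤ (J : ℝ) ^ (2 / 10000 : ℝ) := by
    have h1 := isLittleO_log_rpow_rpow_atTop (s := (2 / 10000 : ℝ)) ((2 * H : ℕ) : ℝ) (by norm_num)
    have h2 := h1.bound (show (0 : ℝ) < (4725 * C)⁻¹ by positivity)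
    have h3 := tendsto_natCast_atTop_atTop (R := ℝ) |>.eventually h2
    filter_upwards [h3, hlog.eventually_ge_atTop 1] with J hJ hL
    rw [Real.rpow_natCast, Real.norm_of_nonneg (by positivity),
      Real.norm_of_nonneg (Real.rpow_nonneg (Nat.cast_nonneg J) _)] at hJ
    have hc : (0 : ℝ) < 4725 * C := by positivity
    calc 4725 * C * (Real.log J) ^ (2 * H)
        ≤ (4725 * C) * ((4725 * C)⁻¹ * (J : ℝ) ^ (2 / 10000 : ℝ)) :=
          mul_le_mul_of_nonneg_left hJ hc.le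
      _ = (J : ℝ) ^ (2 / 10000 : ℝ) := by rw [← mul_assoc, mul_inv_cancel₀ hc.ne', one_mul]
  filter_upwards [ev1, hlog.eventually_ge_atTop 1, eventually_ge_atTop 1] with J hJ1 hL hJ3
  intro R M N a b th hR1 hR2 hth hM hN hNM hMN ha hb
  set L : ℝ := Real.log J with hLdef
  have hx : (1 : ℝ) ≤ (J : ℝ) := by exact_mod_cast hJ3
  have hx0 : (0 : ℝ) < J := by linarith
  have hR0 : 0 < R := by
    have : (0 : ℝ) < (R : ℝ) := lt_of_lt_of_le (Real.rpow_pos_of_pos hx0 _) hR1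
    exact_mod_cast this
  have hMNr : (M : ℝ) * N ≤ 27 * (J : ℝ) ^ 3 := by exact_mod_cast hMN
  have hJδ : (0 : ℝ) < (J : ℝ) ^ (209 / 1000 : ℝ) := Real.rpow_pos_of_pos hx0 _
  have hN0 : (0 : ℝ) < N := lt_of_lt_of_le hJδ hN
  have hM0 : (0 : ℝ) < M := lt_of_lt_of_le hJδ hM
  have hNMr : (N : ℝ) ≤ M := by exact_mod_cast hNM
  have hkey := hbil J (2 * M) (2 * N) R a b th hJ3 hR0 hth
  refine le_trans hkey ?_
  have hreal := blkx_real C L J R M N ((J : ℝ) ^ (1799 / 1000 : ℝ)) H hC hL hx hM0.le hN0.le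
    (Nat.cast_nonneg R) ?_ ?_ ?_ hMNr ?_
  · refine le_trans ?_ (le_trans hreal ?_)
    · push_cast
      refine mul_le_mul_of_nonneg_left ?_ (by positivity)
      exact mul_le_mul ha hb (Finset.sum_nonneg fun _ _ => sq_nonneg _) (by positivity)
    · refine mul_le_mul_of_nonneg_left ?_ (sq_nonneg _)
      have h1 : (J : ℝ) ^ 3 * (J : ℝ) ^ (1799 / 1000 : ℝ) = (J : ℝ) ^ (4799 / 1000 : ℝ) := by
        rw [← Real.rpow_natCast, ← Real.rpow_add hx0]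
        norm_num
      rw [h1]
      calc 4725 * C * L ^ (2 * H) * (J : ℝ) ^ (4799 / 1000 : ℝ)
          ≤ (J : ℝ) ^ (2 / 10000 : ℝ) * (J : ℝ) ^ (4799 / 1000 : ℝ) :=
            mul_le_mul_of_nonneg_right hJ1 (Real.rpow_pos_of_pos hx0 _).le
        _ = (J : ℝ) ^ (47992 / 10000 : ℝ) := by
            rw [← Real.rpow_add hx0]
            norm_num
  · calc (R : ℝ) ^ 2 ≤ ((J : ℝ) ^ (8995 / 10000 : ℝ)) ^ 2 :=
          pow_le_pow_left₀ (Nat.cast_nonneg R) hR2 2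
      _ = (J : ℝ) ^ (1799 / 1000 : ℝ) := by
          rw [← Real.rpow_natCast, ← Real.rpow_mul hx0.le]
          norm_num
  · -- `N`
    have h1 : (N : ℝ) ^ 2 ≤ (6 * (J : ℝ) ^ (3 / 2 : ℝ)) ^ 2 := by
      calc (N : ℝ) ^ 2 ≤ M * N := by nlinarith
        _ ≤ 27 * (J : ℝ) ^ 3 := hMNr
        _ ≤ (6 * (J : ℝ) ^ (3 / 2 : ℝ)) ^ 2 := by
            have h2 : ((J : ℝ) ^ (3 / 2 : ℝ)) ^ 2 = (J : ℝ) ^ 3 := by
              rw [← Real.rpow_natCast, ← Real.rpow_mul hx0.le, ← Real.rpow_natCast]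
              norm_num
            rw [mul_pow, h2]
            have h3 : (0 : ℝ) ≤ (J : ℝ) ^ 3 := by positivity
            nlinarith
    have h4 : (N : ℝ) ≤ 6 * (J : ℝ) ^ (3 / 2 : ℝ) :=
      (pow_le_pow_iff_left₀ hN0.le (by positivity) two_ne_zero).1 h1
    have h5 : (J : ℝ) ^ (3 / 2 : ℝ) ≤ (J : ℝ) ^ (1799 / 1000 : ℝ) :=
      Real.rpow_le_rpow_of_exponent_le hx (by norm_num)
    linarith
  · -- `M`
    have h1 : (M : ℝ) * (J : ℝ) ^ (209 / 1000 : ℝ) ≤ 27 * (J : ℝ) ^ 3 :=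
      le_trans (mul_le_mul_of_nonneg_left hN hM0.le) hMNr
    have h2 : (M : ℝ) ≤ 27 * (J : ℝ) ^ (2791 / 1000 : ℝ) := by
      have h3 : (J : ℝ) ^ (2791 / 1000 : ℝ) * (J : ℝ) ^ (209 / 1000 : ℝ) = (J : ℝ) ^ 3 := by
        rw [← Real.rpow_add hx0, ← Real.rpow_natCast]
        norm_num
      have h4 : (M : ℝ) * (J : ℝ) ^ (209 / 1000 : ℝ)
          ≤ (27 * (J : ℝ) ^ (2791 / 1000 : ℝ)) * (J : ℝ) ^ (209 / 1000 : ℝ) := by
        rw [mul_assoc, h3]; exact h1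
      exact le_of_mul_le_mul_right h4 hJδ
    rw [div_le_iff₀ hx0]
    have h5 : (J : ℝ) ^ (2791 / 1000 : ℝ) ≤ (J : ℝ) ^ (1799 / 1000 : ℝ) * J := by
      have h6 : (J : ℝ) ^ (1799 / 1000 : ℝ) * J = (J : ℝ) ^ (2799 / 1000 : ℝ) := by
        rw [← Real.rpow_add_one hx0.ne']
        norm_num
      rw [h6]
      exact Real.rpow_le_rpow_of_exponent_le hx (by norm_num)
    nlinarith
  · -- `x ^ 2`
    have h1 : (J : ℝ) ^ (4997 / 5000 : ℝ) ≤ (R : ℝ) ^ 2 := by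
      calc (J : ℝ) ^ (4997 / 5000 : ℝ) = ((J : ℝ) ^ (4997 / 10000 : ℝ)) ^ 2 := by
            rw [← Real.rpow_natCast, ← Real.rpow_mul hx0.le]
            norm_num
        _ ≤ (R : ℝ) ^ 2 := pow_le_pow_left₀ (Real.rpow_pos_of_pos hx0 _).le hR1 2
    calc (J : ℝ) ^ 2 = (J : ℝ) ^ (2 : ℝ) := (Real.rpow_two _).symm
      _ ≤ (J : ℝ) ^ (4997 / 5000 + 1799 / 1000 : ℝ) :=
          Real.rpow_le_rpow_of_exponent_le hx (by norm_num)
      _ = (J : ℝ) ^ (4997 / 5000 : ℝ) * (J : ℝ) ^ (1799 / 1000 : ℝ) := Real.rpow_add hx0 _ _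
      _ ≤ (R : ℝ) ^ 2 * (J : ℝ) ^ (1799 / 1000 : ℝ) :=
          mul_le_mul_of_nonneg_right h1 (Real.rpow_pos_of_pos hx0 _).le

theorem p_blkx : S_blkx := by
  intro hb H
  filter_upwards [blkx_ord hb H] with J hJ
  intro R M N a b th hR1 hR2 hth hM hN hMN ha hb'
  rcases le_total N M with h | h
  · exact hJ R M N a b th hR1 hR2 hth hM hN h hMN ha hb'
  · have h1 := hJ R N M b a th hR1 hR2 hth hN hM h (by rw [mul_comm]; exact hMN) hb' ha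
    have h2 : ∀ j, (∑ p ∈ primChars R, th p * ∑ m ∈ Icc 1 (2 * M), ∑ n ∈ Icc 1 (2 * N),
        a m * b n * p.2 ((m * n : ℕ) : ZMod p.1) * (wJ J j (m * n) : ℂ)) =
        ∑ p ∈ primChars R, th p * ∑ m ∈ Icc 1 (2 * N), ∑ n ∈ Icc 1 (2 * M),
        b m * a n * p.2 ((m * n : ℕ) : ZMod p.1) * (wJ J j (m * n) : ℂ) := by
      intro j
      refine Finset.sum_congr rfl fun p _ => ?_
      congr 1
      rw [Finset.sum_comm]
      refine Finset.sum_congr rfl fun n _ => Finset.sum_congr rfl fun m _ => ?_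
      rw [mul_comm (a m) (b n), mul_comm m n]
    rw [Finset.sum_congr rfl fun j _ => by rw [h2 j]]
    exact h1

end Pool.Agent.CX
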