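import Pool.Agent.Lib.MP_d610d0_nt.CX.Stm
import Pool.Agent.Lib.MP_d610d0_nt.CA.SC.p_bxP

set_option autoImplicit false

namespace Pool.Agent.CX

open Finset Filter
open Pool.Agent.CH (wJ wL)
open Pool.Agent.CH.D (dp xj R_spc)
open Pool.Agent.CA.SC (TS dW pf bxP_dW_supp bxP_pf_norm bxP_pf_supp)

theorem bx4_supp (hspc : R_spc) {J j r : ℕ} {lam : ℝ} (χ : DirichletCharacter ℂ r) (N a b : Fin 4 → ℕ)
    (hJ : 1 ≤ J) (hj : j ∈ Ioc J (2 * J)) (hlam : 10 ≤ lam)
    (hN : ∀ l, 1 ≤ N l ∧ N l ≤ 2 * (a l + 1) ∧ b l ≤ N l)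
    (h0 : TS (fun l => pf χ (a l) (b l)) (fun l => 2 * N l) (dW lam J j) ≠ 0) :
    (J : ℝ) ^ 3 ≤ 2 * ∏ l, (N l : ℝ) ∧ ∏ l, (N l : ℝ) ≤ 432 * (J : ℝ) ^ 3 := by
  set P : ℝ := ∏ l, (N l : ℝ) with hP
  unfold TS at h0
  obtain ⟨n, hn, hne⟩ := Finset.exists_ne_zero_of_sum_ne_zero h0
  rw [Fintype.mem_piFinset] at hn
  have h1 := left_ne_zero_of_mul hne
  have h2 := right_ne_zero_of_mul hne
  have hs : ∀ l, a l < n l ∧ n l ≤ b l := fun l =>
    bxP_pf_supp χ (a l) (b l) (n l) (Finset.prod_ne_zero_iff.1 h1 l (mem_univ l))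
  have hn1 : ∀ l, 1 ≤ n l := fun l => (mem_Icc.1 (hn l)).1
  have hpr1 : 1 ≤ ∏ l, n l := Nat.one_le_iff_ne_zero.2
    (Finset.prod_ne_zero_iff.2 fun l _ => by have := hn1 l; omega)
  obtain ⟨h3, h4⟩ := bxP_dW_supp hspc hJ hj hpr1 hlam h2
  have hle : ((∏ l, n l : ℕ) : ℝ) ≤ P := by
    rw [Nat.cast_prod]
    apply Finset.prod_le_prod
    · intro l _; positivity
    · intro l _
      exact_mod_cast (hs l).2.trans (hN l).2.2
  have hge : P ≤ 2 ^ 4 * ((∏ l, n l : ℕ) : ℝ) := by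
    have : (2 : ℝ) ^ 4 * ((∏ l, n l : ℕ) : ℝ) = ∏ l : Fin 4, (2 * (n l : ℝ)) := by
      rw [Finset.prod_mul_distrib, Nat.cast_prod]
      simp
    rw [this]
    apply Finset.prod_le_prod
    · intro l _; positivity
    · intro l _
      have h5 := (hN l).2.1
      have h6 := (hs l).1
      have : N l ≤ 2 * n l := by omega
      exact_mod_cast this
  have h3' : (J : ℝ) ^ 3 < 2 * ((∏ l, n l : ℕ) : ℝ) := by exact_mod_cast h3
  have h4' : ((∏ l, n l : ℕ) : ℝ) < 27 * (J : ℝ) ^ 3 := by exact_mod_cast h4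
  constructor
  · linarith
  · linarith

/-- the numerical part: the two terms of `R_Gx` are too small -/
theorem bx4_num {C A : ℕ} {J L s0 P P1 P2 n0 x y lg : ℝ} (hJ : 0 < J) (hL : 1 ≤ L) (hs0 : 0 < s0)
    (hP : P ≤ 432 * J ^ 3) (hP0 : 0 < P) (hP1 : J ≤ P1) (hP2 : 0 < P2)
    (hn0 : 2 * n0 * P1 * P2 = 16 * P) (hn00 : 0 < n0) (hQ : (1 + L) * J ≤ P2 * Real.sqrt s0)
    (hx : x * (20736 * L ^ A) < 1) (_hlg0 : 0 ≤ lg) (hlg : lg ≤ (5 * L) ^ C)
    (hy : y = (1 + L) * P2 * s0 * Real.sqrt s0 + P2 ^ 2 * s0 ^ 2 / J)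
    (hKL : 20736 * (C : ℝ) * 5 ^ C ≤ L ^ 6) :
    s0 * x * (16 * P) + C * lg * (J * (n0 / L ^ (A + C + 6))) *
      Real.sqrt (((1 + P1 / J) * P1) * y) < s0 * (J ^ 3 / L ^ A) := by
  have hLpos : 0 < L := by linarith
  have hP1pos : 0 < P1 := lt_of_lt_of_le hJ hP1
  have hss : Real.sqrt s0 * Real.sqrt s0 = s0 := Real.mul_self_sqrt hs0.le
  have hsq : 0 < Real.sqrt s0 := Real.sqrt_pos.2 hs0
  -- the square root
  have h1 : (1 + P1 / J) * P1 ≤ 2 * P1 ^ 2 / J := by
    rw [le_div_iff₀ hJ]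
    have : (1 + P1 / J) * P1 * J = J * P1 + P1 ^ 2 := by field_simp
    rw [this]
    nlinarith
  have h2 : y ≤ 2 * P2 ^ 2 * s0 ^ 2 / J := by
    rw [hy]
    have h3 : (1 + L) * P2 * s0 * Real.sqrt s0 ≤ P2 ^ 2 * s0 ^ 2 / J := by
      rw [le_div_iff₀ hJ]
      calc (1 + L) * P2 * s0 * Real.sqrt s0 * J = ((1 + L) * J) * (P2 * s0 * Real.sqrt s0) := by ring
        _ ≤ (P2 * Real.sqrt s0) * (P2 * s0 * Real.sqrt s0) :=
            mul_le_mul_of_nonneg_right hQ (by positivity)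
        _ = P2 ^ 2 * s0 * (Real.sqrt s0 * Real.sqrt s0) := by ring
        _ = P2 ^ 2 * s0 ^ 2 := by rw [hss]; ring
    calc (1 + L) * P2 * s0 * Real.sqrt s0 + P2 ^ 2 * s0 ^ 2 / J
        ≤ P2 ^ 2 * s0 ^ 2 / J + P2 ^ 2 * s0 ^ 2 / J := by linarith
      _ = 2 * P2 ^ 2 * s0 ^ 2 / J := by ring
  have hy0 : 0 ≤ y := by rw [hy]; positivity
  have h4 : Real.sqrt (((1 + P1 / J) * P1) * y) ≤ 2 * P1 * P2 * s0 / J := by
    rw [Real.sqrt_le_left (by positivity)]
    calc ((1 + P1 / J) * P1) * y ≤ (2 * P1 ^ 2 / J) * (2 * P2 ^ 2 * s0 ^ 2 / J) :=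
          mul_le_mul h1 h2 hy0 (by positivity)
      _ = (2 * P1 * P2 * s0 / J) ^ 2 := by ring
  -- second term
  have h5 : C * lg * (J * (n0 / L ^ (A + C + 6))) * Real.sqrt (((1 + P1 / J) * P1) * y) ≤
      s0 * (J ^ 3 / L ^ A) / 3 := by
    calc C * lg * (J * (n0 / L ^ (A + C + 6))) * Real.sqrt (((1 + P1 / J) * P1) * y)
        ≤ C * (5 * L) ^ C * (J * (n0 / L ^ (A + C + 6))) * (2 * P1 * P2 * s0 / J) := by
          apply mul_le_mul _ h4 (Real.sqrt_nonneg _) (by positivity)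
          apply mul_le_mul_of_nonneg_right _ (by positivity)
          exact mul_le_mul_of_nonneg_left hlg (by positivity)
      _ = C * 5 ^ C * (2 * n0 * P1 * P2) * s0 / (L ^ A * L ^ 6) := by
          rw [mul_pow, pow_add, pow_add]
          field_simp
      _ = (16 * (C : ℝ) * 5 ^ C) * (P * s0 / (L ^ A * L ^ 6)) := by
          rw [hn0]
          ring
      _ ≤ (16 * (C : ℝ) * 5 ^ C) * (432 * J ^ 3 * s0 / (L ^ A * L ^ 6)) := by
          gcongr
      _ = (20736 * (C : ℝ) * 5 ^ C) * (J ^ 3 * s0 / (3 * (L ^ A * L ^ 6))) := by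
          field_simp
          ring
      _ ≤ L ^ 6 * (J ^ 3 * s0 / (3 * (L ^ A * L ^ 6))) :=
          mul_le_mul_of_nonneg_right hKL (by positivity)
      _ = s0 * (J ^ 3 / L ^ A) / 3 := by
          field_simp
  have h6 : s0 * x * (16 * P) ≤ s0 * (J ^ 3 / L ^ A) / 3 := by
    rcases le_or_gt x 0 with h | h
    · have : s0 * x * (16 * P) ≤ 0 :=
        mul_nonpos_of_nonpos_of_nonneg (mul_nonpos_of_nonneg_of_nonpos hs0.le h) (by positivity)
      have h' : 0 ≤ s0 * (J ^ 3 / L ^ A) / 3 := by positivity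
      linarith
    · have hx' : x ≤ 1 / (20736 * L ^ A) := by
        rw [le_div_iff₀ (by positivity)]
        exact hx.le
      calc s0 * x * (16 * P) ≤ s0 * (1 / (20736 * L ^ A)) * (16 * (432 * J ^ 3)) := by
            gcongr
        _ = s0 * (J ^ 3 / L ^ A) / 3 := by
            field_simp
            ring
  have h7 : 0 < s0 * (J ^ 3 / L ^ A) := by positivity
  linarith

theorem p_bx4 : S_bx4 := by
  classical
  intro hG hprk hspc A B
  obtain ⟨C, hC1, hG4⟩ := hG 4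
  obtain ⟨C0, hC0⟩ := hprk (A + C + 6) B
  refine ⟨2 * C0 + A + 3, fun E hE => ?_⟩
  have hlogt : Tendsto (fun J : ℕ => Real.log (J : ℝ)) atTop atTop :=
    Real.tendsto_log_atTop.comp tendsto_natCast_atTop_atTop
  have hev1 : ∀ M : ℕ, ∀ c : ℝ, 0 < c → ∀ᶠ J : ℕ in atTop, (Real.log (J : ℝ)) ^ M ≤ c * J := by
    intro M c hc
    have h := (Real.isLittleO_pow_log_id_atTop (n := M)).bound hc
    filter_upwards [tendsto_natCast_atTop_atTop.eventually h] with J hJ
    refine (le_abs_self _).trans ?_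
    simpa using hJ
  have hev2 : ∀ᶠ J : ℕ in atTop, Real.log (J : ℝ) ≤ (1 / 2) * (J : ℝ) ^ (32 / 1000 : ℝ) := by
    have h := (isLittleO_log_rpow_atTop (r := (32 / 1000 : ℝ)) (by norm_num)).bound
      (by norm_num : (0 : ℝ) < 1 / 2)
    filter_upwards [tendsto_natCast_atTop_atTop.eventually h] with J hJ
    refine (le_abs_self _).trans ?_
    refine (by simpa using hJ : _ ≤ 1 / 2 * |(J : ℝ) ^ (32 / 1000 : ℝ)|).trans ?_
    rw [abs_of_nonneg (by positivity)]
  have hev3 : ∀ᶠ J : ℕ in atTop, 20736 * (C : ℝ) * 5 ^ C ≤ (Real.log (J : ℝ)) ^ 6 := by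
    filter_upwards [hlogt.eventually_ge_atTop (20736 * (C : ℝ) * 5 ^ C),
      hlogt.eventually_ge_atTop 1] with J h1 h2
    exact h1.trans (le_self_pow₀ h2 (by norm_num))
  filter_upwards [hC0, hev1 (2 * E + A + 1) (1 / (4 * 20736)) (by norm_num), hev1 C0 1 one_pos,
    hev1 E 1 one_pos, hev2, hev3, hlogt.eventually_ge_atTop 100000, eventually_ge_atTop 2]
    with J hpk hJ1 hJ2 hJ3 hJ4 hJ5 hL hJ
  intro r χ N a b hr1 hrB hχ hN hNJ
  set L := Real.log (J : ℝ) with hLdef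
  have hJpos : (0 : ℝ) < J := by exact_mod_cast (by omega : 0 < J)
  have hLpos : 0 < L := by linarith
  have hL1 : 1 ≤ L := by linarith
  have hlam : (10 : ℝ) ≤ L ^ E := by
    calc (10 : ℝ) ≤ L ^ 1 := by rw [pow_one]; linarith
      _ ≤ L ^ E := pow_le_pow_right₀ hL1 (by omega)
  by_contra hcon
  rw [not_le] at hcon
  unfold nb at hcon
  set S := (Ioc J (2 * J)).filter (fun j => (J : ℝ) ^ 3 / L ^ A <
    ‖TS (fun l => pf χ (a l) (b l)) (fun l => 2 * N l) (dW (L ^ E) J j)‖) with hS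
  set s0 : ℝ := (S.card : ℝ) with hs0
  have hs0pos : 0 < s0 := lt_of_le_of_lt (by positivity) hcon
  have hSne : S.Nonempty := by
    rw [← Finset.card_pos]
    have : (0 : ℝ) < (S.card : ℝ) := hs0pos
    exact_mod_cast this
  obtain ⟨j0, hj0⟩ := hSne
  have hj0' := Finset.mem_filter.1 hj0
  have hTS0 : TS (fun l => pf χ (a l) (b l)) (fun l => 2 * N l) (dW (L ^ E) J j0) ≠ 0 := by
    intro h0
    have h1 := hj0'.2
    rw [h0, norm_zero] at h1
    have : (0 : ℝ) ≤ (J : ℝ) ^ 3 / L ^ A := by positivity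
    linarith
  obtain ⟨hPlo, hPhi⟩ := bx4_supp hspc χ N a b (by omega) hj0'.1 hlam hN hTS0
  set P : ℝ := ∏ l, (N l : ℝ) with hP
  have hN1 : ∀ l, (1 : ℝ) ≤ N l := fun l => by exact_mod_cast (hN l).1
  have hNpos : ∀ l, (0 : ℝ) < N l := fun l => lt_of_lt_of_le one_pos (hN1 l)
  have hPpos : 0 < P := Finset.prod_pos fun l _ => hNpos l
  -- the largest factor and another one
  obtain ⟨b0, -, hb0⟩ := Finset.exists_max_image (univ : Finset (Fin 4)) N ⟨0, mem_univ _⟩
  obtain ⟨l0, hl0⟩ : ∃ l0 : Fin 4, l0 ≠ b0 := exists_ne b0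
  set T : Finset (Fin 4) := (univ.erase l0).erase b0 with hT
  have hbT : b0 ∉ T := by simp [hT]
  have hlT : l0 ∉ T := by simp [hT]
  have hTc : T.card = 2 := by
    rw [hT, Finset.card_erase_of_mem (by simp [hl0.symm]), Finset.card_erase_of_mem (mem_univ _)]
    simp
  have hun : insert l0 (insert b0 T) = univ := by
    rw [hT, Finset.insert_erase (by simp [hl0.symm]), Finset.insert_erase (mem_univ _)]
  set PT : ℝ := ∏ l ∈ T, (2 * (N l : ℝ)) with hPT
  have hPTpos : 0 < PT := Finset.prod_pos fun l _ => by have := hNpos l; positivity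
  have h16 : ∏ l, (2 * (N l : ℝ)) = 16 * P := by
    rw [Finset.prod_mul_distrib, ← hP, Finset.prod_const, Finset.card_univ, Fintype.card_fin]
    norm_num
  have hprod : (2 * (N l0 : ℝ)) * ((2 * (N b0 : ℝ)) * PT) = 16 * P := by
    rw [← h16, ← hun, Finset.prod_insert (by simp [hl0, hlT]), Finset.prod_insert hbT]
  -- upper bounds for the logarithms
  have hlog432 : Real.log 6912 ≤ 6912 := by
    have := Real.log_le_sub_one_of_pos (by norm_num : (0 : ℝ) < 6912)
    linarith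
  have hlogP : Real.log (16 * P) ≤ 3 * L + 6912 := by
    have h1 : Real.log (16 * P) ≤ Real.log (6912 * (J : ℝ) ^ 3) :=
      Real.log_le_log (by positivity) (by linarith)
    rw [Real.log_mul (x := 6912) (by norm_num) (by positivity), Real.log_pow] at h1
    push_cast at h1
    rw [← hLdef] at h1
    linarith
  have hNle : ∀ l, (N l : ℝ) ≤ P := by
    intro l
    rw [hP, ← Finset.mul_prod_erase univ (fun l => (N l : ℝ)) (mem_univ l)]
    refine le_mul_of_one_le_right (hNpos l).le ?_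
    have h1 := Finset.prod_le_prod (s := univ.erase l) (f := fun _ => (1 : ℝ))
      (g := fun i => (N i : ℝ)) (fun _ _ => zero_le_one) (fun i _ => hN1 i)
    simpa using h1
  have hlogN : ∀ l, Real.log (N l) ≤ 4 * L := by
    intro l
    have h1 : Real.log (N l) ≤ Real.log (16 * P) :=
      Real.log_le_log (hNpos l) (by have := hNle l; linarith)
    linarith
  have hlogN' : ∀ l, L / 20 ≤ Real.log (N l) := by
    intro l
    have h1 : Real.log ((J : ℝ) ^ (341 / 1000 : ℝ)) ≤ Real.log (N l : ℝ) :=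
      Real.log_le_log (by positivity) (hNJ l)
    rw [Real.log_rpow hJpos, ← hLdef] at h1
    linarith
  -- the pointwise bound
  have hpt : ∀ θ : ℝ, L ^ C0 ≤ |θ| → |θ| ≤ (J : ℝ) ^ 3 →
      ‖dp (pf χ (a l0) (b l0)) (2 * N l0) θ‖ ≤ (N l0 : ℝ) / L ^ (A + C + 6) := by
    intro θ h1 h2
    exact hpk r χ (N l0) (a l0) (b l0) θ hr1 hrB hχ (hN l0).2.2 (hlogN' l0) (hlogN l0) h2
      (Or.inr h1)
  -- apply the trilinear estimate
  have hmain : ∀ S1 S2 : Finset (Fin 4), l0 ∉ S1 → l0 ∉ S2 → Disjoint S1 S2 →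
      insert l0 (S1 ∪ S2) = univ → (J : ℝ) ≤ ∏ l ∈ S1, (2 * (N l : ℝ)) →
      (1 + L) * J ≤ (∏ l ∈ S2, (2 * (N l : ℝ))) * Real.sqrt s0 → False := by
    intro S1 S2 h1 h2 hdis hins hP1 hP2
    have hg := hG4 J (L ^ E) (L ^ C0) 1 ((N l0 : ℝ) / L ^ (A + C + 6)) (fun l => 2 * N l)
      (fun l => pf χ (a l) (b l)) l0 S1 S2 S hJ (Finset.filter_subset _ _)
      (one_le_pow₀ hL1) (by linarith) (one_le_pow₀ hL1) (by linarith) le_rfl (by positivity)
      (fun l => by have := (hN l).1; omega) (fun l n => bxP_pf_norm χ _ _ _)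
      (fun l _ n hn => by
        by_contra hp
        apply hn
        simp [pf, hp]) h1 h2 hdis hins hpt
    have hlow : s0 * ((J : ℝ) ^ 3 / L ^ A) ≤
        ∑ j ∈ S, ‖TS (fun l => pf χ (a l) (b l)) (fun l => 2 * N l) (dW (L ^ E) J j)‖ := by
      rw [hs0, ← nsmul_eq_mul]
      apply Finset.card_nsmul_le_sum
      intro j hj
      exact (Finset.mem_filter.1 hj).2.le
    have e1 : (∏ l, ((2 * N l : ℕ) : ℝ)) = 16 * P := by
      push_cast
      exact h16
    have e2 : ((∏ l ∈ S2, (2 * N l) : ℕ) : ℝ) = ∏ l ∈ S2, (2 * (N l : ℝ)) := by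
      push_cast
      rfl
    have e3 : (∏ l ∈ S1, ((2 * N l : ℕ) : ℝ)) = ∏ l ∈ S1, (2 * (N l : ℝ)) := by
      push_cast
      rfl
    have e4 : 2 * (N l0 : ℝ) * (∏ l ∈ S1, (2 * (N l : ℝ))) * ∏ l ∈ S2, (2 * (N l : ℝ)) = 16 * P := by
      rw [← h16, ← hins, Finset.prod_insert (by simp [h1, h2]), Finset.prod_union hdis]
      ring
    simp only [one_pow, mul_one, one_mul] at hg
    rw [e1, e3] at hg
    have hlg0 : 0 ≤ (1 + Real.log (16 * P)) := by
      have : (1 : ℝ) ≤ 16 * P := by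
        have h3 := hNle 0
        have h4 := hN1 0
        linarith
      have := Real.log_nonneg this
      linarith
    have hlg1 : (1 + Real.log (16 * P)) ^ C ≤ (5 * L) ^ C :=
      pow_le_pow_left₀ hlg0 (by linarith) C
    have hx : ((L ^ C0) ^ 3 / (L ^ E) ^ 2 + 6 / J + (L ^ E) ^ 2 / J) * (20736 * L ^ A) < 1 := by
      have t1 : (L ^ C0) ^ 3 / (L ^ E) ^ 2 * (20736 * L ^ A) ≤ 1 / 4 := by
        have h3 : (L ^ C0) ^ 3 * L ^ A * L ^ 1 ≤ (L ^ E) ^ 2 := by
          rw [← pow_mul, ← pow_mul, ← pow_add, ← pow_add]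
          exact pow_le_pow_right₀ hL1 (by omega)
        rw [div_mul_eq_mul_div, div_le_iff₀ (by positivity)]
        have h4 : 0 ≤ (L ^ C0) ^ 3 * L ^ A := by positivity
        rw [pow_one] at h3
        nlinarith [mul_le_mul_of_nonneg_left hL h4]
      have t2 : (6 / J + (L ^ E) ^ 2 / J) * (20736 * L ^ A) ≤ 1 / 2 := by
        rw [← add_div, div_mul_eq_mul_div, div_le_iff₀ hJpos]
        have h3 : (6 + (L ^ E) ^ 2) * L ^ A ≤ 2 * L ^ (2 * E + A + 1) := by
          have h4 : L ^ (2 * E + A + 1) = (L ^ E) ^ 2 * L ^ A * L := by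
            rw [← pow_mul]
            ring
          rw [h4]
          have h5 : 1 ≤ (L ^ E) ^ 2 := one_le_pow₀ (one_le_pow₀ hL1)
          have h6 : 0 < L ^ A := by positivity
          have h7 : (6 + (L ^ E) ^ 2) ≤ 7 * (L ^ E) ^ 2 := by linarith
          calc (6 + (L ^ E) ^ 2) * L ^ A ≤ 7 * (L ^ E) ^ 2 * L ^ A :=
                mul_le_mul_of_nonneg_right h7 h6.le
            _ = (L ^ E) ^ 2 * L ^ A * 7 := by ring
            _ ≤ (L ^ E) ^ 2 * L ^ A * (2 * L) :=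
                mul_le_mul_of_nonneg_left (by linarith) (by positivity)
            _ = 2 * ((L ^ E) ^ 2 * L ^ A * L) := by ring
        calc (6 + (L ^ E) ^ 2) * (20736 * L ^ A) = 20736 * ((6 + (L ^ E) ^ 2) * L ^ A) := by ring
          _ ≤ 20736 * (2 * L ^ (2 * E + A + 1)) := by linarith
          _ ≤ 20736 * (2 * (1 / (4 * 20736) * J)) := by linarith
          _ = 1 / 2 * J := by ring
      have t3 : ((L ^ C0) ^ 3 / (L ^ E) ^ 2 + 6 / J + (L ^ E) ^ 2 / J) * (20736 * L ^ A) =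
          (L ^ C0) ^ 3 / (L ^ E) ^ 2 * (20736 * L ^ A) +
          (6 / J + (L ^ E) ^ 2 / J) * (20736 * L ^ A) := by ring
      rw [t3]
      linarith
    have hnum := bx4_num (C := C) (A := A) (J := J) (L := L) (s0 := s0) (P := P)
      (P1 := ∏ l ∈ S1, (2 * (N l : ℝ))) (P2 := ∏ l ∈ S2, (2 * (N l : ℝ))) (n0 := N l0)
      (x := (L ^ C0) ^ 3 / (L ^ E) ^ 2 + 6 / J + (L ^ E) ^ 2 / J)
      (y := Ex J (∏ l ∈ S2, (2 * N l)) s0) (lg := (1 + Real.log (16 * P)) ^ C)
      hJpos hL1 hs0pos hPhi hPpos hP1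
      (Finset.prod_pos fun l _ => by have := hNpos l; positivity) e4 (hNpos l0) hP2 hx
      (by positivity) hlg1 (by rw [Ex, e2]) hJ5
    exact absurd (hlow.trans (hg.trans (le_of_eq rfl))) (not_le.2 hnum)
  -- the two cases
  have hsq : (J : ℝ) ^ (35 / 100 : ℝ) ≤ Real.sqrt s0 := by
    apply Real.le_sqrt_of_sq_le
    rw [← Real.rpow_natCast, ← Real.rpow_mul hJpos.le]
    norm_num
    norm_num at hcon
    exact hcon.le
  have hJL : (1 + L) ≤ (J : ℝ) ^ (32 / 1000 : ℝ) := by linarith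
  rcases le_or_gt (J : ℝ) (N b0 : ℝ) with hcase | hcase
  · refine hmain {b0} T (by simpa using hl0) hlT (by simpa using hbT) ?_ ?_ ?_
    · rw [← hun, Finset.insert_eq b0 T]
    · rw [Finset.prod_singleton]
      linarith
    · have h1 : ((J : ℝ) ^ (341 / 1000 : ℝ)) ^ 2 ≤ PT := by
        rw [← hTc, ← Finset.prod_const, hPT]
        apply Finset.prod_le_prod
        · intro l _; positivity
        · intro l _
          have := hNJ l
          have := hNpos l
          linarith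
      calc (1 + L) * J ≤ (J : ℝ) ^ (32 / 1000 : ℝ) * J := mul_le_mul_of_nonneg_right hJL hJpos.le
        _ = ((J : ℝ) ^ (341 / 1000 : ℝ)) ^ 2 * (J : ℝ) ^ (35 / 100 : ℝ) := by
            rw [← Real.rpow_natCast ((J : ℝ) ^ (341 / 1000 : ℝ)), ← Real.rpow_mul hJpos.le,
              ← Real.rpow_add hJpos]
            nth_rewrite 2 [← Real.rpow_one (J : ℝ)]
            rw [← Real.rpow_add hJpos]
            norm_num
        _ ≤ PT * Real.sqrt s0 := mul_le_mul h1 hsq (by positivity) hPTpos.le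
  · have hNlt : ∀ l, (N l : ℝ) < J := by
      intro l
      have h1 : N l ≤ N b0 := hb0 l (mem_univ l)
      have h2 : (N l : ℝ) ≤ N b0 := by exact_mod_cast h1
      linarith
    refine hmain T {b0} hlT (by simpa using hl0) (by simpa using hbT) ?_ ?_ ?_
    · rw [← hun, Finset.union_comm, Finset.insert_eq b0 T]
    · show (J : ℝ) ≤ PT
      have h1 := hNlt l0
      have h2 := hNlt b0
      have h3 := hNpos l0
      have h4 := hNpos b0
      by_contra h5
      rw [not_le] at h5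
      have h6 : (2 * (N l0 : ℝ)) * ((2 * (N b0 : ℝ)) * PT) < (2 * J) * ((2 * J) * J) := by
        apply mul_lt_mul'' (by linarith) _ (by positivity) (by positivity)
        exact mul_lt_mul'' (by linarith) h5 (by positivity) hPTpos.le
      rw [hprod] at h6
      nlinarith [pow_pos hJpos 3]
    · rw [Finset.prod_singleton]
      have h1 : P ≤ (N b0 : ℝ) ^ 4 := by
        have : (N b0 : ℝ) ^ 4 = ∏ _l : Fin 4, (N b0 : ℝ) := by simp
        rw [this, hP]
        apply Finset.prod_le_prod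
        · intro l _; positivity
        · intro l _
          exact_mod_cast hb0 l (mem_univ l)
      have h2 : (J : ℝ) ^ (3 / 4 : ℝ) ≤ 2 * (N b0 : ℝ) := by
        have h3 : ((J : ℝ) ^ (3 / 4 : ℝ)) ^ 4 = (J : ℝ) ^ 3 := by
          rw [← Real.rpow_natCast ((J : ℝ) ^ (3 / 4 : ℝ)), ← Real.rpow_mul hJpos.le,
            ← Real.rpow_natCast]
          norm_num
        refine le_of_pow_le_pow_left₀ (by norm_num : (4 : ℕ) ≠ 0) (by have := hNpos b0; positivity) ?_
        rw [h3, mul_pow]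
        have := pow_pos hJpos 3
        linarith
      calc (1 + L) * J ≤ (J : ℝ) ^ (32 / 1000 : ℝ) * J := mul_le_mul_of_nonneg_right hJL hJpos.le
        _ ≤ (J : ℝ) ^ (1 / 10 : ℝ) * J := by
            apply mul_le_mul_of_nonneg_right _ hJpos.le
            exact Real.rpow_le_rpow_of_exponent_le (by exact_mod_cast (by omega : 1 ≤ J))
              (by norm_num)
        _ = (J : ℝ) ^ (3 / 4 : ℝ) * (J : ℝ) ^ (35 / 100 : ℝ) := by
            rw [← Real.rpow_add hJpos]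
            nth_rewrite 2 [← Real.rpow_one (J : ℝ)]
            rw [← Real.rpow_add hJpos]
            norm_num
        _ ≤ 2 * (N b0 : ℝ) * Real.sqrt s0 :=
            mul_le_mul h2 hsq (by positivity) (by have := hNpos b0; positivity)

end Pool.Agent.CX
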