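import Pool.Agent.Lib.MP_d610d0_nt.CX.Stm

set_option autoImplicit false

/-!
Project CX, piece cnt: coincidences between quotients of small numbers and quotients of the centres of the windows.
-/

namespace Pool.Agent.CX

open Finset Filter
open Pool.Agent.CH.D (xj R_spc)

private lemma cnt_sp {ι : Type*} (T : Finset ι) (f : ι → ℝ) {c l e : ℝ} (he : 0 < e) (hl : 0 ≤ l)
    (h1 : ∀ i ∈ T, c < f i ∧ f i < c + l)
    (h2 : ∀ i ∈ T, ∀ k ∈ T, i ≠ k → e ≤ |f i - f k|) : (T.card : ℝ) ≤ l / e + 1 := by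
  have hcard : T.card ≤ ⌊l / e⌋₊ + 1 := by
    have : T.card ≤ (range (⌊l / e⌋₊ + 1)).card := by
      apply card_le_card_of_injOn (fun i => ⌊(f i - c) / e⌋₊)
      · intro i hi
        have hi' := h1 i hi
        simp only [coe_range, Set.mem_Iio]
        apply Nat.lt_succ_of_le
        apply Nat.floor_le_floor
        gcongr
        linarith [hi'.2]
      · intro i hi k hk hik
        simp only at hik
        by_contra hne
        have h3 := h2 i hi k hk hne
        have hi' := h1 i hi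
        have hk' := h1 k hk
        have a1 : 0 ≤ (f i - c) / e := div_nonneg (by linarith [hi'.1]) he.le
        have a2 : 0 ≤ (f k - c) / e := div_nonneg (by linarith [hk'.1]) he.le
        have b1 := Nat.floor_le a1
        have b2 := Nat.lt_floor_add_one ((f i - c) / e)
        have b3 := Nat.floor_le a2
        have b4 := Nat.lt_floor_add_one ((f k - c) / e)
        rw [hik] at b1 b2
        have c1 : |(f i - c) / e - (f k - c) / e| < 1 := by
          rw [abs_lt]; constructor <;> linarith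
        have c2 : (f i - c) / e - (f k - c) / e = (f i - f k) / e := by ring
        rw [c2, abs_div, abs_of_pos he, div_lt_one he] at c1
        linarith
    simpa using this
  have h4 : ((⌊l / e⌋₊ : ℕ) : ℝ) ≤ l / e := Nat.floor_le (div_nonneg hl he.le)
  have h5 : (T.card : ℝ) ≤ ((⌊l / e⌋₊ + 1 : ℕ) : ℝ) := by exact_mod_cast hcard
  push_cast at h5
  linarith

private lemma cnt_fib {α β : Type*} [DecidableEq β] (s : Finset α) (t : Finset β) (f : α → β) (r : ℝ)
    (Hf : ∀ a ∈ s, f a ∈ t) (hn : ∀ b ∈ t, ((s.filter (fun a => f a = b)).card : ℝ) ≤ r) :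
    (s.card : ℝ) ≤ t.card * r := by
  rw [card_eq_sum_card_fiberwise (f := f) (t := t) Hf]
  push_cast
  calc ∑ b ∈ t, ((s.filter (fun a => f a = b)).card : ℝ) ≤ ∑ _b ∈ t, r := sum_le_sum hn
    _ = t.card * r := by rw [sum_const, nsmul_eq_mul]

/-- Logarithms of different fractions with small numerators and denominators are well spaced. -/
private lemma cnt_log {D a b a' b' : ℕ} (ha : 1 ≤ a) (hb : 1 ≤ b) (ha' : 1 ≤ a') (hb' : 1 ≤ b')
    (haD : a ≤ D) (hbD : b ≤ D) (haD' : a' ≤ D) (hbD' : b' ≤ D) (hne : a * b' ≠ a' * b) :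
    1 / (D : ℝ) ^ 2 ≤ |(Real.log a - Real.log b) - (Real.log a' - Real.log b')| := by
  have key : ∀ x y : ℕ, 1 ≤ x → x < y → y ≤ D ^ 2 → 1 / (D : ℝ) ^ 2 ≤ Real.log y - Real.log x := by
    intro x y hx hxy hy
    have hx0 : (0 : ℝ) < x := by exact_mod_cast hx
    have hy0 : (0 : ℝ) < y := by exact_mod_cast (by omega : 0 < y)
    rw [← Real.log_div hy0.ne' hx0.ne']
    have h1 : 1 - ((y : ℝ) / x)⁻¹ ≤ Real.log ((y : ℝ) / x) :=
      Real.one_sub_inv_le_log_of_pos (div_pos hy0 hx0)
    have h2 : 1 / (D : ℝ) ^ 2 ≤ 1 - ((y : ℝ) / x)⁻¹ := by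
      have h3 : 1 - ((y : ℝ) / x)⁻¹ = (y - x) / y := by field_simp
      rw [h3]
      have h4 : (1 : ℝ) ≤ y - x := by
        have : (x : ℝ) + 1 ≤ y := by exact_mod_cast hxy
        linarith
      have h5 : (y : ℝ) ≤ (D : ℝ) ^ 2 := by exact_mod_cast hy
      have h6 : (1 : ℝ) / (D : ℝ) ^ 2 ≤ 1 / y := one_div_le_one_div_of_le hy0 h5
      refine h6.trans ?_
      gcongr
    linarith
  have e1 : (Real.log a - Real.log b) - (Real.log a' - Real.log b') =
      Real.log ((a * b' : ℕ) : ℝ) - Real.log ((a' * b : ℕ) : ℝ) := by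
    push_cast
    rw [Real.log_mul (by positivity) (by positivity), Real.log_mul (by positivity) (by positivity)]
    ring
  rw [e1]
  have m1 : a * b' ≤ D ^ 2 := by rw [pow_two]; exact Nat.mul_le_mul haD hbD'
  have m2 : a' * b ≤ D ^ 2 := by rw [pow_two]; exact Nat.mul_le_mul haD' hbD
  rcases lt_or_gt_of_ne hne with h | h
  · have := key _ _ (Nat.mul_pos ha hb') h m2
    rw [abs_sub_comm]
    exact this.trans (le_abs_self _)
  · have := key _ _ (Nat.mul_pos ha' hb) h m1
    exact this.trans (le_abs_self _)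

private lemma cnt_cop {a b a' b' : ℕ} (ha : 1 ≤ a) (ha' : 1 ≤ a') (h : a.Coprime b)
    (h' : a'.Coprime b') (he : a * b' = a' * b) : a = a' ∧ b = b' := by
  have h1 : a ∣ a' := by
    have : a ∣ a' * b := ⟨b', he.symm⟩
    exact h.dvd_of_dvd_mul_right this
  have h2 : a' ∣ a := by
    have : a' ∣ a * b' := ⟨b, he⟩
    exact h'.dvd_of_dvd_mul_right this
  have h3 := Nat.dvd_antisymm h1 h2
  subst h3
  exact ⟨rfl, (Nat.eq_of_mul_eq_mul_left ha he).symm⟩

private lemma cnt_sq (N : ℕ) : ∑ g ∈ Icc 1 N, 1 / (g : ℝ) ^ 2 ≤ 2 := by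
  have h : ∀ n : ℕ, 1 ≤ n → ∑ g ∈ Icc 1 n, 1 / (g : ℝ) ^ 2 ≤ (2 : ℝ) - 1 / (n : ℝ) := by
    intro n hn
    induction n, hn using Nat.le_induction with
    | base => norm_num
    | succ n hn ih =>
      rw [sum_Icc_succ_top (by omega)]
      have hn0 : (0 : ℝ) < n := by exact_mod_cast hn
      have : 1 / ((n + 1 : ℕ) : ℝ) ^ 2 ≤ 1 / n - 1 / ((n + 1 : ℕ) : ℝ) := by
        push_cast
        rw [div_sub_div _ _ hn0.ne' (by positivity), div_le_div_iff₀ (by positivity) (by positivity)]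
        nlinarith
      linarith
  rcases Nat.eq_zero_or_pos N with h0 | h0
  · subst h0; simp
  · have := h N h0
    have h1 : (0 : ℝ) ≤ 1 / N := by positivity
    linarith

private lemma cnt_har (N : ℕ) : ∑ g ∈ Icc 1 N, 1 / (g : ℝ) ≤ 1 + Real.log N := by
  have h := harmonic_le_one_add_log N
  rw [harmonic_eq_sum_Icc] at h
  push_cast at h
  simpa [one_div] using h

/-- The condition. -/
private def cnt_P (J m n j k : ℕ) : Prop :=
  |(Real.log m - Real.log n) - (Real.log (xj j) - Real.log (xj k))| < 1 / (2 * (J : ℝ))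

private lemma cnt_A (hspc : R_spc) (J D : ℕ) (S : Finset ℕ) (hJ : 2 ≤ J) (hS : S ⊆ Ioc J (2 * J))
    (Q : Finset (ℕ × ℕ × ℕ × ℕ))
    (hQ : ∀ t ∈ Q, t ∈ Icc 1 D ×ˢ Icc 1 D ×ˢ S ×ˢ S ∧ cnt_P J t.1 t.2.1 t.2.2.1 t.2.2.2) :
    (Q.card : ℝ) ≤ 4 * S.card * (D : ℝ) ^ 2 := by
  have hJ0 : (0 : ℝ) < J := by exact_mod_cast (by omega : 0 < J)
  have h := cnt_fib Q (Icc 1 D ×ˢ Icc 1 D ×ˢ S) (fun t => (t.1, t.2.1, t.2.2.2)) 3 ?_ ?_
  · refine h.trans ?_
    simp only [card_product, Nat.card_Icc, Nat.add_sub_cancel]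
    push_cast
    have : (0 : ℝ) ≤ S.card * (D : ℝ) ^ 2 := by positivity
    nlinarith
  · intro t ht
    have := (hQ t ht).1
    simp only [mem_product] at this ⊢
    exact ⟨this.1, this.2.1, this.2.2.2⟩
  · intro b _
    have h3 := cnt_sp (Q.filter (fun t => (t.1, t.2.1, t.2.2.2) = b)) (fun t => Real.log (xj t.2.2.1))
      (c := Real.log b.1 - Real.log b.2.1 + Real.log (xj b.2.2) - 1 / (2 * (J : ℝ)))
      (l := 2 * (1 / (2 * (J : ℝ)))) (e := 1 / (2 * (J : ℝ))) (by positivity) (by positivity) ?_ ?_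
    · refine h3.trans (le_of_eq ?_)
      field_simp
      norm_num
    · intro t ht
      rw [mem_filter] at ht
      have h4 := (hQ t ht.1).2
      unfold cnt_P at h4
      rw [abs_lt] at h4
      rw [← ht.2]
      constructor <;> simp only <;> linarith [h4.1, h4.2]
    · intro t ht t' ht' hne
      rw [mem_filter] at ht ht'
      have m1 := (hQ t ht.1).1
      have m2 := (hQ t' ht'.1).1
      simp only [mem_product] at m1 m2
      apply (hspc J (by omega)).1 _ (hS m1.2.2.1) _ (hS m2.2.2.1)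
      intro h5
      apply hne
      have h6 := ht.2.trans ht'.2.symm
      simp only [Prod.mk.injEq] at h6
      ext <;> simp [h6.1, h6.2.1, h6.2.2, h5]

private lemma cnt_B (J D : ℕ) (S : Finset ℕ) (hJ : 2 ≤ J) (hD : 1 ≤ D)
    (Q : Finset (ℕ × ℕ × ℕ × ℕ))
    (hQ : ∀ t ∈ Q, t ∈ Icc 1 D ×ˢ Icc 1 D ×ˢ S ×ˢ S ∧ cnt_P J t.1 t.2.1 t.2.2.1 t.2.2.2)
    (hc : ∀ t ∈ Q, Nat.Coprime t.1 t.2.1) :
    (Q.card : ℝ) ≤ (S.card : ℝ) ^ 2 * (1 + (D : ℝ) ^ 2 / J) := by
  have hJ0 : (0 : ℝ) < J := by exact_mod_cast (by omega : 0 < J)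
  have hD0 : (0 : ℝ) < D := by exact_mod_cast hD
  have h := cnt_fib Q (S ×ˢ S) (fun t => (t.2.2.1, t.2.2.2)) (1 + (D : ℝ) ^ 2 / J) ?_ ?_
  · refine h.trans (le_of_eq ?_)
    rw [card_product]
    push_cast
    ring
  · intro t ht
    have := (hQ t ht).1
    simp only [mem_product] at this ⊢
    exact ⟨this.2.2.1, this.2.2.2⟩
  · intro b _
    have h3 := cnt_sp (Q.filter (fun t => (t.2.2.1, t.2.2.2) = b))
      (fun t => Real.log (t.1 : ℝ) - Real.log (t.2.1 : ℝ))
      (c := Real.log (xj b.1) - Real.log (xj b.2) - 1 / (2 * (J : ℝ)))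
      (l := 2 * (1 / (2 * (J : ℝ)))) (e := 1 / (D : ℝ) ^ 2) (by positivity) (by positivity) ?_ ?_
    · refine h3.trans (le_of_eq ?_)
      field_simp
      ring
    · intro t ht
      rw [mem_filter] at ht
      have h4 := (hQ t ht.1).2
      unfold cnt_P at h4
      rw [abs_lt] at h4
      rw [← ht.2]
      constructor <;> simp only <;> linarith [h4.1, h4.2]
    · intro t ht t' ht' hne
      rw [mem_filter] at ht ht'
      have m1 := (hQ t ht.1).1
      have m2 := (hQ t' ht'.1).1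
      have c1 := hc t ht.1
      have c2 := hc t' ht'.1
      simp only [mem_product, mem_Icc] at m1 m2
      apply cnt_log m1.1.1 m1.2.1.1 m2.1.1 m2.2.1.1 m1.1.2 m1.2.1.2 m2.1.2 m2.2.1.2
      intro h5
      have h7 := cnt_cop m1.1.1 m2.1.1 c1 c2 h5
      apply hne
      have h6 := ht.2.trans ht'.2.symm
      simp only [Prod.mk.injEq] at h6
      ext <;> simp [h6.1, h6.2, h7.1, h7.2]

/-- Piece cnt. -/
theorem p_cnt : S_cnt := by
  classical
  intro hspc
  refine ⟨2, by norm_num, ?_⟩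
  intro J N S hJ hS
  have hJ0 : (0 : ℝ) < J := by exact_mod_cast (by omega : 0 < J)
  have hlJ : 0 ≤ Real.log J := Real.log_nonneg (by exact_mod_cast (by omega : 1 ≤ J))
  set Q := (Icc 1 N ×ˢ Icc 1 N ×ˢ S ×ˢ S).filter (fun t : ℕ × ℕ × ℕ × ℕ =>
    |(Real.log t.1 - Real.log t.2.1) - (Real.log (xj t.2.2.1) - Real.log (xj t.2.2.2))|
      < 1 / (2 * (J : ℝ))) with hQdef
  set s : ℝ := (S.card : ℝ) with hs
  have hs0 : 0 ≤ s := by positivity
  rcases Nat.eq_zero_or_pos N with hN | hN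
  · subst hN
    simp only [hQdef, Ex]
    simp
  have hN0 : (0 : ℝ) < N := by exact_mod_cast hN
  have hEx : 0 ≤ (1 + Real.log J) * N * s * Real.sqrt s := by positivity
  rcases lt_or_ge J N with hJN | hNJ
  · -- case `J < N`
    have h := cnt_fib Q (Icc 1 N ×ˢ S ×ˢ S) (fun t => (t.2.1, t.2.2.1, t.2.2.2)) (1 + (N : ℝ) / J) ?_ ?_
    · refine h.trans ?_
      simp only [card_product, Nat.card_Icc, Nat.add_sub_cancel]
      push_cast
      have h1 : 1 + (N : ℝ) / J ≤ 2 * ((N : ℝ) / J) := by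
        have : 1 ≤ (N : ℝ) / J := by
          rw [le_div_iff₀ hJ0, one_mul]
          exact_mod_cast hJN.le
        linarith
      calc (N : ℝ) * (s * s) * (1 + (N : ℝ) / J) ≤ (N : ℝ) * (s * s) * (2 * ((N : ℝ) / J)) := by gcongr
        _ = 2 * ((N : ℝ) ^ 2 * s ^ 2 / J) := by ring
        _ ≤ 2 * Ex J N s := by unfold Ex; linarith
    · intro t ht
      rw [hQdef, mem_filter] at ht
      have := ht.1
      simp only [mem_product] at this ⊢
      exact ⟨this.2.1, this.2.2.1, this.2.2.2⟩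
    · intro b _
      have h3 := cnt_sp (Q.filter (fun t => (t.2.1, t.2.2.1, t.2.2.2) = b)) (fun t => Real.log (t.1 : ℝ))
        (c := Real.log b.1 + (Real.log (xj b.2.1) - Real.log (xj b.2.2)) - 1 / (2 * (J : ℝ)))
        (l := 2 * (1 / (2 * (J : ℝ)))) (e := 1 / (N : ℝ)) (by positivity) (by positivity) ?_ ?_
      · refine h3.trans (le_of_eq ?_)
        field_simp
        ring
      · intro t ht
        rw [mem_filter, hQdef, mem_filter] at ht
        have h4 := ht.1.2
        rw [abs_lt] at h4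
        rw [← ht.2]
        constructor <;> simp only <;> linarith [h4.1, h4.2]
      · intro t ht t' ht' hne
        rw [mem_filter, hQdef, mem_filter] at ht ht'
        have m1 := ht.1.1
        have m2 := ht'.1.1
        simp only [mem_product, mem_Icc] at m1 m2
        have h6 := ht.2.trans ht'.2.symm
        simp only [Prod.mk.injEq] at h6
        have h5 : t.1 ≠ t'.1 := by
          intro h5
          apply hne
          ext <;> simp [h6.1, h6.2.1, h6.2.2, h5]
        have key : ∀ x y : ℕ, 1 ≤ x → x < y → y ≤ N → 1 / (N : ℝ) ≤ Real.log y - Real.log x := by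
          intro x y hx hxy hy
          have hx0 : (0 : ℝ) < x := by exact_mod_cast hx
          have hy0 : (0 : ℝ) < y := by exact_mod_cast (by omega : 0 < y)
          rw [← Real.log_div hy0.ne' hx0.ne']
          have h1 : 1 - ((y : ℝ) / x)⁻¹ ≤ Real.log ((y : ℝ) / x) :=
            Real.one_sub_inv_le_log_of_pos (div_pos hy0 hx0)
          have h2 : 1 / (N : ℝ) ≤ 1 - ((y : ℝ) / x)⁻¹ := by
            have h3 : 1 - ((y : ℝ) / x)⁻¹ = (y - x) / y := by field_simp
            rw [h3]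
            have h4 : (1 : ℝ) ≤ y - x := by
              have : (x : ℝ) + 1 ≤ y := by exact_mod_cast hxy
              linarith
            have h5 : (y : ℝ) ≤ N := by exact_mod_cast hy
            have h6 : (1 : ℝ) / N ≤ 1 / y := one_div_le_one_div_of_le hy0 h5
            refine h6.trans ?_
            gcongr
          linarith
        rcases lt_or_gt_of_ne h5 with h | h
        · rw [abs_sub_comm]
          exact (key _ _ m1.1.1 h m2.1.2).trans (le_abs_self _)
        · exact (key _ _ m2.1.1 h m1.1.2).trans (le_abs_self _)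
  · -- case `N ≤ J`
    set Qg : ℕ → Finset (ℕ × ℕ × ℕ × ℕ) := fun g =>
      (Icc 1 (N / g) ×ˢ Icc 1 (N / g) ×ˢ S ×ˢ S).filter (fun t : ℕ × ℕ × ℕ × ℕ =>
        Nat.Coprime t.1 t.2.1 ∧ cnt_P J t.1 t.2.1 t.2.2.1 t.2.2.2) with hQg
    have hsum : (Q.card : ℝ) ≤ ∑ g ∈ Icc 1 N, ((Qg g).card : ℝ) := by
      have h1 : Q.card ≤ ∑ g ∈ Icc 1 N, (Qg g).card := by
        rw [card_eq_sum_card_fiberwise (f := fun t : ℕ × ℕ × ℕ × ℕ => Nat.gcd t.1 t.2.1)
          (t := Icc 1 N)]
        · apply sum_le_sum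
          intro g hg
          rw [mem_Icc] at hg
          apply card_le_card_of_injOn (fun t => (t.1 / g, t.2.1 / g, t.2.2.1, t.2.2.2))
          · intro t ht
            rw [mem_coe, mem_filter, hQdef, mem_filter] at ht
            obtain ⟨⟨m1, h4⟩, h5⟩ := ht
            simp only [mem_product, mem_Icc] at m1
            have d1 : g ∣ t.1 := h5 ▸ Nat.gcd_dvd_left _ _
            have d2 : g ∣ t.2.1 := h5 ▸ Nat.gcd_dvd_right _ _
            rw [mem_coe, hQg, mem_filter]
            simp only [mem_product, mem_Icc]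
            refine ⟨⟨⟨Nat.div_pos (Nat.le_of_dvd m1.1.1 d1) hg.1, Nat.div_le_div_right m1.1.2⟩,
              ⟨Nat.div_pos (Nat.le_of_dvd m1.2.1.1 d2) hg.1, Nat.div_le_div_right m1.2.1.2⟩,
              m1.2.2.1, m1.2.2.2⟩, ?_, ?_⟩
            · rw [← h5]
              exact Nat.coprime_div_gcd_div_gcd (Nat.gcd_pos_of_pos_left _ m1.1.1)
            · unfold cnt_P
              have hg0 : (0 : ℝ) < g := by exact_mod_cast hg.1
              have t0 : (0 : ℝ) < t.1 := by exact_mod_cast m1.1.1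
              have t1 : (0 : ℝ) < t.2.1 := by exact_mod_cast m1.2.1.1
              rw [Nat.cast_div d1 hg0.ne', Nat.cast_div d2 hg0.ne',
                Real.log_div t0.ne' hg0.ne', Real.log_div t1.ne' hg0.ne']
              have : Real.log t.1 - Real.log g - (Real.log t.2.1 - Real.log g) =
                Real.log t.1 - Real.log t.2.1 := by ring
              rw [this]
              exact h4
          · intro t ht t' ht' htt
            rw [mem_coe, mem_filter] at ht ht'
            have d1 : g ∣ t.1 := ht.2 ▸ Nat.gcd_dvd_left _ _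
            have d2 : g ∣ t.2.1 := ht.2 ▸ Nat.gcd_dvd_right _ _
            have d3 : g ∣ t'.1 := ht'.2 ▸ Nat.gcd_dvd_left _ _
            have d4 : g ∣ t'.2.1 := ht'.2 ▸ Nat.gcd_dvd_right _ _
            simp only [Prod.mk.injEq] at htt
            have e1 : t.1 = t'.1 := by
              rw [← Nat.div_mul_cancel d1, ← Nat.div_mul_cancel d3, htt.1]
            have e2 : t.2.1 = t'.2.1 := by
              rw [← Nat.div_mul_cancel d2, ← Nat.div_mul_cancel d4, htt.2.1]
            ext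
            · exact e1
            · exact e2
            · exact htt.2.2.1
            · exact htt.2.2.2
        · intro t ht
          rw [mem_coe, hQdef, mem_filter] at ht
          have m1 := ht.1
          simp only [mem_product, mem_Icc] at m1
          rw [mem_coe, mem_Icc]
          exact ⟨Nat.gcd_pos_of_pos_left _ m1.1.1, (Nat.gcd_le_left _ m1.1.1).trans m1.1.2⟩
      exact_mod_cast h1
    refine hsum.trans ?_
    have hg : ∀ g ∈ Icc 1 N, ((Qg g).card : ℝ) ≤
        (2 * N * s * Real.sqrt s) * (1 / (g : ℝ)) + (N : ℝ) ^ 2 * s ^ 2 / J * (1 / (g : ℝ) ^ 2) := by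
      intro g hg
      rw [mem_Icc] at hg
      have hg0 : (0 : ℝ) < g := by exact_mod_cast hg.1
      have hD1 : 1 ≤ N / g := Nat.div_pos hg.2 hg.1
      have hDle : ((N / g : ℕ) : ℝ) ≤ (N : ℝ) / g := Nat.cast_div_le
      set D : ℕ := N / g with hD
      have hmem : ∀ t ∈ Qg g, t ∈ Icc 1 D ×ˢ Icc 1 D ×ˢ S ×ˢ S ∧
          cnt_P J t.1 t.2.1 t.2.2.1 t.2.2.2 := by
        intro t ht
        rw [hQg, mem_filter] at ht
        exact ⟨ht.1, ht.2.2⟩
      have hA := cnt_A hspc J D S hJ hS (Qg g) hmem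
      have hB := cnt_B J D S hJ hD1 (Qg g) hmem (by
        intro t ht
        rw [hQg, mem_filter] at ht
        exact ht.2.1)
      set q : ℝ := ((Qg g).card : ℝ) with hq
      set z : ℝ := s ^ 2 * ((D : ℝ) ^ 2 / J) with hz
      have hz0 : 0 ≤ z := by positivity
      have r1 : q - z ≤ (2 * Real.sqrt s * D) ^ 2 := by
        rw [mul_pow, mul_pow, Real.sq_sqrt hs0]
        linarith
      have r2 : q - z ≤ s ^ 2 := by rw [hz]; linarith
      have r3 : q - z ≤ (2 * Real.sqrt s * D) * s := by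
        rcases le_or_gt (q - z) 0 with h | h
        · refine h.trans (by positivity)
        · have u1 : Real.sqrt (q - z) ≤ 2 * Real.sqrt s * D := Real.sqrt_le_iff.mpr ⟨by positivity, r1⟩
          have u2 : Real.sqrt (q - z) ≤ s := Real.sqrt_le_iff.mpr ⟨hs0, r2⟩
          calc q - z = Real.sqrt (q - z) * Real.sqrt (q - z) := (Real.mul_self_sqrt h.le).symm
            _ ≤ (2 * Real.sqrt s * D) * s := by gcongr
      have r4 : (2 * Real.sqrt s * D) * s ≤ (2 * N * s * Real.sqrt s) * (1 / (g : ℝ)) := by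
        calc (2 * Real.sqrt s * D) * s ≤ (2 * Real.sqrt s * (N / g)) * s := by gcongr
          _ = (2 * N * s * Real.sqrt s) * (1 / (g : ℝ)) := by ring
      have r5 : z ≤ (N : ℝ) ^ 2 * s ^ 2 / J * (1 / (g : ℝ) ^ 2) := by
        calc z ≤ s ^ 2 * (((N : ℝ) / g) ^ 2 / J) := by rw [hz]; gcongr
          _ = (N : ℝ) ^ 2 * s ^ 2 / J * (1 / (g : ℝ) ^ 2) := by
            field_simp
      linarith
    refine (sum_le_sum hg).trans ?_
    rw [sum_add_distrib, ← mul_sum, ← mul_sum]
    have h1 := cnt_sq N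
    have h2 := cnt_har N
    have h3 : Real.log N ≤ Real.log J := Real.log_le_log hN0 (by exact_mod_cast hNJ)
    have h4 : 0 ≤ (N : ℝ) ^ 2 * s ^ 2 / J := by positivity
    have h5 : 0 ≤ 2 * N * s * Real.sqrt s := by positivity
    calc (2 * N * s * Real.sqrt s) * ∑ g ∈ Icc 1 N, 1 / (g : ℝ)
          + (N : ℝ) ^ 2 * s ^ 2 / J * ∑ g ∈ Icc 1 N, 1 / (g : ℝ) ^ 2
        ≤ (2 * N * s * Real.sqrt s) * (1 + Real.log J) + (N : ℝ) ^ 2 * s ^ 2 / J * 2 := by
          gcongr
          linarith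
      _ = 2 * Ex J N s := by unfold Ex; ring

end Pool.Agent.CX
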