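import Pool.Agent.Lib.MP_d610d0_nt.CX.Stm2
import Pool.Agent.Lib.MP_d610d0_nt.CH.F.P.dya

set_option autoImplicit false

/-!
Project CX, piece dya: dyadic summation.
-/

namespace Pool.Agent.CX

open Finset Filter
open Pool.Agent.CH (chenSet)
open Pool.Agent.CH.F (cf_dya_bad)

theorem dya_const : (3 / 5 : ℝ) ^ (4 / 5 : ℝ) ≤ 2 / 3 := by
  have h0 : (0 : ℝ) ≤ (3 / 5 : ℝ) ^ (4 / 5 : ℝ) := by positivity
  have h1 : ((3 / 5 : ℝ) ^ (4 / 5 : ℝ)) ^ (5 : ℕ) ≤ (2 / 3 : ℝ) ^ (5 : ℕ) := by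
    rw [← Real.rpow_natCast, ← Real.rpow_mul (by norm_num)]
    have e : (4 / 5 : ℝ) * ((5 : ℕ) : ℝ) = ((4 : ℕ) : ℝ) := by norm_num
    rw [e, Real.rpow_natCast]
    norm_num
  exact (pow_le_pow_iff_left₀ h0 (by norm_num) (by norm_num)).1 h1

open Classical in
theorem p_dyax : S_dyax := by
  rintro ⟨c, hc, H⟩
  obtain ⟨J0, hJ0⟩ := Filter.eventually_atTop.1 H
  set F : ℕ → ℕ := fun N => ((Icc 1 N).filter (fun n : ℕ =>
    ((chenSet n).ncard : ℝ) < c / 4 * (n : ℝ) ^ 2 / (Real.log (n + 1)) ^ 2)).card with hF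
  set N0 : ℕ := 2 * (J0 + 5) with hN0
  refine ⟨c / 4, by positivity, (N0 : ℝ) + 2, fun N hN => ?_⟩
  show ((F N : ℕ) : ℝ) ≤ ((N0 : ℝ) + 2) * (N : ℝ) ^ (4 / 5 : ℝ)
  have hN0r : (0 : ℝ) ≤ N0 := Nat.cast_nonneg _
  induction N using Nat.strong_induction_on with
  | _ N ih =>
    have hNr : (1 : ℝ) ≤ N := by exact_mod_cast hN
    have hNp : (1 : ℝ) ≤ (N : ℝ) ^ (4 / 5 : ℝ) := Real.one_le_rpow hNr (by norm_num)
    by_cases hlt : N < N0
    · have h1 : ((F N : ℕ) : ℝ) ≤ N0 := by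
        have : F N ≤ N := by
          calc F N ≤ (Icc 1 N).card := Finset.card_filter_le _ _
            _ = N := by simp
        exact_mod_cast this.trans hlt.le
      nlinarith
    · push Not at hlt
      obtain ⟨J, hJ⟩ : ∃ J, J = (N + 1) / 2 := ⟨_, rfl⟩
      have hJ1 : J < N := by omega
      have hJ2 : N ≤ 2 * J := by omega
      have hJ3 : J0 ≤ J := by omega
      have hJ4 : 5 ≤ J := by omega
      have hJ6 : 5 * J ≤ 3 * N := by omega
      have hih := ih J hJ1 (by omega)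
      have hblock := hJ0 J hJ3
      have hJr : (5 : ℝ) ≤ J := by exact_mod_cast hJ4
      have hJ6r : (J : ℝ) ≤ 3 / 5 * N := by
        have : (5 : ℝ) * J ≤ 3 * N := by exact_mod_cast hJ6
        linarith
      have hsplit : F N ≤ F J + ((Ioc J (2 * J)).filter (fun j : ℕ =>
          ((chenSet j).ncard : ℝ) < c * (J : ℝ) ^ 2 / Real.log J ^ 2)).card := by
        rw [hF]
        refine le_trans (Finset.card_le_card ?_) (Finset.card_union_le _ _)
        intro n hn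
        rw [Finset.mem_filter, Finset.mem_Icc] at hn
        rw [Finset.mem_union, Finset.mem_filter, Finset.mem_filter, Finset.mem_Icc,
          Finset.mem_Ioc]
        by_cases hnJ : n ≤ J
        · left
          exact ⟨⟨hn.1.1, hnJ⟩, hn.2⟩
        · right
          push Not at hnJ
          refine ⟨⟨hnJ, by omega⟩, lt_of_lt_of_le hn.2 ?_⟩
          exact cf_dya_bad c hc J n (by omega) hnJ (by omega)
      have hsplit' : ((F N : ℕ) : ℝ) ≤ (F J : ℕ) + (J : ℝ) ^ (7999 / 10000 : ℝ) := by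
        have h1 : ((F N : ℕ) : ℝ) ≤ (F J : ℕ) + (((Ioc J (2 * J)).filter (fun j : ℕ =>
          ((chenSet j).ncard : ℝ) < c * (J : ℝ) ^ 2 / Real.log J ^ 2)).card : ℝ) := by
          exact_mod_cast hsplit
        refine h1.trans (add_le_add_right ?_ _)
        refine le_trans (le_of_eq ?_) hblock
        unfold nb
        congr!
      have h2 : (J : ℝ) ^ (7999 / 10000 : ℝ) ≤ (J : ℝ) ^ (4 / 5 : ℝ) :=
        Real.rpow_le_rpow_of_exponent_le (by linarith) (by norm_num)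
      have h3 : (J : ℝ) ^ (4 / 5 : ℝ) ≤ 2 / 3 * (N : ℝ) ^ (4 / 5 : ℝ) := by
        calc (J : ℝ) ^ (4 / 5 : ℝ) ≤ (3 / 5 * N : ℝ) ^ (4 / 5 : ℝ) :=
              Real.rpow_le_rpow (by linarith) hJ6r (by norm_num)
          _ = (3 / 5 : ℝ) ^ (4 / 5 : ℝ) * (N : ℝ) ^ (4 / 5 : ℝ) :=
              Real.mul_rpow (by norm_num) (by linarith)
          _ ≤ 2 / 3 * (N : ℝ) ^ (4 / 5 : ℝ) :=
              mul_le_mul_of_nonneg_right dya_const (by positivity)
      calc ((F N : ℕ) : ℝ) ≤ ((N0 : ℝ) + 2) * (J : ℝ) ^ (4 / 5 : ℝ) + (J : ℝ) ^ (4 / 5 : ℝ) := by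
            linarith
        _ = ((N0 : ℝ) + 3) * (J : ℝ) ^ (4 / 5 : ℝ) := by ring
        _ ≤ ((N0 : ℝ) + 3) * (2 / 3 * (N : ℝ) ^ (4 / 5 : ℝ)) :=
            mul_le_mul_of_nonneg_left h3 (by linarith)
        _ ≤ ((N0 : ℝ) + 2) * (N : ℝ) ^ (4 / 5 : ℝ) := by nlinarith

end Pool.Agent.CX
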