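import Pool.Agent.Lib.MP_d610d0_nt.CX.Stm2
import Pool.Agent.Lib.MP_d610d0_nt.CA.SV.p_fin

set_option autoImplicit false

/-!
Project CX, piece fin: all windows but `J^0.7999`.
-/

namespace Pool.Agent.CX

open Finset Filter
open scoped ArithmeticFunction.Omega
open Pool.Agent.CH (wJ wL Rough VV Wt dsum thP EE chenSet)
open Pool.Agent.CH.F (mu)
open Pool.Agent.CH.D (FT)

theorem fin_fact : ∑ k ∈ Icc 4 8, 1 / (k.factorial : ℝ) ≤ 1 := by
  have h : ∀ k ∈ Icc 4 8, 1 / (k.factorial : ℝ) ≤ 1 / 10 := by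
    intro k hk
    rw [Finset.mem_Icc] at hk
    have h1 : (4 : ℕ).factorial ≤ k.factorial := Nat.factorial_le hk.1
    have h2 : (10 : ℕ) ≤ k.factorial := le_trans (by decide) h1
    have h3 : (10 : ℝ) ≤ k.factorial := by exact_mod_cast h2
    exact one_div_le_one_div_of_le (by norm_num) h3
  refine le_trans (Finset.sum_le_sum h) ?_
  rw [Finset.sum_const, Nat.card_Icc, nsmul_eq_mul]
  norm_num

theorem fin_nb_nonneg (J : ℕ) (P : ℕ → Prop) : 0 ≤ nb J P := by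
  unfold nb
  positivity

theorem fin_nb_or (J : ℕ) (P Q R : ℕ → Prop) (h : ∀ j ∈ Ioc J (2 * J), P j → Q j ∨ R j) :
    nb J P ≤ nb J Q + nb J R := by
  classical
  have h1 : ((Ioc J (2 * J)).filter P).card ≤
      ((Ioc J (2 * J)).filter Q).card + ((Ioc J (2 * J)).filter R).card := by
    refine le_trans (card_le_card ?_) (card_union_le _ _)
    intro j hj
    rw [mem_filter] at hj
    rw [mem_union, mem_filter, mem_filter]
    rcases h j hj.1 hj.2 with h2 | h2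
    · exact Or.inl ⟨hj.1, h2⟩
    · exact Or.inr ⟨hj.1, h2⟩
  unfold nb
  exact_mod_cast h1

theorem fin_nb_ex (J : ℕ) (S : Finset ℕ) (Q : ℕ → ℕ → Prop) (B : ℝ)
    (h : ∀ k ∈ S, nb J (Q k) ≤ B) :
    nb J (fun j => ∃ k ∈ S, Q k j) ≤ S.card * B := by
  classical
  have h1 : ((Ioc J (2 * J)).filter (fun j => ∃ k ∈ S, Q k j)).card ≤
      ∑ k ∈ S, ((Ioc J (2 * J)).filter (Q k)).card := by
    refine le_trans (card_le_card ?_) card_biUnion_le
    intro j hj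
    rw [mem_filter] at hj
    obtain ⟨h2, k, hk, h3⟩ := hj
    rw [mem_biUnion]
    exact ⟨k, hk, mem_filter.2 ⟨h2, h3⟩⟩
  have h2 : nb J (fun j => ∃ k ∈ S, Q k j) ≤ ∑ k ∈ S, nb J (Q k) := by
    unfold nb
    rw [← Nat.cast_sum]
    apply Nat.cast_le.2
    convert h1
  calc nb J (fun j => ∃ k ∈ S, Q k j) ≤ ∑ k ∈ S, nb J (Q k) := h2
    _ ≤ ∑ _k ∈ S, B := sum_le_sum h
    _ = S.card * B := by rw [sum_const, nsmul_eq_mul]

theorem p_finx : S_finx := by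
  intro hS h1 h2 hm1 hms hsq hone
  classical
  obtain ⟨c, hc, hone⟩ := hone
  refine ⟨c, hc, ?_⟩
  have h2' : ∀ᶠ J : ℕ in atTop, ∀ k ∈ Icc 4 8, ∀ c : ℕ → ℝ,
      Wt (zx J) ((J : ℝ) ^ (899 / 1000 : ℝ)) c →
      nb J (fun j => (J : ℝ) ^ 2 / (Real.log J) ^ 3 <
        |∑ q ∈ Icc 1 J, c q * EE J (Bx k J) 2 j q|) ≤ (J : ℝ) ^ (7998 / 10000 : ℝ) := by
    rw [Filter.eventually_all_finset]
    intro k hk
    exact h2 k hk 3
  have ev : ∀ᶠ J : ℕ in atTop, (7 : ℝ) ≤ (J : ℝ) ^ (1 / 10000 : ℝ) :=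
    ((tendsto_rpow_atTop (show (0 : ℝ) < 1 / 10000 by norm_num)).comp
      tendsto_natCast_atTop_atTop).eventually_ge_atTop 7
  filter_upwards [hS, h1 3, h2', hm1, hms, hsq, hone, ev, eventually_ge_atTop 1] with
    J e0 e1 e2 e3 e4 e5 e6 e7 e8
  obtain ⟨cp, cm, hW⟩ := e0
  have hJ1 : (1 : ℝ) ≤ J := by exact_mod_cast e8
  have hJ0 : (0 : ℝ) < J := by linarith
  -- the bad windows
  set P1 : ℕ → Prop := fun j => (J : ℝ) ^ 2 / (Real.log J) ^ 3 <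
    |∑ q ∈ Icc 1 J, cm q * EE J (FT J) (-2) j q| with hP1
  set P2 : ℕ → Prop := fun j => ∃ k ∈ Icc 4 8, (J : ℝ) ^ 2 / (Real.log J) ^ 3 <
    |∑ q ∈ Icc 1 J, cp q * EE J (Bx k J) 2 j q| with hP2
  set P4 : ℕ → Prop := fun j => 0.4697 * mu J j / (3 * Real.log J) <
    ∑ n ∈ Icc 1 (27 * J ^ 3), RBx J n * wJ J j n with hP4
  have hb1 : nb J P1 ≤ (J : ℝ) ^ (7998 / 10000 : ℝ) := e1 cm hW.wm
  have hb2 : nb J P2 ≤ 5 * (J : ℝ) ^ (7998 / 10000 : ℝ) := by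
    have := fin_nb_ex J (Icc 4 8) (fun k j => (J : ℝ) ^ 2 / (Real.log J) ^ 3 <
      |∑ q ∈ Icc 1 J, cp q * EE J (Bx k J) 2 j q|) _ (fun k hk => e2 k hk cp hW.wp)
    have hc5 : ((Icc 4 8).card : ℝ) = 5 := by simp
    rw [hc5] at this
    exact this
  have hb4 : nb J P4 ≤ (J : ℝ) ^ (7998 / 10000 : ℝ) :=
    e4.trans (Real.rpow_le_rpow_of_exponent_le hJ1 (by norm_num))
  have hgood : ∀ j ∈ Ioc J (2 * J), ¬ P1 j → ¬ P2 j → ¬ P4 j →
      c * (J : ℝ) ^ 2 / Real.log J ^ 2 ≤ ((chenSet j).ncard : ℝ) := by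
    intro j hj n1 n2 n4
    rw [hP1, not_lt] at n1
    rw [hP4, not_lt] at n4
    have n2' : ∀ k ∈ Icc 4 8, |∑ q ∈ Icc 1 J, cp q * EE J (Bx k J) 2 j q| ≤
        (J : ℝ) ^ 2 / (Real.log J) ^ 3 := by
      intro k hk
      by_contra hcon
      exact n2 ⟨k, hk, not_le.1 hcon⟩
    refine e6 cp cm hW j hj ⟨?_, ?_, e3 j hj, n4, e5 j hj⟩
    · exact n1
    · have a1 : ∑ q ∈ Icc 1 J, cp q * EE J (RBx J) 2 j q =
          ∑ k ∈ Icc 4 8, 1 / (k.factorial : ℝ) *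
            ∑ q ∈ Icc 1 J, cp q * EE J (Bx k J) 2 j q := by
        have a2 : ∀ q, EE J (RBx J) 2 j q =
            ∑ k ∈ Icc 4 8, 1 / (k.factorial : ℝ) * EE J (Bx k J) 2 j q := fun q =>
          Pool.Agent.CA.SV.fin_EE J (Icc 4 8) (fun k n => Bx k J n)
            (fun k => (k.factorial : ℝ)) 2 j q
        have a3 : ∀ q ∈ Icc 1 J, cp q * EE J (RBx J) 2 j q =
            ∑ k ∈ Icc 4 8, 1 / (k.factorial : ℝ) * (cp q * EE J (Bx k J) 2 j q) := by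
          intro q _
          rw [a2, Finset.mul_sum]
          exact Finset.sum_congr rfl (fun k _ => by ring)
        rw [Finset.sum_congr rfl a3, Finset.sum_comm]
        exact Finset.sum_congr rfl (fun k _ => by rw [Finset.mul_sum])
      rw [a1]
      have b0 : 0 ≤ (J : ℝ) ^ 2 / Real.log J ^ 3 := by
        have : 0 ≤ Real.log (J : ℝ) := Real.log_natCast_nonneg J
        positivity
      calc |∑ k ∈ Icc 4 8, 1 / (k.factorial : ℝ) *
            ∑ q ∈ Icc 1 J, cp q * EE J (Bx k J) 2 j q|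
          ≤ ∑ k ∈ Icc 4 8, |1 / (k.factorial : ℝ) *
            ∑ q ∈ Icc 1 J, cp q * EE J (Bx k J) 2 j q| :=
            Finset.abs_sum_le_sum_abs _ _
        _ ≤ ∑ k ∈ Icc 4 8, 1 / (k.factorial : ℝ) * ((J : ℝ) ^ 2 / Real.log J ^ 3) := by
            refine Finset.sum_le_sum (fun k hk => ?_)
            have b1 : 0 ≤ 1 / (k.factorial : ℝ) := by positivity
            rw [abs_mul, abs_of_nonneg b1]
            exact mul_le_mul_of_nonneg_left (n2' k hk) b1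
        _ = (∑ k ∈ Icc 4 8, 1 / (k.factorial : ℝ)) * ((J : ℝ) ^ 2 / Real.log J ^ 3) := by
            rw [Finset.sum_mul]
        _ ≤ 1 * ((J : ℝ) ^ 2 / Real.log J ^ 3) := mul_le_mul_of_nonneg_right fin_fact b0
        _ = (J : ℝ) ^ 2 / Real.log J ^ 3 := one_mul _
  have hs1 := fin_nb_or J (fun j => ((chenSet j).ncard : ℝ) < c * (J : ℝ) ^ 2 / Real.log J ^ 2)
    (fun j => P1 j ∨ P2 j) P4 (by
      intro j hj hlt
      by_contra hcon
      push Not at hcon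
      exact absurd (hgood j hj hcon.1.1 hcon.1.2 hcon.2) (not_le.2 hlt))
  have hs2 := fin_nb_or J (fun j => P1 j ∨ P2 j) P1 P2 (fun j _ h => h)
  have hfin : 7 * (J : ℝ) ^ (7998 / 10000 : ℝ) ≤ (J : ℝ) ^ (7999 / 10000 : ℝ) := by
    calc 7 * (J : ℝ) ^ (7998 / 10000 : ℝ) ≤ (J : ℝ) ^ (1 / 10000 : ℝ) *
          (J : ℝ) ^ (7998 / 10000 : ℝ) := mul_le_mul_of_nonneg_right e7 (by positivity)
      _ = (J : ℝ) ^ (7999 / 10000 : ℝ) := by
          rw [← Real.rpow_add hJ0]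
          norm_num
  linarith

end Pool.Agent.CX
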