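import Pool.Agent.Lib.MP_d610d0_nt.CX.Stm2

set_option autoImplicit false

/-!
Project CX, sieve half, piece lw: long windows.
-/

namespace Pool.Agent.CX

open Finset Filter
open Pool.Agent.MP89da58 (tri)
open Pool.Agent.CH (wL Rk)
open Pool.Agent.CH.M2 (Sp TS S_tup1 S_tup2)
open Pool.Agent.CA (bx)
open Pool.Agent.CA.SV (Us R_tup)

private lemma lw_wL_nonneg (lam : ℝ) (j n : ℕ) : 0 ≤ wL lam j n := by
  unfold wL tri
  exact le_max_left _ _

private lemma lw_Ph_nonneg (r M : ℕ) : 0 ≤ Phx r M := by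
  unfold Phx
  split_ifs
  · positivity
  · exact le_rfl

private lemma lw_Ph_zero (r M : ℕ) (h : 995 ≤ M) : Phx r M = 0 := by
  unfold Phx
  rw [if_neg (by omega)]

/-- The tuples with entries in `[z, Y]` are among the tuples with entries `≥ z`. -/
private lemma lw_bx_le (k : ℕ) (z Y : ℝ) (n : ℕ) :
    bx k (fun _ => z) (fun _ => Y) n / (k.factorial : ℝ) ≤ Rk z k n := by
  unfold bx Rk
  apply div_le_div_of_nonneg_right _ (by positivity)
  refine Nat.cast_le.2 (Finset.card_le_card ?_)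
  intro q hq
  rw [mem_filter, Fintype.mem_piFinset] at hq ⊢
  refine ⟨fun i => ?_, hq.2⟩
  have h1 := hq.1 i
  rw [mem_filter] at h1 ⊢
  exact ⟨h1.1, h1.2.1, h1.2.2.1⟩

private lemma lw_key (h1 : S_tup1) (h2 : S_tup2) (h3 : R_tup) (E J j N r : ℕ)
    (hlam : 0 ≤ Real.log J ^ E) (hz : 0 ≤ Real.log J)
    (hcell : ∀ i : ℕ, i < 995 →
      ∑ p ∈ (Sp (zx J) N).filter (fun p => mx (zx J) p = i), 1 / (p : ℝ) ≤ ax i)
    (hptw : ∀ q : Fin r → ℕ, (∀ i, q i ∈ Sp (zx J) N) →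
      Real.log J ^ E * ∑ p ∈ Sp (zx J) N, wL (Real.log J ^ E) j (p * ∏ i, q i) ≤
        1.0008 * ((j : ℝ) + 1 / 2) ^ 3 / Real.log J *
          ((∏ i, 1 / (q i : ℝ)) * Phx r (∑ i, mx (zx J) (q i)))) :
    Real.log J ^ E * ∑ n ∈ Icc 1 N, Rk (zx J) (r + 1) n * wL (Real.log J ^ E) j n ≤
      1.0008 * ((j : ℝ) + 1 / 2) ^ 3 / Real.log J *
        (1 / ((r + 1).factorial : ℝ) * ((Us 995 ax)^[r] (Phx r)) 0) := by
  have hf : (0 : ℝ) < ((r + 1).factorial : ℝ) := by exact_mod_cast Nat.factorial_pos _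
  have hc : 0 ≤ 1.0008 * ((j : ℝ) + 1 / 2) ^ 3 / Real.log J := by positivity
  have e1 := h1 (zx J) N (r + 1) (wL (Real.log J ^ E) j) (lw_wL_nonneg _ _)
  rw [h2] at e1
  have e2 : Real.log J ^ E *
      TS (Sp (zx J) N) r (fun P => ∑ p ∈ Sp (zx J) N, wL (Real.log J ^ E) j (p * P)) ≤
      1.0008 * ((j : ℝ) + 1 / 2) ^ 3 / Real.log J * ((Us 995 ax)^[r] (Phx r)) 0 := by
    unfold TS
    rw [Finset.mul_sum]
    calc ∑ q ∈ Fintype.piFinset (fun _ : Fin r => Sp (zx J) N),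
          Real.log J ^ E * ∑ p ∈ Sp (zx J) N, wL (Real.log J ^ E) j (p * ∏ i, q i)
        ≤ ∑ q ∈ Fintype.piFinset (fun _ : Fin r => Sp (zx J) N),
          1.0008 * ((j : ℝ) + 1 / 2) ^ 3 / Real.log J *
            ((∏ i, 1 / (q i : ℝ)) * Phx r (∑ i, mx (zx J) (q i))) := by
          apply Finset.sum_le_sum
          intro q hq
          exact hptw q (Fintype.mem_piFinset.1 hq)
      _ = 1.0008 * ((j : ℝ) + 1 / 2) ^ 3 / Real.log J *
          ∑ q ∈ Fintype.piFinset (fun _ : Fin r => Sp (zx J) N),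
            (∏ i, 1 / (q i : ℝ)) * Phx r (∑ i, mx (zx J) (q i)) := by
          rw [Finset.mul_sum]
      _ ≤ _ := by
          apply mul_le_mul_of_nonneg_left _ hc
          exact h3 995 (Sp (zx J) N) (mx (zx J)) (fun p => 1 / (p : ℝ)) ax (Phx r) r
            (fun p _ => by positivity) (lw_Ph_nonneg r) (lw_Ph_zero r) hcell
  calc Real.log J ^ E * ∑ n ∈ Icc 1 N, Rk (zx J) (r + 1) n * wL (Real.log J ^ E) j n
      ≤ Real.log J ^ E * (TS (Sp (zx J) N) r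
          (fun P => ∑ p ∈ Sp (zx J) N, wL (Real.log J ^ E) j (p * P)) /
            ((r + 1).factorial : ℝ)) := mul_le_mul_of_nonneg_left e1 hlam
    _ = (Real.log J ^ E * TS (Sp (zx J) N) r
          (fun P => ∑ p ∈ Sp (zx J) N, wL (Real.log J ^ E) j (p * P))) *
            (1 / ((r + 1).factorial : ℝ)) := by ring
    _ ≤ (1.0008 * ((j : ℝ) + 1 / 2) ^ 3 / Real.log J * ((Us 995 ax)^[r] (Phx r)) 0) *
            (1 / ((r + 1).factorial : ℝ)) :=
          mul_le_mul_of_nonneg_right e2 (by positivity)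
    _ = _ := by ring

theorem p_lwx : S_lwx := by
  intro h1 h2 h3 h4 h5 h6 E hE
  filter_upwards [h4, h5 E hE, eventually_ge_atTop 3] with J hJ1 hJ2 hJ3
  intro j hj
  have hJ3r : (3 : ℝ) ≤ (J : ℝ) := by exact_mod_cast hJ3
  have hL : 0 < Real.log J := Real.log_pos (by linarith)
  have hlam : 0 ≤ Real.log J ^ E := by positivity
  have key : ∀ r, Real.log J ^ E *
      ∑ n ∈ Icc 1 (27 * J ^ 3), Rk (zx J) (r + 1) n * wL (Real.log J ^ E) j n ≤
      1.0008 * ((j : ℝ) + 1 / 2) ^ 3 / Real.log J *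
        (1 / ((r + 1).factorial : ℝ) * ((Us 995 ax)^[r] (Phx r)) 0) := fun r =>
    lw_key h1 h2 h3 E J j (27 * J ^ 3) r hlam hL.le (fun i hi => hJ1 _ i hi)
      (fun q hq => hJ2 j hj _ r q hq)
  have hsum : Real.log J ^ E * ∑ n ∈ Icc 1 (27 * J ^ 3), RBx J n * wL (Real.log J ^ E) j n ≤
      ∑ r ∈ Icc 3 7, Real.log J ^ E *
        ∑ n ∈ Icc 1 (27 * J ^ 3), Rk (zx J) (r + 1) n * wL (Real.log J ^ E) j n := by
    rw [← Finset.mul_sum]
    apply mul_le_mul_of_nonneg_left _ hlam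
    rw [Finset.sum_comm]
    apply Finset.sum_le_sum
    intro n _
    unfold RBx
    rw [Finset.sum_mul]
    have e2 : (Icc 4 8 : Finset ℕ) = (Icc 3 7).image (fun r => r + 1) := by decide
    rw [e2, Finset.sum_image (fun a _ b _ h => by simpa using h)]
    apply Finset.sum_le_sum
    intro r _
    apply mul_le_mul_of_nonneg_right _ (lw_wL_nonneg _ _ _)
    unfold Bx
    exact lw_bx_le (r + 1) (zx J) (hx (r + 1) J) n
  refine hsum.trans ?_
  have h7 : ∑ r ∈ Icc 3 7, Real.log J ^ E *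
        ∑ n ∈ Icc 1 (27 * J ^ 3), Rk (zx J) (r + 1) n * wL (Real.log J ^ E) j n ≤
      1.0008 * ((j : ℝ) + 1 / 2) ^ 3 / Real.log J * 0.15636 := by
    calc _ ≤ ∑ r ∈ Icc 3 7, 1.0008 * ((j : ℝ) + 1 / 2) ^ 3 / Real.log J *
        (1 / ((r + 1).factorial : ℝ) * ((Us 995 ax)^[r] (Phx r)) 0) :=
          Finset.sum_le_sum fun r _ => key r
      _ = 1.0008 * ((j : ℝ) + 1 / 2) ^ 3 / Real.log J *
          ∑ r ∈ Icc 3 7, 1 / ((r + 1).factorial : ℝ) * ((Us 995 ax)^[r] (Phx r)) 0 := by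
          rw [← Finset.mul_sum]
      _ ≤ _ := mul_le_mul_of_nonneg_left h6 (by positivity)
  refine h7.trans ?_
  have hx : 0 < ((j : ℝ) + 1 / 2) ^ 3 / Real.log J := by positivity
  calc 1.0008 * ((j : ℝ) + 1 / 2) ^ 3 / Real.log J * 0.15636
      = (1.0008 * 0.15636) * (((j : ℝ) + 1 / 2) ^ 3 / Real.log J) := by ring
    _ ≤ (0.4695 / 3) * (((j : ℝ) + 1 / 2) ^ 3 / Real.log J) := by
        apply mul_le_mul_of_nonneg_right _ hx.le
        norm_num
    _ = 0.4695 * (((j : ℝ) + 1 / 2) ^ 3 / (3 * Real.log J)) := by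
        rw [mul_comm (3 : ℝ) (Real.log J), ← div_div]; ring

end Pool.Agent.CX
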