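import Pool.Agent.Lib.MP_d610d0_nt.CX.Stm2

set_option autoImplicit false

/-!
Project CX, piece ms: the mass of the switched sequence.
-/

namespace Pool.Agent.CX

open Finset Filter
open Pool.Agent.CH (wJ wL)
open Pool.Agent.CH.F (mu)
open Pool.Agent.CA (CMw)

private theorem ms_fact : ∑ k ∈ Icc 4 8, 1 / ((k.factorial : ℕ) : ℝ) ≤ 1 := by
  have h : Icc 4 8 = {4, 5, 6, 7, 8} := by decide
  rw [h]
  norm_num [Nat.factorial]

private theorem ms_swap (J : ℕ) (w : ℕ → ℝ) (c : ℝ) :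
    c * ∑ n ∈ Icc 1 (27 * J ^ 3), RBx J n * w n =
      ∑ k ∈ Icc 4 8, 1 / ((k.factorial : ℕ) : ℝ) *
        (c * ∑ n ∈ Icc 1 (27 * J ^ 3), Bx k J n * w n) := by
  have h1 : ∀ n, RBx J n * w n = ∑ k ∈ Icc 4 8, 1 / ((k.factorial : ℕ) : ℝ) *
      (Bx k J n * w n) := by
    intro n
    unfold RBx
    rw [Finset.sum_mul]
    refine Finset.sum_congr rfl fun k _ => ?_
    ring
  simp only [h1]
  rw [Finset.sum_comm, Finset.mul_sum]
  refine Finset.sum_congr rfl fun k _ => ?_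
  rw [← Finset.mul_sum]
  ring

private theorem ms_nb (J : ℕ) (P Q : ℕ → Prop) (h : ∀ j ∈ Ioc J (2 * J), P j → Q j) :
    nb J P ≤ nb J Q := by
  classical
  unfold nb
  have h1 : (Ioc J (2 * J)).filter P ⊆ (Ioc J (2 * J)).filter Q := by
    intro j hj
    rw [Finset.mem_filter] at hj ⊢
    exact ⟨hj.1, h j hj.1 hj.2⟩
  have h2 := Finset.card_le_card h1
  have h3 : (((Ioc J (2 * J)).filter P).card : ℝ) ≤ (((Ioc J (2 * J)).filter Q).card : ℝ) := by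
    exact_mod_cast h2
  exact h3

theorem p_msx : S_msx := by
  intro hX hCM hlw
  have h1 : ∀ k : ℕ, ∃ E0 : ℕ, k ∈ Icc 5 8 → ∀ E : ℕ, E0 ≤ E → ∀ᶠ J : ℕ in atTop,
      ∀ j ∈ Ioc J (2 * J), |2 * (J : ℝ) * ∑ n ∈ Icc 1 (27 * J ^ 3), Bx k J n * wJ J j n
        - (Real.log J) ^ E * ∑ n ∈ Icc 1 (27 * J ^ 3), Bx k J n * wL ((Real.log J) ^ E) j n|
        ≤ (J : ℝ) ^ 3 / (Real.log J) ^ 2 := by
    intro k
    by_cases hk : k ∈ Icc 5 8
    · obtain ⟨E0, hE0⟩ := hCM k hk 2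
      exact ⟨E0, fun _ => hE0⟩
    · exact ⟨0, fun h => absurd h hk⟩
  choose E0 hE0 using h1
  obtain ⟨E4, hE4⟩ := hX 2
  obtain ⟨E, hE⟩ : ∃ E : ℕ, E = 1 + E4 + ∑ k ∈ Icc 5 8, E0 k := ⟨_, rfl⟩
  have hE1 : 1 ≤ E := by omega
  have hEk : ∀ k ∈ Icc 5 8, E0 k ≤ E := by
    intro k hk
    have := Finset.single_le_sum (f := E0) (fun i _ => Nat.zero_le _) hk
    omega
  have h2 : ∀ᶠ J : ℕ in atTop, ∀ k ∈ Icc 5 8, ∀ j ∈ Ioc J (2 * J),
      |2 * (J : ℝ) * ∑ n ∈ Icc 1 (27 * J ^ 3), Bx k J n * wJ J j n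
        - (Real.log J) ^ E * ∑ n ∈ Icc 1 (27 * J ^ 3), Bx k J n * wL ((Real.log J) ^ E) j n|
        ≤ (J : ℝ) ^ 3 / (Real.log J) ^ 2 := by
    rw [Filter.eventually_all_finset]
    intro k hk
    exact hE0 k hk E (hEk k hk)
  have hL : ∀ᶠ J : ℕ in atTop, (15000 : ℝ) ≤ Real.log J :=
    (Real.tendsto_log_atTop.comp tendsto_natCast_atTop_atTop).eventually_ge_atTop 15000
  filter_upwards [h2, hE4 E (by omega), hlw E hE1, hL, eventually_ge_atTop 1] with J h3 h3' h4 h5 h6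
  refine (ms_nb J _ _ ?_).trans h3'
  intro j hj
  have hJ : (0 : ℝ) < J := by exact_mod_cast h6
  have hL0 : (0 : ℝ) < Real.log J := by linarith
  have hjJ : (J : ℝ) ≤ (j : ℝ) + 1 / 2 := by
    have h7 : J < j := (Finset.mem_Ioc.mp hj).1
    have h8 : (J : ℝ) < (j : ℝ) := by exact_mod_cast h7
    linarith
  have hx : (J : ℝ) ^ 3 ≤ ((j : ℝ) + 1 / 2) ^ 3 := pow_le_pow_left₀ hJ.le hjJ 3
  obtain ⟨x, hxdef⟩ : ∃ x : ℝ, x = ((j : ℝ) + 1 / 2) ^ 3 := ⟨_, rfl⟩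
  have h9 := h4 j hj
  rw [← hxdef] at h9 hx
  contrapose!
  intro hgood
  -- all the comparison bounds
  have h3k : ∀ k ∈ Icc 4 8,
      |2 * (J : ℝ) * ∑ n ∈ Icc 1 (27 * J ^ 3), Bx k J n * wJ J j n
        - (Real.log J) ^ E * ∑ n ∈ Icc 1 (27 * J ^ 3), Bx k J n * wL ((Real.log J) ^ E) j n|
        ≤ (J : ℝ) ^ 3 / (Real.log J) ^ 2 := by
    intro k hk
    rcases eq_or_ne k 4 with rfl | hk4
    · exact hgood
    · refine h3 k ?_ j hj
      rw [Finset.mem_Icc] at hk ⊢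
      omega
  -- the sum over `k`
  have h10 : 2 * (J : ℝ) * ∑ n ∈ Icc 1 (27 * J ^ 3), RBx J n * wJ J j n ≤
      (Real.log J) ^ E * ∑ n ∈ Icc 1 (27 * J ^ 3), RBx J n * wL ((Real.log J) ^ E) j n +
        (J : ℝ) ^ 3 / (Real.log J) ^ 2 := by
    rw [ms_swap, ms_swap]
    have h11 : ∀ k ∈ Icc 4 8, 1 / ((k.factorial : ℕ) : ℝ) *
        (2 * (J : ℝ) * ∑ n ∈ Icc 1 (27 * J ^ 3), Bx k J n * wJ J j n) ≤
        1 / ((k.factorial : ℕ) : ℝ) *
        ((Real.log J) ^ E * ∑ n ∈ Icc 1 (27 * J ^ 3), Bx k J n * wL ((Real.log J) ^ E) j n) +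
        1 / ((k.factorial : ℕ) : ℝ) * ((J : ℝ) ^ 3 / (Real.log J) ^ 2) := by
      intro k hk
      rw [← mul_add]
      have h12 := (abs_le.mp (h3k k hk)).2
      refine mul_le_mul_of_nonneg_left ?_ (by positivity)
      linarith
    refine (Finset.sum_le_sum h11).trans ?_
    rw [Finset.sum_add_distrib, ← Finset.sum_mul]
    have h13 : (∑ k ∈ Icc 4 8, 1 / ((k.factorial : ℕ) : ℝ)) *
        ((J : ℝ) ^ 3 / (Real.log J) ^ 2) ≤ 1 * ((J : ℝ) ^ 3 / (Real.log J) ^ 2) :=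
      mul_le_mul_of_nonneg_right ms_fact (by positivity)
    linarith
  have h14 : (J : ℝ) ^ 3 / (Real.log J) ^ 2 ≤ 0.0002 * (x / (3 * Real.log J)) := by
    rw [div_le_iff₀ (by positivity)]
    have h15 : 0.0002 * (x / (3 * Real.log J)) * (Real.log J) ^ 2 =
        x * (Real.log J / 15000) := by
      field_simp
      ring
    rw [h15]
    have h16 : x * 1 ≤ x * (Real.log J / 15000) := by
      refine mul_le_mul_of_nonneg_left ?_ (le_trans (by positivity) hx)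
      linarith
    linarith
  have h17 : 2 * (J : ℝ) * ∑ n ∈ Icc 1 (27 * J ^ 3), RBx J n * wJ J j n ≤
      0.4697 * (x / (3 * Real.log J)) := by linarith
  unfold mu
  rw [← hxdef]
  have h18 : 0.4697 * (x / (2 * (J : ℝ))) / (3 * Real.log J) =
      0.4697 * (x / (3 * Real.log J)) / (2 * (J : ℝ)) := by
    field_simp
  rw [h18, le_div_iff₀ (by positivity)]
  linarith

end Pool.Agent.CX
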