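import Pool.Agent.Lib.MP_d610d0_nt.CX.Stm
import Pool.Agent.Lib.MP_d610d0_nt.CA.SC.p_mvp

set_option autoImplicit false

/-!
Piece mvk: mean values of products of Dirichlet polynomials with Fejer's kernel.
-/

namespace Pool.Agent.CX

open Finset Filter
open Pool.Agent.CH.V (pz)
open Pool.Agent.CH.D (dp kap R_kf R_kb R_sch)
open Pool.Agent.CA.SC (R_tm mvp_b mvp_dp mvp_b_le)

/-- the full product -/
lemma mvk_full (hsch : R_sch) {m C : ℕ}
    (hC : ∀ N : ℕ, 1 ≤ N →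
      ∑ n ∈ Icc 1 N, ((Nat.finMulAntidiag m n).card : ℝ) ^ 2 ≤ N * (1 + Real.log N) ^ C)
    (N : Fin m → ℕ) (a : Fin m → ℕ → ℂ) {G lam : ℝ} (hG : 1 ≤ G) (hlam : 1 ≤ lam)
    (hN : ∀ l, 1 ≤ N l) (ha : ∀ l n, ‖a l n‖ ≤ G) :
    ∫ θ : ℝ, kap lam θ * ‖∏ l, dp (a l) (N l) θ‖ ^ 2 ≤
      3 * G ^ (2 * m) * (1 + Real.log ((∏ l, N l : ℕ) : ℝ)) ^ C *
        ((1 + ((∏ l, N l : ℕ) : ℝ) / lam) * ((∏ l, N l : ℕ) : ℝ)) := by
  have hl0 : 0 < lam := by linarith
  have hG0 : 0 ≤ G := by linarith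
  set P : ℕ := ∏ l, N l with hP
  have hP1 : 1 ≤ P := Finset.one_le_prod' fun l _ => hN l
  have hPr : (1 : ℝ) ≤ P := by exact_mod_cast hP1
  set b := mvp_b a N with hb
  have h4 : ∑ n ∈ Icc 1 P, ‖b n‖ ^ 2 ≤ G ^ (2 * m) * (P * (1 + Real.log P) ^ C) := by
    calc ∑ n ∈ Icc 1 P, ‖b n‖ ^ 2
        ≤ ∑ n ∈ Icc 1 P, G ^ (2 * m) * ((Nat.finMulAntidiag m n).card : ℝ) ^ 2 := by
          refine Finset.sum_le_sum fun n hn => ?_
          have h5 := pow_le_pow_left₀ (norm_nonneg _)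
            (mvp_b_le a N hG0 ha (Finset.mem_Icc.1 hn).1) 2
          calc ‖b n‖ ^ 2 ≤ (G ^ m * ((Nat.finMulAntidiag m n).card : ℝ)) ^ 2 := h5
            _ = _ := by rw [mul_pow, ← pow_mul, mul_comm m 2]
      _ = G ^ (2 * m) * ∑ n ∈ Icc 1 P, ((Nat.finMulAntidiag m n).card : ℝ) ^ 2 := by
          rw [Finset.mul_sum]
      _ ≤ _ := mul_le_mul_of_nonneg_left (hC P hP1) (by positivity)
  have hlog : 0 ≤ Real.log P := Real.log_nonneg hPr
  have hdiv : 0 ≤ (P : ℝ) / lam := by positivity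
  simp only [mvp_dp]
  calc ∫ θ : ℝ, kap lam θ * ‖dp b P θ‖ ^ 2
      ≤ (1 + 3 * P / lam) * ∑ n ∈ Icc 1 P, ‖b n‖ ^ 2 := hsch lam P b hlam
    _ ≤ (1 + 3 * P / lam) * (G ^ (2 * m) * (P * (1 + Real.log P) ^ C)) := by
        refine mul_le_mul_of_nonneg_left h4 ?_
        positivity
    _ ≤ (3 * (1 + P / lam)) * (G ^ (2 * m) * (P * (1 + Real.log P) ^ C)) := by
        refine mul_le_mul_of_nonneg_right ?_ (by positivity)
        have : 3 * (P : ℝ) / lam = 3 * (P / lam) := by ring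
        rw [this]
        linarith
    _ = _ := by ring

theorem p_mvk : S_mvk := by
  intro _ _ hsch htm m
  obtain ⟨C, hC⟩ := htm m
  refine ⟨C + 3, by omega, ?_⟩
  intro N a S G lam hG hlam hN ha
  classical
  set N' : Fin m → ℕ := fun l => if l ∈ S then N l else 1 with hN'
  set a' : Fin m → ℕ → ℂ := fun l n => if l ∈ S then a l n else 1 with ha'
  have hprod : ∏ l, N' l = ∏ l ∈ S, N l := by
    rw [hN', Finset.prod_ite_mem, Finset.univ_inter]
  have hdp : ∀ θ : ℝ, ∏ l ∈ S, ‖dp (a l) (N l) θ‖ ^ 2 = ‖∏ l, dp (a' l) (N' l) θ‖ ^ 2 := by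
    intro θ
    have h1 : ∀ l, dp (a' l) (N' l) θ = if l ∈ S then dp (a l) (N l) θ else 1 := by
      intro l
      by_cases hl : l ∈ S
      · simp only [hN', ha', if_pos hl]
      · simp only [hN', ha', if_neg hl]
        simp [dp, pz]
    have h2 : ∏ l, dp (a' l) (N' l) θ = ∏ l ∈ S, dp (a l) (N l) θ := by
      rw [Finset.prod_congr rfl fun l _ => h1 l, Finset.prod_ite_mem, Finset.univ_inter]
    rw [h2, norm_prod, Finset.prod_pow]
  have h3 := mvk_full hsch hC N' a' hG hlam (fun l => by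
      simp only [hN']
      split_ifs
      · exact hN l
      · exact le_rfl) (fun l n => by
      simp only [ha']
      split_ifs
      · exact ha l n
      · rw [norm_one]
        exact hG)
  simp only [← hdp] at h3
  rw [hprod] at h3
  have hP1 : 1 ≤ ∏ l ∈ S, N l := Finset.one_le_prod' fun l _ => hN l
  have hPr : (1 : ℝ) ≤ ((∏ l ∈ S, N l : ℕ) : ℝ) := by exact_mod_cast hP1
  rw [← Nat.cast_prod]
  set P : ℕ := ∏ l ∈ S, N l with hP
  have hlog : 0 ≤ Real.log P := Real.log_nonneg hPr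
  refine h3.trans ?_
  have h5 : (1 + Real.log P) ^ C ≤ (1 + Real.log P) ^ (C + 3) :=
    pow_le_pow_right₀ (by linarith) (by omega)
  have h6 : (3 : ℝ) ≤ ((C + 3 : ℕ) : ℝ) := by
    push_cast
    have : (0 : ℝ) ≤ C := Nat.cast_nonneg C
    linarith
  have hG0 : 0 ≤ G := by linarith
  have hl0 : 0 < lam := by linarith
  gcongr

end Pool.Agent.CX
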