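import Pool.Agent.Lib.MP_d610d0_nt.CX.Stm
import Pool.Agent.Lib.MP_d610d0_nt.CA.SC.p_mvp

set_option autoImplicit false

/-!
Project CX, piece mvx (helper27): mean values with Fejer's kernel and the bad windows.
-/

namespace Pool.Agent.CX

open Finset Filter
open Pool.Agent.MP89da58 (tri)
open Pool.Agent.CH.V (pz)
open Pool.Agent.CH.D (xj kap dp R_kf ms_pz ms_pz_norm ms_dp_cont ms_int)
open Pool.Agent.CA.SC (mvp_b mvp_dp)

/-! ### Tuples of primes with a given product -/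

private lemma mvx_perm {m : ℕ} (t u : Fin m → ℕ) (h : List.Perm (List.ofFn t) (List.ofFn u)) :
    ∃ σ : Equiv.Perm (Fin m), t = u ∘ σ := by
  have h1 : t ∘ Tuple.sort t = u ∘ Tuple.sort u := by
    refine List.ofFn_injective ?_
    exact (((Tuple.sort t).ofFn_comp_perm t).trans
      (h.trans ((Tuple.sort u).ofFn_comp_perm u).symm)).eq_of_pairwise'
      (Tuple.monotone_sort t).sortedLE_ofFn.pairwise (Tuple.monotone_sort u).sortedLE_ofFn.pairwise
  refine ⟨(Tuple.sort t).symm.trans (Tuple.sort u), ?_⟩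
  funext x
  have h2 := congrFun h1 ((Tuple.sort t).symm x)
  simpa using h2

open Classical in
private lemma mvx_cnt {m : ℕ} (S2 : Finset (Fin m)) (t : Fin m → ℕ)
    (h1 : ∀ l ∈ S2, (t l).Prime) (h2 : ∀ l, l ∉ S2 → t l = 1) (v : ℕ) :
    ((univ : Finset (Fin m)).filter (fun l => v = t l)).card =
      if v.Prime then (∏ l, t l).factorization v else
        if v = 1 then ((univ : Finset (Fin m)).filter (fun l => l ∉ S2)).card else 0 := by
  have h0 : ∀ l, t l ≠ 0 := by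
    intro l
    by_cases hl : l ∈ S2
    · exact (h1 l hl).ne_zero
    · rw [h2 l hl]
      exact one_ne_zero
  by_cases hv : v.Prime
  · rw [if_pos hv, Nat.factorization_prod (fun l _ => h0 l), Finsupp.finsetSum_apply,
      card_filter]
    refine sum_congr rfl (fun l _ => ?_)
    by_cases hl : l ∈ S2
    · rw [(h1 l hl).factorization, Finsupp.single_apply]
      simp only [eq_comm]
    · rw [h2 l hl, Nat.factorization_one, Finsupp.coe_zero, Pi.zero_apply,
        if_neg hv.one_lt.ne']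
  · rw [if_neg hv]
    by_cases h3 : v = 1
    · rw [if_pos h3]
      congr 1
      refine filter_congr (fun l _ => ?_)
      rw [h3]
      constructor
      · intro h4 hl
        exact (h1 l hl).one_lt.ne h4
      · intro hl
        exact (h2 l hl).symm
    · rw [if_neg h3, card_eq_zero, filter_eq_empty_iff]
      intro l _ h4
      by_cases hl : l ∈ S2
      · exact hv (h4 ▸ h1 l hl)
      · exact h3 (h4.trans (h2 l hl))

private lemma mvx_same {m : ℕ} (S2 : Finset (Fin m)) (t u : Fin m → ℕ)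
    (h1 : ∀ l ∈ S2, (t l).Prime) (h2 : ∀ l, l ∉ S2 → t l = 1)
    (h3 : ∀ l ∈ S2, (u l).Prime) (h4 : ∀ l, l ∉ S2 → u l = 1) (h : ∏ l, t l = ∏ l, u l) :
    ∃ σ : Equiv.Perm (Fin m), t = u ∘ σ := by
  classical
  refine mvx_perm t u ?_
  rw [← Multiset.coe_eq_coe, ← Fin.univ_val_map, ← Fin.univ_val_map]
  refine Multiset.ext.2 (fun v => ?_)
  rw [Multiset.count_map, Multiset.count_map]
  have e1 := mvx_cnt S2 t h1 h2 v
  have e2 := mvx_cnt S2 u h3 h4 v
  rw [h, ← e2] at e1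
  exact e1

open Classical in
private lemma mvx_card {m : ℕ} (S2 : Finset (Fin m)) (F : Finset (Fin m → ℕ)) (n : ℕ)
    (h1 : ∀ t ∈ F, (∀ l ∈ S2, (t l).Prime) ∧ (∀ l, l ∉ S2 → t l = 1) ∧ ∏ l, t l = n) :
    F.card ≤ m.factorial := by
  rcases F.eq_empty_or_nonempty with h0 | ⟨u, hu⟩
  · rw [h0, card_empty]
    exact Nat.zero_le _
  · have hsub : F ⊆ (univ : Finset (Equiv.Perm (Fin m))).image (fun σ : Equiv.Perm (Fin m) => u ∘ (σ : Fin m → Fin m)) := by
      intro t ht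
      obtain ⟨σ, hσ⟩ := mvx_same S2 t u (h1 t ht).1 (h1 t ht).2.1 (h1 u hu).1 (h1 u hu).2.1
        ((h1 t ht).2.2.trans (h1 u hu).2.2.symm)
      rw [mem_image]
      exact ⟨σ, mem_univ _, hσ.symm⟩
    calc F.card ≤ _ := card_le_card hsub
      _ ≤ (univ : Finset (Equiv.Perm (Fin m))).card := card_image_le
      _ = m.factorial := by rw [card_univ, Fintype.card_perm, Fintype.card_fin]

open Classical in
private lemma mvx_b {m : ℕ} (a : Fin m → ℕ → ℂ) (N : Fin m → ℕ) (S2 : Finset (Fin m)) {G : ℝ}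
    (hG : 1 ≤ G) (ha : ∀ l n, ‖a l n‖ ≤ G) (hp : ∀ l ∈ S2, ∀ n, a l n ≠ 0 → n.Prime) (n : ℕ) :
    ‖mvp_b (fun l k => if l ∈ S2 then a l k else 1) (fun l => if l ∈ S2 then N l else 1) n‖
      ≤ (m.factorial : ℝ) * G ^ m := by
  have hG0 : 0 ≤ G := by linarith
  unfold mvp_b
  set F := (Fintype.piFinset (fun l => Icc 1 (if l ∈ S2 then N l else 1))).filter
    (fun t => ∏ l, t l = n) with hF
  set f : (Fin m → ℕ) → ℂ := fun t => ∏ l, (if l ∈ S2 then a l (t l) else 1) with hf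
  have h1 : ∀ t, ‖f t‖ ≤ G ^ m := by
    intro t
    rw [hf]
    simp only
    rw [norm_prod]
    have h2 : ∀ l ∈ (univ : Finset (Fin m)), ‖if l ∈ S2 then a l (t l) else (1 : ℂ)‖ ≤ G := by
      intro l _
      split_ifs
      · exact ha l _
      · rw [norm_one]
        exact hG
    refine (prod_le_prod (fun l _ => norm_nonneg _) h2).trans ?_
    rw [prod_const, card_univ, Fintype.card_fin]
  have h3 : ∑ t ∈ F, f t = ∑ t ∈ F.filter (fun t => f t ≠ 0), f t := by
    rw [sum_filter_ne_zero]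
  rw [h3]
  refine (norm_sum_le _ _).trans ?_
  refine (sum_le_sum (fun t _ => h1 t)).trans ?_
  rw [sum_const, nsmul_eq_mul]
  refine mul_le_mul_of_nonneg_right ?_ (by positivity)
  have h4 := mvx_card S2 (F.filter (fun t => f t ≠ 0)) n (by
    intro t ht
    rw [mem_filter, hF, mem_filter, Fintype.mem_piFinset] at ht
    obtain ⟨⟨ht1, ht2⟩, ht3⟩ := ht
    have h5 := prod_ne_zero_iff.1 ht3
    refine ⟨fun l hl => ?_, fun l hl => ?_, ht2⟩
    · have h6 := h5 l (mem_univ _)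
      rw [if_pos hl] at h6
      exact hp l hl _ h6
    · have h6 := ht1 l
      rw [if_neg hl, mem_Icc] at h6
      omega)
  exact_mod_cast h4

/-! ### The mean value -/

open Classical in
private lemma mvx_gen (hkf : R_kf) {ι : Type} (I : Finset ι) (w : ι → ℂ) (φ : ι → ℝ)
    {lam W : ℝ} (hl : 0 < lam) (hw : ∀ i ∈ I, ‖w i‖ ≤ W) :
    ∫ θ : ℝ, kap lam θ * ‖∑ i ∈ I, w i * Complex.exp (Complex.I * ((θ * φ i : ℝ) : ℂ))‖ ^ 2
      ≤ W ^ 2 * (((I ×ˢ I).filter (fun p => |φ p.1 - φ p.2| < 1 / lam)).card : ℝ) := by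
  obtain ⟨hint, htri⟩ := hkf lam hl
  set c : ι × ι → ℂ := fun p => w p.1 * (starRingEnd ℂ) (w p.2) with hc
  have hpt : ∀ θ : ℝ,
      ((kap lam θ * ‖∑ i ∈ I, w i * Complex.exp (Complex.I * ((θ * φ i : ℝ) : ℂ))‖ ^ 2 : ℝ) : ℂ)
      = ∑ p ∈ I ×ˢ I, c p *
        ((kap lam θ : ℂ) * Complex.exp (Complex.I * ((θ * (φ p.1 - φ p.2) : ℝ) : ℂ))) := by
    intro θ
    rw [Complex.ofReal_mul, Complex.ofReal_pow, ← Complex.mul_conj', map_sum, sum_mul_sum,
      ← sum_product', mul_sum]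
    refine sum_congr rfl (fun p _ => ?_)
    rw [hc]
    simp only
    have e1 : (starRingEnd ℂ) (w p.2 * Complex.exp (Complex.I * ((θ * φ p.2 : ℝ) : ℂ))) =
        (starRingEnd ℂ) (w p.2) * Complex.exp (-(Complex.I * ((θ * φ p.2 : ℝ) : ℂ))) := by
      rw [map_mul, ← Complex.exp_conj, map_mul, Complex.conj_I, Complex.conj_ofReal, neg_mul]
    have e2 : Complex.exp (Complex.I * ((θ * (φ p.1 - φ p.2) : ℝ) : ℂ)) =
        Complex.exp (Complex.I * ((θ * φ p.1 : ℝ) : ℂ)) *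
          Complex.exp (-(Complex.I * ((θ * φ p.2 : ℝ) : ℂ))) := by
      rw [← Complex.exp_add]
      congr 1
      push_cast
      ring
    rw [e1, e2]
    ring
  have hsum : (((∫ θ : ℝ, kap lam θ *
      ‖∑ i ∈ I, w i * Complex.exp (Complex.I * ((θ * φ i : ℝ) : ℂ))‖ ^ 2 : ℝ)) : ℂ) =
      ∑ p ∈ I ×ˢ I, c p * (tri (lam * (φ p.1 - φ p.2)) : ℂ) := by
    rw [← integral_complex_ofReal]
    simp only [hpt]
    rw [MeasureTheory.integral_finsetSum]
    · refine sum_congr rfl (fun p _ => ?_)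
      rw [MeasureTheory.integral_const_mul, htri]
    · intro p _
      exact (ms_int hint _).const_mul _
  have hle : ‖∑ p ∈ I ×ˢ I, c p * (tri (lam * (φ p.1 - φ p.2)) : ℂ)‖ ≤
      W ^ 2 * (((I ×ˢ I).filter (fun p => |φ p.1 - φ p.2| < 1 / lam)).card : ℝ) := by
    refine (norm_sum_le _ _).trans ?_
    have h1 : ∀ p ∈ I ×ˢ I, ‖c p * (tri (lam * (φ p.1 - φ p.2)) : ℂ)‖ ≤
        W ^ 2 * (if |φ p.1 - φ p.2| < 1 / lam then 1 else 0) := by
      intro p hp
      rw [mem_product] at hp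
      have hW : 0 ≤ W := (norm_nonneg _).trans (hw _ hp.1)
      have e1 : ‖c p‖ ≤ W ^ 2 := by
        rw [hc]
        simp only
        rw [norm_mul, RCLike.norm_conj, sq]
        exact mul_le_mul (hw _ hp.1) (hw _ hp.2) (norm_nonneg _) hW
      rw [norm_mul, Complex.norm_real]
      refine mul_le_mul e1 ?_ (norm_nonneg _) (by positivity)
      unfold tri
      split_ifs with h2
      · rw [Real.norm_of_nonneg (le_max_left _ _)]
        refine max_le zero_le_one ?_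
        have := abs_nonneg (lam * (φ p.1 - φ p.2))
        linarith
      · have h3 : 1 ≤ |lam * (φ p.1 - φ p.2)| := by
          rw [abs_mul, abs_of_pos hl]
          rw [not_lt, div_le_iff₀ hl] at h2
          linarith
        rw [max_eq_left (by linarith), norm_zero]
    refine (sum_le_sum h1).trans ?_
    rw [← mul_sum, sum_boole]
  rw [← hsum, Complex.norm_real] at hle
  exact (le_abs_self _).trans hle

theorem p_mvx : S_mvx := by
  intro hkf hcnt m
  obtain ⟨C0, hC0, hC⟩ := hcnt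
  refine ⟨⌈(m.factorial : ℝ) ^ 2 * C0⌉₊ + 1, by omega, ?_⟩
  intro J N a S2 G S g hJ hS hG hN ha hp hg
  classical
  have hG0 : 0 ≤ G := by linarith
  have hJ0 : (0 : ℝ) < J := by
    have : 0 < J := by omega
    exact_mod_cast this
  have hlam : (0 : ℝ) < 2 * (J : ℝ) := by linarith
  set N' : Fin m → ℕ := fun l => if l ∈ S2 then N l else 1 with hN'
  set a' : Fin m → ℕ → ℂ := fun l n => if l ∈ S2 then a l n else 1 with ha'
  have hprod : ∏ l, N' l = ∏ l ∈ S2, N l := by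
    rw [hN', Finset.prod_ite_mem, Finset.univ_inter]
  set P : ℕ := ∏ l ∈ S2, N l with hP
  set b := mvp_b a' N' with hb
  have hdp : ∀ θ : ℝ, ∏ l ∈ S2, ‖dp (a l) (N l) θ‖ ^ 2 = ‖dp b P θ‖ ^ 2 := by
    intro θ
    have h1 : ∀ l, dp (a' l) (N' l) θ = if l ∈ S2 then dp (a l) (N l) θ else 1 := by
      intro l
      by_cases hl : l ∈ S2
      · simp only [hN', ha', if_pos hl]
      · simp only [hN', ha', if_neg hl]
        simp [dp, pz]
    have h2 : ∏ l, dp (a' l) (N' l) θ = ∏ l ∈ S2, dp (a l) (N l) θ := by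
      rw [Finset.prod_congr rfl fun l _ => h1 l, Finset.prod_ite_mem, Finset.univ_inter]
    rw [mvp_dp, hprod] at h2
    rw [hb, h2, norm_prod, Finset.prod_pow]
  set W : ℝ := (m.factorial : ℝ) * G ^ m with hW
  have hbW : ∀ n, ‖b n‖ ≤ W := fun n => mvx_b a N S2 hG ha hp n
  have hint : ∀ θ : ℝ, kap (2 * J) θ * ((∏ l ∈ S2, ‖dp (a l) (N l) θ‖ ^ 2) *
      ‖∑ j ∈ S, g j * Complex.exp (-(Complex.I * ((θ * Real.log (xj j) : ℝ) : ℂ)))‖ ^ 2) =
      kap (2 * J) θ * ‖∑ p ∈ Icc 1 P ×ˢ S, (b p.1 * g p.2) *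
        Complex.exp (Complex.I * ((θ * (Real.log p.1 - Real.log (xj p.2)) : ℝ) : ℂ))‖ ^ 2 := by
    intro θ
    rw [hdp, ← mul_pow, ← norm_mul]
    congr 3
    unfold dp
    rw [sum_mul_sum, ← sum_product']
    refine sum_congr rfl (fun p _ => ?_)
    rw [ms_pz]
    have e2 : Complex.exp (Complex.I * ((θ * (Real.log p.1 - Real.log (xj p.2)) : ℝ) : ℂ)) =
        Complex.exp (Complex.I * ((θ * Real.log p.1 : ℝ) : ℂ)) *
          Complex.exp (-(Complex.I * ((θ * Real.log (xj p.2) : ℝ) : ℂ))) := by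
      rw [← Complex.exp_add]
      congr 1
      push_cast
      ring
    rw [e2]
    ring
  simp only [hint]
  refine (mvx_gen hkf (Icc 1 P ×ˢ S) (fun p => b p.1 * g p.2)
    (fun p => Real.log p.1 - Real.log (xj p.2)) hlam (W := W) ?_).trans ?_
  · intro p _
    rw [norm_mul]
    calc ‖b p.1‖ * ‖g p.2‖ ≤ W * 1 :=
          mul_le_mul (hbW _) (hg _) (norm_nonneg _) (by positivity)
      _ = W := mul_one _
  · have hcard : ((((Icc 1 P ×ˢ S) ×ˢ (Icc 1 P ×ˢ S)).filter (fun p : (ℕ × ℕ) × (ℕ × ℕ) =>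
        |(Real.log p.1.1 - Real.log (xj p.1.2)) - (Real.log p.2.1 - Real.log (xj p.2.2))|
          < 1 / (2 * (J : ℝ)))).card : ℝ) ≤ C0 * Ex J P S.card := by
      refine le_trans ?_ (hC J P S hJ hS)
      have h1 := Finset.card_le_card_of_injOn
        (s := ((Icc 1 P ×ˢ S) ×ˢ (Icc 1 P ×ˢ S)).filter (fun p : (ℕ × ℕ) × (ℕ × ℕ) =>
        |(Real.log p.1.1 - Real.log (xj p.1.2)) - (Real.log p.2.1 - Real.log (xj p.2.2))|
          < 1 / (2 * (J : ℝ))))
        (t := (Icc 1 P ×ˢ Icc 1 P ×ˢ S ×ˢ S).filter (fun t : ℕ × ℕ × ℕ × ℕ =>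
          |(Real.log t.1 - Real.log t.2.1) -
            (Real.log (xj t.2.2.1) - Real.log (xj t.2.2.2))| < 1 / (2 * (J : ℝ))))
        (fun p => (p.1.1, p.2.1, p.1.2, p.2.2)) (by
          intro p hp
          simp only [coe_filter, mem_product, Set.mem_ofPred_eq] at hp ⊢
          refine ⟨⟨hp.1.1.1, hp.1.2.1, hp.1.1.2, hp.1.2.2⟩, ?_⟩
          have e : (Real.log (p.1.1 : ℝ) - Real.log (p.2.1 : ℝ)) -
              (Real.log (xj p.1.2) - Real.log (xj p.2.2)) =
              (Real.log (p.1.1 : ℝ) - Real.log (xj p.1.2)) -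
                (Real.log (p.2.1 : ℝ) - Real.log (xj p.2.2)) := by ring
          rw [e]
          exact hp.2) (by
          rintro ⟨⟨p1, p2⟩, ⟨p3, p4⟩⟩ _ ⟨⟨q1, q2⟩, ⟨q3, q4⟩⟩ _ h
          simp only [Prod.mk.injEq] at h ⊢
          exact ⟨⟨h.1, h.2.2.1⟩, ⟨h.2.1, h.2.2.2⟩⟩)
      exact_mod_cast h1
    have hEx : 0 ≤ Ex J P S.card := by
      unfold Ex
      have h1 : (0 : ℝ) ≤ Real.log J := Real.log_natCast_nonneg J
      positivity
    calc W ^ 2 * _ ≤ W ^ 2 * (C0 * Ex J P S.card) :=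
          mul_le_mul_of_nonneg_left hcard (by positivity)
      _ = ((m.factorial : ℝ) ^ 2 * C0) * (G ^ (2 * m) * Ex J P S.card) := by
          rw [hW, mul_pow, ← pow_mul, mul_comm m 2]
          ring
      _ ≤ ((⌈(m.factorial : ℝ) ^ 2 * C0⌉₊ + 1 : ℕ) : ℝ) * (G ^ (2 * m) * Ex J P S.card) := by
          refine mul_le_mul_of_nonneg_right ?_ (by positivity)
          have := Nat.le_ceil ((m.factorial : ℝ) ^ 2 * C0)
          push_cast
          linarith
      _ = _ := by ring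

end Pool.Agent.CX
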