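import Pool.Agent.Lib.MP_d610d0_nt.CX.Stm2

set_option autoImplicit false

/-!
Piece num of project CX: the numerics of the cells. The iterates of `Us` are coefficients of powers of a polynomial,
which are read off as digits of big natural numbers (Kronecker substitution).
-/

namespace Pool.Agent.CX

open Finset Polynomial
open Pool.Agent.CA.SV (Us)

/-! ### The iterates of `Us` and powers of a polynomial -/

private noncomputable def num_P {R : Type*} [Semiring R] (f : ℕ → R) (n : ℕ) : R[X] :=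
  ∑ i ∈ range n, C (f i) * X ^ i

private lemma num_P_coeff {R : Type*} [Semiring R] (f : ℕ → R) (n k : ℕ) :
    (num_P f n).coeff k = if k < n then f k else 0 := by
  unfold num_P
  simp only [finsetSum_coeff, coeff_C_mul_X_pow]
  rw [Finset.sum_ite_eq]
  simp

private noncomputable def num_L (g : ℕ → ℝ) : ℝ[X] →ₗ[ℝ] ℝ :=
  Polynomial.lsum fun M => (g M) • (LinearMap.id : ℝ →ₗ[ℝ] ℝ)

private lemma num_L_X (g : ℕ → ℝ) (n : ℕ) : num_L g (X ^ n) = g n := by
  unfold num_L
  rw [Polynomial.lsum_apply, ← monomial_one_right_eq_X_pow, sum_monomial_index]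
  · simp
  · simp

private lemma num_L_eq (g : ℕ → ℝ) (K : ℕ) (hg : ∀ i, K ≤ i → g i = 0) (p : ℝ[X]) :
    num_L g p = ∑ M ∈ range K, p.coeff M * g M := by
  unfold num_L
  rw [Polynomial.lsum_apply]
  rw [Polynomial.sum_over_range' p (by simp) (max K (p.natDegree + 1)) (by
    exact lt_of_lt_of_le (Nat.lt_succ_self _) (le_max_right _ _))]
  symm
  have h : ∀ M ∈ range K, p.coeff M * g M =
      (g M • (LinearMap.id : ℝ →ₗ[ℝ] ℝ)) (p.coeff M) := by
    intro M _
    simp [mul_comm]
  rw [sum_congr rfl h]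
  apply sum_subset
  · intro x hx
    rw [mem_range] at hx ⊢
    exact lt_of_lt_of_le hx (le_max_left _ _)
  · intro x _ hx
    rw [mem_range, not_lt] at hx
    simp [hg x hx]

private lemma num_Us (K : ℕ) (a g : ℕ → ℝ) :
    ∀ r s : ℕ, ((Us K a)^[r] g) s = num_L g ((num_P a K) ^ r * X ^ s)
  | 0, s => by simp [num_L_X]
  | r + 1, s => by
      rw [Function.iterate_succ_apply']
      change ∑ i ∈ range K, a i * ((Us K a)^[r] g) (s + i) = _
      have h : (num_P a K) ^ (r + 1) * X ^ s =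
          ∑ i ∈ range K, a i • ((num_P a K) ^ r * X ^ (s + i)) := by
        have e : ∀ i ∈ range K, a i • ((num_P a K) ^ r * X ^ (s + i)) =
            (num_P a K) ^ r * (C (a i) * X ^ i) * X ^ s := by
          intro i _
          rw [smul_eq_C_mul, pow_add]
          ring
        rw [sum_congr rfl e, ← Finset.sum_mul, ← Finset.mul_sum, pow_succ]
        rfl
      rw [h, map_sum]
      apply sum_congr rfl
      intro i _
      rw [map_smul, num_Us K a g r (s + i), smul_eq_mul]

private lemma num_val (K : ℕ) (a g : ℕ → ℝ) (hg : ∀ i, K ≤ i → g i = 0) (r : ℕ) :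
    ((Us K a)^[r] g) 0 = ∑ M ∈ range K, ((num_P a K) ^ r).coeff M * g M := by
  rw [num_Us, num_L_eq g K hg, pow_zero, mul_one]

/-! ### Domination of coefficients -/

private def num_Dom (p : ℝ[X]) (q : ℕ[X]) : Prop :=
  ∀ n, 0 ≤ p.coeff n ∧ p.coeff n ≤ (q.coeff n : ℝ)

private lemma num_Dom_mul {p p' : ℝ[X]} {q q' : ℕ[X]} (h : num_Dom p q) (h' : num_Dom p' q') :
    num_Dom (p * p') (q * q') := by
  intro n
  rw [coeff_mul, coeff_mul]
  constructor
  · exact sum_nonneg fun x _ => mul_nonneg (h _).1 (h' _).1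
  · push_cast
    exact sum_le_sum fun x _ => mul_le_mul (h _).2 (h' _).2 (h' _).1 (Nat.cast_nonneg _)

private lemma num_Dom_pow {p : ℝ[X]} {q : ℕ[X]} (h : num_Dom p q) :
    ∀ r : ℕ, num_Dom (p ^ r) (q ^ r)
  | 0 => by
      intro n
      rw [pow_zero, pow_zero, coeff_one, coeff_one]
      split_ifs <;> norm_num
  | r + 1 => by
      rw [pow_succ, pow_succ]
      exact num_Dom_mul (num_Dom_pow h r) h

/-- the value at zero in terms of a coefficient -/
private lemma num_key (K : ℕ) (a g : ℕ → ℝ) (c d : ℝ) (hc : 0 ≤ c) (hd : 0 ≤ d)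
    (aN gN : ℕ → ℕ) (ha0 : ∀ i, 0 ≤ a i) (hg0 : ∀ i, 0 ≤ g i) (hg : ∀ i, K + 1 ≤ i → g i = 0)
    (ha : ∀ i, i < K + 1 → c * a i ≤ (aN i : ℝ)) (hgN : ∀ i, i < K + 1 → d * g i ≤ (gN i : ℝ))
    (r : ℕ) :
    c ^ r * d * ((Us (K + 1) a)^[r] g) 0 ≤
      ((((num_P aN (K + 1)) ^ r * num_P (fun s => gN (K - s)) (K + 1)).coeff K : ℕ) : ℝ) := by
  have hD : num_Dom (C c * num_P a (K + 1)) (num_P aN (K + 1)) := by
    intro n
    rw [coeff_C_mul, num_P_coeff, num_P_coeff]
    split_ifs with h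
    · exact ⟨mul_nonneg hc (ha0 _), ha n h⟩
    · simp
  have hD' := num_Dom_pow hD r
  rw [num_val (K + 1) a g hg r, mul_sum, coeff_mul, Finset.Nat.sum_antidiagonal_eq_sum_range_succ_mk]
  push_cast
  apply sum_le_sum
  intro M hM
  rw [mem_range] at hM
  rw [num_P_coeff, if_pos (by omega), show K - (K - M) = M by omega]
  have h1 := hD' M
  rw [mul_pow, ← C_pow, coeff_C_mul] at h1
  calc c ^ r * d * (((num_P a (K + 1)) ^ r).coeff M * g M)
      = (c ^ r * ((num_P a (K + 1)) ^ r).coeff M) * (d * g M) := by ring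
    _ ≤ _ := mul_le_mul h1.2 (hgN M hM) (mul_nonneg hd (hg0 _)) (Nat.cast_nonneg _)

/-! ### Digits -/

private lemma num_digit_sum (W : ℕ) (hW : 0 < W) : ∀ (k n : ℕ) (c : ℕ → ℕ),
    ∑ i ∈ range n, c i < W → k < n → (∑ i ∈ range n, c i * W ^ i) / W ^ k % W = c k
  | _, 0, _, _, hk => absurd hk (Nat.not_lt_zero _)
  | k, n + 1, c, hc, hk => by
      have h0 : c 0 < W := by
        refine lt_of_le_of_lt ?_ hc
        exact single_le_sum (f := c) (fun i _ => Nat.zero_le _) (mem_range.2 (Nat.succ_pos n))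
      have e : ∑ i ∈ range (n + 1), c i * W ^ i = c 0 + W * ∑ i ∈ range n, c (i + 1) * W ^ i := by
        rw [sum_range_succ', mul_sum, pow_zero, mul_one, add_comm]
        congr 1
        apply sum_congr rfl
        intro i _
        rw [pow_succ]
        ring
      rw [e]
      cases k with
      | zero => rw [pow_zero, Nat.div_one, Nat.add_mul_mod_self_left, Nat.mod_eq_of_lt h0]
      | succ k =>
        rw [pow_succ', ← Nat.div_div_eq_div_mul, Nat.add_mul_div_left _ _ hW,
          Nat.div_eq_of_lt h0, zero_add]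
        apply num_digit_sum W hW k n (fun i => c (i + 1))
        · rw [sum_range_succ'] at hc
          omega
        · omega

private lemma num_digit (Q : ℕ[X]) (W k : ℕ) (hW : Q.eval 1 < W) :
    Q.coeff k = Q.eval W / W ^ k % W := by
  have hW0 : 0 < W := lt_of_le_of_lt (Nat.zero_le _) hW
  have hn : Q.natDegree < max (k + 1) (Q.natDegree + 1) :=
    lt_of_lt_of_le (Nat.lt_succ_self _) (le_max_right _ _)
  rw [eval_eq_sum_range' hn W]
  rw [eval_eq_sum_range' hn 1] at hW
  symm
  apply num_digit_sum W hW0 k _ (fun i => Q.coeff i)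
  · simpa using hW
  · exact lt_of_lt_of_le (Nat.lt_succ_self _) (le_max_left _ _)

/-- evaluation, computable -/
private def num_ev (f : ℕ → ℕ) (W : ℕ) : ℕ → ℕ
  | 0 => 0
  | n + 1 => num_ev f W n + f n * W ^ n

private lemma num_ev_eq (f : ℕ → ℕ) (W : ℕ) : ∀ n : ℕ, (num_P f n).eval W = num_ev f W n
  | 0 => by simp [num_P, num_ev]
  | n + 1 => by
      have h := num_ev_eq f W n
      unfold num_P at h ⊢
      rw [sum_range_succ, eval_add, h, num_ev]
      simp

/-! ### The numbers -/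

private def num_aN (i : ℕ) : ℕ :=
  if 128 ≤ i then 500100000 * (2 * i + 1) / (i * (i + 1)) + 1 else 0

private def num_gN (r M : ℕ) : ℕ := 64000000000000 / max 21888 (192000 - 171 * (M + r)) + 1

private def num_W : ℕ := 2 ^ 288

/-- the coefficient -/
private def num_c (r : ℕ) : ℕ :=
  (num_ev num_aN num_W 995) ^ r * num_ev (fun s => num_gN r (994 - s)) num_W 995
    / num_W ^ 994 % num_W

private lemma num_small : ∀ r ∈ List.range' 3 5,
    (num_ev num_aN 1 995) ^ r * num_ev (fun s => num_gN r (994 - s)) 1 995 < num_W := by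
  decide +kernel

private lemma num_big : 1680 * num_c 3 * 10 ^ 36 + 336 * num_c 4 * 10 ^ 27 +
    56 * num_c 5 * 10 ^ 18 + 8 * num_c 6 * 10 ^ 9 + num_c 7 ≤ 15636 * 40320 * 10 ^ 67 := by
  decide +kernel

private lemma num_div (x y : ℕ) (hy : 0 < y) : (x : ℝ) / y ≤ ((x / y + 1 : ℕ) : ℝ) := by
  have h1 : x < y * (x / y + 1) := by
    have := Nat.div_add_mod x y
    have h2 := Nat.mod_lt x hy
    calc x = y * (x / y) + x % y := this.symm
      _ < y * (x / y) + y := by omega
      _ = _ := by ring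
  have hy' : (0 : ℝ) < y := by exact_mod_cast hy
  rw [div_le_iff₀ hy']
  have h3 : (x : ℝ) < (y : ℝ) * ((x / y + 1 : ℕ) : ℝ) := by exact_mod_cast h1
  linarith [h3, mul_comm (y : ℝ) ((x / y + 1 : ℕ) : ℝ)]

private lemma num_ax_nonneg (i : ℕ) : 0 ≤ ax i := by
  unfold ax
  split_ifs with h
  · positivity
  · exact le_rfl

private lemma num_ax_le (i : ℕ) : (10 ^ 9 : ℝ) * ax i ≤ (num_aN i : ℝ) := by
  unfold num_aN ax
  split_ifs with h
  · have hi0 : 0 < i := by omega
    have h1 := num_div (500100000 * (2 * i + 1)) (i * (i + 1)) (by positivity)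
    refine le_trans (le_of_eq ?_) h1
    have : (i : ℝ) ≠ 0 := by exact_mod_cast hi0.ne'
    push_cast
    field_simp
    ring
  · simp

private lemma num_Ph_nonneg (r M : ℕ) : 0 ≤ Phx r M := by
  unfold Phx
  split_ifs with h
  · positivity
  · exact le_rfl

private lemma num_Ph_le (r M : ℕ) (hM : M < 994 + 1) :
    (10 ^ 9 : ℝ) * Phx r M ≤ (num_gN r M : ℝ) := by
  unfold num_gN Phx
  rw [if_pos (by omega)]
  have h1 := num_div 64000000000000 (max 21888 (192000 - 171 * (M + r)))
    (lt_of_lt_of_le (by norm_num) (le_max_left _ _))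
  refine le_trans (le_of_eq ?_) h1
  push_cast
  ring

private lemma num_le (r : ℕ) (h3 : 3 ≤ r) (h7 : r ≤ 7) :
    ((10 : ℝ) ^ 9) ^ r * 10 ^ 9 * ((Us 995 ax)^[r] (Phx r)) 0 ≤ (num_c r : ℝ) := by
  have h := num_key 994 ax (Phx r) (10 ^ 9) (10 ^ 9) (by positivity) (by positivity) num_aN
    (num_gN r) num_ax_nonneg (num_Ph_nonneg r)
    (fun i hi => by unfold Phx; rw [if_neg (by omega)]) (fun i _ => num_ax_le i)
    (num_Ph_le r) r
  have hs := num_small r (by
    rw [List.mem_range'_1]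
    omega)
  rw [num_digit _ num_W 994 (by
    rw [eval_mul, eval_pow, num_ev_eq, num_ev_eq]
    exact hs), eval_mul, eval_pow, num_ev_eq, num_ev_eq] at h
  exact h

theorem p_numx : S_numx := by
  unfold S_numx R_numx
  have h3 := num_le 3 (by norm_num) (by norm_num)
  have h4 := num_le 4 (by norm_num) (by norm_num)
  have h5 := num_le 5 (by norm_num) (by norm_num)
  have h6 := num_le 6 (by norm_num) (by norm_num)
  have h7 := num_le 7 (by norm_num) (by norm_num)
  have hb : (1680 * num_c 3 * 10 ^ 36 + 336 * num_c 4 * 10 ^ 27 +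
    56 * num_c 5 * 10 ^ 18 + 8 * num_c 6 * 10 ^ 9 + num_c 7 : ℝ) ≤ 15636 * 40320 * 10 ^ 67 := by
    exact_mod_cast num_big
  have e : Icc 3 7 = ({3, 4, 5, 6, 7} : Finset ℕ) := by decide
  rw [e]
  rw [sum_insert (by decide), sum_insert (by decide), sum_insert (by decide),
    sum_insert (by decide), sum_singleton]
  generalize ((Us 995 ax)^[3] (Phx 3)) 0 = x3 at *
  generalize ((Us 995 ax)^[4] (Phx 4)) 0 = x4 at *
  generalize ((Us 995 ax)^[5] (Phx 5)) 0 = x5 at *
  generalize ((Us 995 ax)^[6] (Phx 6)) 0 = x6 at *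
  generalize ((Us 995 ax)^[7] (Phx 7)) 0 = x7 at *
  generalize (num_c 3 : ℝ) = c3 at *
  generalize (num_c 4 : ℝ) = c4 at *
  generalize (num_c 5 : ℝ) = c5 at *
  generalize (num_c 6 : ℝ) = c6 at *
  generalize (num_c 7 : ℝ) = c7 at *
  norm_num [Nat.factorial] at *
  linarith

end Pool.Agent.CX
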