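import Pool.Agent.Lib.MP_d610d0_nt.CX.Stm2

set_option autoImplicit false

/-!
Project CX, piece one: the lower bound for the number of Chen primes in a good window.
-/

namespace Pool.Agent.CX

open Finset Filter
open scoped ArithmeticFunction.Omega
open Pool.Agent.CH (wJ wL Rough VV Wt dsum thP EE chenSet)
open Pool.Agent.CH.F (mu)

private lemma one_q3 (J j q : ℕ) (hJ : 1 ≤ J) (hJe : 2 < (J : ℝ) ^ (26 / 1000 : ℝ))
    (hj : j ≤ 2 * J) (hq : zx J ≤ q) : j < q ^ 3 := by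
  have hJR : (1 : ℝ) ≤ (J : ℝ) := by exact_mod_cast hJ
  have hJ0 : (0 : ℝ) < J := by linarith
  have h1 : zx J ^ 3 ≤ (q : ℝ) ^ 3 := by
    refine pow_le_pow_left₀ ?_ hq 3
    unfold zx
    positivity
  have h2 : zx J ^ 3 = (J : ℝ) ^ (26 / 1000 : ℝ) * J := by
    unfold zx
    rw [← Real.rpow_natCast, ← Real.rpow_mul hJ0.le]
    nth_rewrite 3 [← Real.rpow_one (J : ℝ)]
    rw [← Real.rpow_add hJ0]
    norm_num
  rw [h2] at h1
  have h3 : 2 * (J : ℝ) < (J : ℝ) ^ (26 / 1000 : ℝ) * J := mul_lt_mul_of_pos_right hJe hJ0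
  have h4 : (j : ℝ) ≤ 2 * J := by exact_mod_cast hj
  have h5 : (j : ℝ) < (q : ℝ) ^ 3 := by linarith
  exact_mod_cast h5

private lemma one_th (J p : ℕ) (hJ : 4 ≤ Real.log J) (hJ1 : 1 ≤ J)
    (hp : p ∈ Icc 1 (27 * J ^ 3)) :
    0 ≤ thP p ∧ thP p ≤ 4 * Real.log J := by
  rw [mem_Icc] at hp
  have hJR : (1 : ℝ) ≤ (J : ℝ) := by exact_mod_cast hJ1
  have hp1 : (1 : ℝ) ≤ (p : ℝ) := by exact_mod_cast hp.1
  have hp2 : (p : ℝ) ≤ 27 * (J : ℝ) ^ 3 := by exact_mod_cast hp.2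
  have h27 : Real.log 27 ≤ 4 := by
    rw [Real.log_le_iff_le_exp (by norm_num)]
    have h3 := Real.exp_one_gt_d9
    have h4 : Real.exp 4 = Real.exp 1 ^ 4 := by
      rw [← Real.exp_nat_mul]
      norm_num
    rw [h4]
    have h5 : (2.7 : ℝ) ^ 4 ≤ Real.exp 1 ^ 4 := pow_le_pow_left₀ (by norm_num) (by linarith) 4
    norm_num at h5
    linarith
  unfold thP
  split_ifs with h
  · refine ⟨Real.log_nonneg hp1, ?_⟩
    have h3 : Real.log p ≤ Real.log (27 * (J : ℝ) ^ 3) := Real.log_le_log (by linarith) hp2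
    rw [Real.log_mul (by norm_num) (by positivity), Real.log_pow] at h3
    push_cast at h3
    linarith
  · exact ⟨le_refl _, by linarith⟩

private lemma one_ev (c0 : ℝ) : ∃ J0 : ℕ, ∀ J : ℕ, J0 ≤ J →
    250 ≤ Real.log J ∧ c0 ≤ Real.log J ∧
    (J : ℝ) ^ (15 / 8 : ℝ) + 72 ≤ (J : ℝ) ^ 2 / Real.log J ^ 3 := by
  have h1 : ∀ᶠ x : ℝ in Filter.atTop, 250 ≤ Real.log x :=
    Real.tendsto_log_atTop.eventually_ge_atTop 250
  have h2 : ∀ᶠ x : ℝ in Filter.atTop, c0 ≤ Real.log x :=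
    Real.tendsto_log_atTop.eventually_ge_atTop c0
  have h3 : ∀ᶠ x : ℝ in Filter.atTop, ‖Real.log x ^ (3 : ℝ)‖ ≤ (1 / 73) * ‖x ^ (1 / 8 : ℝ)‖ :=
    (isLittleO_log_rpow_rpow_atTop (3 : ℝ) (show (0 : ℝ) < 1 / 8 by norm_num)).bound
      (by norm_num)
  have h4 : ∀ᶠ x : ℝ in Filter.atTop, (1 : ℝ) ≤ x := Filter.eventually_ge_atTop 1
  have h5 : ∀ᶠ x : ℝ in Filter.atTop, 250 ≤ Real.log x ∧ c0 ≤ Real.log x ∧
      x ^ (15 / 8 : ℝ) + 72 ≤ x ^ 2 / Real.log x ^ 3 := by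
    filter_upwards [h1, h2, h3, h4] with x a b c d
    refine ⟨a, b, ?_⟩
    have e1 : (1 : ℝ) ≤ x ^ (15 / 8 : ℝ) := Real.one_le_rpow d (by norm_num)
    have e2 : 0 < Real.log x ^ 3 := by positivity
    rw [le_div_iff₀ e2]
    have e3 : Real.log x ^ (3 : ℝ) = Real.log x ^ 3 := by
      rw [show (3 : ℝ) = ((3 : ℕ) : ℝ) by norm_num, Real.rpow_natCast]
    rw [e3, Real.norm_of_nonneg e2.le, Real.norm_of_nonneg (by positivity)] at c
    have e4 : x ^ (15 / 8 : ℝ) * x ^ (1 / 8 : ℝ) = x ^ 2 := by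
      rw [← Real.rpow_add (by linarith), ← Real.rpow_natCast]
      norm_num
    have e5 : (0 : ℝ) ≤ x ^ (15 / 8 : ℝ) := by linarith
    calc (x ^ (15 / 8 : ℝ) + 72) * Real.log x ^ 3 ≤ (73 * x ^ (15 / 8 : ℝ)) * (1 / 73 * x ^ (1 / 8 : ℝ)) :=
          mul_le_mul (by linarith) c e2.le (by linarith)
      _ = x ^ (15 / 8 : ℝ) * x ^ (1 / 8 : ℝ) := by ring
      _ = x ^ 2 := e4
  have h6 := (tendsto_natCast_atTop_atTop (R := ℝ)).eventually h5
  rw [Filter.eventually_atTop] at h6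
  exact h6

theorem p_onex : S_onex := by
  classical
  intro hV hwin hlo hup
  obtain ⟨c0, hc0, hV⟩ := hV
  obtain ⟨Je, hev⟩ := one_ev (9000 / c0)
  have ev : ∀ᶠ J : ℕ in atTop, (2 : ℝ) < (J : ℝ) ^ (26 / 1000 : ℝ) :=
    ((tendsto_rpow_atTop (show (0 : ℝ) < 26 / 1000 by norm_num)).comp
      tendsto_natCast_atTop_atTop).eventually_gt_atTop 2
  refine ⟨c0 / 2000, by positivity, ?_⟩
  filter_upwards [hV, hlo, hup, ev, eventually_ge_atTop Je, eventually_ge_atTop 5] with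
    J hV1 hlo0 hup0 hJ2e hJe hJ5 cp cm hSW j hj hG
  have hlo1 := hlo0 cp cm hSW j hj hG
  have hup1 := hup0 cp cm hSW j hj hG
  obtain ⟨hL250, hLc, hE⟩ := hev J hJe
  obtain ⟨hw01, hwsup, -, -⟩ := hwin J hJ5 j hj
  rw [mem_Ioc] at hj
  set L := Real.log J with hLdef
  set V := VV (zx J) with hVdef
  set m := mu J j with hmdef
  have hL0 : 0 < L := by linarith
  have hJR : (5 : ℝ) ≤ (J : ℝ) := by exact_mod_cast hJ5
  have hJ0 : (0 : ℝ) < (J : ℝ) := by linarith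
  have hm : (J : ℝ) ^ 2 / 2 ≤ m := by
    rw [hmdef]
    unfold mu
    rw [le_div_iff₀ (by positivity)]
    have h1 : (J : ℝ) ≤ (j : ℝ) + 1 / 2 := by
      have : (J : ℝ) ≤ (j : ℝ) := by exact_mod_cast hj.1.le
      linarith
    have h2 := pow_le_pow_left₀ hJ0.le h1 3
    calc (J : ℝ) ^ 2 / 2 * (2 * J) = (J : ℝ) ^ 3 := by ring
      _ ≤ _ := h2
  have hm0 : 0 ≤ m := le_trans (by positivity) hm
  have hV0 : 0 < V := lt_of_lt_of_le (by positivity) hV1
  -- the main analytic inequality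
  have hmain : 0.003 * c0 * (J : ℝ) ^ 2 / L ≤ SSx J j - TTx J j := by
    have hVm0 : 0 ≤ V * m := by positivity
    have h1 : (3 * L + 4) * (0.6398 * V * m / (3 * L)) ≤ 0.6433 * (V * m) := by
      have e1 : (3 * L + 4) * (0.6398 * V * m / (3 * L)) = (0.6398 + 0.6398 * 4 / (3 * L)) * (V * m) := by
        field_simp
      rw [e1]
      apply mul_le_mul_of_nonneg_right _ hVm0
      have e2 : 0.6398 * 4 / (3 * L) ≤ 0.0035 := by
        rw [div_le_iff₀ (by positivity)]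
        nlinarith
      linarith
    have hJ2 : 0 < (J : ℝ) ^ 2 := by positivity
    have h2 : (3 * L + 4) * ((J : ℝ) ^ (15 / 8 : ℝ) + 72 + (J : ℝ) ^ 2 / L ^ 3) ≤ 8 * ((J : ℝ) ^ 2 / L ^ 2) := by
      have e1 : (3 * L + 4) ≤ 4 * L := by linarith
      have e2 : (J : ℝ) ^ (15 / 8 : ℝ) + 72 + (J : ℝ) ^ 2 / L ^ 3 ≤ 2 * ((J : ℝ) ^ 2 / L ^ 3) := by linarith
      have e3 : (0 : ℝ) ≤ (J : ℝ) ^ (15 / 8 : ℝ) := by positivity
      calc (3 * L + 4) * ((J : ℝ) ^ (15 / 8 : ℝ) + 72 + (J : ℝ) ^ 2 / L ^ 3)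
          ≤ (4 * L) * (2 * ((J : ℝ) ^ 2 / L ^ 3)) :=
            mul_le_mul e1 e2 (by positivity) (by positivity)
        _ = 8 * ((J : ℝ) ^ 2 / L ^ 2) := by
            field_simp
            norm_num
    have h3 : (J : ℝ) ^ 2 / L ^ 3 ≤ (J : ℝ) ^ 2 / L ^ 2 := by
      apply div_le_div_of_nonneg_left hJ2.le (by positivity)
      exact pow_le_pow_right₀ (by linarith) (by norm_num)
    have h4 : 9 * ((J : ℝ) ^ 2 / L ^ 2) ≤ 0.001 * c0 * (J : ℝ) ^ 2 / L := by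
      rw [show 9 * ((J : ℝ) ^ 2 / L ^ 2) = (9 / L) * ((J : ℝ) ^ 2 / L) by field_simp]
      rw [show 0.001 * c0 * (J : ℝ) ^ 2 / L = (0.001 * c0) * ((J : ℝ) ^ 2 / L) by ring]
      apply mul_le_mul_of_nonneg_right _ (by positivity)
      rw [div_le_iff₀ hL0]
      rw [div_le_iff₀ hc0] at hLc
      linarith
    have h5 : 0.004 * c0 * (J : ℝ) ^ 2 / L ≤ 0.008 * (V * m) := by
      have e1 : c0 / L * ((J : ℝ) ^ 2 / 2) ≤ V * m :=
        mul_le_mul hV1 hm (by positivity) hV0.le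
      have e2 : 0.004 * c0 * (J : ℝ) ^ 2 / L = 0.008 * (c0 / L * ((J : ℝ) ^ 2 / 2)) := by ring
      rw [e2]
      linarith
    have h6 : (3 * L + 4) * ((J : ℝ) ^ (15 / 8 : ℝ) + 72 + (J : ℝ) ^ 2 / L ^ 3
        + 0.6398 * V * m / (3 * L)) = (3 * L + 4) * ((J : ℝ) ^ (15 / 8 : ℝ) + 72 + (J : ℝ) ^ 2 / L ^ 3)
        + (3 * L + 4) * (0.6398 * V * m / (3 * L)) := by ring
    rw [h6] at hup1
    have h7 : 0.004 * c0 * (J : ℝ) ^ 2 / L = 0.003 * c0 * (J : ℝ) ^ 2 / L + 0.001 * c0 * (J : ℝ) ^ 2 / L := by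
      ring
    have h8 : 0.653 * V * m = 0.653 * (V * m) := by ring
    rw [h8] at hlo1
    linarith
  -- the counting
  set S := (Icc 1 (27 * J ^ 3)).filter (fun p : ℕ => p.Prime ∧ wJ J j p ≠ 0 ∧ Rough (zx J) (p + 2) ∧
    Ω (p + 2) ≤ 3) with hSdef
  have hfin : (chenSet j).Finite := by
    refine Set.Finite.subset (Ioo (j ^ 3) ((j + 1) ^ 3)).finite_toSet ?_
    intro p hp
    simp only [coe_Ioo, Set.mem_Ioo]
    obtain ⟨-, h1, h2, -⟩ := hp
    exact ⟨h1, by omega⟩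
  have hsub : (S : Set ℕ) ⊆ chenSet j := by
    intro p hp
    simp only [hSdef, coe_filter, Set.mem_ofPred_eq, mem_Icc] at hp
    obtain ⟨⟨hp1, hp2⟩, hpp, hw, hR, hO⟩ := hp
    obtain ⟨w1, w2, -, -⟩ := hwsup p hp1 hw
    exact ⟨hpp, w1, w2, hO, fun q hq hqd => one_q3 J j q (by omega) hJ2e hj.2 (hR q hq hqd)⟩
  have hcard : (S.card : ℝ) ≤ ((chenSet j).ncard : ℝ) := by
    have := Set.ncard_le_ncard hsub hfin
    rw [Set.ncard_coe_finset] at this
    exact_mod_cast this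
  have hdiff : SSx J j - TTx J j ≤ 4 * L * S.card := by
    unfold SSx TTx
    rw [← sum_sub_distrib]
    have h1 : ∀ p ∈ Icc 1 (27 * J ^ 3),
        thP p * wJ J j p * (if Rough (zx J) (p + 2) then 1 else 0)
        - thP p * wJ J j p * (if Rough (zx J) (p + 2) ∧ 4 ≤ Ω (p + 2) then 1 else 0)
        ≤ (if (p.Prime ∧ wJ J j p ≠ 0 ∧ Rough (zx J) (p + 2) ∧ Ω (p + 2) ≤ 3) then 4 * L else 0) := by
      intro p hp
      obtain ⟨t0, t1⟩ := one_th J p (by linarith) (by omega) hp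
      obtain ⟨w0, w1⟩ := hw01 p
      by_cases hR : Rough (zx J) (p + 2)
      · by_cases hO : 4 ≤ Ω (p + 2)
        · rw [if_pos hR, if_pos ⟨hR, hO⟩, sub_self]
          split_ifs
          · positivity
          · exact le_refl _
        · rw [if_pos hR, if_neg (fun h => hO h.2), mul_zero, sub_zero, mul_one]
          by_cases hpp : p.Prime
          · by_cases hw : wJ J j p = 0
            · rw [hw, mul_zero]
              split_ifs
              · positivity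
              · exact le_refl _
            · rw [if_pos ⟨hpp, hw, hR, by omega⟩]
              calc thP p * wJ J j p ≤ thP p * 1 := mul_le_mul_of_nonneg_left w1 t0
                _ ≤ 4 * L := by rw [mul_one]; exact t1
          · have : thP p = 0 := by unfold thP; rw [if_neg hpp]
            rw [this, zero_mul]
            split_ifs
            · positivity
            · exact le_refl _
      · rw [if_neg hR, if_neg (fun h => hR h.1), sub_self]
        split_ifs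
        · positivity
        · exact le_refl _
    refine le_trans (sum_le_sum h1) ?_
    rw [← sum_filter, sum_const, nsmul_eq_mul, mul_comm]
  have hfinal : 0.003 * c0 * (J : ℝ) ^ 2 / L ≤ 4 * L * ((chenSet j).ncard : ℝ) :=
    le_trans (le_trans hmain hdiff) (mul_le_mul_of_nonneg_left hcard (by positivity))
  rw [div_le_iff₀ (by positivity)]
  rw [div_le_iff₀ hL0] at hfinal
  nlinarith

end Pool.Agent.CX
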