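import Pool.Agent.Lib.MP_d610d0_nt.CX.Stm2

/-!
Project CX, piece ptw: the innermost prime.
-/

set_option autoImplicit false

namespace Pool.Agent.CX

open Finset Filter
open Pool.Agent.MP89da58 (tri)
open Pool.Agent.CH (zJ wL)
open Pool.Agent.CH.M2 (Sp)

private lemma ptw_tri {u : ℝ} (hu : 1 ≤ u) : tri u = 0 := by
  unfold tri
  rw [abs_of_nonneg (by linarith)]
  exact max_eq_left (by linarith)

private lemma ptw_mem {z : ℝ} {N p : ℕ} (hp : p ∈ Sp z N) : p.Prime ∧ z ≤ p := by
  unfold Sp at hp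
  exact (mem_filter.mp hp).2

/-- the bounds for `log P` -/
private lemma ptw_logP {z : ℝ} (hlz : 0 < Real.log z) (hz : 0 < z) {N r : ℕ} (q : Fin r → ℕ)
    (hq : ∀ i, q i ∈ Sp z N) :
    ((∑ i, mx z (q i) : ℕ) : ℝ) * Real.log z / 128 ≤ Real.log ((∏ i, q i : ℕ) : ℝ) ∧
    Real.log ((∏ i, q i : ℕ) : ℝ) ≤ (((∑ i, mx z (q i) : ℕ) : ℝ) + r) * Real.log z / 128 := by
  have hlog : Real.log ((∏ i, q i : ℕ) : ℝ) = ∑ i, Real.log (q i) := by
    rw [Nat.cast_prod, Real.log_prod]
    intro i _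
    have := (ptw_mem (hq i)).1.pos
    positivity
  have hi : ∀ i, (mx z (q i) : ℝ) * Real.log z / 128 ≤ Real.log (q i) ∧
      Real.log (q i) ≤ ((mx z (q i) : ℝ) + 1) * Real.log z / 128 := by
    intro i
    have h1 := (ptw_mem (hq i)).2
    have h2 : Real.log z ≤ Real.log (q i) := Real.log_le_log hz h1
    have h3 : 0 ≤ 128 * Real.log (q i) / Real.log z := by
      apply div_nonneg _ hlz.le
      linarith
    have h4 := Nat.floor_le h3
    have h5 := (Nat.lt_floor_add_one (128 * Real.log (q i) / Real.log z)).le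
    rw [le_div_iff₀ hlz] at h4
    rw [div_le_iff₀ hlz] at h5
    unfold mx
    constructor <;> linarith
  rw [hlog]
  constructor
  · calc ((∑ i, mx z (q i) : ℕ) : ℝ) * Real.log z / 128
        = ∑ i, (mx z (q i) : ℝ) * Real.log z / 128 := by
          push_cast
          rw [Finset.sum_mul, Finset.sum_div]
      _ ≤ _ := Finset.sum_le_sum fun i _ => (hi i).1
  · calc ∑ i, Real.log (q i) ≤ ∑ i, ((mx z (q i) : ℝ) + 1) * Real.log z / 128 :=
          Finset.sum_le_sum fun i _ => (hi i).2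
      _ = (((∑ i, mx z (q i) : ℕ) : ℝ) + r) * Real.log z / 128 := by
          rw [← Finset.sum_div, ← Finset.sum_mul, Finset.sum_add_distrib]
          push_cast
          simp

theorem p_ptwx : S_ptwx := by
  intro h E hE
  filter_upwards [h E hE, eventually_ge_atTop (max 100 (⌈Real.exp 20000⌉₊ + 1))] with J hJ1 hJ
  intro j hj N r q hq
  have hJb : ⌈Real.exp 20000⌉₊ + 1 ≤ J := le_trans (le_max_right _ _) hJ
  have hJe : Real.exp 20000 ≤ J := by
    refine (Nat.le_ceil _).trans ?_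
    exact_mod_cast (show ⌈Real.exp 20000⌉₊ ≤ J by omega)
  have hJ0 : (0 : ℝ) < J := lt_of_lt_of_le (Real.exp_pos _) hJe
  have hL : 20000 ≤ Real.log J := (Real.le_log_iff_exp_le hJ0).mpr hJe
  -- z
  have hz0 : 0 < zx J := by
    unfold zx
    positivity
  have hlz : Real.log (zx J) = 171 / 500 * Real.log J := by
    unfold zx
    rw [Real.log_rpow hJ0]
  obtain ⟨L, hLdef⟩ : ∃ L, L = Real.log J := ⟨_, rfl⟩
  rw [← hLdef] at hL hlz
  -- x
  obtain ⟨hj1, hj2⟩ := mem_Ioc.mp hj
  have hj1' : (J : ℝ) ≤ j := by exact_mod_cast hj1.le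
  have hj2' : (j : ℝ) ≤ 2 * J := by exact_mod_cast hj2
  obtain ⟨x, hx⟩ : ∃ x, x = ((j : ℝ) + 1 / 2) ^ 3 := ⟨_, rfl⟩
  have hx0 : 0 < x := by rw [hx]; positivity
  have hJone : (1 : ℝ) ≤ J := by
    have : (1 : ℝ) ≤ Real.exp 20000 := Real.one_le_exp (by norm_num)
    linarith
  have hlx1 : 3 * L ≤ Real.log x := by
    rw [hx, Real.log_pow, hLdef]
    have := Real.log_le_log hJ0 (show (J : ℝ) ≤ (j : ℝ) + 1 / 2 by linarith)
    push_cast
    linarith
  have hlx2 : Real.log x ≤ 3 * L + 9 / 2 := by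
    rw [hx, Real.log_pow, hLdef]
    have h1 := Real.log_le_log (show (0 : ℝ) < (j : ℝ) + 1 / 2 by positivity)
      (show (j : ℝ) + 1 / 2 ≤ 5 / 2 * J by linarith)
    rw [Real.log_mul (by norm_num) hJ0.ne'] at h1
    have h2 := Real.log_le_sub_one_of_pos (show (0 : ℝ) < 5 / 2 by norm_num)
    push_cast
    linarith
  -- lam
  obtain ⟨lam, hlam⟩ : ∃ lam, lam = Real.log J ^ E := ⟨_, rfl⟩
  have hlam2 : 4000 ≤ lam := by
    rw [hlam, ← hLdef]
    calc (4000 : ℝ) ≤ L := by linarith
      _ = L ^ 1 := (pow_one _).symm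
      _ ≤ L ^ E := pow_le_pow_right₀ (by linarith) hE
  have hlam0 : 0 < lam := by linarith
  have hil : 1 / lam ≤ 1 / 2 := one_div_le_one_div_of_le (by norm_num) (by linarith)
  -- P
  obtain ⟨P, hP⟩ : ∃ P : ℕ, P = ∏ i, q i := ⟨_, rfl⟩
  have hPpos : 0 < P := by
    rw [hP]
    exact Finset.prod_pos fun i _ => (ptw_mem (hq i)).1.pos
  have hP0 : (0 : ℝ) < P := by exact_mod_cast hPpos
  obtain ⟨M, hM⟩ : ∃ M : ℕ, M = ∑ i, mx (zx J) (q i) := ⟨_, rfl⟩
  obtain ⟨hlP1, hlP2⟩ := ptw_logP (by rw [hlz]; linarith) hz0 q hq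
  rw [← hP, ← hM, hlz] at hlP1 hlP2
  have hprod : ∏ i, 1 / (q i : ℝ) = 1 / (P : ℝ) := by
    rw [hP, Nat.cast_prod, Finset.prod_div_distrib, Finset.prod_const_one]
  rw [hprod, ← hM, ← hP, ← hx, ← hlam, ← hLdef]
  -- y
  have hy0 : 0 < x / P := by positivity
  have hly : Real.log (x / P) = Real.log x - Real.log P := Real.log_div hx0.ne' hP0.ne'
  have hw : ∀ p : ℕ, wL lam j (p * P) = tri (lam * Real.log ((p : ℝ) / (x / P))) := by
    intro p
    unfold wL
    rw [← hx]
    push_cast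
    congr 3
    field_simp
  have hlp : ∀ p ∈ Sp (zx J) N, Real.log (zx J) - Real.log (x / P) ≤
      Real.log ((p : ℝ) / (x / P)) := by
    intro p hp
    have hpz := (ptw_mem hp).2
    have hp0 : (0 : ℝ) < p := lt_of_lt_of_le hz0 hpz
    rw [Real.log_div hp0.ne' hy0.ne']
    have := Real.log_le_log hz0 hpz
    linarith
  have hmx0 : (21888 : ℝ) ≤ ((max 21888 (192000 - 171 * (M + r)) : ℕ) : ℝ) := by
    exact_mod_cast le_max_left 21888 (192000 - 171 * (M + r))
  have hRHS : 0 ≤ 1.0008 * x / L * (1 / (P : ℝ) * Phx r M) := by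
    have h1 : 0 ≤ Phx r M := by
      unfold Phx
      split_ifs
      · positivity
      · exact le_refl _
    have h2 : 0 < L := by linarith
    positivity
  simp only [hw]
  by_cases hc : Real.log (x / P) < Real.log (zx J) - 1 / lam
  · -- all terms vanish
    have h0 : ∑ p ∈ Sp (zx J) N, tri (lam * Real.log ((p : ℝ) / (x / P))) = 0 := by
      refine Finset.sum_eq_zero fun p hp => ptw_tri ?_
      have h1 := hlp p hp
      have h2 : 1 / lam ≤ Real.log ((p : ℝ) / (x / P)) := by linarith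
      calc (1 : ℝ) = lam * (1 / lam) := by field_simp
        _ ≤ _ := mul_le_mul_of_nonneg_left h2 hlam0.le
    rw [h0, mul_zero]
    exact hRHS
  · push Not at hc
    rw [hlz] at hc
    have hM995 : M < 995 := by
      by_contra hcon
      push Not at hcon
      have h3 : (995 : ℝ) ≤ M := by exact_mod_cast hcon
      have h4 := mul_le_mul_of_nonneg_right h3 (show 0 ≤ L by linarith)
      nlinarith
    have hy8 : (J : ℝ) ^ (1 / 4 : ℝ) ≤ x / P := by
      calc (J : ℝ) ^ (1 / 4 : ℝ) = Real.exp (Real.log J * (1 / 4)) :=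
            Real.rpow_def_of_pos hJ0 _
        _ ≤ Real.exp (Real.log (x / P)) := Real.exp_le_exp.mpr (by rw [← hLdef]; linarith)
        _ = x / P := Real.exp_log hy0
    have hmain := hJ1 (x / P) hy8 (Sp (zx J) N) (fun p hp => (ptw_mem hp).1)
    rw [← hlam] at hmain
    refine hmain.trans ?_
    have hlow : 0.9999 * L * (((max 21888 (192000 - 171 * (M + r)) : ℕ) : ℝ) / 64000) ≤
        Real.log (x / P) := by
      rcases le_total (192000 - 171 * (M + r)) 21888 with hcase | hcase
      · rw [max_eq_left hcase]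
        push_cast
        linarith
      · rw [max_eq_right hcase]
        have hc1 : ((192000 - 171 * (M + r) : ℕ) : ℝ) = 192000 - 171 * (M + r) := by
          rw [Nat.cast_sub (by omega)]
          push_cast
          ring
        have hc2 : (21888 : ℝ) ≤ 192000 - 171 * (M + r) := by
          rw [← hc1]
          exact_mod_cast hcase
        rw [hc1, hly]
        nlinarith
    have hpos : 0 < 0.9999 * L * (((max 21888 (192000 - 171 * (M + r)) : ℕ) : ℝ) / 64000) := by
      have : 0 < L := by linarith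
      positivity
    have hPh : Phx r M = 64000 / ((max 21888 (192000 - 171 * (M + r)) : ℕ) : ℝ) := by
      unfold Phx
      rw [if_pos hM995]
    rw [hPh]
    generalize ((max 21888 (192000 - 171 * (M + r)) : ℕ) : ℝ) = m at hmx0 hlow hpos
    have hlz1 : 0 < L := by linarith
    have hmx1 : 0 < m := by linarith
    calc 1.0005 * (x / P) / Real.log (x / P)
        ≤ 1.0005 * (x / P) / (0.9999 * L * (m / 64000)) :=
          div_le_div_of_nonneg_left (by positivity) hpos hlow
      _ = (1.0005 / 0.9999) * (x / L * (1 / P * (64000 / m))) := by field_simp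
      _ ≤ 1.0008 * (x / L * (1 / P * (64000 / m))) :=
          mul_le_mul_of_nonneg_right (by norm_num) (by positivity)
      _ = 1.0008 * x / L * (1 / P * (64000 / m)) := by ring

end Pool.Agent.CX
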