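import Pool.Agent.Lib.MP_d610d0_nt.CX.Stm

set_option autoImplicit false

/-!
Project CX, piece red: from characters to residue classes, all windows but `J^0.7998`.
-/

namespace Pool.Agent.CX

open Finset Filter
open Pool.Agent.MP89da58 (tri primChars)
open Pool.Agent.CH (zJ wJ wL Rough VV Wt dsum thP EE)
open Pool.Agent.CH.D (xj kap dp Sf FL FT R_grp R_cfs)
open Pool.Agent.CA (bx LCw)

private lemma red_mem {R : ℕ} {p : Σ q, DirichletCharacter ℂ q} :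
    p ∈ primChars R ↔ (2 ≤ p.1 ∧ p.1 ≤ R) ∧ p.2.IsPrimitive := by
  classical
  rw [primChars, mem_sigma, mem_filter, mem_Icc]
  simp only [mem_univ, true_and]

private lemma red_step {R R' : ℕ} (h : R ≤ R') (g : (Σ q, DirichletCharacter ℂ q) → ℂ) :
    ∑ p ∈ primChars R', g p - ∑ p ∈ primChars R, g p =
      ∑ p ∈ primChars R', (if R < p.1 then g p else 0) := by
  classical
  have h1 : primChars R = (primChars R').filter (fun p => ¬ R < p.1) := by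
    ext p
    rw [mem_filter, red_mem, red_mem]
    constructor
    · rintro ⟨⟨h2, h3⟩, h4⟩
      exact ⟨⟨⟨h2, h3.trans h⟩, h4⟩, by omega⟩
    · rintro ⟨⟨⟨h2, _⟩, h4⟩, h5⟩
      exact ⟨⟨h2, by omega⟩, h4⟩
  rw [h1, sum_filter, ← sum_sub_distrib]
  apply sum_congr rfl
  intro p _
  by_cases hp : R < p.1
  · simp [hp]
  · simp [hp]

/-! ### Counting windows -/

open Classical in
private lemma red_nb_mono (J : ℕ) (P Q : ℕ → Prop) (h : ∀ j ∈ Ioc J (2 * J), P j → Q j) :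
    nb J P ≤ nb J Q := by
  unfold nb
  have h1 : (Ioc J (2 * J)).filter P ⊆ (Ioc J (2 * J)).filter Q := by
    intro j hj
    rw [mem_filter] at hj ⊢
    exact ⟨hj.1, h j hj.1 hj.2⟩
  exact_mod_cast card_le_card h1

open Classical in
private lemma red_nb_or (J : ℕ) (P Q : ℕ → Prop) :
    nb J (fun j => P j ∨ Q j) ≤ nb J P + nb J Q := by
  unfold nb
  have h1 : (Ioc J (2 * J)).filter (fun j => P j ∨ Q j) ⊆
      (Ioc J (2 * J)).filter P ∪ (Ioc J (2 * J)).filter Q := by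
    intro j hj
    rw [mem_filter] at hj
    rw [mem_union, mem_filter, mem_filter]
    tauto
  have h2 := (card_le_card h1).trans (card_union_le _ _)
  have h3 : (((Ioc J (2 * J)).filter (fun j => P j ∨ Q j)).card : ℝ) ≤
      ((((Ioc J (2 * J)).filter P).card + ((Ioc J (2 * J)).filter Q).card : ℕ) : ℝ) := by
    exact_mod_cast h2
  rw [Nat.cast_add] at h3
  convert h3

open Classical in
private lemma red_nb_ex {ι : Type} (J : ℕ) (s : Finset ι) (P : ι → ℕ → Prop) :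
    nb J (fun j => ∃ i ∈ s, P i j) ≤ ∑ i ∈ s, nb J (P i) := by
  unfold nb
  have h1 : (Ioc J (2 * J)).filter (fun j => ∃ i ∈ s, P i j) ⊆
      s.biUnion (fun i => (Ioc J (2 * J)).filter (P i)) := by
    intro j hj
    rw [mem_filter] at hj
    obtain ⟨h2, i, hi, h3⟩ := hj
    exact mem_biUnion.2 ⟨i, hi, mem_filter.2 ⟨h2, h3⟩⟩
  have h2 := (card_le_card h1).trans card_biUnion_le
  have h3 : (((Ioc J (2 * J)).filter (fun j => ∃ i ∈ s, P i j)).card : ℝ) ≤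
      ((∑ i ∈ s, ((Ioc J (2 * J)).filter (P i)).card : ℕ) : ℝ) := by
    exact_mod_cast h2
  rw [Nat.cast_sum] at h3
  convert h3

open Classical in
private lemma red_nb_cheb (J : ℕ) (f : ℕ → ℝ) (X Y : ℝ) (hX : 0 < X)
    (h : ∑ j ∈ Ioc J (2 * J), f j ^ 2 ≤ Y) : nb J (fun j => X < f j) ≤ Y / X ^ 2 := by
  unfold nb
  rw [le_div_iff₀ (by positivity)]
  calc (((Ioc J (2 * J)).filter (fun j => X < f j)).card : ℝ) * X ^ 2
      = ∑ j ∈ (Ioc J (2 * J)).filter (fun j => X < f j), X ^ 2 := by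
        rw [sum_const, nsmul_eq_mul]
    _ ≤ ∑ j ∈ (Ioc J (2 * J)).filter (fun j => X < f j), f j ^ 2 := by
        apply sum_le_sum
        intro j hj
        exact pow_le_pow_left₀ hX.le (mem_filter.1 hj).2.le 2
    _ ≤ ∑ j ∈ Ioc J (2 * J), f j ^ 2 :=
        sum_le_sum_of_subset_of_nonneg (filter_subset _ _) (fun j _ _ => sq_nonneg _)
    _ ≤ Y := h

/-! ### The blocks -/

/-- the core estimate in one window -/
private lemma red_core (S C : (Σ q, DirichletCharacter ℂ q) → ℂ) (K X1 X2 : ℝ) (R : ℕ → ℕ)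
    (I : ℕ) (hK : 0 < K) (hX1 : 0 ≤ X1) (hRm : ∀ i, R i ≤ R (i + 1))
    (hC : ∀ p : (Σ q, DirichletCharacter ℂ q), 1 ≤ p.1 → ‖C p‖ ≤ K / p.1)
    (hS : ∀ p ∈ primChars (R 0), ‖S p‖ ≤ X1)
    (hL : ∀ i < I, ‖∑ p ∈ primChars (R (i + 1)), (if R i < p.1 then C p * S p else 0)‖ ≤ X2) :
    ‖∑ p ∈ primChars (R I), C p * S p‖ ≤ (R 0 : ℝ) ^ 2 * K * X1 + (I : ℝ) * X2 := by
  classical
  induction I with
  | zero =>
    have hcard : ((primChars (R 0)).card : ℝ) ≤ (R 0 : ℝ) ^ 2 := by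
      exact_mod_cast Pool.Agent.MP89da58.card_primChars (R 0)
    have h1 : ‖∑ p ∈ primChars (R 0), C p * S p‖ ≤ ∑ p ∈ primChars (R 0), K * X1 := by
      refine (norm_sum_le _ _).trans ?_
      apply sum_le_sum
      intro p hp
      have h2 : 2 ≤ p.1 := (red_mem.1 hp).1.1
      have h3 : (1 : ℝ) ≤ (p.1 : ℝ) := by exact_mod_cast (by omega : 1 ≤ p.1)
      have h4 : ‖C p‖ ≤ K := (hC p (by omega)).trans (div_le_self hK.le h3)
      rw [norm_mul]
      exact mul_le_mul h4 (hS p hp) (norm_nonneg _) hK.le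
    rw [sum_const, nsmul_eq_mul] at h1
    have h2 : ((primChars (R 0)).card : ℝ) * (K * X1) ≤ (R 0 : ℝ) ^ 2 * (K * X1) :=
      mul_le_mul_of_nonneg_right hcard (by positivity)
    push_cast
    linarith
  | succ I ih =>
    have ih' := ih (fun i hi => hL i (by omega))
    have h1 := red_step (hRm I) (fun p => C p * S p)
    have h2 := hL I (by omega)
    rw [← h1] at h2
    have h3 := norm_sub_norm_le (∑ p ∈ primChars (R (I + 1)), C p * S p)
      (∑ p ∈ primChars (R I), C p * S p)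
    push_cast
    linarith

/-- one block, every window -/
private lemma red_w (S C : (Σ q, DirichletCharacter ℂ q) → ℂ) (K X : ℝ) (R R' : ℕ)
    (hK : 0 < K) (hR' : 0 < R') (hR2 : R' ≤ 2 * R)
    (hC : ∀ p : (Σ q, DirichletCharacter ℂ q), 1 ≤ p.1 → ‖C p‖ ≤ K / p.1)
    (hL : ∑ p ∈ primChars R', ‖S p‖ ≤ (R' : ℝ) * X) :
    ‖∑ p ∈ primChars R', (if R < p.1 then C p * S p else 0)‖ ≤ 2 * K * X := by
  classical
  have hR0 : (0 : ℝ) < (R' : ℝ) := by exact_mod_cast hR'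
  have h3 : ∀ p ∈ primChars R', ‖(if R < p.1 then C p * S p else 0 : ℂ)‖ ≤
      2 * K / (R' : ℝ) * ‖S p‖ := by
    intro p _
    by_cases hp1 : R < p.1
    · rw [if_pos hp1, norm_mul]
      apply mul_le_mul_of_nonneg_right _ (norm_nonneg _)
      have hp0 : (0 : ℝ) < (p.1 : ℝ) := by exact_mod_cast (by omega : 0 < p.1)
      have h5 : (R' : ℝ) ≤ 2 * (p.1 : ℝ) := by exact_mod_cast (by omega : R' ≤ 2 * p.1)
      refine (hC p (by omega)).trans ?_
      rw [div_le_div_iff₀ hp0 hR0]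
      nlinarith
    · rw [if_neg hp1, norm_zero]
      positivity
  calc ‖∑ p ∈ primChars R', (if R < p.1 then C p * S p else 0)‖
      ≤ ∑ p ∈ primChars R', 2 * K / (R' : ℝ) * ‖S p‖ := (norm_sum_le _ _).trans (sum_le_sum h3)
    _ = 2 * K / (R' : ℝ) * ∑ p ∈ primChars R', ‖S p‖ := by rw [mul_sum]
    _ ≤ 2 * K / (R' : ℝ) * ((R' : ℝ) * X) := mul_le_mul_of_nonneg_left hL (by positivity)
    _ = 2 * K * X := by field_simp

/-- one block, mean square -/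
private lemma red_x (T : Finset ℕ) (S : ℕ → (Σ q, DirichletCharacter ℂ q) → ℂ)
    (C : (Σ q, DirichletCharacter ℂ q) → ℂ) (K X : ℝ) (R R' : ℕ)
    (hK : 0 < K) (hR' : 0 < R') (hR2 : R' ≤ 2 * R)
    (hC : ∀ p : (Σ q, DirichletCharacter ℂ q), 1 ≤ p.1 → ‖C p‖ ≤ K / p.1)
    (hL : ∀ th : (Σ q, DirichletCharacter ℂ q) → ℂ, (∀ p, ‖th p‖ ≤ 1) →
      ∑ j ∈ T, ‖∑ p ∈ primChars R', th p * S j p‖ ^ 2 ≤ (R' : ℝ) ^ 2 * X) :
    ∑ j ∈ T, ‖∑ p ∈ primChars R', (if R < p.1 then C p * S j p else 0)‖ ^ 2 ≤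
      4 * K ^ 2 * X := by
  classical
  have hR0 : (0 : ℝ) < (R' : ℝ) := by exact_mod_cast hR'
  obtain ⟨u, hu⟩ : ∃ u : ℝ, u = (R' : ℝ) / (2 * K) := ⟨_, rfl⟩
  have hu0 : 0 < u := by rw [hu]; positivity
  have hth := hL (fun p => if R < p.1 then C p * (u : ℂ) else 0) (by
    intro p
    by_cases hp : R < p.1
    · simp only [hp, if_true]
      have hp1 : (0 : ℝ) < (p.1 : ℝ) := by exact_mod_cast (by omega : 0 < p.1)
      have hp2 : (R' : ℝ) ≤ 2 * (p.1 : ℝ) := by exact_mod_cast (by omega : R' ≤ 2 * p.1)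
      rw [norm_mul, Complex.norm_real, Real.norm_of_nonneg hu0.le]
      calc ‖C p‖ * u ≤ K / p.1 * u := mul_le_mul_of_nonneg_right (hC p (by omega)) hu0.le
        _ = (R' : ℝ) / (2 * p.1) := by rw [hu]; field_simp
        _ ≤ 1 := by rw [div_le_one (by positivity)]; exact hp2
    · simp [hp])
  have hEq : ∀ j, ∑ p ∈ primChars R', (if R < p.1 then C p * S j p else 0) =
      ((u⁻¹ : ℝ) : ℂ) * ∑ p ∈ primChars R',
        (if R < p.1 then C p * (u : ℂ) else 0) * S j p := by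
    intro j
    rw [mul_sum]
    apply sum_congr rfl
    intro p _
    by_cases hp : R < p.1
    · simp only [hp, if_true]
      have hu1 : (u : ℂ) ≠ 0 := by exact_mod_cast hu0.ne'
      push_cast
      field_simp
    · simp [hp]
  calc ∑ j ∈ T, ‖∑ p ∈ primChars R', (if R < p.1 then C p * S j p else 0)‖ ^ 2
      = ∑ j ∈ T, (u⁻¹) ^ 2 * ‖∑ p ∈ primChars R',
          (if R < p.1 then C p * (u : ℂ) else 0) * S j p‖ ^ 2 := by
        apply sum_congr rfl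
        intro j _
        rw [hEq, norm_mul, Complex.norm_real, Real.norm_of_nonneg (by positivity), mul_pow]
    _ = (u⁻¹) ^ 2 * ∑ j ∈ T, ‖∑ p ∈ primChars R',
          (if R < p.1 then C p * (u : ℂ) else 0) * S j p‖ ^ 2 := by rw [mul_sum]
    _ ≤ (u⁻¹) ^ 2 * ((R' : ℝ) ^ 2 * X) :=
        mul_le_mul_of_nonneg_left hth (by positivity)
    _ = 4 * K ^ 2 * X := by rw [hu]; field_simp; ring

/-! ### Numbers -/

/-- the elementary estimate -/
private lemma red_num (A B : ℕ) (L K r I Z : ℝ) (hL : 10 ≤ L) (hZ : 0 ≤ Z) (hK0 : 0 ≤ K)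
    (hK : K ≤ 800 * L ^ 3) (hr0 : 0 ≤ r) (hr : r ≤ 2 * L ^ B) (hI : I ≤ 3 * L) :
    r ^ 2 * K * (Z / L ^ (A + 2 * B + 30)) + I * (Z / L ^ (A + 3)) ≤ Z / L ^ A := by
  have hL0 : 0 < L := by linarith
  have h1 : r ^ 2 ≤ 4 * L ^ (2 * B) := by
    calc r ^ 2 ≤ (2 * L ^ B) ^ 2 := pow_le_pow_left₀ hr0 hr 2
      _ = 4 * L ^ (2 * B) := by rw [mul_pow, ← pow_mul, mul_comm B 2]; norm_num
  have h5 : (10 : ℝ) ^ 24 ≤ L ^ 24 := pow_le_pow_left₀ (by norm_num) hL 24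
  have e1 : r ^ 2 * K * (Z / L ^ (A + 2 * B + 30)) ≤
      4 * L ^ (2 * B) * (800 * L ^ 3) * (Z / L ^ (A + 2 * B + 30)) := by
    gcongr
  have e2 : I * (Z / L ^ (A + 3)) ≤ (3 * L) * (Z / L ^ (A + 3)) := by
    gcongr
  have e3 : 4 * L ^ (2 * B) * (800 * L ^ 3) * (Z / L ^ (A + 2 * B + 30)) =
      3200 / L ^ 27 * (Z / L ^ A) := by
    have : L ^ (A + 2 * B + 30) = L ^ A * L ^ (2 * B) * L ^ 3 * L ^ 27 := by
      rw [← pow_add, ← pow_add, ← pow_add]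
    rw [this]
    field_simp
    ring
  have e4 : (3 * L) * (Z / L ^ (A + 3)) = 3 / L ^ 2 * (Z / L ^ A) := by
    have : L ^ (A + 3) = L ^ A * L * L ^ 2 := by
      rw [← pow_succ, ← pow_add]
    rw [this]
    field_simp
  have h7 : L ^ 24 ≤ L ^ 27 := pow_le_pow_right₀ (by linarith) (by norm_num)
  have e5 : 3200 / L ^ 27 ≤ 1 / 2 := by
    rw [div_le_iff₀ (by positivity)]
    nlinarith only [h5, h7]
  have e6 : 3 / L ^ 2 ≤ 1 / 2 := by
    rw [div_le_iff₀ (by positivity)]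
    nlinarith only [hL]
  have hZA : 0 ≤ Z / L ^ A := by positivity
  have e7 := mul_le_mul_of_nonneg_right e5 hZA
  have e8 := mul_le_mul_of_nonneg_right e6 hZA
  linarith

/-- the block in every window -/
private lemma red_num2 (A : ℕ) (L K Z : ℝ) (hL : 10 ≤ L) (hZ : 0 ≤ Z)
    (hK : K ≤ 800 * L ^ 3) : 2 * K * (Z / L ^ (A + 20)) ≤ Z / L ^ (A + 3) := by
  have hL0 : 0 < L := by linarith
  have e1 : 2 * K * (Z / L ^ (A + 20)) ≤ 2 * (800 * L ^ 3) * (Z / L ^ (A + 20)) := by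
    gcongr
  have e2 : 2 * (800 * L ^ 3) * (Z / L ^ (A + 20)) = 1600 / L ^ 14 * (Z / L ^ (A + 3)) := by
    have : L ^ (A + 20) = L ^ (A + 3) * L ^ 3 * L ^ 14 := by
      rw [← pow_add, ← pow_add]
    rw [this]
    field_simp
    ring
  have h5 : (10 : ℝ) ^ 14 ≤ L ^ 14 := pow_le_pow_left₀ (by norm_num) hL 14
  have e5 : 1600 / L ^ 14 ≤ 1 := by
    rw [div_le_iff₀ (by positivity)]
    nlinarith only [h5]
  have hZA : 0 ≤ Z / L ^ (A + 3) := by positivity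
  have e7 := mul_le_mul_of_nonneg_right e5 hZA
  linarith

/-- the number of the bad windows -/
private lemma red_num3 (A B : ℕ) (L K r I a b c : ℝ) (hL : 10 ≤ L) (hK0 : 0 ≤ K)
    (hK : K ≤ 800 * L ^ 3) (hr0 : 0 ≤ r) (hr : r ≤ 2 * L ^ B) (hI : I ≤ 3 * L)
    (ha0 : 0 ≤ a) (hab : a ≤ b) (hc : L ^ (2 * A + 2 * B + 30) * b ≤ c) :
    r ^ 2 * a + I * (4 * K ^ 2 * L ^ (2 * A + 6) * b) ≤ c := by
  have hL0 : 0 < L := by linarith
  have hb0 : 0 ≤ b := ha0.trans hab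
  have h1 : r ^ 2 ≤ 4 * L ^ (2 * B) := by
    calc r ^ 2 ≤ (2 * L ^ B) ^ 2 := pow_le_pow_left₀ hr0 hr 2
      _ = 4 * L ^ (2 * B) := by rw [mul_pow, ← pow_mul, mul_comm B 2]; norm_num
  have h2 : K ^ 2 ≤ 640000 * L ^ 6 := by
    calc K ^ 2 ≤ (800 * L ^ 3) ^ 2 := pow_le_pow_left₀ hK0 hK 2
      _ = 640000 * L ^ 6 := by ring
  have e1 : r ^ 2 * a ≤ 4 * L ^ (2 * B) * b := by gcongr
  have e2 : I * (4 * K ^ 2 * L ^ (2 * A + 6) * b) ≤
      (3 * L) * (4 * (640000 * L ^ 6) * L ^ (2 * A + 6) * b) := by gcongr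
  have e3 : (3 * L) * (4 * (640000 * L ^ 6) * L ^ (2 * A + 6) * b) =
      7680000 * L ^ (2 * A + 13) * b := by
    have : L ^ (2 * A + 13) = L ^ (2 * A + 6) * L ^ 6 * L := by
      rw [← pow_add, ← pow_succ]
    rw [this]
    ring
  have h7 : (10 : ℝ) ^ 8 ≤ L ^ 8 := pow_le_pow_left₀ (by norm_num) hL 8
  have e4 : 7680000 * L ^ (2 * A + 13) ≤ 1 / 2 * L ^ (2 * A + 2 * B + 30) := by
    have h8 : L ^ (2 * A + 21) ≤ L ^ (2 * A + 2 * B + 30) :=
      pow_le_pow_right₀ (by linarith) (by omega)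
    have h9 : L ^ (2 * A + 21) = L ^ (2 * A + 13) * L ^ 8 := by rw [← pow_add]
    have h10 : 0 ≤ L ^ (2 * A + 13) := by positivity
    nlinarith
  have e5 : 4 * L ^ (2 * B) ≤ 1 / 2 * L ^ (2 * A + 2 * B + 30) := by
    have h8 : L ^ (2 * B + 8) ≤ L ^ (2 * A + 2 * B + 30) :=
      pow_le_pow_right₀ (by linarith) (by omega)
    have h9 : L ^ (2 * B + 8) = L ^ (2 * B) * L ^ 8 := by rw [← pow_add]
    have h10 : 0 ≤ L ^ (2 * B) := by positivity
    nlinarith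
  have e6 := mul_le_mul_of_nonneg_right e4 hb0
  have e7 := mul_le_mul_of_nonneg_right e5 hb0
  linarith

/-- powers of the logarithm -/
private lemma red_log (D : ℕ) (e : ℝ) (he : 0 < e) :
    ∀ᶠ J : ℕ in atTop, (Real.log J) ^ D + 1 ≤ (J : ℝ) ^ e := by
  have h1 : Tendsto (fun x : ℝ => x ^ e) atTop atTop := tendsto_rpow_atTop he
  have h2 : ∀ᶠ x : ℝ in atTop, Real.log x ^ (D : ℝ) ≤ 1 / 2 * x ^ e := by
    have h3 := (isLittleO_log_rpow_rpow_atTop (D : ℝ) he).bound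
      (by norm_num : (0 : ℝ) < 1 / 2)
    filter_upwards [h3, eventually_ge_atTop 1] with x hx hx1
    have h4 : 0 ≤ Real.log x ^ (D : ℝ) := Real.rpow_nonneg (Real.log_nonneg hx1) _
    have h5 : 0 ≤ x ^ e := Real.rpow_nonneg (by linarith) _
    rwa [Real.norm_of_nonneg h4, Real.norm_of_nonneg h5] at hx
  have h6 : ∀ᶠ x : ℝ in atTop, Real.log x ^ D + 1 ≤ x ^ e := by
    filter_upwards [h2, h1.eventually_ge_atTop 2] with x hx hx2
    rw [Real.rpow_natCast] at hx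
    linarith
  exact tendsto_natCast_atTop_atTop.eventually h6

/-! ### Coefficients -/

/-- the characters -/
private lemma red_C (hcfs : R_cfs) {z Q : ℝ} {c : ℕ → ℝ} {J : ℕ} (hW : Wt z Q c) (hJ : 2 ≤ J)
    (a : ℤ) (p : Σ q, DirichletCharacter ℂ q) :
    (1 ≤ p.1 → ‖p.2⁻¹ (a : ZMod p.1) *
      ((∑ q ∈ (Icc 1 J).filter (fun q => p.1 ∣ q), c q / Nat.totient q : ℝ) : ℂ)‖
        ≤ 100 * (Real.log J + 1) ^ 3 / p.1) ∧
    (Q < p.1 → 1 ≤ p.1 → p.2⁻¹ (a : ZMod p.1) *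
      ((∑ q ∈ (Icc 1 J).filter (fun q => p.1 ∣ q), c q / Nat.totient q : ℝ) : ℂ) = 0) := by
  constructor
  · intro hp
    rw [norm_mul, Complex.norm_real, Real.norm_eq_abs]
    have h1 := (hcfs z Q c J p.1 hW hJ hp).1
    have h2 : ‖p.2⁻¹ (a : ZMod p.1)‖ ≤ 1 := DirichletCharacter.norm_le_one _ _
    calc ‖p.2⁻¹ (a : ZMod p.1)‖ *
          |∑ q ∈ (Icc 1 J).filter (fun q => p.1 ∣ q), c q / Nat.totient q|
        ≤ 1 * (100 * (Real.log J + 1) ^ 3 / p.1) :=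
          mul_le_mul h2 h1 (abs_nonneg _) zero_le_one
      _ = _ := one_mul _
  · intro hQ hp
    rw [(hcfs z Q c J p.1 hW hJ hp).2 hQ, Complex.ofReal_zero, mul_zero]

/-- coprimality -/
private lemma red_cop {z Q : ℝ} {c : ℕ → ℝ} (hW : Wt z Q c) {a : ℤ} (ha : a = 2 ∨ a = -2)
    {q : ℕ} (hq : c q ≠ 0) : IsCoprime a (q : ℤ) ∧ ∀ n, Rough z n → n.Coprime q := by
  constructor
  · obtain ⟨k, hk⟩ := hW.odd q hq
    rw [hk]
    rcases ha with rfl | rfl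
    · exact ⟨-(k : ℤ), 1, by push_cast; ring⟩
    · exact ⟨(k : ℤ), 1, by push_cast; ring⟩
  · intro n hn
    by_contra hc
    obtain ⟨p, hp, hpn, hpq⟩ := Nat.Prime.not_coprime_iff_dvd.1 hc
    exact absurd (hW.small q hq p hp hpq) (not_lt.2 (hn p hp hpn))

theorem p_red : S_red := by
  classical
  intro hgrp hcfs F hLC hLX hSC hrough a ha A
  obtain ⟨B, hB⟩ := hLC (A + 20)
  have hS1 := hSC (A + 2 * B + 30) (B + 1)
  have hlog : Tendsto (fun J : ℕ => Real.log (J : ℝ)) atTop atTop :=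
    Real.tendsto_log_atTop.comp tendsto_natCast_atTop_atTop
  filter_upwards [hB, hLX, hS1, hrough, red_log B (899 / 1000) (by norm_num),
    red_log (2 * A + 2 * B + 30) (3 / 10000) (by norm_num),
    hlog.eventually_ge_atTop 10, eventually_ge_atTop 2]
    with J hBJ hXJ hSJ hrJ hYJ hDJ hL hJ2 c hW
  obtain ⟨L, hLdef⟩ : ∃ L : ℝ, L = Real.log J := ⟨_, rfl⟩
  obtain ⟨Y, hYdef⟩ : ∃ Y : ℝ, Y = (J : ℝ) ^ (899 / 1000 : ℝ) := ⟨_, rfl⟩
  rw [← hLdef] at hBJ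
  rw [← hLdef, ← hYdef] at hYJ
  rw [← hLdef] at hDJ
  rw [← hLdef] at hSJ hL ⊢
  rw [← hYdef] at hW
  have hJ0 : (0 : ℝ) < (J : ℝ) := by exact_mod_cast (by omega : 0 < J)
  have hJ1 : (1 : ℝ) ≤ (J : ℝ) := by exact_mod_cast (by omega : 1 ≤ J)
  have hY0 : 0 ≤ Y := by rw [hYdef]; positivity
  have hYJle : Y ≤ J := by
    rw [hYdef]
    calc (J : ℝ) ^ (899 / 1000 : ℝ) ≤ (J : ℝ) ^ (1 : ℝ) :=
          Real.rpow_le_rpow_of_exponent_le hJ1 (by norm_num)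
      _ = J := Real.rpow_one _
  have hY95 : Y ≤ (J : ℝ) ^ (8995 / 10000 : ℝ) := by
    rw [hYdef]
    exact Real.rpow_le_rpow_of_exponent_le hJ1 (by norm_num)
  obtain ⟨Y0, hY0def⟩ : ∃ Y0 : ℕ, Y0 = ⌊Y⌋₊ := ⟨_, rfl⟩
  have hY0le : (Y0 : ℝ) ≤ Y := by rw [hY0def]; exact Nat.floor_le hY0
  have hY0lt : Y < Y0 + 1 := by rw [hY0def]; exact Nat.lt_floor_add_one Y
  have hY0J : Y0 ≤ J := by exact_mod_cast hY0le.trans hYJle
  obtain ⟨R0, hR0def⟩ : ∃ R0 : ℕ, R0 = ⌈L ^ B⌉₊ := ⟨_, rfl⟩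
  have hLB1 : 1 ≤ L ^ B := one_le_pow₀ (by linarith)
  have hR0ge : L ^ B ≤ R0 := by rw [hR0def]; exact Nat.le_ceil _
  have hR0lt : (R0 : ℝ) < L ^ B + 1 := by rw [hR0def]; exact Nat.ceil_lt_add_one (by positivity)
  have hR0pos : 0 < R0 := by
    have : (0 : ℝ) < R0 := by linarith
    exact_mod_cast this
  have hY0B : L ^ B ≤ Y0 := by linarith
  obtain ⟨R, hRdef⟩ : ∃ R : ℕ → ℕ, R = fun i => min (2 ^ i * R0) Y0 := ⟨_, rfl⟩
  have hR : ∀ i, R i = min (2 ^ i * R0) Y0 := fun i => by rw [hRdef]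
  obtain ⟨I, hIdef⟩ : ∃ I : ℕ, I = ⌈2 * L⌉₊ := ⟨_, rfl⟩
  have hIle : (I : ℝ) ≤ 3 * L := by
    have : (I : ℝ) < 2 * L + 1 := by rw [hIdef]; exact Nat.ceil_lt_add_one (by linarith)
    linarith
  have hRI : R I = Y0 := by
    rw [hR]
    apply min_eq_right
    have h1 : 2 * L ≤ I := by rw [hIdef]; exact Nat.le_ceil _
    have h2 : (J : ℝ) ≤ 2 ^ I := by
      have h3 : Real.log J ≤ Real.log (2 ^ I) := by
        rw [Real.log_pow, ← hLdef]
        have h4 : (0.5 : ℝ) < Real.log 2 := by linarith [Real.log_two_gt_d9]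
        nlinarith
      exact (Real.log_le_log_iff hJ0 (by positivity)).1 h3
    have h5 : J ≤ 2 ^ I := by exact_mod_cast h2
    calc Y0 ≤ J := hY0J
      _ ≤ 2 ^ I := h5
      _ = 2 ^ I * 1 := (mul_one _).symm
      _ ≤ 2 ^ I * R0 := Nat.mul_le_mul_left _ hR0pos
  have hRB : ∀ i, L ^ B ≤ (R i : ℝ) := by
    intro i
    rw [hR]
    push_cast
    apply le_min
    · calc L ^ B ≤ R0 := hR0ge
        _ = 1 * (R0 : ℝ) := (one_mul _).symm
        _ ≤ 2 ^ i * (R0 : ℝ) := mul_le_mul_of_nonneg_right (one_le_pow₀ (by norm_num))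
            (Nat.cast_nonneg _)
    · exact hY0B
  have hRpos : ∀ i, 0 < R i := by
    intro i
    have h1 : (0 : ℝ) < (R i : ℝ) := by linarith [hRB i]
    exact_mod_cast h1
  have hRY : ∀ i, (R i : ℝ) ≤ Y := by
    intro i
    refine le_trans ?_ hY0le
    rw [hR]
    exact_mod_cast min_le_right _ _
  have hR0' : (R 0 : ℝ) ≤ 2 * L ^ B := by
    have h1 : (R 0 : ℝ) ≤ R0 := by
      rw [hR, pow_zero, one_mul]
      exact_mod_cast min_le_left _ _
    linarith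
  have hRm : ∀ i, R i ≤ R (i + 1) := by
    intro i
    rw [hR, hR]
    apply min_le_min _ le_rfl
    exact Nat.mul_le_mul_right _ (Nat.pow_le_pow_right (by norm_num) (Nat.le_succ i))
  have hR2 : ∀ i, R (i + 1) ≤ 2 * R i := by
    intro i
    rw [hR, hR]
    have : 2 ^ (i + 1) * R0 = 2 * (2 ^ i * R0) := by ring
    rw [this]
    omega
  obtain ⟨K, hKdef⟩ : ∃ K : ℝ, K = 100 * (L + 1) ^ 3 := ⟨_, rfl⟩
  have hK0 : 0 < K := by rw [hKdef]; positivity
  have hK8 : K ≤ 800 * L ^ 3 := by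
    rw [hKdef]
    have : (L + 1) ^ 3 ≤ (2 * L) ^ 3 := pow_le_pow_left₀ (by linarith) (by linarith) 3
    calc 100 * (L + 1) ^ 3 ≤ 100 * (2 * L) ^ 3 := by linarith
      _ = 800 * L ^ 3 := by ring
  obtain ⟨C, hCdef⟩ : ∃ C : (Σ q, DirichletCharacter ℂ q) → ℂ, C = fun p =>
      p.2⁻¹ (a : ZMod p.1) *
      ((∑ q ∈ (Icc 1 J).filter (fun q => p.1 ∣ q), c q / Nat.totient q : ℝ) : ℂ) := ⟨_, rfl⟩
  have hCv : ∀ p, C p = p.2⁻¹ (a : ZMod p.1) *
      ((∑ q ∈ (Icc 1 J).filter (fun q => p.1 ∣ q), c q / Nat.totient q : ℝ) : ℂ) := fun p => by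
    rw [hCdef]
  have hC : ∀ p : (Σ q, DirichletCharacter ℂ q), 1 ≤ p.1 → ‖C p‖ ≤ K / p.1 := by
    intro p hp
    rw [hCv, hKdef, hLdef]
    exact (red_C hcfs hW hJ2 a p).1 hp
  have hC0 : ∀ p : (Σ q, DirichletCharacter ℂ q), Y0 < p.1 → C p = 0 := by
    intro p hp
    rw [hCv]
    refine (red_C hcfs hW hJ2 a p).2 ?_ (by omega)
    have : ((Y0 : ℝ) + 1) ≤ p.1 := by exact_mod_cast hp
    linarith
  -- the sum over the moduli
  have hval : ∀ j ∈ Ioc J (2 * J), |∑ q ∈ Icc 1 J, c q * EE J (F J) a j q| =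
      ‖∑ p ∈ primChars (R I), C p * Sf (F J) J j p.2‖ := by
    intro j hj
    have hcop : ∀ q ∈ Icc 1 J, c q ≠ 0 → IsCoprime a (q : ℤ) ∧
        ∀ n, 1 ≤ n → F J n ≠ 0 → wJ J j n ≠ 0 → n.Coprime q := by
      intro q _ hq
      obtain ⟨h1, h2⟩ := red_cop hW ha hq
      exact ⟨h1, fun n hn hFn hwn => h2 n (hrJ j hj n hn hFn hwn)⟩
    have h1 := hgrp J j J (F J) c a hcop
    have h2 : |∑ q ∈ Icc 1 J, c q * EE J (F J) a j q| =
        ‖((∑ q ∈ Icc 1 J, c q * EE J (F J) a j q : ℝ) : ℂ)‖ := by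
      rw [Complex.norm_real, Real.norm_eq_abs]
    rw [h2, h1, hRI]
    congr 1
    have h3 := red_step hY0J (fun p => C p * Sf (F J) J j p.2)
    have h4 : ∑ p ∈ primChars J, (if Y0 < p.1 then C p * Sf (F J) J j p.2 else 0) = 0 := by
      apply sum_eq_zero
      intro p _
      by_cases hp : Y0 < p.1
      · simp [hp, hC0 p hp]
      · simp [hp]
    rw [h4, sub_eq_zero] at h3
    rw [← h3]
    apply sum_congr rfl
    intro p _
    rw [hCv]
  -- the bad windows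
  obtain ⟨X1, hX1def⟩ : ∃ X1 : ℝ, X1 = (J : ℝ) ^ 2 / L ^ (A + 2 * B + 30) := ⟨_, rfl⟩
  obtain ⟨X2, hX2def⟩ : ∃ X2 : ℝ, X2 = (J : ℝ) ^ 2 / L ^ (A + 3) := ⟨_, rfl⟩
  have hX1 : 0 < X1 := by rw [hX1def]; positivity
  have hX2 : 0 < X2 := by rw [hX2def]; positivity
  obtain ⟨D, hDdef⟩ : ∃ D : ℕ → ℕ → ℂ, D = fun i j => ∑ p ∈ primChars (R (i + 1)),
      (if R i < p.1 then C p * Sf (F J) J j p.2 else 0) := ⟨_, rfl⟩
  have hDv : ∀ i j, D i j = ∑ p ∈ primChars (R (i + 1)),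
      (if R i < p.1 then C p * Sf (F J) J j p.2 else 0) := fun i j => by rw [hDdef]
  obtain ⟨G, hGdef⟩ : ∃ G : (Σ q, DirichletCharacter ℂ q) → ℕ → ℝ,
      G = fun p j => ‖Sf (F J) J j p.2‖ := ⟨_, rfl⟩
  have hGv : ∀ p j, G p j = ‖Sf (F J) J j p.2‖ := fun p j => by rw [hGdef]
  have hbad : nb J (fun j => (J : ℝ) ^ 2 / L ^ A < |∑ q ∈ Icc 1 J, c q * EE J (F J) a j q|) ≤
      nb J (fun j => (∃ p ∈ primChars (R 0), X1 < G p j) ∨
        (∃ i ∈ range I, X2 < ‖D i j‖)) := by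
    apply red_nb_mono
    intro j hj hb
    by_contra hcon
    rw [not_or] at hcon
    obtain ⟨hc1, hc2⟩ := hcon
    have hc1' : ∀ p ∈ primChars (R 0), ‖Sf (F J) J j p.2‖ ≤ X1 := by
      intro p hp
      by_contra h
      rw [← hGv] at h
      exact hc1 ⟨p, hp, not_le.1 h⟩
    have hc2' : ∀ i < I, ‖D i j‖ ≤ X2 := by
      intro i hi
      by_contra h
      exact hc2 ⟨i, mem_range.2 hi, not_le.1 h⟩
    have hcore := red_core (fun p => Sf (F J) J j p.2) C K X1 X2 R I hK0 hX1.le hRm hC hc1'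
      (by
        intro i hi
        have h1 := hc2' i hi
        rw [hDv] at h1
        exact h1)
    have hnum := red_num A B L K (R 0 : ℝ) (I : ℝ) ((J : ℝ) ^ 2) hL (by positivity) hK0.le hK8
      (Nat.cast_nonneg _) hR0' hIle
    rw [← hX1def, ← hX2def] at hnum
    rw [hval j hj] at hb
    linarith
  have hsm : nb J (fun j => ∃ p ∈ primChars (R 0), X1 < G p j) ≤
      (R 0 : ℝ) ^ 2 * (J : ℝ) ^ (79 / 100 : ℝ) := by
    have hcard : ((primChars (R 0)).card : ℝ) ≤ (R 0 : ℝ) ^ 2 := by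
      exact_mod_cast Pool.Agent.MP89da58.card_primChars (R 0)
    have hone : ∀ p ∈ primChars (R 0), nb J (fun j => X1 < G p j) ≤ (J : ℝ) ^ (79 / 100 : ℝ) := by
      intro p hp
      obtain ⟨⟨h1, h2⟩, h3⟩ := red_mem.1 hp
      have h4 : (p.1 : ℝ) ≤ R 0 := by exact_mod_cast h2
      have h5 : L ^ (B + 1) = L * L ^ B := by ring
      have h6 : 2 * L ^ B ≤ L * L ^ B :=
        mul_le_mul_of_nonneg_right (by linarith) (by positivity)
      have h7 := hSJ p.1 p.2 h1 (by linarith) h3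
      rw [← hX1def] at h7
      refine (red_nb_mono J _ _ ?_).trans h7
      intro j _ hb
      rw [hGv] at hb
      exact hb
    calc nb J (fun j => ∃ p ∈ primChars (R 0), X1 < G p j)
        ≤ ∑ p ∈ primChars (R 0), nb J (fun j => X1 < G p j) :=
          red_nb_ex J (primChars (R 0)) (fun p j => X1 < G p j)
      _ ≤ ∑ p ∈ primChars (R 0), (J : ℝ) ^ (79 / 100 : ℝ) := sum_le_sum hone
      _ = ((primChars (R 0)).card : ℝ) * (J : ℝ) ^ (79 / 100 : ℝ) := by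
          rw [sum_const, nsmul_eq_mul]
      _ ≤ (R 0 : ℝ) ^ 2 * (J : ℝ) ^ (79 / 100 : ℝ) :=
          mul_le_mul_of_nonneg_right hcard (by positivity)
  have hbl : ∀ i ∈ range I, nb J (fun j => X2 < ‖D i j‖) ≤
      4 * K ^ 2 * L ^ (2 * A + 6) * (J : ℝ) ^ (7995 / 10000 : ℝ) := by
    intro i _
    by_cases hi : (R (i + 1) : ℝ) ≤ (J : ℝ) ^ (4998 / 10000 : ℝ)
    · -- no bad windows
      have h0 : nb J (fun j => X2 < ‖D i j‖) ≤ nb J (fun _ => False) := by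
        apply red_nb_mono
        intro j hj hb
        have h1 := hBJ (R (i + 1)) (hRB _) hi j hj
        rw [mul_div_assoc] at h1
        have h2 := red_w (fun p => Sf (F J) J j p.2) C K _ (R i) (R (i + 1)) hK0 (hRpos _)
          (hR2 i) hC h1
        rw [← hDv] at h2
        have h3 := red_num2 A L K ((J : ℝ) ^ 2) hL (by positivity) hK8
        rw [← hX2def] at h3
        linarith
      have h1 : nb J (fun _ => False) = 0 := by
        unfold nb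
        simp
      rw [h1] at h0
      refine h0.trans ?_
      positivity
    · rw [not_le] at hi
      have h1 : ∑ j ∈ Ioc J (2 * J), ‖D i j‖ ^ 2 ≤
          4 * K ^ 2 * (J : ℝ) ^ (47995 / 10000 : ℝ) := by
        have h2 := red_x (Ioc J (2 * J)) (fun j p => Sf (F J) J j p.2) C K
          ((J : ℝ) ^ (47995 / 10000 : ℝ)) (R i) (R (i + 1)) hK0 (hRpos _) (hR2 i) hC
          (hXJ (R (i + 1))
            ((Real.rpow_le_rpow_of_exponent_le hJ1 (by norm_num)).trans hi.le)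
            ((hRY _).trans hY95))
        refine le_trans (le_of_eq ?_) h2
        apply sum_congr rfl
        intro j _
        rw [hDv]
      refine (red_nb_cheb J (fun j => ‖D i j‖) X2 _ hX2 h1).trans (le_of_eq ?_)
      have h3 : (J : ℝ) ^ (47995 / 10000 : ℝ) = (J : ℝ) ^ 4 * (J : ℝ) ^ (7995 / 10000 : ℝ) := by
        rw [← Real.rpow_natCast, ← Real.rpow_add hJ0]
        norm_num
      have h4 : L ^ (2 * A + 6) = (L ^ (A + 3)) ^ 2 := by rw [← pow_mul]; ring_nf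
      have hLp : 0 < L ^ (A + 3) := by positivity
      rw [h3, h4, hX2def]
      field_simp
  have hlg : nb J (fun j => ∃ i ∈ range I, X2 < ‖D i j‖) ≤
      (I : ℝ) * (4 * K ^ 2 * L ^ (2 * A + 6) * (J : ℝ) ^ (7995 / 10000 : ℝ)) := by
    refine (red_nb_ex J (range I) (fun i j => X2 < ‖D i j‖)).trans ?_
    refine (sum_le_sum hbl).trans (le_of_eq ?_)
    rw [sum_const, card_range, nsmul_eq_mul]
  have hfin := red_num3 A B L K (R 0 : ℝ) (I : ℝ) ((J : ℝ) ^ (79 / 100 : ℝ))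
    ((J : ℝ) ^ (7995 / 10000 : ℝ)) ((J : ℝ) ^ (7998 / 10000 : ℝ)) hL hK0.le hK8
    (Nat.cast_nonneg _) hR0' hIle (by positivity)
    (Real.rpow_le_rpow_of_exponent_le hJ1 (by norm_num))
    (by
      have h1 : L ^ (2 * A + 2 * B + 30) ≤ (J : ℝ) ^ (3 / 10000 : ℝ) := by linarith
      calc L ^ (2 * A + 2 * B + 30) * (J : ℝ) ^ (7995 / 10000 : ℝ)
          ≤ (J : ℝ) ^ (3 / 10000 : ℝ) * (J : ℝ) ^ (7995 / 10000 : ℝ) :=
            mul_le_mul_of_nonneg_right h1 (by positivity)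
        _ = (J : ℝ) ^ (7998 / 10000 : ℝ) := by
            rw [← Real.rpow_add hJ0]
            norm_num)
  exact hbad.trans ((red_nb_or J _ _).trans ((add_le_add hsm hlg).trans hfin))

end Pool.Agent.CX
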