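import Pool.Agent.Lib.MP_d610d0_nt.CX.Defs2
import Pool.Agent.Lib.MP_d610d0_nt.CA.FP.Defs

set_option autoImplicit false

/-!
Project CX: the sieve weights from the general interface.
-/

namespace Pool.Agent.CX

open Finset Filter
open Pool.Agent.CA.FP (I_Sg SWg uS lS uN lN uR tu tl)

theorem sgx_floor : ⌊20 * ((8985 / 10000 : ℝ) / (171 / 500))⌋₊ = 52 := by
  rw [Nat.floor_eq_iff (by norm_num)]
  constructor <;> norm_num

theorem sgx_u : uS ((8985 / 10000 : ℝ) / (171 / 500)) ≤ 0.35991 := by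
  unfold uS
  rw [sgx_floor]
  have h1 : uN 52 = 374000 / 10 ^ 6 := by
    unfold uN
    rw [if_pos (by norm_num)]
    norm_num [tu]
  have h2 : uR 52 = 348076 / 10 ^ 6 := by
    unfold uR uN
    rw [if_neg (by norm_num), if_pos (by norm_num)]
    norm_num [tu]
  rw [h1, h2]
  norm_num

theorem sgx_l : lS ((8985 / 10000 : ℝ) / (171 / 500)) ≤ 0.34356 := by
  unfold lS
  rw [sgx_floor]
  have h1 : lN 52 = 359557 / 10 ^ 6 := by
    unfold lN
    rw [if_pos (by norm_num)]
    norm_num [tl]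
  have h2 : lN (52 + 1) = 330130 / 10 ^ 6 := by
    unfold lN
    rw [if_pos (by norm_num)]
    norm_num [tl]
  rw [h1, h2]
  norm_num

theorem sgx_VV (z : ℝ) : 0 ≤ Pool.Agent.CH.VV z := by
  unfold Pool.Agent.CH.VV
  apply Finset.prod_nonneg
  intro p hp
  rw [mem_filter] at hp
  have h3 : (3 : ℝ) ≤ p := by exact_mod_cast hp.2.2
  have : 1 / ((p : ℝ) - 1) ≤ 1 := by
    rw [div_le_one (by linarith)]
    linarith
  linarith

/-- The sieve weights. -/
theorem p_sgx : I_Sg → I_Sx := by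
  intro h
  have h1 := h (171 / 500) (8985 / 10000) (5 / 10000) (by norm_num) (by norm_num) (by norm_num)
  filter_upwards [h1, eventually_ge_atTop 1] with J hJ hJ1
  obtain ⟨cp, cm, hw⟩ := hJ
  have hJ1' : (1 : ℝ) ≤ J := by exact_mod_cast hJ1
  have hke : (8985 / 10000 + 5 / 10000 : ℝ) = 899 / 1000 := by norm_num
  have hN : (J : ℝ) ^ (8985 / 10000 + 5 / 10000 : ℝ) ≤ (J : ℕ) := by
    calc (J : ℝ) ^ (8985 / 10000 + 5 / 10000 : ℝ) ≤ (J : ℝ) ^ (1 : ℝ) :=
          Real.rpow_le_rpow_of_exponent_le hJ1' (by norm_num)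
      _ = J := Real.rpow_one _
  have hV := sgx_VV (zx J)
  have hu := sgx_u
  have hl := sgx_l
  refine ⟨cp, cm, ⟨?_, ?_, hw.lo, hw.up, ?_, ?_⟩⟩
  · have := hw.wp
    rw [hke] at this
    exact this
  · have := hw.wm
    rw [hke] at this
    exact this
  · refine (hw.mp J hN).trans ?_
    refine mul_le_mul_of_nonneg_right ?_ hV
    nlinarith
  · refine le_trans ?_ (hw.mm (by norm_num) J hN)
    refine mul_le_mul_of_nonneg_right ?_ hV
    linarith

end Pool.Agent.CX
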