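import Pool.Agent.Lib.MP_d610d0_nt.CX.Stm

set_option autoImplicit false

/-!
Project CX, piece spx (helper92): splitting off one prime from `bx`.
-/

namespace Pool.Agent.CX

open Finset Filter
open Pool.Agent.CA (bx)
open Pool.Agent.CA.LC (R_bxp pI)

open Classical in
private theorem spx_two (hb : R_bxp) (k : ℕ) (lo hi : ℝ) (n : ℕ) (hn : 1 ≤ n) :
    bx (k + 1) (fun _ => lo) (fun _ => hi) n = ∑ d ∈ n.divisors,
      (if d.Prime ∧ lo ≤ (d : ℝ) ∧ (d : ℝ) ≤ hi then (1 : ℝ) else 0) *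
        bx k (fun _ => lo) (fun _ => hi) (n / d) := by
  have h1 : ((bx (k + 1) (fun _ => lo) (fun _ => hi) n : ℝ) : ℂ) =
      ((∑ d ∈ n.divisors, (if d.Prime ∧ lo ≤ (d : ℝ) ∧ (d : ℝ) ≤ hi then (1 : ℝ) else 0) *
        bx k (fun _ => lo) (fun _ => hi) (n / d) : ℝ) : ℂ) := by
    rw [hb (k + 1) (fun _ => lo) (fun _ => hi) n hn, Fin.prod_univ_succ,
      ArithmeticFunction.mul_apply,
      Nat.sum_divisorsAntidiagonal (fun a b => (pI lo hi) a * (∏ _i : Fin k, pI lo hi) b)]
    rw [Complex.ofReal_sum]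
    refine sum_congr rfl (fun d hd => ?_)
    rw [Complex.ofReal_mul]
    have hd1 : d ∣ n := Nat.dvd_of_mem_divisors hd
    have hd2 : 1 ≤ n / d := Nat.div_pos (Nat.le_of_dvd (by omega) hd1)
      (Nat.pos_of_dvd_of_pos hd1 (by omega))
    rw [hb k (fun _ => lo) (fun _ => hi) (n / d) hd2]
    congr 1
    show (if d.Prime ∧ lo ≤ (d : ℝ) ∧ (d : ℝ) ≤ hi then (1 : ℂ) else 0) = _
    split_ifs <;> simp
  exact_mod_cast h1

private theorem spx_nonneg (k : ℕ) (lo hi : ℝ) (n : ℕ) :
    0 ≤ bx k (fun _ => lo) (fun _ => hi) n := by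
  unfold bx
  exact Nat.cast_nonneg _

private theorem spx_card (k : ℕ) (lo hi : ℝ) (n : ℕ)
    (h : bx (k + 1) (fun _ => lo) (fun _ => hi) n ≠ 0) : n.primeFactors.card ≤ k + 1 := by
  unfold bx at h
  have h1 := (Nat.cast_ne_zero (R := ℝ)).1 h
  obtain ⟨q, hq⟩ := Finset.card_ne_zero.1 h1
  rw [mem_filter, Fintype.mem_piFinset] at hq
  obtain ⟨hq1, hq2⟩ := hq
  have hsub : n.primeFactors ⊆ Finset.image q univ := by
    intro p hp
    have hpp := Nat.prime_of_mem_primeFactors hp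
    have hpd := Nat.dvd_of_mem_primeFactors hp
    rw [← hq2] at hpd
    obtain ⟨i, -, hi'⟩ := (Prime.dvd_finsetProd_iff hpp.prime _).1 hpd
    have hqi := (mem_filter.1 (hq1 i)).2.1
    rw [mem_image]
    exact ⟨i, mem_univ _, ((Nat.prime_dvd_prime_iff_eq hpp hqi).1 hi').symm⟩
  calc n.primeFactors.card ≤ (Finset.image q univ).card := card_le_card hsub
    _ ≤ (univ : Finset (Fin (k + 1))).card := card_image_le
    _ = k + 1 := by simp

private theorem spx_le (hb : R_bxp) (lo hi : ℝ) : ∀ (k n : ℕ), 1 ≤ n →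
    bx k (fun _ => lo) (fun _ => hi) n ≤ (k.factorial : ℝ) := by
  intro k
  induction k with
  | zero =>
    intro n _
    unfold bx
    have h1 : ((Fintype.piFinset (fun _ : Fin 0 => (range (n + 1)).filter
        (fun p : ℕ => p.Prime ∧ lo ≤ (p : ℝ) ∧ (p : ℝ) ≤ hi))).filter
          (fun q => ∏ i, q i = n)).card ≤ 1 := Finset.card_le_one_of_subsingleton _
    have h2 : (Nat.factorial 0 : ℝ) = 1 := by simp
    rw [h2]
    exact_mod_cast h1
  | succ k ih =>
    intro n hn
    by_cases h0 : bx (k + 1) (fun _ => lo) (fun _ => hi) n = 0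
    · rw [h0]; positivity
    classical
    have hcard := spx_card k lo hi n h0
    rw [spx_two hb k lo hi n hn]
    have h1 : ∀ d ∈ n.divisors,
        (if d.Prime ∧ lo ≤ (d : ℝ) ∧ (d : ℝ) ≤ hi then (1 : ℝ) else 0) *
          bx k (fun _ => lo) (fun _ => hi) (n / d) ≤
        if d.Prime then (k.factorial : ℝ) else 0 := by
      intro d hd
      have hd1 : d ∣ n := Nat.dvd_of_mem_divisors hd
      have hd2 : 1 ≤ n / d := Nat.div_pos (Nat.le_of_dvd (by omega) hd1)
        (Nat.pos_of_dvd_of_pos hd1 (by omega))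
      have h3 := ih (n / d) hd2
      have h4 := spx_nonneg k lo hi (n / d)
      have h5 : (0 : ℝ) ≤ (k.factorial : ℝ) := by positivity
      by_cases hp : d.Prime
      · rw [if_pos hp]
        split_ifs
        · linarith
        · linarith
      · rw [if_neg hp, if_neg (fun h => hp h.1), zero_mul]
    refine le_trans (sum_le_sum h1) ?_
    rw [← sum_filter, sum_const, nsmul_eq_mul]
    have h6 : n.divisors.filter (fun d => d.Prime) = n.primeFactors := by
      ext d
      rw [mem_filter, Nat.mem_divisors, Nat.mem_primeFactors]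
      constructor
      · rintro ⟨⟨h7, h8⟩, h9⟩
        exact ⟨h9, h7, h8⟩
      · rintro ⟨h7, h8, h9⟩
        exact ⟨⟨h8, h9⟩, h7⟩
    rw [h6, Nat.factorial_succ]
    push_cast
    have h7 : (n.primeFactors.card : ℝ) ≤ (k : ℝ) + 1 := by exact_mod_cast hcard
    exact mul_le_mul_of_nonneg_right h7 (by positivity)

theorem p_spx : S_spx := by
  intro hb k lo hi n hn
  refine ⟨⟨spx_nonneg k lo hi n, spx_le hb lo hi k n hn⟩, ?_⟩
  rw [spx_two hb k lo hi n hn]

end Pool.Agent.CX
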