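import Pool.Agent.Lib.MP_d610d0_nt.CX.Stm2

set_option autoImplicit false

/-!
Project CX, pieces sw (exchange of summations) and lo (lower bound).
-/

namespace Pool.Agent.CX

open Finset Filter
open scoped ArithmeticFunction.Omega
open Pool.Agent.MP89da58 (tri)
open Pool.Agent.CH (wJ wL Rough VV Wt dsum thP EE)
open Pool.Agent.CH.F (mu)

private theorem sw_pow (J : ℕ) (hJ : 1 ≤ J) : (J : ℝ) ^ (899 / 1000 : ℝ) ≤ (J : ℝ) := by
  have h1 : (1 : ℝ) ≤ (J : ℝ) := by exact_mod_cast hJ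
  calc (J : ℝ) ^ (899 / 1000 : ℝ) ≤ (J : ℝ) ^ (1 : ℝ) :=
        Real.rpow_le_rpow_of_exponent_le h1 (by norm_num)
    _ = (J : ℝ) := Real.rpow_one _

/-- the divisor sum as a sum over `[1, J]` -/
private theorem sw_dsum (J : ℕ) (c : ℕ → ℝ) (hJ : 1 ≤ J)
    (hc : Wt (zx J) ((J : ℝ) ^ (899 / 1000 : ℝ)) c) (m : ℕ) (hm : m ≠ 0) :
    dsum c m = ∑ q ∈ Icc 1 J, (if q ∣ m then c q else 0) := by
  rw [← Finset.sum_filter]
  unfold dsum
  symm
  apply Finset.sum_subset
  · intro q hq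
    rw [Finset.mem_filter] at hq
    exact Nat.mem_divisors.2 ⟨hq.2, hm⟩
  · intro q hq hq'
    by_contra h0
    apply hq'
    rw [Finset.mem_filter, Finset.mem_Icc]
    have h1 : (q : ℝ) ≤ (J : ℝ) := (hc.le q h0).trans (sw_pow J hJ)
    exact ⟨⟨Nat.pos_of_mem_divisors hq, by exact_mod_cast h1⟩, Nat.dvd_of_mem_divisors hq⟩

private theorem sw_main (J j : ℕ) (f c : ℕ → ℝ) (hJ : 1 ≤ J)
    (hc : Wt (zx J) ((J : ℝ) ^ (899 / 1000 : ℝ)) c) (a : ℤ) (s : ℕ → ℕ)
    (hs : ∀ n ∈ Icc 1 (27 * J ^ 3), f n * wJ J j n ≠ 0 →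
      s n ≠ 0 ∧ ∀ q : ℕ, q ∣ s n ↔ (q : ℤ) ∣ (n : ℤ) - a) :
    ∑ n ∈ Icc 1 (27 * J ^ 3), f n * wJ J j n * dsum c (s n)
      = ∑ q ∈ Icc 1 J, c q * EE J f a j q
        + (∑ q ∈ Icc 1 J, c q / (Nat.totient q : ℝ)) *
          ∑ n ∈ Icc 1 (27 * J ^ 3), f n * wJ J j n := by
  have h1 : ∀ n ∈ Icc 1 (27 * J ^ 3), f n * wJ J j n * dsum c (s n) =
      ∑ q ∈ Icc 1 J, c q * (if (q : ℤ) ∣ (n : ℤ) - a then f n * wJ J j n else 0) := by
    intro n hn
    by_cases h0 : f n * wJ J j n = 0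
    · rw [h0, zero_mul]
      symm
      apply Finset.sum_eq_zero
      intro q _
      rw [ite_self, mul_zero]
    · obtain ⟨h2, h3⟩ := hs n hn h0
      rw [sw_dsum J c hJ hc (s n) h2, Finset.mul_sum]
      apply Finset.sum_congr rfl
      intro q _
      by_cases h4 : q ∣ s n
      · rw [if_pos h4, if_pos ((h3 q).1 h4)]
        ring
      · rw [if_neg h4, if_neg (fun h5 => h4 ((h3 q).2 h5))]
        ring
  rw [Finset.sum_congr rfl h1, Finset.sum_comm, Finset.sum_mul, ← Finset.sum_add_distrib]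
  apply Finset.sum_congr rfl
  intro q _
  rw [← Finset.mul_sum, ← Finset.sum_filter]
  unfold EE
  ring

theorem p_swx : S_swx := by
  intro J j f c hJ hc
  refine ⟨?_, ?_⟩
  · apply sw_main J j f c hJ hc (-2) (fun n => n + 2)
    intro n _ _
    refine ⟨by omega, ?_⟩
    intro q
    rw [← Int.natCast_dvd_natCast]
    have : ((n + 2 : ℕ) : ℤ) = (n : ℤ) - (-2) := by push_cast; ring
    rw [this]
  · intro h0
    apply sw_main J j f c hJ hc 2 (fun n => n - 2)
    intro n _ hn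
    have h3 : 3 ≤ n := by
      by_contra h4
      exact hn (h0 n (by omega))
    refine ⟨by omega, ?_⟩
    intro q
    rw [← Int.natCast_dvd_natCast]
    have : ((n - 2 : ℕ) : ℤ) = (n : ℤ) - 2 := by omega
    rw [this]



private theorem lo_VV (z : ℝ) : 0 ≤ VV z := by
  unfold VV
  refine Finset.prod_nonneg fun p hp => ?_
  have h := (Finset.mem_filter.1 hp).2.2
  have h1 : (3 : ℝ) ≤ p := by exact_mod_cast h
  have h2 : 1 / ((p : ℝ) - 1) ≤ 1 := by
    rw [div_le_one (by linarith)]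
    linarith
  linarith

theorem p_lox : S_lox := by
  intro hwin hsw
  filter_upwards [eventually_ge_atTop 5] with J hJ cp cm hSW j hj hG
  obtain ⟨h1, h2, -, -⟩ := hwin J hJ j hj
  have hthP : ∀ n, 0 ≤ thP n := by
    intro n
    unfold thP
    split_ifs
    · exact Real.log_natCast_nonneg n
    · exact le_rfl
  have hterm : ∑ n ∈ Icc 1 (27 * J ^ 3), thP n * wJ J j n * dsum cm (n + 2) ≤ SSx J j := by
    unfold SSx
    refine Finset.sum_le_sum fun n hn => ?_
    by_cases h0 : thP n * wJ J j n = 0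
    · rw [h0, zero_mul, zero_mul]
    · have hnp : n.Prime := by
        by_contra hc
        apply h0
        unfold thP
        rw [if_neg hc, zero_mul]
      have hw : wJ J j n ≠ 0 := right_ne_zero_of_mul h0
      have hn1 : 1 ≤ n := (Finset.mem_Icc.1 hn).1
      obtain ⟨-, -, h3, -⟩ := h2 n hn1 hw
      have h4 : 5 ^ 3 ≤ J ^ 3 := Nat.pow_le_pow_left hJ 3
      have h5 : n ≠ 2 := by
        intro h
        rw [h] at h3
        omega
      have h6 : Odd n := hnp.odd_of_ne_two h5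
      have h7 : Odd (n + 2) := by
        obtain ⟨a, ha⟩ := h6
        exact ⟨a + 1, by omega⟩
      exact mul_le_mul_of_nonneg_left (hSW.lo (n + 2) h7) (mul_nonneg (hthP n) (h1 n).1)
  have hsum := (hsw J j thP cm (by omega) hSW.wm).1
  have hJ0 : (0 : ℝ) < J := by
    have : 0 < J := by omega
    exact_mod_cast this
  have hmu : 0 ≤ mu J j := by
    unfold mu
    positivity
  have hV := lo_VV (zx J)
  have hprod : 0.654 * VV (zx J) * (0.999 * mu J j) ≤
      (∑ q ∈ Icc 1 J, cm q / (Nat.totient q : ℝ)) *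
        ∑ n ∈ Icc 1 (27 * J ^ 3), thP n * wJ J j n := by
    refine mul_le_mul hSW.mm hG.g3 ?_ ?_
    · exact mul_nonneg (by norm_num) hmu
    · refine le_trans ?_ hSW.mm
      exact mul_nonneg (by norm_num) hV
  have hg1 := (abs_le.1 hG.g1).1
  have hVm : 0 ≤ VV (zx J) * mu J j := mul_nonneg hV hmu
  rw [hsum] at hterm
  nlinarith

end Pool.Agent.CX
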