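import Pool.Agent.Lib.MP_d610d0_nt.CX.Stm2

set_option autoImplicit false

/-!
Project CX, piece up: the upper bound for the weighted number of primes `p` in a good window such that `p + 2` is rough
and has at least four prime factors.
-/

namespace Pool.Agent.CX

open Finset Filter
open scoped ArithmeticFunction.Omega
open Pool.Agent.CH (wJ wL Rough VV Wt dsum thP EE)
open Pool.Agent.CH.F (mu)
open Pool.Agent.CA (bx)

private lemma up_VV (z : ℝ) : 0 ≤ VV z := by
  unfold VV
  refine prod_nonneg fun p hp => ?_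
  rw [mem_filter] at hp
  have h1 : (3 : ℝ) ≤ (p : ℝ) := by exact_mod_cast hp.2.2
  have h2 : 1 / ((p : ℝ) - 1) ≤ 1 := by
    rw [div_le_one (by linarith)]
    linarith
  linarith

private lemma up_th (J p : ℕ) (hJ : 16 ≤ J) (hp : p ∈ Icc 1 (27 * J ^ 3)) :
    0 ≤ thP p ∧ thP p ≤ 3 * Real.log J + 4 := by
  rw [mem_Icc] at hp
  have h2 : (16 : ℝ) ≤ (J : ℝ) := by exact_mod_cast hJ
  have hL : 0 ≤ Real.log J := Real.log_nonneg (by linarith)
  have hp1 : (1 : ℝ) ≤ (p : ℝ) := by exact_mod_cast hp.1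
  have hp2 : (p : ℝ) ≤ 27 * (J : ℝ) ^ 3 := by exact_mod_cast hp.2
  have h27 : Real.log 27 ≤ 4 := by
    rw [Real.log_le_iff_le_exp (by norm_num)]
    have h3 := Real.exp_one_gt_d9
    have h4 : Real.exp 4 = Real.exp 1 ^ 4 := by
      rw [← Real.exp_nat_mul]
      norm_num
    rw [h4]
    have h5 : (2.7 : ℝ) ^ 4 ≤ Real.exp 1 ^ 4 := pow_le_pow_left₀ (by norm_num) (by linarith) 4
    norm_num at h5
    linarith
  unfold thP
  split_ifs with h
  · refine ⟨Real.log_nonneg hp1, ?_⟩
    have h3 : Real.log p ≤ Real.log (27 * (J : ℝ) ^ 3) := Real.log_le_log (by linarith) hp2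
    rw [Real.log_mul (by norm_num) (by positivity), Real.log_pow] at h3
    push_cast at h3
    linarith
  · exact ⟨le_refl _, by linarith⟩

private lemma up_RB0 (J : ℕ) : RBx J 0 = 0 := by
  classical
  unfold RBx
  refine sum_eq_zero fun k hk => ?_
  rw [mem_Icc] at hk
  unfold Bx bx
  rw [div_eq_zero_iff]
  left
  rw [Nat.cast_eq_zero, card_eq_zero, filter_eq_empty_iff]
  intro q hq
  rw [Fintype.mem_piFinset] at hq
  have h := hq ⟨0, by omega⟩
  simp only [zero_add, range_one, mem_filter, mem_singleton] at h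
  exact absurd h.2.1 (by rw [h.1]; exact Nat.not_prime_zero)

theorem p_upx : S_upx := by
  classical
  intro hwin hsw hrrx
  have ev : ∀ᶠ J : ℕ in atTop, (2 : ℝ) < (J : ℝ) ^ (171 / 500 : ℝ) :=
    ((tendsto_rpow_atTop (show (0 : ℝ) < 171 / 500 by norm_num)).comp
      tendsto_natCast_atTop_atTop).eventually_gt_atTop 2
  filter_upwards [hrrx, ev, eventually_ge_atTop 16] with J hrr hz2' hJ cp cm hSW j hj hG
  have hz2 : 2 < zx J := hz2'
  have hzJ3 : zx J ≤ (J : ℝ) ^ 3 := by
    have h1 : (1 : ℝ) ≤ J := by exact_mod_cast (show 1 ≤ J by omega)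
    unfold zx
    calc (J : ℝ) ^ (171 / 500 : ℝ) ≤ (J : ℝ) ^ (3 : ℝ) :=
          Real.rpow_le_rpow_of_exponent_le h1 (by norm_num)
      _ = (J : ℝ) ^ 3 := by exact_mod_cast Real.rpow_natCast (J : ℝ) 3
  have hV := up_VV (zx J)
  obtain ⟨hw01, hwsup, hwcard, hwlip⟩ := hwin J (by omega) j hj
  have hJR : (16 : ℝ) ≤ (J : ℝ) := by exact_mod_cast hJ
  have hL : 0 < Real.log J := Real.log_pos (by linarith)
  set z := zx J with hz
  set I := Icc 1 (27 * J ^ 3) with hI
  -- oddness from roughness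
  have hodd : ∀ n : ℕ, Rough z n → Odd n := by
    intro n hn
    by_contra h
    rw [Nat.not_odd_iff_even] at h
    have := hn 2 Nat.prime_two h.two_dvd
    norm_num at this
    linarith
  -- nonnegativity of the comparison term
  have hgnn : ∀ p : ℕ, 0 ≤ RBx J (p + 2) * wJ J j (p + 2) * dsum cp p := by
    intro p
    obtain ⟨r0, r1, -⟩ := hrr (p + 2) (by omega)
    by_cases hR : RBx J (p + 2) = 0
    · rw [hR]; simp
    · have ho : Odd p := by
        have := hodd _ (r1 hR)
        rw [Nat.odd_add] at this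
        exact this.2 (by decide)
      have hd : 0 ≤ dsum cp p := by
        refine le_trans ?_ (hSW.up p ho)
        split_ifs <;> norm_num
      exact mul_nonneg (mul_nonneg r0 (hw01 _).1) hd
  -- the predicate bad
  set bad : ℕ → Prop := fun p => wJ J j p ≠ 0 ∧ ∃ q : ℕ, q.Prime ∧ zx J ≤ q ∧ q ^ 2 ∣ p + 2 with hbad
  have hterm : ∀ p ∈ I, thP p * wJ J j p * (if Rough (zx J) (p + 2) ∧ 4 ≤ Ω (p + 2) then 1 else 0)
      ≤ (3 * Real.log J + 4) * ((if bad p then 1 else 0) + RBx J (p + 2) * wJ J j (p + 2) * dsum cp p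
        + (if wJ J j p ≠ 0 then 4 / (J : ℝ) ^ 2 else 0)) := by
    intro p hp
    obtain ⟨ht0, ht1⟩ := up_th J p hJ hp
    have hB0 : (0 : ℝ) ≤ (if bad p then 1 else 0) := by split_ifs <;> norm_num
    have hC0 : (0 : ℝ) ≤ (if wJ J j p ≠ 0 then 4 / (J : ℝ) ^ 2 else 0) := by
      split_ifs
      · positivity
      · exact le_refl _
    have hA := hgnn p
    have hRHS : 0 ≤ (3 * Real.log J + 4) * ((if bad p then 1 else 0)
        + RBx J (p + 2) * wJ J j (p + 2) * dsum cp p
        + (if wJ J j p ≠ 0 then 4 / (J : ℝ) ^ 2 else 0)) :=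
      mul_nonneg (by linarith) (by linarith)
    by_cases hc : Rough (zx J) (p + 2) ∧ 4 ≤ Ω (p + 2)
    swap
    · rw [if_neg hc, mul_zero]
      exact hRHS
    rw [if_pos hc, mul_one]
    by_cases hw : wJ J j p = 0
    · have h0 : thP p * wJ J j p = 0 := by rw [hw, mul_zero]
      exact h0.le.trans hRHS
    by_cases hpp : p.Prime
    swap
    · have : thP p = 0 := by unfold thP; rw [if_neg hpp]
      rw [this, zero_mul]
      exact hRHS
    have hp1 : 1 ≤ p := hpp.one_lt.le
    obtain ⟨w1, w2, w3, w4⟩ := hwsup p hp1 hw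
    have hkey : wJ J j p ≤ (if bad p then 1 else 0) + RBx J (p + 2) * wJ J j (p + 2) * dsum cp p
        + (if wJ J j p ≠ 0 then 4 / (J : ℝ) ^ 2 else 0) := by
      by_cases hsf : Squarefree (p + 2)
      · have hlt : p + 2 ≤ 27 * J ^ 3 := w4.le
        have hR1 := (hrr (p + 2) (by omega)).2.2 hsf hc.1 hlt hc.2
        have hpodd : Odd p := by
          have := hodd _ hc.1
          rw [Nat.odd_add] at this
          exact this.2 (by decide)
        have hprough : Rough (zx J) p := by
          intro q hq hqp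
          have : q = p := (Nat.prime_dvd_prime_iff_eq hq hpp).1 hqp
          rw [this]
          have h3 : ((J ^ 3 : ℕ) : ℝ) ≤ (p : ℝ) := by exact_mod_cast w3.le
          push_cast at h3
          linarith
        have hd1 : 1 ≤ dsum cp p := by
          have := hSW.up p hpodd
          rwa [if_pos hprough] at this
        have hl := hwlip p w3.le
        have hw2 := (hw01 (p + 2)).1
        have h5 : wJ J j (p + 2) ≤ RBx J (p + 2) * wJ J j (p + 2) * dsum cp p := by
          have h6 : (1 : ℝ) ≤ RBx J (p + 2) * dsum cp p := by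
            nlinarith
          nlinarith
        rw [if_pos hw]
        linarith
      · have hb : bad p := by
          refine ⟨hw, ?_⟩
          rw [Nat.squarefree_iff_prime_squarefree] at hsf
          push Not at hsf
          obtain ⟨q, hq, hqd⟩ := hsf
          exact ⟨q, hq, hc.1 q hq (dvd_trans (Dvd.intro _ rfl) hqd), by rw [pow_two]; exact hqd⟩
        rw [if_pos hb]
        have := (hw01 p).2
        linarith
    calc thP p * wJ J j p ≤ (3 * Real.log J + 4) * wJ J j p :=
          mul_le_mul_of_nonneg_right ht1 (hw01 p).1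
      _ ≤ _ := mul_le_mul_of_nonneg_left hkey (by linarith)
  have hsum : TTx J j ≤ ∑ p ∈ I, (3 * Real.log J + 4) * ((if bad p then 1 else 0)
        + RBx J (p + 2) * wJ J j (p + 2) * dsum cp p
        + (if wJ J j p ≠ 0 then 4 / (J : ℝ) ^ 2 else 0)) := by
    unfold TTx
    exact sum_le_sum hterm
  rw [← mul_sum, sum_add_distrib, sum_add_distrib] at hsum
  -- first sum
  have hS1 : ∑ p ∈ I, (if bad p then (1 : ℝ) else 0) ≤ (J : ℝ) ^ (15 / 8 : ℝ) := by
    refine le_trans ?_ hG.g5
    rw [← sum_filter, sum_const, nsmul_eq_mul, mul_one]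
    unfold sqx
    have hinj : (I.filter bad).card ≤ ((Ioo (j ^ 3) ((j + 1) ^ 3)).filter
        (fun n : ℕ => ∃ q : ℕ, q.Prime ∧ zx J ≤ q ∧ q ^ 2 ∣ n)).card := by
      refine card_le_card_of_injOn (fun p => p + 2) ?_ ?_
      · intro p hp
        simp only [coe_filter, Set.mem_ofPred_eq] at hp
        obtain ⟨hpI, hw, hq⟩ := hp
        rw [hI, mem_Icc] at hpI
        obtain ⟨w1, w2, w3, w4⟩ := hwsup p hpI.1 hw
        simp only [coe_filter, Set.mem_ofPred_eq, mem_Ioo]
        exact ⟨⟨by omega, w2⟩, hq⟩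
      · intro a _ b _ hab
        simpa using hab
    exact_mod_cast hinj
  -- third sum
  have hS3 : ∑ p ∈ I, (if wJ J j p ≠ 0 then 4 / (J : ℝ) ^ 2 else 0) ≤ 72 := by
    rw [← sum_filter, sum_const, nsmul_eq_mul]
    have h1 : (((I.filter (fun n => wJ J j n ≠ 0)).card : ℕ) : ℝ) * (4 / (J : ℝ) ^ 2)
        ≤ 18 * (J : ℝ) ^ 2 * (4 / (J : ℝ) ^ 2) :=
      mul_le_mul_of_nonneg_right hwcard (by positivity)
    have h2 : 18 * (J : ℝ) ^ 2 * (4 / (J : ℝ) ^ 2) = 72 := by
      have : (J : ℝ) ≠ 0 := by linarith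
      field_simp
      norm_num
    linarith
  -- second sum
  have hzero : ∀ n, n < 3 → RBx J n * wJ J j n = 0 := by
    intro n hn
    rcases Nat.eq_zero_or_pos n with h0 | h0
    · rw [h0, up_RB0 J, zero_mul]
    · by_cases hw : wJ J j n = 0
      · rw [hw, mul_zero]
      · obtain ⟨-, -, w3, -⟩ := hwsup n h0 hw
        have : 16 ^ 3 ≤ J ^ 3 := Nat.pow_le_pow_left hJ 3
        norm_num at this
        omega
  have hS2 : ∑ p ∈ I, RBx J (p + 2) * wJ J j (p + 2) * dsum cp p
      = ∑ n ∈ I, RBx J n * wJ J j n * dsum cp (n - 2) := by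
    refine sum_bij_ne_zero (fun p _ _ => p + 2) ?_ ?_ ?_ ?_
    · intro p hp hne
      have hw : wJ J j (p + 2) ≠ 0 := by
        intro h
        apply hne
        rw [h]; ring
      obtain ⟨-, -, -, w4⟩ := hwsup (p + 2) (by omega) hw
      rw [hI, mem_Icc]
      omega
    · intro a _ _ b _ _ hab
      simpa using hab
    · intro n hn hne
      have hn3 : 3 ≤ n := by
        by_contra h
        push Not at h
        apply hne
        rw [hzero n h, zero_mul]
      rw [hI, mem_Icc] at hn
      refine ⟨n - 2, ?_, ?_, ?_⟩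
      · rw [hI, mem_Icc]; omega
      · have : n - 2 + 2 = n := by omega
        rw [this]
        exact hne
      · show n - 2 + 2 = n
        omega
    · intro p _ _
      simp
  rw [hS2, (hsw J j (RBx J) cp (by omega) hSW.wp).2 hzero] at hsum
  have hS2a : ∑ q ∈ Icc 1 J, cp q * EE J (RBx J) 2 j q ≤ (J : ℝ) ^ 2 / Real.log J ^ 3 :=
    le_trans (le_abs_self _) hG.g2
  have hRn : 0 ≤ ∑ n ∈ Icc 1 (27 * J ^ 3), RBx J n * wJ J j n := by
    refine sum_nonneg fun n hn => ?_
    rw [mem_Icc] at hn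
    exact mul_nonneg (hrr n hn.1).1 (hw01 n).1
  have hS2b : (∑ q ∈ Icc 1 J, cp q / (Nat.totient q : ℝ)) * ∑ n ∈ Icc 1 (27 * J ^ 3), RBx J n * wJ J j n
      ≤ 0.6398 * VV z * mu J j / (3 * Real.log J) := by
    have h1 := mul_le_mul_of_nonneg_right hSW.mp hRn
    have h2 := mul_le_mul_of_nonneg_left hG.g4 (show 0 ≤ 1.362 * VV (zx J) by positivity)
    have hmu : 0 ≤ mu J j := by
      unfold mu
      positivity
    have h4 : 0 ≤ VV z * mu J j / (3 * Real.log J) := by positivity
    have h3 : 1.362 * VV (zx J) * (0.4697 * mu J j / (3 * Real.log J))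
        ≤ 0.6398 * VV z * mu J j / (3 * Real.log J) := by
      have e1 : 1.362 * VV (zx J) * (0.4697 * mu J j / (3 * Real.log J))
        = 1.362 * 0.4697 * (VV z * mu J j / (3 * Real.log J)) := by rw [hz]; ring
      have e2 : 0.6398 * VV z * mu J j / (3 * Real.log J)
        = 0.6398 * (VV z * mu J j / (3 * Real.log J)) := by ring
      rw [e1, e2]
      exact mul_le_mul_of_nonneg_right (by norm_num) h4
    exact le_trans h1 (le_trans h2 h3)
  refine le_trans hsum (mul_le_mul_of_nonneg_left ?_ (by linarith))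
  rw [hI] at hS1 hS3
  rw [hI]
  linarith

end Pool.Agent.CX
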