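import Pool.Agent.Lib.MP_d610d0_nt.CX.Asm
import Pool.Agent.Lib.MP_d610d0_nt.CA.FP.P.tab
import Pool.Agent.Lib.MP_d610d0_nt.CA.FP.P.parg
import Pool.Agent.Lib.MP_d610d0_nt.CA.FP.P.sg
import Pool.Agent.Lib.MP_d610d0_nt.CX.p_sgx
import Pool.Agent.Lib.MP_d610d0_nt.CX.p_pv
import Pool.Agent.Lib.MP_d610d0_nt.CX.p_tIx
import Pool.Agent.Lib.MP_d610d0_nt.CX.p_blkx
import Pool.Agent.Lib.MP_d610d0_nt.CX.p_LLx
import Pool.Agent.Lib.MP_d610d0_nt.CX.p_TTx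
import Pool.Agent.Lib.MP_d610d0_nt.CX.p_spx
import Pool.Agent.Lib.MP_d610d0_nt.CX.p_LBx
import Pool.Agent.Lib.MP_d610d0_nt.CX.p_L4w
import Pool.Agent.Lib.MP_d610d0_nt.CX.p_cnt
import Pool.Agent.Lib.MP_d610d0_nt.CX.p_mvk
import Pool.Agent.Lib.MP_d610d0_nt.CX.p_mvx
import Pool.Agent.Lib.MP_d610d0_nt.CX.p_Gx
import Pool.Agent.Lib.MP_d610d0_nt.CX.p_prk3
import Pool.Agent.Lib.MP_d610d0_nt.CX.p_bx4
import Pool.Agent.Lib.MP_d610d0_nt.CX.p_CM4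
import Pool.Agent.Lib.MP_d610d0_nt.CX.p_S4
import Pool.Agent.Lib.MP_d610d0_nt.CX.p_red
import Pool.Agent.Lib.MP_d610d0_nt.CX.p_cell
import Pool.Agent.Lib.MP_d610d0_nt.CX.p_win
import Pool.Agent.Lib.MP_d610d0_nt.CX.p_ptw
import Pool.Agent.Lib.MP_d610d0_nt.CX.p_num
import Pool.Agent.Lib.MP_d610d0_nt.CX.p_lw
import Pool.Agent.Lib.MP_d610d0_nt.CX.p_ms
import Pool.Agent.Lib.MP_d610d0_nt.CX.p_V
import Pool.Agent.Lib.MP_d610d0_nt.CX.p_rr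
import Pool.Agent.Lib.MP_d610d0_nt.CX.p_sw
import Pool.Agent.Lib.MP_d610d0_nt.CX.p_up
import Pool.Agent.Lib.MP_d610d0_nt.CX.p_one
import Pool.Agent.Lib.MP_d610d0_nt.CX.p_fin
import Pool.Agent.Lib.MP_d610d0_nt.CX.p_dya

set_option autoImplicit false

/-!
Project CX: the final theorem.
-/

namespace Pool.Agent.CX

/-- For all `n ≤ N` but `O(N^(4/5))` there are at least `c n^2/(log (n+1))^2` primes `p` with `n^3 < p`,
`p + 2 < (n+1)^3` such that `p + 2` has at most three prime factors, all of them larger than `n^(1/3)`. -/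
theorem final : I_finx :=
  of_pieces p_pv p_tIx p_blkx p_LLx p_TTx p_spx p_LBx p_cm4 p_L4w p_cnt p_mvk p_mvx p_Gx p_prk3
    p_bx4 p_CM4 p_lw4 p_S4 p_C4 p_red
    (p_sgx (Pool.Agent.CA.FP.p_sg Pool.Agent.CA.FP.p_tab Pool.Agent.CA.FP.p_parg))
    p_cellx p_winx p_ptwx p_numx p_lwx p_msx p_Vx p_sqx p_rrx p_swx p_lox p_upx p_onex p_finx p_dyax

end Pool.Agent.CX
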