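import Pool.Agent.Lib.MP_d610d0_nt.CX.Defs

set_option autoImplicit false

/-!
Project CX, analytic half: statements of the pieces with proofs in words. `R_x` is the conclusion, `S_x` the statement to
be proved (with the results it uses as hypotheses). Conventions as in `CX/Defs.lean`, `CH/D/Stm.lean`, `CA/SC/Stm.lean`
(`pz (-θ) n = n^(iθ)`, `dp a N θ = ∑_{n ≤ N} a n n^(iθ)`, `dW lam J j n = 2 J wJ J j n - lam wL lam j n`, `TS a N w` = sum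
over the tuples).
-/

namespace Pool.Agent.CX

open Finset Filter
open ArithmeticFunction (vonMangoldt)
open Pool.Agent.MP89da58 (tri primChars)
open Pool.Agent.CH (zJ wJ wL Rough VV Wt dsum thP EE)
open Pool.Agent.CH.V (pz ex)
open Pool.Agent.CH.D (xj kap dp Sf FL FT R_kf R_kb R_spc R_bil R_vau R_pp R_pwp R_grp R_cfs)
open Pool.Agent.CA (bx LCw)
open Pool.Agent.CA.LC (R_LBa R_bxp R_cof)
open Pool.Agent.CA.SC (TS dW pf R_tm R_dyb)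

/-! ### A. Large conductors -/

/-- The inequality of Polya and Vinogradov for primitive characters. -/
def R_pv : Prop := ∀ (r : ℕ) (χ : DirichletCharacter ℂ r), 2 ≤ r → χ.IsPrimitive → ∀ N : ℕ,
  ‖∑ n ∈ Icc 1 N, χ (n : ZMod r)‖ ≤ Real.sqrt r * (1 + Real.log r)

/-- [CX pv] Proof: this is the private lemma `pv1_prim` of `Lib/MP_0016c7_nt/Rz/PV1.lean` (there: sum over `range x`; `χ 0 = 0`
for `r ≥ 2`). Copy that file up to this lemma (about 250 lines; do not import it) and pass to `Icc 1 N`. -/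
def S_pv : Prop := R_pv

/-- Type I sums with a primitive character. -/
def R_tIx : Prop := ∀ (J j d N r : ℕ) (χ : DirichletCharacter ℂ r), 1 ≤ J → j ∈ Ioc J (2 * J) →
  1 ≤ d → 2 ≤ r → χ.IsPrimitive →
  ‖∑ n ∈ Icc 1 N, χ (n : ZMod r) * (wJ J j (d * n) : ℂ)‖ ≤ 3 * (Real.sqrt r * (1 + Real.log r)) ∧
  ‖∑ n ∈ Icc 1 N, χ (n : ZMod r) * (Real.log n : ℂ) * (wJ J j (d * n) : ℂ)‖
    ≤ 4 * (Real.sqrt r * (1 + Real.log r)) * Real.log (N + 1)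

/-- [CX tIx] (uses CX pv) Proof: `CH/D/p_tI.lean` with the bound `√r (1 + log r)` (R_pv) for the partial sums of `χ` in the
place of `r`. -/
def S_tIx : Prop := R_pv → R_tIx

/-- Large conductors, one block, power saving. -/
def R_blkx : Prop := ∀ H : ℕ, ∀ᶠ J : ℕ in atTop, ∀ (R M N : ℕ)
  (a b : ℕ → ℂ) (th : (Σ q, DirichletCharacter ℂ q) → ℂ), (J : ℝ) ^ (4997 / 10000 : ℝ) ≤ (R : ℝ) →
  (R : ℝ) ≤ (J : ℝ) ^ (8995 / 10000 : ℝ) → (∀ p, ‖th p‖ ≤ 1) → (J : ℝ) ^ (209 / 1000 : ℝ) ≤ M →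
  (J : ℝ) ^ (209 / 1000 : ℝ) ≤ N → M * N ≤ 27 * J ^ 3 →
  ∑ m ∈ Icc 1 (2 * M), ‖a m‖ ^ 2 ≤ M * (Real.log J) ^ H →
  ∑ n ∈ Icc 1 (2 * N), ‖b n‖ ^ 2 ≤ N * (Real.log J) ^ H →
  ∑ j ∈ Ioc J (2 * J), ‖∑ p ∈ primChars R, th p * ∑ m ∈ Icc 1 (2 * M), ∑ n ∈ Icc 1 (2 * N),
      a m * b n * p.2 ((m * n : ℕ) : ZMod p.1) * (wJ J j (m * n) : ℂ)‖ ^ 2
    ≤ (R : ℝ) ^ 2 * (J : ℝ) ^ (47992 / 10000 : ℝ)

/-- [CX blkx] (uses D bil) Proof: as `CH/D/p_blk.lean`. If `M < N` exchange the roles of `(M, a)` and `(N, b)`; so let `N ≤ M`,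
`N ≤ 6 J^(3/2)`, `M ≤ 27 J^(3 - 0.209)`. R_bil gives at most `C (R^2 + 2M/J)(R^2 + 2N) M N L^(2H)
≤ 27 C J^3 L^(2H) (R^4 + 2R^2 N + 2R^2 M/J + 4MN/J)`, and each of the four terms is at most `R^2 J^(4.7991)` for large `J`:
`R^4 J^3 ≤ R^2 J^(1.799 + 3)`; `R^2 N J^3 ≤ 6 R^2 J^(4.5)`; `R^2 M J^2 ≤ 27 R^2 J^(4.791)`; `J^2 M N ≤ 27 J^5 ≤ 27 R^2 J^(4.0006)`. -/
def S_blkx : Prop := R_bil → R_blkx

/-- Large conductors for `Λ`. -/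
def R_LLx : Prop := ∀ᶠ J : ℕ in atTop, ∀ R : ℕ,
  (J : ℝ) ^ (4997 / 10000 : ℝ) ≤ (R : ℝ) → (R : ℝ) ≤ (J : ℝ) ^ (8995 / 10000 : ℝ) →
  ∀ th : (Σ q, DirichletCharacter ℂ q) → ℂ, (∀ p, ‖th p‖ ≤ 1) →
  ∑ j ∈ Ioc J (2 * J), ‖∑ p ∈ primChars R, th p * Sf (FL J) J j p.2‖ ^ 2
    ≤ (R : ℝ) ^ 2 * (J : ℝ) ^ (47994 / 10000 : ℝ)

/-- [CX LLx] (uses CX blkx, D dya, D vau, CX tIx, D spc) Proof: as `CH/D/p_LL.lean` with `U = V = ⌊J^(21/100)⌋` (`≥ J^(209/1000)`),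
`X = 27 J^3`. The characters in `primChars R` are primitive of conductor `2 ≤ r ≤ R`. `‖T1‖ ≤ V * 4 √R (1 + log R) log(X+1)`,
`‖T2‖ ≤ UV * log X * 3 √R (1 + log R)` (R_tIx), at most `R^2` characters: these contribute to the sum over `j` at most
`J (R^2 * 100 J^(0.42) √R L^3)^2 = 10^4 J^(1.84) R^5 L^6 ≤ 10^4 R^2 J^(1.84 + 2.6985) L^6`. T3: `R_dya` of CH.D, and for each block
R_blkx with `H = 6`: `L^5 R^2 J^(4.7992)`. -/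
def S_LLx : Prop := R_blkx → Pool.Agent.CH.D.R_dya → R_vau → R_tIx → R_spc → R_LLx

/-- [CX TTx] (uses CX LLx, D pp) Large conductors for the primes. Proof: as the first part of `CH/D/p_TT.lean`:
`Sf (FL J) J j χ` and `Sf (FT J) J j χ` differ by at most `J^(3/5)`, so the sum is at most
`2 R^2 J^(4.7994) + 2 J (R^2 J^(3/5))^2`, and `R^2 ≤ J^(1.799)`. -/
def S_TTx : Prop := R_LLx → R_pp → LCx FT

/-- Splitting off one prime. -/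
def R_spx : Prop := ∀ (k : ℕ) (lo hi : ℝ) (n : ℕ), 1 ≤ n →
  (0 ≤ bx k (fun _ => lo) (fun _ => hi) n ∧ bx k (fun _ => lo) (fun _ => hi) n ≤ k.factorial) ∧
  bx (k + 1) (fun _ => lo) (fun _ => hi) n = ∑ d ∈ n.divisors,
    (open Classical in if d.Prime ∧ lo ≤ (d : ℝ) ∧ (d : ℝ) ≤ hi then (1 : ℝ) else 0) *
      bx k (fun _ => lo) (fun _ => hi) (n / d)

/-- [CX spx] (uses LC bxp) Proof: second part: R_bxp for `k + 1` and `k`, `Fin.prod_univ_succ`, `ArithmeticFunction.mul_apply` (sum over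
`divisorsAntidiagonal`). First part: `bx k n` is a number of tuples of primes with product `n`; by induction on `k` with the
second part: the number of the prime divisors `d` of `n` is at most `k + 1` if some tuple of length `k + 1` has product `n`
(its entries contain all prime divisors of `n`), so `bx (k+1) n ≤ (k + 1) k!`. (Or: two such tuples are permutations of
`n.primeFactorsList`.) -/
def S_spx : Prop := R_bxp → R_spx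

/-- Large conductors for the products of primes. -/
def R_LBx : Prop := ∀ k ∈ Icc 4 8, LCx (Bx k)

/-- [CX LBx] (uses CX blkx, D dya, CX spx, D spc) Proof: as `CH/D/p_LR.lean`. By R_spx `Bx k J n = ∑_{d ∣ n} s(d) β(n/d)` with `s` the
indicator function of the primes in `[zx J, hx k J]` and `β = bx (k-1) ..`, `|β| ≤ 7!`. R_dya of CH.D with `U = ⌊J^(1/3)⌋`,
`V = ⌊J^(1/2)⌋`: if `s m ≠ 0`, `J^3 < 2 m n`, then `m ≥ J^0.342 > U`, `m ≤ J^2`, so `n > J/2 > V`. For each block R_blkx with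
`H = 6`. -/
def S_LBx : Prop := R_blkx → Pool.Agent.CH.D.R_dya → R_spx → R_spc → R_LBx

/-- Combinatorial lemma for products of four primes. -/
def R_cm4 : Prop := ∀ t : Fin 4 → ℝ, (∀ i, 341 / 1000 ≤ t i) → 3 - 1 / 1000 ≤ ∑ i, t i →
  ∑ i, t i ≤ 3 + 1 / 1000 →
  ∃ S : Finset (Fin 4), 1 + 1 / 1000 ≤ ∑ i ∈ S, t i ∧ 1 + 1 / 1000 ≤ ∑ i ∈ Sᶜ, t i

/-- [CX cm4] Proof: let `b` be an index with `t b` maximal, `t b ≤ 3.001 - 3 * 0.341 = 1.978`. If `t b ≥ 1.001`: `S = {b}`, the rest is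
`≥ 2.999 - 1.978`. Otherwise let `i ≠ b` with `t i` minimal among all indices `≠ b`: `t i ≤ 3.001/4`, `t b ≥ 2.999/4`, `S = {b, i}`:
`∑_S ≥ 0.749 + 0.341`, `∑_{Sᶜ} ≥ 2.999 - 1.001 - 0.7503`. -/
def S_cm4 : Prop := R_cm4

/-- [CX L4w] (uses LC LBa, CX cm4, LC dya, LC bxp, LC blk, LC cof, D spc) Large conductors in every window for `Bx 4`. Proof:
`CA/LC/P/LB.lean` with `k = 4`, R_cm4 in the place of R_cmp (no upper bound for the sizes is needed). -/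
def S_L4w : Prop := R_LBa → R_cm4 → Pool.Agent.CA.LC.R_dya → R_bxp → Pool.Agent.CA.LC.R_blk →
  R_cof → R_spc → LCw (Bx 4)

/-! ### B. Four primes: comparison with the long windows for all windows but `J^0.7` -/

/-- Coincidences between quotients of small numbers and quotients of the centres of the windows. -/
def R_cnt : Prop := ∃ C : ℝ, 1 ≤ C ∧ ∀ (J N : ℕ) (S : Finset ℕ), 2 ≤ J → S ⊆ Ioc J (2 * J) →
  (((Icc 1 N ×ˢ Icc 1 N ×ˢ S ×ˢ S).filter (fun t : ℕ × ℕ × ℕ × ℕ =>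
    |(Real.log t.1 - Real.log t.2.1) - (Real.log (xj t.2.2.1) - Real.log (xj t.2.2.2))|
      < 1 / (2 * (J : ℝ)))).card : ℝ) ≤ C * Ex J N S.card

/-- [CX cnt] (uses D spc) Proof: `y_j = log xj j`, `|y_i - y_k| ≥ 1/(2J)` for `i ≠ k` (R_spc). Let `s = S.card`.
(i) `N > J`: for given `n`, `j`, `k` the `m ≤ N` lie in an open interval `(n e^(u-1/(2J)), n e^(u+1/(2J)))` intersected with
`[1, N]`, of length at most `N (e^(1/J) - 1) ≤ 2N/J`, so there are at most `1 + 2N/J ≤ 3N/J` of them: total `≤ 3 N^2 s^2/J`.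
(ii) `N ≤ J`: write `m = g a`, `n = g b`, `a, b` coprime, `g ≤ N/max(a,b)`. For `i` with `2^i ≤ N` let `T_i` be the number of
`(a, b, j, k)` with `a, b` coprime, `2^i ≤ max(a,b) < 2^(i+1)`, `j, k ∈ S`, `|log a - log b - (y_j - y_k)| < 1/(2J)`; the number to
be bounded is at most `∑_i (N/2^i) T_i`. First bound: for given `a, b, k` the `y_j` lie in an open interval of length `1/J`, so there
are at most two of them: `T_i ≤ 4^(i+1) * 2 s`. Second bound: for given `j, k` the numbers `log(a/b)` are different for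
different pairs and differ by at least `log(1 + 1/(a' b)) ≥ 1/(a'b + 1) ≥ 4^(-(i+1))`, and lie in an open interval of length `1/J`,
so there are at most `1 + 4^(i+1)/J`: `T_i ≤ s^2 (1 + 4^(i+1)/J)`. So
`T_i ≤ min(8 * 4^i s, s^2) + 4 * 4^i s^2/J ≤ 3 * 2^i s √s + 4 * 4^i s^2/J` (`min(x,y) ≤ √(xy)`), and
`∑_i (N/2^i) T_i ≤ 3 N s √s (1 + log N/log 2) + 8 N^2 s^2/J`, `1 + log N/log 2 ≤ 2 (1 + log J)`. -/
def S_cnt : Prop := R_spc → R_cnt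

/-- Mean values with Fejer's kernel. -/
def R_mvk : Prop := ∀ m : ℕ, ∃ C : ℕ, 1 ≤ C ∧ ∀ (N : Fin m → ℕ) (a : Fin m → ℕ → ℂ)
  (S : Finset (Fin m)) (G lam : ℝ), 1 ≤ G → 1 ≤ lam → (∀ l, 1 ≤ N l) → (∀ l n, ‖a l n‖ ≤ G) →
  ∫ θ : ℝ, kap lam θ * ∏ l ∈ S, ‖dp (a l) (N l) θ‖ ^ 2
    ≤ C * G ^ (2 * m) * (1 + Real.log (∏ l ∈ S, (N l : ℝ))) ^ C *
      ((1 + (∏ l ∈ S, (N l : ℝ)) / lam) * ∏ l ∈ S, (N l : ℝ))

/-- [CX mvk] (uses D kf, D kb, D sch, SC tm) Proof: contained in the proof of `CA/SC/p_mvp.lean`: with `P = ∏_{l∈S} N l`,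
`∏_{l∈S} dp (a l) (N l) θ = dp b P θ`, `‖b n‖ ≤ G^m t_m(n)`, and R_sch gives
`∫ kap lam ‖dp b P‖^2 ≤ (1 + 3P/lam) ∑_{n≤P} ‖b n‖^2`, R_tm. -/
def S_mvk : Prop := R_kf → R_kb → Pool.Agent.CH.D.R_sch → R_tm → R_mvk

/-- Mean values with Fejer's kernel and the bad windows. -/
def R_mvx : Prop := ∀ m : ℕ, ∃ C : ℕ, 1 ≤ C ∧ ∀ (J : ℕ) (N : Fin m → ℕ) (a : Fin m → ℕ → ℂ)
  (S2 : Finset (Fin m)) (G : ℝ) (S : Finset ℕ) (g : ℕ → ℂ), 2 ≤ J → S ⊆ Ioc J (2 * J) → 1 ≤ G →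
  (∀ l, 1 ≤ N l) → (∀ l n, ‖a l n‖ ≤ G) → (∀ l ∈ S2, ∀ n, a l n ≠ 0 → n.Prime) →
  (∀ j, ‖g j‖ ≤ 1) →
  ∫ θ : ℝ, kap (2 * J) θ * ((∏ l ∈ S2, ‖dp (a l) (N l) θ‖ ^ 2) *
      ‖∑ j ∈ S, g j * Complex.exp (-(Complex.I * ((θ * Real.log (xj j) : ℝ) : ℂ)))‖ ^ 2)
    ≤ C * G ^ (2 * m) * Ex J (∏ l ∈ S2, N l) S.card

/-- [CX mvx] (uses D kf, CX cnt) Proof: as in `CA/SC/p_mvp.lean`, with `P = ∏_{l∈S2} N l` and
`b(n) = ∑ ∏_{l ∈ S2} a l (t l)` (sum over the tuples `1 ≤ t l ≤ N l`, `l ∈ S2`, with product `n`), `∏_{l∈S2} dp (a l) (N l) θ = dp b P θ`.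
The nonzero terms of `b(n)` belong to tuples of primes with product `n`: two such tuples are permutations of each other, so
there are at most `m!` and `‖b n‖ ≤ m! G^m` (`G ≥ 1`). Multiply out the two squares (finite sums; with `y_j = log xj j`): the integral is
`∑_{m,n,j,k} b_m conj(b_n) g_j conj(g_k) ∫ kap(2J) θ exp(iθ(log m - log n - y_j + y_k)) dθ`, the last integral is
`tri(2J (log m - log n - (y_j - y_k)))` by R_kf, which is in `[0,1]` and `0` unless `|..| < 1/(2J)`: at most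
`(m! G^m)^2` times the number in R_cnt. -/
def S_mvx : Prop := R_kf → R_cnt → R_mvx

/-- The general trilinear estimate with bad windows. -/
def R_Gx : Prop := ∀ m : ℕ, ∃ C : ℕ, 1 ≤ C ∧ ∀ (J : ℕ) (lam T0 G s : ℝ) (N : Fin m → ℕ)
  (a : Fin m → ℕ → ℂ) (l0 : Fin m) (S1 S2 : Finset (Fin m)) (S : Finset ℕ), 2 ≤ J →
  S ⊆ Ioc J (2 * J) → 1 ≤ T0 → T0 ≤ 2 * J → 1 ≤ lam → lam ≤ 2 * J → 1 ≤ G → 0 ≤ s →
  (∀ l, 1 ≤ N l) → (∀ l n, ‖a l n‖ ≤ G) → (∀ l ∈ S2, ∀ n, a l n ≠ 0 → n.Prime) →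
  l0 ∉ S1 → l0 ∉ S2 → Disjoint S1 S2 → insert l0 (S1 ∪ S2) = univ →
  (∀ θ : ℝ, T0 ≤ |θ| → |θ| ≤ (J : ℝ) ^ 3 → ‖dp (a l0) (N l0) θ‖ ≤ s) →
  ∑ j ∈ S, ‖TS a N (dW lam J j)‖ ≤ (S.card : ℝ) * (T0 ^ 3 / lam ^ 2 + 6 / J + lam ^ 2 / J) *
      (G ^ m * ∏ l, (N l : ℝ))
    + C * G ^ (2 * m) * (1 + Real.log (∏ l, (N l : ℝ))) ^ C * (J * s) *
      Real.sqrt (((1 + (∏ l ∈ S1, (N l : ℝ)) / J) * ∏ l ∈ S1, (N l : ℝ)) *
        Ex J (∏ l ∈ S2, N l) S.card)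

/-- [CX Gx] (uses D kf, D kb, CX mvk, CX mvx) Proof: compare `CA/SC/p_G.lean` (which contains the formula
`TS a N (dW lam J j) = ∫ K(θ) F(θ) e^{-iθ y_j} dθ`, `y_j = log (xj j)`, `K(θ) = 2J kap(2J,θ) - lam kap(lam,θ)`,
`F(θ) = ∏_l dp (a l) (N l) θ`, `‖F‖ ≤ W := G^m ∏ N l`). Choose `g_j`, `‖g_j‖ ≤ 1`, with `‖TS_j‖ = g_j TS_j`; then
`∑_{j∈S} ‖TS_j‖ = ∫ K F X ≤ ∫ |K| ‖F‖ ‖X‖`, `X(θ) = ∑_{j ∈ S} g_j e^{-iθ y_j}`, `‖X‖ ≤ s0 := S.card`.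
(i) `|θ| ≤ T0`: `|K| ≤ θ^2/lam^2` (R_kb, fifth part), at most `(2/3) T0^3/lam^2 W s0`.
(ii) `T0 < |θ| ≤ 2J`: `|K| ≤ 1/(2π) ≤ (16J/(2π)) kap(2J,θ) ≤ 3J kap(2J,θ)` (R_kb, sixth and fourth part).
(iii) `2J < |θ|`: `|K| ≤ 2J kap(2J,θ) + lam kap(lam,θ)`, and `∫_{|θ|>2J} lam kap(lam) ≤ ∫_{|θ|>2J} 2 lam^2/(π θ^2) ≤ lam^2/J`
(third part): at most `(lam^2/J) W s0`.
(iv) `|θ| > J^3`: `∫_{|θ|>J^3} 2J kap(2J) ≤ 2J * 2 * 4J/(π J^3) ≤ 6/J`: at most `(6/J) W s0`.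
(v) The rest is at most `3J ∫_{T0 < |θ| ≤ J^3} kap(2J) ‖dp (a l0)‖ ∏_{S1} ‖dp‖ ∏_{S2} ‖dp‖ ‖X‖
≤ 3J s (∫ kap(2J) ∏_{S1} ‖dp‖^2)^(1/2) (∫ kap(2J) ∏_{S2} ‖dp‖^2 ‖X‖^2)^(1/2)` (Cauchy-Schwarz): R_mvk with `lam = 2J` and R_mvx
(`(G^(2m) G^(2m))^(1/2) = G^(2m)`; `log ∏_{S1} N ≤ log ∏ N`). -/
def S_Gx : Prop := R_kf → R_kb → R_mvk → R_mvx → R_Gx

/-- The prime factor, `|θ| ≤ J^3`. -/
def R_prk3 : Prop := ∀ A B : ℕ, ∃ C0 : ℕ, ∀ᶠ J : ℕ in atTop, ∀ (r : ℕ) (χ : DirichletCharacter ℂ r)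
  (N a b : ℕ) (θ : ℝ), 1 ≤ r → (r : ℝ) ≤ (Real.log J) ^ B → χ.IsPrimitive → b ≤ N →
  Real.log J / 20 ≤ Real.log N → Real.log N ≤ 4 * Real.log J → |θ| ≤ (J : ℝ) ^ 3 →
  (2 ≤ r ∨ (Real.log J) ^ C0 ≤ |θ|) → ‖dp (pf χ a b) (2 * N) θ‖ ≤ N / (Real.log J) ^ A

/-- [CX prk3] (uses D pwp) Proof: as `CA/SC/p_prk.lean` with `κ = 60` (`J^3 ≤ N^60`). -/
def S_prk3 : Prop := R_pwp → R_prk3

/-- Boxes of four primes: few bad windows. -/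
def R_bx4 : Prop := ∀ A B : ℕ, ∃ E0 : ℕ, ∀ E : ℕ, E0 ≤ E → ∀ᶠ J : ℕ in atTop,
  ∀ (r : ℕ) (χ : DirichletCharacter ℂ r) (N a b : Fin 4 → ℕ), 1 ≤ r →
  (r : ℝ) ≤ (Real.log J) ^ B → χ.IsPrimitive → (∀ l, 1 ≤ N l ∧ N l ≤ 2 * (a l + 1) ∧ b l ≤ N l) →
  (∀ l, (J : ℝ) ^ (341 / 1000 : ℝ) ≤ N l) →
  nb J (fun j => (J : ℝ) ^ 3 / (Real.log J) ^ A <
    ‖TS (fun l => pf χ (a l) (b l)) (fun l => 2 * N l) (dW ((Real.log J) ^ E) J j)‖)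
    ≤ (J : ℝ) ^ (7 / 10 : ℝ)

/-- [CX bx4] (uses CX Gx, CX prk3, D spc) Proof: `C` from R_Gx (`m = 4`), `A' = A + C + 6`, `C0` from R_prk3 (`A', B`), `E0 = 2 C0 + A + 3`,
`lam = L^E`, `T0 = L^C0`, `G = 1`, lengths `2 N l`. As in `CA/SC/p_bxP.lean`: the variables satisfy `N l/2 ≤ n_l ≤ N l` and
`dW n = 0` unless `J^3 < 2n`, `n < 27 J^3` (R_spc), so if `∏ N < J^3/2` or `∏ N > 16 * 27 J^3` all sums are `0` and there are no bad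
windows. Otherwise let `S` be the set of the bad windows, `s0 = S.card > J^(7/10)` (else done). Let `b` be an index with
`N b` maximal, `l0 ≠ b` an index with `N l0` minimal among the others, `i1, i2` the other two. `N b ≥ (J^3/2)^(1/4) ≥ J^0.74`.
Case 1, `N b ≥ J`: `S1 = {b}`, `S2 = {i1, i2}`, `P2 := ∏_{S2} 2N ≥ J^0.682`. Case 2, `N b < J`: `S1 = {i1, i2}`, `S2 = {b}`;
`P1 := ∏_{S1} 2N ≥ 4 (J^3/2)/(J * J) ≥ J`, `P2 = 2 N b ≥ J^0.74`. In both cases `P1 ≥ J`, `1 + P1/J ≤ 2 P1/J`, and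
`P2 √s0 ≥ J^(0.682 + 0.35) ≥ J (1 + L)`, so `Ex J P2 s0 ≤ 2 P2^2 s0^2/J`. R_Gx with `s = N l0/L^A'` (R_prk3; `L/20 ≤ log N l ≤ 4L`):
`s0 J^3/L^A < ∑_{j∈S} ‖TS_j‖ ≤ s0 (L^(3C0-2E) + 6/J + L^(2E)/J) 16 ∏ N + C (5L)^C J (N l0/L^A') √(2P1^2/J * 2P2^2 s0^2/J)`, where the
last term is `2 C (5L)^C L^(-A') N l0 P1 P2 s0 ≤ C' L^(C-A') J^3 s0`. For large `J` the right side is at most `s0 J^3/L^A`, a
contradiction. -/
def S_bx4 : Prop := R_Gx → R_prk3 → R_spc → R_bx4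

/-- The comparison of the windows for `Bx 4` twisted by `χ`. -/
def R_CM4 : Prop := ∀ A B : ℕ, ∃ E0 : ℕ, ∀ E : ℕ, E0 ≤ E → ∀ᶠ J : ℕ in atTop, ∀ (r : ℕ)
  (χ : DirichletCharacter ℂ r), 1 ≤ r → (r : ℝ) ≤ (Real.log J) ^ B → χ.IsPrimitive →
  nb J (fun j => (J : ℝ) ^ 3 / (Real.log J) ^ A < ‖∑ n ∈ Icc 1 (27 * J ^ 3), (Bx 4 J n : ℂ) *
    (χ (n : ZMod r) * dW ((Real.log J) ^ E) J j n)‖) ≤ (J : ℝ) ^ (78 / 100 : ℝ)

/-- [CX CM4] (uses SC dyb, CX bx4, D spc) Proof: as `CA/SC/p_CMB.lean` (`k = 4`): R_dyb writes the sum as a sum of at most `(5L)^4`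
sums `TS (fun l => pf χ (a l) (b l)) (2 * 2^(s l)) (dW ..)`; those for which some factor vanishes identically are `0`; for the others
`2^(s l) ≥ zx J ≥ J^0.341`. If the whole sum is `> J^3/L^A`, then one of them is `> J^3/L^(A+5)` (`(5L)^4 ≤ L^5`), so the number of
the bad windows is at most `(5L)^4 J^(7/10)`. -/
def S_CM4 : Prop := R_dyb → R_bx4 → R_spc → R_CM4

/-- Long windows for `Bx 4`. -/
def R_lw4 : Prop := ∀ A B E : ℕ,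
  ∀ᶠ J : ℕ in atTop, ∀ (j r : ℕ) (χ : DirichletCharacter ℂ r), j ∈ Ioc J (2 * J) → 2 ≤ r →
  (r : ℝ) ≤ (Real.log J) ^ B → χ.IsPrimitive →
  ‖∑ n ∈ Icc 1 (27 * J ^ 3), (Bx 4 J n : ℂ) *
    (χ (n : ZMod r) * (wL ((Real.log J) ^ E) j n : ℂ))‖ ≤ (J : ℝ) ^ 3 / (Real.log J) ^ A

/-- [CX lw4] (uses D pwp) Proof: `CA/SC/p_lwB.lean` for `k = 4` (only `lo ≥ J^(1/12)` is used there). -/
def S_lw4 : Prop := R_pwp → R_lw4

/-- [CX S4] (uses CX CM4, CX lw4) Small conductors for `Bx 4`. Proof: as `CA/SC/p_SB.lean`: `E = E0` of R_CM4 for `A + 1`, `B`;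
`2J Sf (Bx 4 J) J j χ = ∑ Bx χ dW + L^E ∑ Bx χ wL`, R_lw4 with `A + 1 + E`: if the first sum is `≤ J^3/L^(A+1)`, the norm of the right
side is at most `2 J^3/L^(A+1)`, divide by `2J`. -/
def S_S4 : Prop := R_CM4 → R_lw4 → SCx (Bx 4)

/-- [CX C4] (uses CX CM4) Comparison for `Bx 4`. Proof: R_CM4 with `B = 0`, `r = 1`, `χ = 1`; the sum is real. -/
def S_C4 : Prop := R_CM4 → CMx (Bx 4)

/-! ### C. From characters to residue classes -/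

/-- [CX red] (uses D grp, D cfs) Proof (compare `CA/SV/p_red.lean` and `CH/D/p_red.lean`): `c q ≠ 0` implies `q` odd, with all prime
factors `< zx J`, so `q` is coprime to `a = ±2` and to all `n` with `F J n wJ J j n ≠ 0`. R_grp with `Q = J`; put
`C_p = p.2⁻¹(a) ∑_{q} c q/φ(q)`, `‖C_p‖ ≤ 100 (L+1)^3/r`, `C_p = 0` if `r = p.1 > J^(899/1000)`. Let `B` be from LCw for `A + 10`,
`R0 = ⌈L^B⌉`. (1) `r ≤ R0`: at most `R0^2` characters, SCx with `A + 2B + 10`, `B + 1`: outside of at most `R0^2 J^(79/100)` windows the sum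
over these `r` is at most `R0^2 100 (L+1)^3 J^2/L^(A+2B+10) ≤ J^2/L^(A+1)`. (2) Blocks `R_(i-1) < r ≤ R_i`, `R_i = 2^i R0`,
`1 ≤ i`, `R_(i-1) < J^(899/1000)` (at most `2L` blocks). If `R_i ≤ J^(4998/10000)`: `‖C_p‖ ≤ 200 (L+1)^3/R_i` and LCw: the block is at
most `200 (L+1)^3 J^2/L^(A+10)` in every window. (3) If `R_i > J^(4998/10000)`: `R_i ≤ 2 J^(899/1000) ≤ J^(8995/10000)`,
`th p = C_p R_i/(200 (L+1)^3)` on the block (`0` outside), LCx: `∑_j ‖∑_block C_p Sf‖^2 ≤ (200 (L+1)^3)^2 J^(4.7995)`, so the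
block is `> J^2/L^(A+3)` for at most `(200 (L+1)^3)^2 L^(2A+6) J^(0.7995)` windows. Total: outside of at most
`R0^2 J^(0.79) + 2L (200 (L+1)^3)^2 L^(2A+6) J^(0.7995) ≤ J^(0.7998)` windows the sum is at most `J^2/L^A`. -/
def S_red : Prop := R_grp → R_cfs → ∀ F : ℕ → ℕ → ℝ, LCw F → LCx F → SCx F →
  (∀ᶠ J : ℕ in atTop, ∀ j ∈ Ioc J (2 * J), ∀ n, 1 ≤ n → F J n ≠ 0 → wJ J j n ≠ 0 →
    Rough (zx J) n) → ∀ a : ℤ, a = 2 ∨ a = -2 → Finx F a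

end Pool.Agent.CX
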