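import Pool.Agent.Lib.MP_d610d0_nt.CX.Stm

set_option autoImplicit false

/-!
Piece CM4.
-/

namespace Pool.Agent.CX

open Finset Filter
open Pool.Agent.CH (wJ wL)
open Pool.Agent.CH.D (R_spc)
open Pool.Agent.CA (bx)
open Pool.Agent.CA.SC (TS dW pf R_dyb)

private theorem CM4_len {J : ℕ} (hJ : 1 ≤ J) (hL : 20 ≤ Real.log J) :
    27 * J ^ 3 ≤ 2 ^ (Nat.clog 2 (27 * J ^ 3)) ∧
      ((Nat.clog 2 (27 * J ^ 3) + 1 : ℕ) : ℝ) ≤ 6 * Real.log J := by
  have hJ0 : (0 : ℝ) < J := by exact_mod_cast hJ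
  refine ⟨Nat.le_pow_clog (by norm_num) _, ?_⟩
  set K := Nat.clog 2 (27 * J ^ 3) with hK
  have hX : 1 < 27 * J ^ 3 := by
    have : 1 ≤ J ^ 3 := Nat.one_le_pow _ _ hJ
    omega
  have h1 : 2 ^ (K - 1) < 27 * J ^ 3 := Nat.pow_pred_clog_lt_self (by norm_num) hX
  have h2 : ((2 : ℝ)) ^ (K - 1) ≤ 27 * (J : ℝ) ^ 3 := by exact_mod_cast h1.le
  have h3 := Real.log_le_log (by positivity) h2
  rw [Real.log_pow, Real.log_mul (by norm_num) (by positivity), Real.log_pow] at h3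
  have h4 : Real.log 27 ≤ 4 := by
    rw [Real.log_le_iff_le_exp (by norm_num)]
    have h5 : Real.exp 4 = Real.exp 1 ^ 4 := by rw [← Real.exp_nat_mul]; norm_num
    rw [h5]
    have h6 : (2.7 : ℝ) ≤ Real.exp 1 := by
      have := Real.exp_one_gt_d9
      linarith only [this]
    calc (27 : ℝ) ≤ 2.7 ^ 4 := by norm_num
      _ ≤ Real.exp 1 ^ 4 := pow_le_pow_left₀ (by norm_num) h6 4
  have h5 : (0.69 : ℝ) ≤ Real.log 2 := by
    have := Real.log_two_gt_d9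
    linarith only [this]
  have h6 : ((K - 1 : ℕ) : ℝ) * 0.69 ≤ ((K - 1 : ℕ) : ℝ) * Real.log 2 :=
    mul_le_mul_of_nonneg_left h5 (Nat.cast_nonneg _)
  have h7 : (K : ℝ) ≤ ((K - 1 : ℕ) : ℝ) + 1 := by
    have : K ≤ (K - 1) + 1 := by omega
    exact_mod_cast this
  push_cast at h3 ⊢
  linarith only [h3, h4, h6, h7, hL]

private theorem CM4_mul {k r : ℕ} (χ : DirichletCharacter ℂ r) (t : Fin k → ℕ) :
    ∏ l, χ (t l : ZMod r) = χ ((∏ l, t l : ℕ) : ZMod r) := by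
  rw [Nat.cast_prod, map_prod]

private theorem CM4_TS {k r J j : ℕ} {lam : ℝ} (χ : DirichletCharacter ℂ r) (a b M : Fin k → ℕ)
    (w : ℕ → ℂ)
    (hw : ∀ n, 1 ≤ n → w n = χ (n : ZMod r) * dW lam J j n) :
    TS (fun l n => if n.Prime ∧ a l < n ∧ n ≤ b l then 1 else 0) M w =
      TS (fun l => pf χ (a l) (b l)) M (dW lam J j) := by
  unfold TS
  apply sum_congr rfl
  intro t ht
  have h1 : 1 ≤ ∏ l, t l := by
    apply Nat.one_le_iff_ne_zero.2
    rw [prod_ne_zero_iff]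
    intro l _
    have := (mem_Icc.1 (Fintype.mem_piFinset.1 ht l)).1
    omega
  rw [hw _ h1]
  have h2 : ∏ l, pf χ (a l) (b l) (t l) =
      (∏ l, (if (t l).Prime ∧ a l < t l ∧ t l ≤ b l then (1 : ℂ) else 0)) *
        χ ((∏ l, t l : ℕ) : ZMod r) := by
    rw [← CM4_mul, ← prod_mul_distrib]
    apply prod_congr rfl
    intro l _
    unfold pf
    split_ifs <;> simp
  rw [h2]
  ring

/-- one box: at most `J^(7/10)` bad windows -/
private theorem CM4_one {r J : ℕ} {lam : ℝ} (χ : DirichletCharacter ℂ r)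
    (s : Fin 4 → ℕ) (Bd : ℝ) (hBd : 0 ≤ Bd) (hJ : 1 ≤ J)
    (hP : ∀ (N a b : Fin 4 → ℕ), (∀ l, 1 ≤ N l ∧ N l ≤ 2 * (a l + 1) ∧ b l ≤ N l) →
      (∀ l, (J : ℝ) ^ (341 / 1000 : ℝ) ≤ N l) →
      nb J (fun j => Bd < ‖TS (fun l => pf χ (a l) (b l)) (fun l => 2 * N l) (dW lam J j)‖)
        ≤ (J : ℝ) ^ (7 / 10 : ℝ)) :
    nb J (fun j => Bd < ‖TS (fun l => pf χ (max (⌈zx J⌉₊ - 1) (2 ^ s l / 2))
      (min ⌊hx 4 J⌋₊ (2 ^ s l))) (fun l => 2 * 2 ^ s l) (dW lam J j)‖)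
      ≤ (J : ℝ) ^ (7 / 10 : ℝ) := by
  have hJ1 : (1 : ℝ) ≤ J := by exact_mod_cast hJ
  by_cases h : ∀ l, ∃ p : ℕ, p.Prime ∧ max (⌈zx J⌉₊ - 1) (2 ^ s l / 2) < p ∧
      p ≤ min ⌊hx 4 J⌋₊ (2 ^ s l)
  · apply hP (fun l => 2 ^ s l)
    · intro l
      refine ⟨Nat.one_le_two_pow, ?_, min_le_right _ _⟩
      have h1 : 2 ^ s l / 2 ≤ max (⌈zx J⌉₊ - 1) (2 ^ s l / 2) := le_max_right _ _
      omega
    · intro l
      obtain ⟨p, hp, h1, h2⟩ := h l
      rw [max_lt_iff] at h1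
      rw [le_min_iff] at h2
      have h3 : zx J ≤ p := by
        rw [← Nat.ceil_le]
        have := hp.one_le
        omega
      have h5 : (J : ℝ) ^ (341 / 1000 : ℝ) ≤ zx J :=
        Real.rpow_le_rpow_of_exponent_le hJ1 (by norm_num)
      refine h5.trans (h3.trans ?_)
      exact_mod_cast h2.2
  · rw [not_forall] at h
    obtain ⟨l, hl⟩ := h
    have h0 : ∀ j, TS (fun l => pf χ (max (⌈zx J⌉₊ - 1) (2 ^ s l / 2))
      (min ⌊hx 4 J⌋₊ (2 ^ s l))) (fun l => 2 * 2 ^ s l) (dW lam J j) = 0 := by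
      intro j
      unfold TS
      apply sum_eq_zero
      intro t _
      rw [prod_eq_zero (mem_univ l), zero_mul]
      unfold pf
      exact if_neg (fun h => hl ⟨t l, h⟩)
    have h1 : nb J (fun j => Bd < ‖TS (fun l => pf χ (max (⌈zx J⌉₊ - 1) (2 ^ s l / 2))
        (min ⌊hx 4 J⌋₊ (2 ^ s l))) (fun l => 2 * 2 ^ s l) (dW lam J j)‖) = 0 := by
      unfold nb
      rw [Nat.cast_eq_zero, card_eq_zero, filter_eq_empty_iff]
      intro j _
      rw [h0 j, norm_zero]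
      exact not_lt.2 hBd
    rw [h1]
    positivity

theorem p_CM4 : S_CM4 := by
  classical
  intro hdyb hbx4 hspc A B
  obtain ⟨E0, hE0⟩ := hbx4 (A + 5) B
  refine ⟨max E0 1, fun E hE => ?_⟩
  have hE1 : E0 ≤ E := (le_max_left _ _).trans hE
  have hE2 : 1 ≤ E := (le_max_right _ _).trans hE
  have hlog : Tendsto (fun J : ℕ => Real.log J) atTop atTop :=
    Real.tendsto_log_atTop.comp tendsto_natCast_atTop_atTop
  have hpow : ∀ᶠ J : ℕ in atTop, (Real.log J) ^ 5 ≤ (J : ℝ) ^ (8 / 100 : ℝ) := by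
    have h1 := (isLittleO_log_rpow_rpow_atTop (5 : ℝ) (show (0 : ℝ) < 8 / 100 by norm_num)).bound
      (show (0 : ℝ) < 1 by norm_num)
    filter_upwards [tendsto_natCast_atTop_atTop.eventually h1, eventually_ge_atTop 1,
      hlog.eventually_ge_atTop 1] with J hJ hJ1 hL
    have hJ0 : (0 : ℝ) ≤ J := Nat.cast_nonneg J
    rw [one_mul, Real.norm_of_nonneg (by positivity), Real.norm_of_nonneg (by positivity)] at hJ
    rw [← Real.rpow_natCast (Real.log J) 5]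
    exact_mod_cast hJ
  filter_upwards [hE0 E hE1, hpow, eventually_ge_atTop 1,
    hlog.eventually_ge_atTop 20, hlog.eventually_ge_atTop (6 ^ 4 : ℝ)]
    with J hJ hJp hJ1 hL20 hLk r χ hr hrB hχ
  have hL0 : 0 < Real.log J := by linarith only [hL20]
  have hJ0 : (0 : ℝ) < J := by exact_mod_cast hJ1
  obtain ⟨hX, hK⟩ := CM4_len hJ1 hL20
  set K := Nat.clog 2 (27 * J ^ 3) with hKdef
  set lam : ℝ := (Real.log J) ^ E with hlam
  have hlam10 : 10 ≤ lam := by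
    calc (10 : ℝ) ≤ Real.log J ^ 1 := by rw [pow_one]; linarith only [hL20]
      _ ≤ Real.log J ^ E := pow_le_pow_right₀ (by linarith only [hL20]) hE2
  obtain ⟨-, sp2, sp3⟩ := hspc J hJ1
  set Bd : ℝ := (J : ℝ) ^ 3 / (Real.log J) ^ (A + 5) with hBd
  have hBd0 : 0 ≤ Bd := by positivity
  have h3 : (((K + 1) ^ 4 : ℕ) : ℝ) ≤ Real.log J ^ 5 := by
    push_cast
    have h4 : ((K : ℝ) + 1) ^ 4 ≤ (6 * Real.log J) ^ 4 := by
      apply pow_le_pow_left₀ (by positivity)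
      push_cast at hK
      exact hK
    calc ((K : ℝ) + 1) ^ 4 ≤ (6 * Real.log J) ^ 4 := h4
      _ = 6 ^ 4 * Real.log J ^ 4 := by rw [mul_pow]
      _ ≤ Real.log J * Real.log J ^ 4 := mul_le_mul_of_nonneg_right hLk (by positivity)
      _ = Real.log J ^ 5 := by ring
  -- the pieces
  set P : (Fin 4 → ℕ) → ℕ → Prop := fun s j => Bd < ‖TS (fun l => pf χ
    (max (⌈zx J⌉₊ - 1) (2 ^ s l / 2)) (min ⌊hx 4 J⌋₊ (2 ^ s l))) (fun l => 2 * 2 ^ s l)
    (dW lam J j)‖ with hP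
  have hone : ∀ s : Fin 4 → ℕ, nb J (P s) ≤ (J : ℝ) ^ (7 / 10 : ℝ) := fun s =>
    CM4_one χ s Bd hBd0 hJ1 (fun N a b h1 h2 => hJ r χ N a b hr hrB hχ h1 h2)
  have hmain : ∀ j ∈ Ioc J (2 * J), (J : ℝ) ^ 3 / (Real.log J) ^ A <
      ‖∑ n ∈ Icc 1 (27 * J ^ 3), (Bx 4 J n : ℂ) * (χ (n : ZMod r) * dW lam J j n)‖ →
      ∃ s ∈ Fintype.piFinset (fun _ : Fin 4 => range (K + 1)), P s j := by
    intro j hj hbad
    by_contra hno
    push Not at hno
    refine absurd hbad (not_lt.2 ?_)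
    have hdW : ∀ n, 1 ≤ n → 27 * J ^ 3 < n → dW lam J j n = 0 := by
      intro n hn hn2
      have h1 : wJ J j n = 0 := by
        by_contra hne
        have h3 := (sp2 j hj n hn hne).2
        rw [mem_Ioc] at hj
        have h4 : (j + 1) ^ 3 ≤ (3 * J) ^ 3 := Nat.pow_le_pow_left (by omega) 3
        have h5 : (3 * J) ^ 3 = 27 * J ^ 3 := by ring
        omega
      have h2 : wL lam j n = 0 := by
        by_contra hne
        have h3 := (sp3 j hj n lam hn hlam10 hne).2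
        omega
      unfold dW
      rw [h1, h2]
      simp
    set w : ℕ → ℂ := fun n => if n ≤ 27 * J ^ 3 then χ (n : ZMod r) * dW lam J j n else 0 with hw
    have hw1 : ∀ n, 1 ≤ n → w n = χ (n : ZMod r) * dW lam J j n := by
      intro n hn
      simp only [hw]
      split_ifs with h
      · rfl
      · rw [hdW n hn (by omega), mul_zero]
    have e1 : ∑ n ∈ Icc 1 (27 * J ^ 3), (Bx 4 J n : ℂ) *
        (χ (n : ZMod r) * dW lam J j n) =
        ∑ n ∈ Icc 1 (27 * J ^ 3), (bx 4 (fun _ => zx J) (fun _ => hx 4 J) n : ℂ) * w n := by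
      apply sum_congr rfl
      intro n hn
      rw [hw1 n (mem_Icc.1 hn).1]
      rfl
    rw [e1, hdyb 4 (27 * J ^ 3) K (fun _ => zx J) (fun _ => hx 4 J) w hX (by
      intro n hn
      simp only [hw]
      rw [if_neg (by omega)])]
    refine (norm_sum_le _ _).trans ?_
    have e2 : ∀ s ∈ Fintype.piFinset (fun _ : Fin 4 => range (K + 1)),
        ‖TS (fun (l : Fin 4) n => if n.Prime ∧ max (⌈zx J⌉₊ - 1) (2 ^ s l / 2) < n ∧
          n ≤ min ⌊hx 4 J⌋₊ (2 ^ s l) then (1 : ℂ) else 0) (fun l => 2 * 2 ^ s l) w‖ ≤ Bd := by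
      intro s hs
      have h1 := CM4_TS χ (fun l => max (⌈zx J⌉₊ - 1) (2 ^ s l / 2))
        (fun l => min ⌊hx 4 J⌋₊ (2 ^ s l)) (fun l => 2 * 2 ^ s l) w hw1
      have h2 := not_lt.1 (hno s hs)
      rw [← h1] at h2
      exact h2
    refine (sum_le_sum e2).trans ?_
    rw [sum_const, nsmul_eq_mul, Fintype.card_piFinset, prod_const, card_range, card_univ,
      Fintype.card_fin]
    calc (((K + 1) ^ 4 : ℕ) : ℝ) * Bd ≤ Real.log J ^ 5 * Bd :=
          mul_le_mul_of_nonneg_right h3 hBd0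
      _ = (J : ℝ) ^ 3 / (Real.log J) ^ A := by
          rw [hBd, show A + 5 = 5 + A by ring, pow_add _ 5 A, ← mul_div_assoc,
            mul_div_mul_left _ _ (pow_ne_zero _ hL0.ne')]
  calc nb J (fun j => (J : ℝ) ^ 3 / (Real.log J) ^ A <
        ‖∑ n ∈ Icc 1 (27 * J ^ 3), (Bx 4 J n : ℂ) * (χ (n : ZMod r) * dW lam J j n)‖)
      ≤ ∑ s ∈ Fintype.piFinset (fun _ : Fin 4 => range (K + 1)), nb J (P s) := by
        unfold nb
        rw [← Nat.cast_sum]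
        refine Nat.cast_le.2 (le_trans (card_le_card ?_) card_biUnion_le)
        intro j hj
        rw [mem_filter] at hj
        obtain ⟨s, hs, hPs⟩ := hmain j hj.1 hj.2
        rw [mem_biUnion]
        exact ⟨s, hs, mem_filter.2 ⟨hj.1, hPs⟩⟩
    _ ≤ ∑ s ∈ Fintype.piFinset (fun _ : Fin 4 => range (K + 1)), (J : ℝ) ^ (7 / 10 : ℝ) :=
        sum_le_sum (fun s _ => hone s)
    _ = (((K + 1) ^ 4 : ℕ) : ℝ) * (J : ℝ) ^ (7 / 10 : ℝ) := by
        rw [sum_const, nsmul_eq_mul, Fintype.card_piFinset, prod_const, card_range, card_univ,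
          Fintype.card_fin]
    _ ≤ (J : ℝ) ^ (8 / 100 : ℝ) * (J : ℝ) ^ (7 / 10 : ℝ) :=
        mul_le_mul_of_nonneg_right (h3.trans hJp) (by positivity)
    _ = (J : ℝ) ^ (78 / 100 : ℝ) := by
        rw [← Real.rpow_add hJ0]
        norm_num

end Pool.Agent.CX
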