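import Pool.Agent.Lib.MP_d610d0_nt.CX.Stm
import Pool.Agent.Lib.MP_d610d0_nt.CH.D.p_TT

set_option autoImplicit false

/-!
Piece TTx.
-/

namespace Pool.Agent.CX

open Finset Filter
open ArithmeticFunction (vonMangoldt)
open Pool.Agent.MP89da58 (tri primChars)
open Pool.Agent.CH (zJ wJ wL Rough VV Wt dsum thP EE)
open Pool.Agent.CH.D (xj kap dp Sf FL FT R_pp TT_sq TT_Sf TT_SfD TT_cardJ TT_ev)

theorem p_TTx : S_TTx := by
  intro h hpp
  show ∀ᶠ J : ℕ in atTop, _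
  unfold R_LLx at h
  filter_upwards [h, hpp, eventually_ge_atTop 1,
    TT_ev (47994 / 10000) (47995 / 10000) 4 0 (by norm_num) (by norm_num),
    TT_ev (4) (47995 / 10000) 4 0 (by norm_num) (by norm_num)] with J hJ hp hJ1 hev hev2
  intro R hR1 hR2 th hth
  have hJ0 : (0 : ℝ) < (J : ℝ) := by exact_mod_cast hJ1
  have hJ1' : (1 : ℝ) ≤ (J : ℝ) := by exact_mod_cast hJ1
  have h1 := hJ R hR1 hR2 th hth
  have h2 := TT_sq (Ioc J (2 * J)) (fun j => ∑ p ∈ primChars R, th p * Sf (FT J) J j p.2)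
    (fun j => ∑ p ∈ primChars R, th p * Sf (FL J) J j p.2)
    (fun j => ∑ p ∈ primChars R, th p * Sf (fun n => vonMangoldt n - thP n) J j p.2)
    ((R : ℝ) ^ 2 * (J : ℝ) ^ (3 / 5 : ℝ))
    (by
      intro j _
      show _ = _
      rw [← Finset.sum_sub_distrib]
      refine Finset.sum_congr rfl fun p _ => ?_
      show th p * Sf thP J j p.2 = _
      rw [TT_Sf]
      show _ = th p * Sf (fun n => vonMangoldt n) J j p.2 - _
      ring)
    (by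
      intro j hj
      refine (norm_sum_le _ _).trans ?_
      calc ∑ p ∈ primChars R, ‖th p * Sf (fun n => vonMangoldt n - thP n) J j p.2‖
          ≤ ∑ p ∈ primChars R, (J : ℝ) ^ (3 / 5 : ℝ) := by
            refine Finset.sum_le_sum fun p _ => ?_
            rw [norm_mul]
            have e1 := TT_SfD J j p.1 p.2
            have e2 := hp.1 j hj
            have e3 := hth p
            have e4 : 0 ≤ ‖Sf (fun n => vonMangoldt n - thP n) J j p.2‖ := norm_nonneg _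
            calc ‖th p‖ * ‖Sf (fun n => vonMangoldt n - thP n) J j p.2‖
                ≤ 1 * ‖Sf (fun n => vonMangoldt n - thP n) J j p.2‖ := by gcongr
              _ ≤ (J : ℝ) ^ (3 / 5 : ℝ) := by linarith
        _ = ((primChars R).card : ℝ) * (J : ℝ) ^ (3 / 5 : ℝ) := by
            rw [Finset.sum_const, nsmul_eq_mul]
        _ ≤ (R : ℝ) ^ 2 * (J : ℝ) ^ (3 / 5 : ℝ) := by
            have e5 : ((primChars R).card : ℝ) ≤ (R : ℝ) ^ 2 := by
              exact_mod_cast Pool.Agent.MP89da58.card_primChars R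
            gcongr)
  rw [TT_cardJ] at h2
  refine h2.trans ?_
  rw [pow_zero, mul_one] at hev hev2
  have e8 : (R : ℝ) ^ 2 ≤ (J : ℝ) ^ (1799 / 1000 : ℝ) := by
    have e9 : (R : ℝ) ^ 2 ≤ ((J : ℝ) ^ (8995 / 10000 : ℝ)) ^ 2 := by gcongr
    refine e9.trans (le_of_eq ?_)
    rw [← Real.rpow_natCast, ← Real.rpow_mul hJ0.le]
    norm_num
  have e12 : (J : ℝ) * ((J : ℝ) ^ (3 / 5 : ℝ)) ^ 2 = (J : ℝ) ^ (11 / 5 : ℝ) := by
    rw [← Real.rpow_natCast, ← Real.rpow_mul hJ0.le]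
    nth_rewrite 1 [← Real.rpow_one (J : ℝ)]
    rw [← Real.rpow_add hJ0]
    norm_num
  have e13 : (J : ℝ) ^ (1799 / 1000 : ℝ) * (J : ℝ) ^ (11 / 5 : ℝ) ≤ (J : ℝ) ^ (4 : ℝ) := by
    rw [← Real.rpow_add hJ0]
    exact Real.rpow_le_rpow_of_exponent_le hJ1' (by norm_num)
  have e14 : (R : ℝ) ^ 2 * (J : ℝ) ^ (11 / 5 : ℝ) ≤ (J : ℝ) ^ (4 : ℝ) := by
    refine le_trans ?_ e13
    gcongr
  have e15 : (0 : ℝ) ≤ (R : ℝ) ^ 2 := by positivity
  have e16 : 2 * ((R : ℝ) ^ 2 * (J : ℝ) ^ (47994 / 10000 : ℝ))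
      ≤ (R : ℝ) ^ 2 * ((J : ℝ) ^ (47995 / 10000 : ℝ) / 2) := by
    nlinarith
  have e17 : 2 * (J : ℝ) * ((R : ℝ) ^ 2 * (J : ℝ) ^ (3 / 5 : ℝ)) ^ 2
      ≤ (R : ℝ) ^ 2 * ((J : ℝ) ^ (47995 / 10000 : ℝ) / 2) := by
    have e11 : 2 * (J : ℝ) * ((R : ℝ) ^ 2 * (J : ℝ) ^ (3 / 5 : ℝ)) ^ 2
        = (R : ℝ) ^ 2 * (2 * ((R : ℝ) ^ 2 * ((J : ℝ) * ((J : ℝ) ^ (3 / 5 : ℝ)) ^ 2))) := by ring
    rw [e11, e12]
    refine mul_le_mul_of_nonneg_left ?_ e15
    linarith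
  linarith

end Pool.Agent.CX
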