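import Pool.Agent.Lib.MP_d610d0_nt.CX.Stm2

set_option autoImplicit false

/-!
Project CX, piece rr: pointwise properties of the switched sequence.
-/

namespace Pool.Agent.CX

open Finset Filter
open scoped ArithmeticFunction.Omega
open Pool.Agent.CH (Rough)
open Pool.Agent.CA (bx)

private theorem rr_nonneg (k J n : ℕ) : 0 ≤ Bx k J n / (k.factorial : ℝ) := by
  unfold Bx bx
  positivity

private theorem rr_rough (k J n : ℕ) (h : Bx k J n / (k.factorial : ℝ) ≠ 0) : Rough (zx J) n := by
  classical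
  have h0 : Bx k J n ≠ 0 := by
    intro h1
    rw [h1, zero_div] at h
    exact h rfl
  unfold Bx bx at h0
  rw [Nat.cast_ne_zero, Finset.card_ne_zero] at h0
  obtain ⟨q, hq⟩ := h0
  rw [Finset.mem_filter, Fintype.mem_piFinset] at hq
  obtain ⟨hq1, hq2⟩ := hq
  intro p hp hpn
  rw [← hq2] at hpn
  obtain ⟨i, -, hi⟩ := (Prime.dvd_finsetProd_iff hp.prime _).1 hpn
  have h3 := hq1 i
  rw [Finset.mem_filter] at h3
  have he : p = q i := (Nat.prime_dvd_prime_iff_eq hp h3.2.1).1 hi
  rw [he]
  exact h3.2.2.1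

private theorem rr_get (l : List ℕ) : ∏ i : Fin l.length, l.get i = l.prod :=
  Fin.prod_univ_getElem l

private theorem rr_perm (J n : ℕ) (hn : n ≠ 0) (hs : Squarefree n) (hr : Rough (zx J) n)
    (hY : ∀ m : ℕ, m.Prime → m ∣ n → (m : ℝ) ≤ hx (n.primeFactorsList.length) J) :
    1 ≤ Bx (n.primeFactorsList.length) J n / (n.primeFactorsList.length.factorial : ℝ) := by
  classical
  have hnd : n.primeFactorsList.Nodup := (Nat.squarefree_iff_nodup_primeFactorsList hn).1 hs
  rw [le_div_iff₀ (by positivity), one_mul]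
  unfold Bx bx
  rw [Nat.cast_le]
  have h1 : (Finset.univ : Finset (Equiv.Perm (Fin n.primeFactorsList.length))).card
      = (n.primeFactorsList.length).factorial := by
    rw [Finset.card_univ, Fintype.card_perm, Fintype.card_fin]
  rw [← h1]
  apply Finset.card_le_card_of_injOn (fun σ => fun i => n.primeFactorsList.get (σ i))
  · intro σ _
    rw [Finset.mem_coe, Finset.mem_filter, Fintype.mem_piFinset]
    refine ⟨fun i => ?_, ?_⟩
    · rw [Finset.mem_filter, Finset.mem_range]
      have hm : n.primeFactorsList.get (σ i) ∈ n.primeFactorsList := List.get_mem _ _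
      have hp := Nat.prime_of_mem_primeFactorsList hm
      have hd := Nat.dvd_of_mem_primeFactorsList hm
      exact ⟨Nat.lt_succ_of_le (Nat.le_of_dvd (Nat.pos_of_ne_zero hn) hd), hp, hr _ hp hd,
        hY _ hp hd⟩
    · show ∏ i, n.primeFactorsList.get (σ i) = n
      rw [Equiv.prod_comp σ (fun i => n.primeFactorsList.get i), rr_get,
        Nat.prod_primeFactorsList hn]
  · intro σ _ τ _ hst
    apply Equiv.ext
    intro i
    have h2 := congrFun hst i
    exact (List.nodup_iff_injective_get.1 hnd) h2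

private theorem rr_len (z : ℝ) (n : ℕ) (hz : 1 ≤ z) (hn : n ≠ 0) (hr : Rough z n)
    (hlt : (n : ℝ) < z ^ 9) : n.primeFactorsList.length ≤ 8 := by
  by_contra hcon
  push Not at hcon
  have h1 : z ^ (n.primeFactorsList.length) ≤ (n : ℝ) := by
    have h2 : (n : ℝ) = ∏ i : Fin n.primeFactorsList.length, ((n.primeFactorsList.get i : ℕ) : ℝ) := by
      rw [← Nat.cast_prod, rr_get, Nat.prod_primeFactorsList hn]
    have h3 : ∏ _i : Fin n.primeFactorsList.length, z
        ≤ ∏ i : Fin n.primeFactorsList.length, ((n.primeFactorsList.get i : ℕ) : ℝ) := by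
      apply Finset.prod_le_prod
      · intro i _
        linarith
      · intro i _
        have hm : n.primeFactorsList.get i ∈ n.primeFactorsList := List.get_mem _ _
        exact hr _ (Nat.prime_of_mem_primeFactorsList hm) (Nat.dvd_of_mem_primeFactorsList hm)
    rw [Finset.prod_const, Finset.card_univ, Fintype.card_fin] at h3
    rw [← h2] at h3
    exact h3
  have h4 : z ^ 9 ≤ z ^ (n.primeFactorsList.length) :=
    pow_le_pow_right₀ hz (by omega)
  linarith


/-- a prime factor and the others -/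
private theorem rr_one (z : ℝ) (n : ℕ) (hz : 1 ≤ z) (hn : n ≠ 0) (hr : Rough z n) (m : ℕ)
    (hm : m.Prime) (hmn : m ∣ n) (k : ℕ) (hk : n.primeFactorsList.length = k + 1) :
    (m : ℝ) * z ^ k ≤ n := by
  obtain ⟨e, he⟩ := hmn
  have he0 : e ≠ 0 := by
    rintro rfl
    exact hn (by rw [he, mul_zero])
  have hlen : e.primeFactorsList.length = k := by
    have h1 := Nat.perm_primeFactorsList_mul hm.ne_zero he0
    rw [← he] at h1
    have h2 := h1.length_eq
    rw [List.length_append, Nat.primeFactorsList_prime hm, hk] at h2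
    simp at h2
    omega
  have hre : Rough z e := fun p hp hpe => hr p hp (he ▸ Dvd.dvd.mul_left hpe m)
  have h1 : z ^ k ≤ (e : ℝ) := by
    have h2 : (e : ℝ) = ∏ i : Fin e.primeFactorsList.length, ((e.primeFactorsList.get i : ℕ) : ℝ) := by
      rw [← Nat.cast_prod, rr_get, Nat.prod_primeFactorsList he0]
    have h3 : ∏ _i : Fin e.primeFactorsList.length, z
        ≤ ∏ i : Fin e.primeFactorsList.length, ((e.primeFactorsList.get i : ℕ) : ℝ) := by
      apply Finset.prod_le_prod
      · intro i _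
        linarith
      · intro i _
        have hm : e.primeFactorsList.get i ∈ e.primeFactorsList := List.get_mem _ _
        exact hre _ (Nat.prime_of_mem_primeFactorsList hm) (Nat.dvd_of_mem_primeFactorsList hm)
    rw [Finset.prod_const, Finset.card_univ, Fintype.card_fin] at h3
    rw [← h2, hlen] at h3
    exact h3
  rw [he, Nat.cast_mul]
  exact mul_le_mul_of_nonneg_left h1 (Nat.cast_nonneg m)

theorem p_rrx : S_rrx := by
  have ev : ∀ a : ℝ, 0 < a → ∀ᶠ J : ℕ in atTop, (27 : ℝ) < (J : ℝ) ^ a := fun a ha =>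
    ((tendsto_rpow_atTop ha).comp tendsto_natCast_atTop_atTop).eventually_gt_atTop 27
  filter_upwards [eventually_ge_atTop 1, ev (18 / 1000) (by norm_num)] with J hJ hJ27 n hn
  have hn0 : n ≠ 0 := by omega
  have hJ1 : (1 : ℝ) ≤ J := by exact_mod_cast hJ
  have hJ0 : (0 : ℝ) < J := by linarith
  have hz1 : 1 ≤ zx J := Real.one_le_rpow hJ1 (by norm_num)
  have hzp : ∀ k : ℕ, zx J ^ k = (J : ℝ) ^ ((171 / 500 : ℝ) * k) := by
    intro k
    unfold zx
    rw [Real.rpow_mul hJ0.le, Real.rpow_natCast]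
  have hJ3 : (J : ℝ) ^ 3 = (J : ℝ) ^ (3 : ℝ) := by
    rw [← Real.rpow_natCast]
    norm_num
  refine ⟨?_, ?_, ?_⟩
  · exact Finset.sum_nonneg (fun k _ => rr_nonneg k J n)
  · intro h
    obtain ⟨k, -, hk⟩ := Finset.exists_ne_zero_of_sum_ne_zero h
    exact rr_rough k J n hk
  · intro hs hr hle ho
    rw [ArithmeticFunction.cardFactors_apply] at ho
    have hle' : (n : ℝ) ≤ 27 * (J : ℝ) ^ 3 := by exact_mod_cast hle
    have hz2 : 27 * (J : ℝ) ^ 3 < (zx J) ^ 9 := by
      rw [hzp, hJ3]
      calc 27 * (J : ℝ) ^ (3 : ℝ) < (J : ℝ) ^ (18 / 1000 : ℝ) * (J : ℝ) ^ (3 : ℝ) :=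
            mul_lt_mul_of_pos_right hJ27 (by positivity)
        _ = (J : ℝ) ^ (3018 / 1000 : ℝ) := by
            rw [← Real.rpow_add hJ0]
            norm_num
        _ ≤ _ := Real.rpow_le_rpow_of_exponent_le hJ1 (by norm_num)
    have h7 := rr_len (zx J) n hz1 hn0 hr (lt_of_le_of_lt hle' hz2)
    have hY : ∀ m : ℕ, m.Prime → m ∣ n → (m : ℝ) ≤ hx (n.primeFactorsList.length) J := by
      intro m hm hmn
      obtain ⟨k, hk⟩ : ∃ k, n.primeFactorsList.length = k + 1 := ⟨n.primeFactorsList.length - 1, by omega⟩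
      have h1 := rr_one (zx J) n hz1 hn0 hr m hm hmn k hk
      rw [hk]
      have h2 : (m : ℝ) * zx J ^ k ≤ (J : ℝ) ^ (3018 / 1000 : ℝ) := by
        refine (h1.trans hle').trans ?_
        rw [hJ3]
        calc 27 * (J : ℝ) ^ (3 : ℝ) ≤ (J : ℝ) ^ (18 / 1000 : ℝ) * (J : ℝ) ^ (3 : ℝ) :=
              mul_le_mul_of_nonneg_right hJ27.le (by positivity)
          _ = (J : ℝ) ^ (3018 / 1000 : ℝ) := by
              rw [← Real.rpow_add hJ0]
              norm_num
      have hzk : 0 < zx J ^ k := by positivity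
      have h3 : (m : ℝ) ≤ (J : ℝ) ^ (3018 / 1000 - (171 / 500 : ℝ) * k) := by
        rw [Real.rpow_sub hJ0, ← hzp, le_div_iff₀ hzk]
        exact h2
      refine h3.trans ?_
      unfold hx
      by_cases h4 : k + 1 = 4
      · rw [if_pos h4]
        have hk3 : k = 3 := by omega
        subst hk3
        exact Real.rpow_le_rpow_of_exponent_le hJ1 (by norm_num)
      · rw [if_neg h4]
        apply Real.rpow_le_rpow_of_exponent_le hJ1
        have hk4 : (4 : ℝ) ≤ k := by
          have : 4 ≤ k := by omega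
          exact_mod_cast this
        linarith
    have h1 := rr_perm J n hn0 hs hr hY
    refine h1.trans ?_
    exact Finset.single_le_sum (f := fun k => Bx k J n / (k.factorial : ℝ))
      (fun k _ => rr_nonneg k J n) (Finset.mem_Icc.2 ⟨ho, h7⟩)

end Pool.Agent.CX
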